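import Pool.Agent.Helper21.AW.Stm

/-!
# The exact formula, corrected (helper58): the weight is `q^(2k) c`, the power of `c` is `(p-N)/2`
-/

set_option autoImplicit false

namespace Pool.Agent.Helper21.AW

open Pool.Agent.H863R2.Cyl Pool.Agent.H160R2.ML Pool.Agent.Helper21.EV
open Pool.Agent.H988R2.Perc (Word PD)

/-- **the exact formula** (generic parameters) -/
def W_TA2 : Prop := ∀ (q : ℂ) (k : ℕ) (e : ℂ → ℕ → ℕ → Word → Word → ℂ) (Ψ Ψ' : List ℂ → VW),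
  DatW q k e Ψ Ψ' → ∀ p r N : ℕ, p + r = 2 * k → Even (p + N) →
  ∃ κ : ℂ, ‖κ‖ ^ 4 * 3 ^ (2 * k) = 1 ∧ ∀ c : ℂ, c ≠ 0 → ∀ (A B : List ℂ) (z : Fin N → ℂ),
    A.length = p → B.length = r → Gn (A ++ B ++ List.ofFn z) →
    GG (e c) Ψ' Ψ A B (List.ofFn z) * vd z =
      c ^ ((p + N) / 2) * (c⁻¹) ^ N * (κ * pfq q A * pfq (q ^ 2) B *
        (wd q z * (∏ i, z i) * T q (q ^ (2 * k) * c) (A ++ B) z))

/-- the same for arbitrary legs -/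
def W_TB2 : Prop := ∀ (q : ℂ) (k : ℕ) (e : ℂ → ℕ → ℕ → Word → Word → ℂ) (Ψ Ψ' : List ℂ → VW),
  DatW q k e Ψ Ψ' → ∀ p r N : ℕ, p + r = 2 * k → Even (p + N) →
  ∃ κ : ℂ, ‖κ‖ ^ 4 * 3 ^ (2 * k) = 1 ∧ ∀ c : ℂ, c ≠ 0 → ∀ (A B : List ℂ) (z : Fin N → ℂ),
    A.length = p → B.length = r → Gn (List.ofFn z) →
    GG (e c) Ψ' Ψ A B (List.ofFn z) * vd z =
      c ^ ((p + N) / 2) * (c⁻¹) ^ N * (κ * pfq q A * pfq (q ^ 2) B *
        (wd q z * (∏ i, z i) * T q (q ^ (2 * k) * c) (A ++ B) z))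

end Pool.Agent.Helper21.AW
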