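import Pool.Agent.Helper21.AW.Stm

/-!
# BASE: no through strand
-/

set_option autoImplicit false

namespace Pool.Agent.Helper21.AW

open Pool.Agent.H863R2.Cyl Pool.Agent.H160R2.ML Pool.Agent.Helper21.EV
open Pool.Agent.H988R2.Perc (Word PD)

namespace Base
open Pool.Agent.H160R2.ML.Tbase

/-- the normalised label -/
def lam (h g : ℕ) (z : (ℤ × Bool) × ℤ) : ℤ :=
  if h = 0 then (if z.1.2 = true ∧ dl g z.1.1 = 0 then z.2 - (if 1 ≤ ix g z.1.1 then 1 else 0)
    else z.2)
  else (if z.1.2 = false ∧ dl h z.1.1 = 0 then z.2 + (if 1 ≤ ix h z.1.1 then 1 else 0) else z.2)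

theorem lg_of {p r : ℕ} {w' w : Word} {x y : (ℤ × Bool) × ℤ} (h : LgW p r w' w x y) :
    Lg p r w' w x.1 y.1 := by
  cases h with
  | low a b x hR => exact Lg.low a b hR
  | upp a b x hR => exact Lg.upp a b hR
  | glue s x i hi => exact Lg.glue s i hi

theorem lam_LgW {h g : ℕ} (hg : 1 ≤ h + g) {x y : (ℤ × Bool) × ℤ}
    (hL : LgW (h + h) (g + g) (bw (g + g)) (bw (h + h)) x y) : lam h g x = lam h g y := by
  cases hL with
  | low a b x hR =>
    obtain ⟨h1, h2⟩ := inv_Rw hR
    unfold lam
    by_cases h0 : h = 0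
    · simp [h0]
    · simp only [h0, if_false, true_and]
      rw [h1] at h2 ⊢
      by_cases hd : dl h b = 0
      · rcases h2 with h2 | h2
        · omega
        · rw [h2]
      · simp [hd]
  | upp a b x hR =>
    obtain ⟨h1, h2⟩ := inv_Rw hR
    unfold lam
    by_cases h0 : h = 0
    · simp only [h0, if_true, true_and]
      rw [h1] at h2 ⊢
      by_cases hd : dl g b = 0
      · rcases h2 with h2 | h2
        · omega
        · rw [h2]
      · simp [hd]
    · simp [h0]
  | glue s x i hi =>
    rw [bw_len] at hi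
    have hi0 : i = 0 := by omega
    subst hi0
    unfold lam
    simp only [bw_len]
    push_cast
    rw [add_zero, add_zero, dl_pk, dl_pk]
    by_cases h0 : h = 0
    · have hg0 : 0 < g := by omega
      subst h0
      simp only [if_true, false_and, if_false, and_self]
      rw [ix_pk hg0]
      split_ifs <;> omega
    · simp only [h0, if_false, false_and, and_self, if_true]
      rw [ix_pk (by omega)]
      split_ifs <;> omega

theorem inv_CnW {h g : ℕ} (hg : 1 ≤ h + g) {x y : (ℤ × Bool) × ℤ}
    (hC : CnW (h + h) (g + g) (bw (g + g)) (bw (h + h)) x y) :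
    lam h g x = lam h g y ∧ phi h g x.1 = phi h g y.1 := by
  induction hC with
  | rel x y hxy => exact ⟨lam_LgW hg hxy, phi_Lg (lg_of hxy)⟩
  | refl x => exact ⟨rfl, rfl⟩
  | symm x y _ ih => exact ⟨ih.1.symm, ih.2.symm⟩
  | trans x y z _ _ ih1 ih2 => exact ⟨ih1.1.trans ih2.1, ih1.2.trans ih2.2⟩

/-- low positions shifted by one period -/
theorem sh {h : ℕ} (hh : 0 < h) {y : ℤ} (h0 : 0 ≤ y) (h1 : y ≤ h + h) :
    (y < h → dl h (h + h + y) = y ∧ ix h (h + h + y) = 1) ∧
    ((h : ℤ) ≤ y → dl h (h + h + y) = h + h - y ∧ ix h (h + h + y) = 2) := by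
  constructor
  · intro h2
    have e : (h : ℤ) + h + y = 1 * ((h : ℤ) + h) + y := by ring
    rw [e, dl_eq hh 1 y (by omega) (by omega), ix_eq hh 1 y (by omega) h2, abs_of_nonneg h0]
    exact ⟨rfl, rfl⟩
  · intro h2
    have e : (h : ℤ) + h + y = 2 * ((h : ℤ) + h) + (y - (h + h)) := by ring
    rw [e, dl_eq hh 2 _ (by omega) (by omega), ix_eq hh 2 _ (by omega) (by omega),
      abs_of_nonpos (by omega)]
    exact ⟨by ring, rfl⟩

/-- the sectors which lead to the right -/
theorem range {h g : ℕ} (hg : 1 ≤ h + g) (m : ℤ) (d : ℕ) (hd : d < h + h + (g + g))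
    (hC : CnW (h + h) (g + g) (bw (g + g)) (bw (h + h)) (lf (h + h) (g + g) m)
      (tg (h + h) (g + g) (bw (g + g)) (bw (h + h)) d)) : (h : ℤ) ≤ m ∧ m ≤ h + (h + g) := by
  obtain ⟨hl, hp⟩ := inv_CnW hg hC
  have hP : (0 : ℤ) < ((h + h + (g + g) : ℕ) : ℤ) := by exact_mod_cast (by omega : 0 < h + h + (g + g))
  have hm := Int.mul_ediv_add_emod m ((h + h + (g + g) : ℕ) : ℤ)
  have hc0 := Int.emod_nonneg m hP.ne'
  have hc1 := Int.emod_lt_of_pos m hP
  unfold lf at hl hp
  unfold tg at hl hp
  generalize hcc : m % ((h + h + (g + g) : ℕ) : ℤ) = c at *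
  generalize hxx : m / ((h + h + (g + g) : ℕ) : ℤ) = x at *
  push_cast at *
  have mx : x = 0 → m = c := by
    intro hx
    rw [hx] at hm
    linarith
  rcases lt_or_ge ((h : ℤ) + h) c with h1 | h1
  · -- upper sector
    rw [if_neg (by omega)] at hl hp
    have hg0 : 0 < g := by omega
    obtain ⟨y, hy⟩ : ∃ y : ℤ, y = (h : ℤ) + h + (g + g) - c := ⟨_, rfl⟩
    rw [← hy] at hl hp
    have hyy : dl g y ≠ 0 := by
      rcases lt_or_ge y g with g1 | g1
      · rw [(lowA (h := g) (by omega) g1).1]; omega
      · rw [(lowB (h := g) hg0 g1 (by omega)).1]; omega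
    rcases Nat.lt_or_ge (h + h) d with h2 | h2
    · rw [pt_upp 1 h2, if_neg (by omega)] at hl
      rw [pt_upp 1 h2] at hp
      obtain ⟨z, hz⟩ : ∃ z : ℤ, z = (h : ℤ) + h + (g + g) - d := ⟨_, rfl⟩
      rw [← hz] at hl hp
      have ez : (1 : ℤ) * ((g : ℤ) + g) + z = g + g + z := by ring
      rw [ez] at hl hp
      have hs := sh hg0 (y := z) (by omega) (by omega)
      have hzz : dl g (g + g + z) ≠ 0 := by
        rcases lt_or_ge z g with g1 | g1
        · rw [(hs.1 g1).1]; omega
        · rw [(hs.2 g1).1]; omega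
      have hx : x = 0 := by
        unfold lam at hl
        by_cases h0 : h = 0
        · simp only [h0, if_true, hyy, hzz, and_false, if_false] at hl
          omega
        · simp only [h0, if_false, Bool.true_eq_false, false_and] at hl
          omega
      have hmc := mx hx
      rcases lt_or_ge y g with g1 | g1
      · exfalso
        obtain ⟨a1, a2⟩ := lowA (h := g) (c := y) (by omega) g1
        unfold phi at hp
        simp only [if_true, Prod.mk.injEq] at hp
        obtain ⟨p1, p2, -⟩ := hp
        rw [a1, a2, ← p2, a1, if_neg (by omega), if_neg (by omega)] at p1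
        rcases lt_or_ge z g with g2 | g2
        · rw [(hs.1 g2).2] at p1; omega
        · rw [(hs.2 g2).2] at p1; omega
      · omega
    · exfalso
      rw [pt_low 1 h2] at hp
      unfold phi at hp
      simp only [Prod.mk.injEq, Bool.false_and, Bool.true_and] at hp
      obtain ⟨-, -, hp3⟩ := hp
      simp only [if_true, decide_eq_false_iff_not, not_not] at hp3
      exact hyy hp3
  · -- lower sector
    rw [if_pos h1] at hl hp
    rcases Nat.lt_or_ge (h + h) d with h2 | h2
    · exfalso
      rw [pt_upp 1 h2] at hp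
      have hg0 : 0 < g := by omega
      obtain ⟨z, hz⟩ : ∃ z : ℤ, z = (h : ℤ) + h + (g + g) - d := ⟨_, rfl⟩
      rw [← hz] at hp
      have ez : (1 : ℤ) * ((g : ℤ) + g) + z = g + g + z := by ring
      rw [ez] at hp
      have hs := sh hg0 (y := z) (by omega) (by omega)
      have hzz : dl g (g + g + z) ≠ 0 := by
        rcases lt_or_ge z g with g1 | g1
        · rw [(hs.1 g1).1]; omega
        · rw [(hs.2 g1).1]; omega
      unfold phi at hp
      simp only [Prod.mk.injEq, Bool.false_and, Bool.true_and] at hp
      obtain ⟨-, -, hp3⟩ := hp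
      simp only [if_true] at hp3
      exact hzz (by simpa using hp3.symm)
    · rw [pt_low 1 h2, if_pos h2] at hl
      rw [pt_low 1 h2] at hp
      have ez : (1 : ℤ) * ((h : ℤ) + h) + d = h + h + d := by ring
      rw [ez] at hl hp
      rcases Nat.eq_zero_or_pos h with h0 | hh
      · subst h0
        have hc : c = 0 := by push_cast at h1; omega
        unfold lam at hl
        simp only [if_true, Bool.false_eq_true, false_and, if_false] at hl
        have hmc := mx hl
        push_cast at *
        omega
      · have hs := sh hh (y := d) (by omega) (by exact_mod_cast h2)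
        have hh0 : h ≠ 0 := by omega
        unfold lam at hl
        simp only [hh0, if_false, true_and] at hl
        unfold phi at hp
        simp only [Bool.false_eq_true, if_false, Prod.mk.injEq] at hp
        obtain ⟨p1, p2, -⟩ := hp
        rcases lt_or_ge c h with g1 | g1
        · obtain ⟨a1, a2⟩ := lowA (h := h) (c := c) hc0 g1
          by_cases hc : c = 0
          · subst hc
            rw [a1, ← p2, a1, a2] at hl
            rw [if_pos rfl, if_pos rfl, if_neg (by omega)] at hl
            have hx1 : x = 1 := by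
              rcases lt_or_ge (d : ℤ) h with g2 | g2
              · rw [(hs.1 g2).2] at hl; simpa using hl
              · rw [(hs.2 g2).2] at hl; simpa using hl
            rw [a1, a2, ← p2, a1] at p1
            by_cases hg0 : g = 0
            · subst hg0
              rw [hx1] at hm
              push_cast at *
              omega
            · exfalso
              rw [if_neg (by omega), if_neg (by omega)] at p1
              rcases lt_or_ge (d : ℤ) h with g2 | g2
              · rw [(hs.1 g2).2] at p1; omega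
              · rw [(hs.2 g2).2] at p1; omega
          · exfalso
            rw [a1, a2, ← p2, a1, if_neg (by omega), if_neg (by omega)] at p1
            rcases lt_or_ge (d : ℤ) h with g2 | g2
            · rw [(hs.1 g2).2] at p1; omega
            · rw [(hs.2 g2).2] at p1; omega
        · obtain ⟨a1, a2⟩ := lowB (h := h) (c := c) hh g1 h1
          have hx : x = 0 := by
            rw [← p2, a1, a2] at hl
            by_cases hd0 : (h : ℤ) + h - c = 0
            · rw [if_pos hd0, if_pos hd0, if_pos le_rfl] at hl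
              rcases lt_or_ge (d : ℤ) h with g2 | g2
              · rw [(hs.1 g2).2] at hl
                simp at hl
                omega
              · rw [(hs.2 g2).2] at hl
                simp at hl
                omega
            · rw [if_neg hd0, if_neg hd0] at hl
              exact hl
          have hmc := mx hx
          omega

theorem lf_low {p r : ℕ} (i : ℤ) (h0 : 0 ≤ i) (h1 : i ≤ p) (h2 : i < (p + r : ℕ)) :
    lf p r i = ((i, false), 0) := by
  unfold lf
  rw [Int.emod_eq_of_lt h0 h2, Int.ediv_eq_zero_of_lt h0 h2, if_pos h1]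

theorem lf_upp {p r : ℕ} (i : ℤ) (h1 : (p : ℤ) < i) (h2 : i < (p + r : ℕ)) :
    lf p r i = (((p + r : ℕ) - i, true), 1) := by
  unfold lf
  rw [Int.emod_eq_of_lt (by omega) h2, Int.ediv_eq_zero_of_lt (by omega) h2, if_neg (by omega),
    zero_add]

theorem lift_Rw_low {p r : ℕ} {w' w : Word} {a b : ℤ} (h : Rw w a b) (x : ℤ) :
    CnW p r w' w ((a, false), x) ((b, false), x) :=
  Relation.EqvGen.rel _ _ (LgW.low a b x h)

theorem lift_Rw_upp {p r : ℕ} {w' w : Word} {a b : ℤ} (h : Rw w' a b) (x : ℤ) :
    CnW p r w' w ((a, true), x) ((b, true), x) :=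
  Relation.EqvGen.rel _ _ (LgW.upp a b x h)

theorem exists_right {h g : ℕ} (hg : 1 ≤ h + g) (i : ℕ) (hi : i ≤ h + g) :
    ∃ d : ℕ, d < h + h + (g + g) ∧
      CnW (h + h) (g + g) (bw (g + g)) (bw (h + h)) (lf (h + h) (g + g) ((h : ℤ) + i))
        (tg (h + h) (g + g) (bw (g + g)) (bw (h + h)) d) := by
  rcases Nat.lt_or_ge h i with h1 | h1
  · -- upper
    have hg0 : 0 < g := by omega
    refine ⟨h + h + (g + g) - (i - h), by omega, ?_⟩
    rw [lf_upp _ (by push_cast; omega) (by push_cast; omega)]
    unfold tg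
    rw [pt_upp 1 (by omega), if_neg (by omega)]
    obtain ⟨z, hz⟩ : ∃ z : ℕ, i = z + h := ⟨i - h, by omega⟩
    subst hz
    have e1 : (((h + h + (g + g) : ℕ) : ℤ) - ((h : ℤ) + ((z + h : ℕ) : ℤ))) =
        1 * ((g : ℤ) + g) - z := by push_cast; ring
    have e2 : (1 : ℤ) * ((g : ℤ) + g) + (((h : ℤ) + h) + (g + g) -
        ((h + h + (g + g) - (z + h - h) : ℕ) : ℤ)) = 1 * ((g : ℤ) + g) + z := by
      rw [Nat.add_sub_cancel, Nat.cast_sub (by omega)]
      push_cast
      ring
    rw [e1, e2]
    exact lift_Rw_upp (conn hg0 1 (z : ℤ) (by omega) (by omega)) 1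
  · rcases Nat.eq_zero_or_pos h with h0 | hh
    · subst h0
      have hi0 : i = 0 := by omega
      subst hi0
      refine ⟨0, by omega, ?_⟩
      rw [lf_low _ (by simp) (by simp) (by push_cast; omega)]
      unfold tg
      rw [pt_low 1 (by omega), if_pos (by omega)]
      simp only [Nat.cast_zero, add_zero, mul_zero]
      exact Relation.EqvGen.refl _
    · by_cases hlast : g = 0 ∧ i = h
      · obtain ⟨hg0, hih⟩ := hlast
        subst hg0
        subst hih
        refine ⟨0, by omega, ?_⟩
        have e0 : lf (i + i) (0 + 0) ((i : ℤ) + i) = ((0, false), 1) := by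
          unfold lf
          have e : ((i + i + (0 + 0) : ℕ) : ℤ) = (i : ℤ) + i := by push_cast; ring
          rw [e, Int.emod_self, Int.ediv_self (by omega), if_pos (by positivity)]
        rw [e0]
        unfold tg
        rw [pt_low 1 (by omega), if_pos (by omega)]
        have g1 := LgW.glue (p := i + i) (r := 0 + 0) (w' := bw (0 + 0)) (w := bw (i + i)) (-1) 1 0
          (by rw [bw_len]; omega)
        have g2 := LgW.glue (p := i + i) (r := 0 + 0) (w' := bw (0 + 0)) (w := bw (i + i)) 0 0 0
          (by rw [bw_len]; omega)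
        rw [bw_len, bw_len] at g1 g2
        rw [if_neg (by omega)] at g1
        rw [if_pos le_rfl] at g2
        push_cast at g1 g2 ⊢
        have a2 : (0 : ℤ) * ((i : ℤ) + i) + (i + i) + 0 = 1 * ((i : ℤ) + i) + 0 := by ring
        rw [a2] at g2
        simp only [add_zero, neg_mul, one_mul, neg_add_cancel] at g1 g2 ⊢
        exact Relation.EqvGen.trans _ _ _ (Relation.EqvGen.rel _ _ g1)
          (Relation.EqvGen.symm _ _ (Relation.EqvGen.rel _ _ g2))
      · refine ⟨h - i, by omega, ?_⟩
        rw [lf_low _ (by omega) (by push_cast; omega) (by push_cast; omega)]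
        unfold tg
        rw [pt_low 1 (by omega), if_pos (by omega)]
        obtain ⟨z, hz⟩ : ∃ z : ℕ, h = z + i := ⟨h - i, by omega⟩
        have e1 : (h : ℤ) + i = 1 * ((h : ℤ) + h) - z := by
          have : (h : ℤ) = z + i := by exact_mod_cast hz
          linarith
        have e2 : h - i = z := by omega
        rw [e1, e2]
        exact lift_Rw_low (conn hh 1 (z : ℤ) (by omega) (by omega)) 0

end Base

open Base in
theorem t_BASE : W_base := by
  intro k p r hk hpr hp hr j
  obtain ⟨h, rfl⟩ := hp
  obtain ⟨g, rfl⟩ := hr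
  have hg : 1 ≤ h + g := by omega
  constructor
  · rintro ⟨-, hI⟩
    obtain ⟨d0, hd0, c0⟩ := hI 0 (by omega)
    obtain ⟨d1, hd1, c1⟩ := hI (h + g) (by omega)
    have r0 := (range hg _ d0 hd0 c0).1
    have r1 := (range hg _ d1 hd1 c1).2
    push_cast at r0 r1 ⊢
    omega
  · intro hj
    have hj' : j = h := by push_cast at hj; omega
    subst hj'
    refine ⟨?_, fun i hi => exists_right hg i (by omega)⟩
    have hb := t_base (h + h) (g + g) (by omega) ⟨h, rfl⟩ ⟨g, rfl⟩
    unfold ee at hb
    by_contra hcon
    rw [if_neg hcon] at hb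
    exact zero_ne_one hb

end Pool.Agent.Helper21.AW
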