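import Pool.Agent.Helper21.AW.Stm
import Pool.Agent.Helper92.WN.CLTa

/-!
# AW: the central limit theorem (package CLT)
-/

set_option autoImplicit false

open MeasureTheory ProbabilityTheory Filter Topology Finset

namespace Pool.Agent.Helper21.AW.CLT

open Pool.Agent.Helper92.WN (prod_bounds)

/-! ## laws on finite sets -/

/-- the law -/
noncomputable def lw (S : Finset ℤ) (p : ℤ → ℝ) (f : ℤ → ℝ) : Measure ℝ :=
  ∑ h ∈ S, ENNReal.ofReal (p h) • Measure.dirac (f h)

theorem lw_prob (S : Finset ℤ) (p f : ℤ → ℝ) (hp : ∀ h, 0 ≤ p h) (h1 : ∑ h ∈ S, p h = 1) :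
    IsProbabilityMeasure (lw S p f) := by
  constructor
  unfold lw
  rw [Measure.finsetSum_apply]
  simp only [Measure.smul_apply, measure_univ, smul_eq_mul, mul_one]
  rw [← ENNReal.ofReal_sum_of_nonneg (fun h _ => hp h), h1, ENNReal.ofReal_one]

theorem lw_charFun (S : Finset ℤ) (p f : ℤ → ℝ) (hp : ∀ h, 0 ≤ p h) (t : ℝ) :
    charFun (lw S p f) t = ∑ h ∈ S, (p h : ℂ) *
      Complex.exp (((t * f h : ℝ) : ℂ) * Complex.I) := by
  rw [charFun_apply_real]
  unfold lw
  have hint : ∀ h ∈ S, Integrable (fun x : ℝ => Complex.exp (t * x * Complex.I))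
      (ENNReal.ofReal (p h) • Measure.dirac (f h)) := by
    intro h _
    refine Integrable.smul_measure ?_ ENNReal.ofReal_ne_top
    refine (integrable_const (1 : ℝ)).mono' (by fun_prop) (ae_of_all _ fun x => ?_)
    have : (t : ℂ) * x * Complex.I = ((t * x : ℝ) : ℂ) * Complex.I := by push_cast; ring
    rw [this, Complex.norm_exp_ofReal_mul_I]
  rw [integral_finsetSum_measure hint]
  refine Finset.sum_congr rfl fun h _ => ?_
  rw [integral_smul_measure, integral_dirac, ENNReal.toReal_ofReal (hp h), Complex.real_smul]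
  push_cast
  rfl

theorem lw_real (S : Finset ℤ) (p f : ℤ → ℝ) (hp : ∀ h, 0 ≤ p h) (x : ℝ) :
    (lw S p f).real (Set.Iic x) = ∑ h ∈ S, if f h ≤ x then p h else 0 := by
  unfold lw Measure.real
  rw [Measure.finsetSum_apply, ENNReal.toReal_sum]
  · refine Finset.sum_congr rfl fun h _ => ?_
    rw [Measure.smul_apply, Measure.dirac_apply' _ measurableSet_Iic, smul_eq_mul]
    by_cases hh : f h ≤ x
    · rw [if_pos hh, Set.indicator_of_mem (by rw [Set.mem_Iic]; exact hh)]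
      simp [hp h]
    · rw [if_neg hh, Set.indicator_of_notMem (by rw [Set.mem_Iic]; exact hh)]
      simp
  · intro h _
    rw [Measure.smul_apply, smul_eq_mul]
    exact ENNReal.mul_ne_top ENNReal.ofReal_ne_top (measure_lt_top _ _).ne

theorem clt_gen (S : ℕ → Finset ℤ) (P f : ℕ → ℤ → ℝ) (hP : ∀ n h, 0 ≤ P n h)
    (h1 : ∀ n : ℕ, ∑ h ∈ S n, P n h = 1)
    (hchar : ∀ t : ℝ, Tendsto (fun n : ℕ => ∑ h ∈ S n, (P n h : ℂ) *
      Complex.exp (((t * f n h : ℝ) : ℂ) * Complex.I)) atTop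
      (𝓝 (Complex.exp (((-(t ^ 2) / 2 : ℝ) : ℂ))))) (x : ℝ) :
    Tendsto (fun n : ℕ => ∑ h ∈ S n, if f n h ≤ x then P n h else 0) atTop
      (𝓝 ((gaussianReal 0 1).real (Set.Iic x))) := by
  let μ : ℕ → ProbabilityMeasure ℝ := fun n =>
    ⟨lw (S n) (P n) (f n), lw_prob (S n) (P n) (f n) (hP n) (h1 n)⟩
  let μ0 : ProbabilityMeasure ℝ := ⟨gaussianReal 0 1, inferInstance⟩
  have hlim : Tendsto μ atTop (𝓝 μ0) := by
    apply ProbabilityMeasure.tendsto_of_tendsto_charFun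
    intro t
    have e1 : ∀ n, charFun ((μ n : ProbabilityMeasure ℝ) : Measure ℝ) t =
        ∑ h ∈ S n, (P n h : ℂ) * Complex.exp (((t * f n h : ℝ) : ℂ) * Complex.I) :=
      fun n => lw_charFun (S n) (P n) (f n) (hP n) t
    have e2 : charFun ((μ0 : ProbabilityMeasure ℝ) : Measure ℝ) t =
        Complex.exp (((-(t ^ 2) / 2 : ℝ) : ℂ)) := by
      change charFun (gaussianReal 0 1) t = _
      rw [charFun_gaussianReal]
      congr 1
      push_cast
      ring
    rw [e2]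
    simp only [e1]
    exact hchar t
  have hfr : (μ0 : Measure ℝ) (frontier (Set.Iic x)) = 0 := by
    rw [frontier_Iic]
    change gaussianReal 0 1 {x} = 0
    have hns := nullSingletonClass_gaussianReal (μ := 0) (v := 1) one_ne_zero
    exact measure_singleton x
  have h2 := ProbabilityMeasure.tendsto_measure_of_null_frontier_of_tendsto' hlim hfr
  have h3 : Tendsto (fun n => ((μ n : Measure ℝ) (Set.Iic x)).toReal) atTop
      (𝓝 (((μ0 : Measure ℝ) (Set.Iic x)).toReal)) :=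
    (ENNReal.tendsto_toReal (measure_ne_top _ _)).comp h2
  exact h3.congr fun n => lw_real (S n) (P n) (f n) (hP n) x

/-! ## the product -/

/-- the exponent -/
theorem exponent (s : ℝ) (A ℓ : ℕ → ℝ) (C : ℝ) (hℓt : Tendsto ℓ atTop atTop)
    (hA : ∀ n : ℕ, |A n / 2 - 3 / (2 * Real.pi ^ 2) * ℓ n| ≤ C) :
    Tendsto (fun n : ℕ => (1 - Real.cos (s * Real.pi / Real.sqrt (3 / 2 * ℓ n))) *
      A n) atTop (𝓝 (s ^ 2)) ∧
    Tendsto (fun n : ℕ => (1 - Real.cos (s * Real.pi / Real.sqrt (3 / 2 * ℓ n))) / 2)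
      atTop (𝓝 0) := by
  have hC : 0 ≤ C := (abs_nonneg _).trans (hA 1)
  set K : ℝ := s ^ 2 * Real.pi ^ 2 * (2 / 3) with hK
  have hK0 : 0 ≤ K := by positivity
  set θ : ℕ → ℝ := fun n => s * Real.pi / Real.sqrt (3 / 2 * ℓ n) with hθ
  have hθ2 : ∀ n, 0 < ℓ n → θ n ^ 2 = K / ℓ n := by
    intro n hn
    simp only [hθ, hK]
    rw [div_pow, Real.sq_sqrt (by positivity)]
    field_simp
  have hinv : Tendsto (fun n => K / ℓ n) atTop (𝓝 0) := hℓt.const_div_atTop K
  have hpos : ∀ᶠ n in atTop, 0 < ℓ n := hℓt.eventually_gt_atTop 0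
  have hKl : ∀ᶠ n in atTop, K ≤ ℓ n := hℓt.eventually_ge_atTop K
  constructor
  · rw [tendsto_iff_norm_sub_tendsto_zero]
    have hE : Tendsto (fun n => K ^ 2 * (5 / 96) * (2 * (3 / (2 * Real.pi ^ 2))) / ℓ n + K * C / ℓ n)
        atTop (𝓝 0) := by
      have := (hℓt.const_div_atTop (K ^ 2 * (5 / 96) * (2 * (3 / (2 * Real.pi ^ 2))))).add
        (hℓt.const_div_atTop (K * C))
      simpa using this
    refine squeeze_zero' (Eventually.of_forall fun n => norm_nonneg _) ?_ hE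
    filter_upwards [hpos, hKl] with n hn hKn
    have hθn := hθ2 n hn
    have hθ1 : |θ n| ≤ 1 := by
      rw [← sq_le_one_iff_abs_le_one, hθn, div_le_one hn]; exact hKn
    have hcos := Real.cos_bound hθ1
    have hcos2 := Real.one_sub_sq_div_two_le_cos (x := θ n)
    have hcos3 := Real.cos_le_one (θ n)
    have hA1 := hA n
    set c : ℝ := 3 / (2 * Real.pi ^ 2) with hc
    have hc0 : 0 < c := by positivity
    have e4 : |θ n| ^ 4 = (K / ℓ n) ^ 2 := by
      rw [← hθn]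
      rw [show |θ n| ^ 4 = (|θ n| ^ 2) ^ 2 by ring, sq_abs]
    rw [e4] at hcos
    have e5 : s ^ 2 = θ n ^ 2 / 2 * (2 * c * ℓ n) := by
      rw [hθn, hK, hc]
      field_simp
    rw [Real.norm_eq_abs]
    change |(1 - Real.cos (θ n)) * A n - s ^ 2| ≤ _
    have e6 : (1 - Real.cos (θ n)) * A n - s ^ 2 =
        (1 - Real.cos (θ n) - θ n ^ 2 / 2) * (2 * c * ℓ n) +
          (1 - Real.cos (θ n)) * (2 * (A n / 2 - c * ℓ n)) := by
      rw [e5]; ring
    rw [e6]
    refine (abs_add_le _ _).trans (add_le_add ?_ ?_)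
    · rw [abs_mul, abs_of_pos (by positivity : 0 < 2 * c * ℓ n)]
      have e7 : |1 - Real.cos (θ n) - θ n ^ 2 / 2| ≤ (K / ℓ n) ^ 2 * (5 / 96) := by
        rw [abs_sub_comm] at hcos
        refine le_trans (le_of_eq ?_) hcos
        congr 1; ring
      refine (mul_le_mul_of_nonneg_right e7 (by positivity)).trans (le_of_eq ?_)
      field_simp
    · rw [abs_mul, abs_of_nonneg (by linarith : 0 ≤ 1 - Real.cos (θ n)), abs_mul,
        abs_of_pos (by norm_num : (0 : ℝ) < 2)]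
      have e8 : 1 - Real.cos (θ n) ≤ K / ℓ n / 2 := by rw [← hθn]; linarith
      calc (1 - Real.cos (θ n)) * (2 * |A n / 2 - c * ℓ n|) ≤ (K / ℓ n / 2) * (2 * C) := by
            refine mul_le_mul e8 ?_ (by positivity) (by positivity)
            exact mul_le_mul_of_nonneg_left hA1 (by norm_num)
        _ = K * C / ℓ n := by ring
  · refine squeeze_zero' (Eventually.of_forall fun n => ?_) ?_ hinv
    · have := Real.cos_le_one (s * Real.pi / Real.sqrt (3 / 2 * ℓ n))
      linarith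
    · filter_upwards [hpos] with n hn
      have hθn := hθ2 n hn
      have hcos2 := Real.one_sub_sq_div_two_le_cos (x := θ n)
      change (1 - Real.cos (θ n)) / 2 ≤ K / ℓ n
      rw [← hθn]
      nlinarith [sq_nonneg (θ n)]

/-- convergence of the products -/
theorem prod_tendsto (s : ℝ) (C : ℝ) (N : ℕ → ℕ) (ℓ : ℕ → ℝ) (hℓt : Tendsto ℓ atTop atTop)
    (a : (n : ℕ) → Fin (N n) → ℝ)
    (ha0 : ∀ n i, 0 ≤ a n i) (ha1 : ∀ n i, a n i ≤ 1 / 2)
    (hA : ∀ n : ℕ, |(∑ i, a n i) / 2 - 3 / (2 * Real.pi ^ 2) * ℓ n| ≤ C) :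
    Tendsto (fun n : ℕ => ∏ i, (1 - (1 - Real.cos (s * Real.pi /
      Real.sqrt (3 / 2 * ℓ n))) * a n i)) atTop (𝓝 (Real.exp (-(s ^ 2)))) := by
  obtain ⟨h1, h2⟩ := exponent s (fun n => ∑ i, a n i) ℓ C hℓt hA
  set κ : ℕ → ℝ := fun n => 1 - Real.cos (s * Real.pi /
      Real.sqrt (3 / 2 * ℓ n)) with hκ
  have hκ0 : ∀ n, 0 ≤ κ n := fun n => by
    simp only [hκ]
    linarith [Real.cos_le_one (s * Real.pi / Real.sqrt (3 / 2 * ℓ n))]
  have hb : ∀ᶠ n in atTop, Real.exp (-(κ n * ∑ i, a n i) / (1 - κ n / 2)) ≤ ∏ i, (1 - κ n * a n i) ∧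
      ∏ i, (1 - κ n * a n i) ≤ Real.exp (-(κ n * ∑ i, a n i)) := by
    filter_upwards [h2.eventually_lt_const (by norm_num : (0 : ℝ) < 1)] with n hn
    have := prod_bounds Finset.univ (fun i => κ n * a n i) (κ n / 2) hn
      (fun i _ => mul_nonneg (hκ0 n) (ha0 n i))
      (fun i _ => by nlinarith [hκ0 n, ha1 n i])
    rw [← Finset.mul_sum] at this
    exact this
  have hlow : Tendsto (fun n => Real.exp (-(κ n * ∑ i, a n i) / (1 - κ n / 2))) atTop
      (𝓝 (Real.exp (-(s ^ 2)))) := by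
    refine (Real.continuous_exp.tendsto _).comp ?_
    have h3 : Tendsto (fun n => 1 - κ n / 2) atTop (𝓝 (1 - 0)) := tendsto_const_nhds.sub h2
    have h4 := h1.neg.div h3 (by norm_num)
    rw [sub_zero, div_one] at h4
    exact h4
  have hup : Tendsto (fun n => Real.exp (-(κ n * ∑ i, a n i))) atTop
      (𝓝 (Real.exp (-(s ^ 2)))) := (Real.continuous_exp.tendsto _).comp h1.neg
  exact tendsto_of_tendsto_of_tendsto_of_le_of_le' hlow hup (hb.mono fun n h => h.1)
    (hb.mono fun n h => h.2)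

/-! ## symmetric products -/

/-- a symmetric product -/
noncomputable def FF {N : ℕ} (τ : Fin N → ℝ) (θ : ℝ) : ℂ :=
  ∏ i, (((Real.cos (θ / 2) : ℝ) : ℂ) + ((τ i * Real.sin (θ / 2) : ℝ) : ℂ) * Complex.I)

theorem FF_real {N : ℕ} (τ : Fin N → ℝ) (hτ : ∀ i, τ (Fin.rev i) = - τ i) (θ : ℝ) :
    FF τ θ = (((FF τ θ).re : ℝ) : ℂ) ∧
      (FF τ θ).re ^ 2 = ∏ i, (Real.cos (θ / 2) ^ 2 + τ i ^ 2 * Real.sin (θ / 2) ^ 2) := by
  have h1 : (starRingEnd ℂ) (FF τ θ) = FF τ θ := by
    unfold FF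
    rw [map_prod]
    refine Fintype.prod_equiv Fin.revPerm _ _ fun i => ?_
    rw [map_add, map_mul, Complex.conj_ofReal, Complex.conj_ofReal, Complex.conj_I,
      Fin.revPerm_apply, hτ]
    push_cast
    ring
  have h2 : FF τ θ = (((FF τ θ).re : ℝ) : ℂ) := (Complex.conj_eq_iff_re.1 h1).symm
  refine ⟨h2, ?_⟩
  have h3 : ((((FF τ θ).re ^ 2 : ℝ)) : ℂ) =
      ((∏ i, (Real.cos (θ / 2) ^ 2 + τ i ^ 2 * Real.sin (θ / 2) ^ 2) : ℝ) : ℂ) := by
    have h4 : ((((FF τ θ).re ^ 2 : ℝ)) : ℂ) = FF τ θ * (starRingEnd ℂ) (FF τ θ) := by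
      rw [h1]
      push_cast
      rw [← h2]
      ring
    rw [h4]
    unfold FF
    rw [map_prod, ← Finset.prod_mul_distrib, Complex.ofReal_prod]
    refine Finset.prod_congr rfl fun i _ => ?_
    rw [map_add, map_mul, Complex.conj_I, Complex.conj_ofReal, Complex.conj_ofReal]
    push_cast
    linear_combination (-(((τ i : ℂ)) ^ 2 * (Complex.sin (θ / 2)) ^ 2)) * Complex.I_sq
  exact_mod_cast h3

theorem FF_pos {N : ℕ} (τ : Fin N → ℝ) (hτ : ∀ i, τ (Fin.rev i) = - τ i) (θ : ℝ)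
    (hθ : |θ| < Real.pi) : 0 ≤ (FF τ θ).re := by
  by_contra hneg
  push Not at hneg
  have hcont : Continuous fun x : ℝ => (FF τ x).re := by
    unfold FF
    fun_prop
  have h0 : (FF τ 0).re = 1 := by
    unfold FF
    simp
  have h1 : (0 : ℝ) ∈ Set.uIcc (FF τ 0).re (FF τ θ).re := by
    rw [h0, Set.mem_uIcc]
    right
    exact ⟨hneg.le, zero_le_one⟩
  obtain ⟨x, hx, hx0⟩ := intermediate_value_uIcc hcont.continuousOn h1
  have hx1 : |x| < Real.pi := by
    have := Set.abs_sub_left_of_mem_uIcc hx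
    simp only [sub_zero] at this
    exact this.trans_lt hθ
  have h2 := (FF_real τ hτ x).2
  have hx0' : (FF τ x).re = 0 := hx0
  rw [hx0'] at h2
  have h3 : 0 < ∏ i, (Real.cos (x / 2) ^ 2 + τ i ^ 2 * Real.sin (x / 2) ^ 2) := by
    refine Finset.prod_pos fun i _ => ?_
    have h4 : 0 < Real.cos (x / 2) := by
      rw [abs_lt] at hx1
      apply Real.cos_pos_of_mem_Ioo
      constructor <;> linarith
    positivity
  rw [← h2] at h3
  norm_num at h3

theorem cosh_id (u c : ℝ) : Real.cos (c / 2) ^ 2 +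
    (2 * (Real.exp u / (1 + Real.exp u)) - 1) ^ 2 * Real.sin (c / 2) ^ 2 =
      1 - (1 - Real.cos c) * (1 / (Real.cosh u + 1)) := by
  have h1 : Real.cos c = 2 * Real.cos (c / 2) ^ 2 - 1 := by
    rw [← Real.cos_two_mul]; congr 1; ring
  have h2 := Real.sin_sq (c / 2)
  have h3 := Real.exp_pos u
  have h4 : Real.cosh u + 1 = (1 + Real.exp u) ^ 2 / (2 * Real.exp u) := by
    rw [Real.cosh_eq, Real.exp_neg]
    field_simp
    ring
  rw [h1, h2, h4]
  field_simp
  ring

end Pool.Agent.Helper21.AW.CLT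

namespace Pool.Agent.Helper21.AW

open Pool.Agent.H160R2.ML CLT

theorem t_CLT' : W_L3 → W_L4 → W_CLT := by
  intro h3 h4 k hk P hP hgen x
  obtain ⟨C, hC⟩ := h3 k hk
  rw [← tendsto_add_atTop_iff_nat k]
  have hkn : ∀ n : ℕ, k ≤ 2 * (n + k) + 2 := fun n => by omega
  choose u hu using fun n : ℕ => t_EG (2 * (n + k) + 2 - k) (2 * k)
  have hD0 : ∀ n : ℕ, Dl (2 * (n + k) + 2 - k) (2 * k) 1 ≠ 0 := by
    intro n
    obtain ⟨D, hD, hDe⟩ := (h4 _ _ (u n) (hu n)).2.2.1
    rw [hDe]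
    exact_mod_cast hD.ne'
  have hk0 : (0 : ℝ) < k := by exact_mod_cast hk
  obtain ⟨ℓ, hℓ⟩ : ∃ ℓ : ℕ → ℝ, ℓ = fun n => Real.log (2 * ((n + k : ℕ) : ℝ) + 2) := ⟨_, rfl⟩
  have hℓt : Tendsto ℓ atTop atTop := by
    rw [hℓ]
    refine Real.tendsto_log_atTop.comp ?_
    refine tendsto_atTop_add_const_right _ _ ?_
    refine Tendsto.const_mul_atTop (by norm_num) ?_
    exact tendsto_natCast_atTop_atTop.comp (tendsto_add_atTop_nat k)
  have hℓ0 : ∀ n, 0 < ℓ n := by
    intro n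
    rw [hℓ]
    apply Real.log_pos
    have : (0 : ℝ) ≤ ((n + k : ℕ) : ℝ) := Nat.cast_nonneg _
    linarith
  have hσ : ∀ n, Real.sqrt (3 / (2 * k ^ 2) * ℓ n) = Real.sqrt (3 / 2 * ℓ n) / k := by
    intro n
    have e1 : 3 / (2 * (k : ℝ) ^ 2) * ℓ n = 3 / 2 * ℓ n / k ^ 2 := by field_simp
    rw [e1, Real.sqrt_div' _ (by positivity), Real.sqrt_sq hk0.le]
  have hs0 : ∀ n, 0 < Real.sqrt (3 / 2 * ℓ n) := fun n =>
    Real.sqrt_pos.2 (by have := hℓ0 n; positivity)
  have h1 : ∀ n : ℕ, ∑ h ∈ Finset.Icc ((k : ℤ) - ((n + k : ℕ) : ℤ) - 1) (((n + k : ℕ) : ℤ) + 1),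
      P (n + k) h = 1 := by
    intro n
    have := hgen (n + k) 1 (hkn n) one_ne_zero
    simp only [one_zpow, mul_one, one_pow, inv_one, one_mul] at this
    rw [div_self (hD0 n)] at this
    exact_mod_cast this
  have key := clt_gen (fun n => Finset.Icc ((k : ℤ) - ((n + k : ℕ) : ℤ) - 1) (((n + k : ℕ) : ℤ) + 1))
    (fun n => P (n + k)) (fun n j => Real.pi * ((j : ℝ) - k / 2) / Real.sqrt (3 / 2 * ℓ n))
    (fun n => hP (n + k)) h1 ?_ x
  · refine key.congr fun n => Finset.sum_congr rfl fun j _ => ?_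
    have e : (Real.pi * ((j : ℝ) - k / 2) / Real.sqrt (3 / 2 * ℓ n) ≤ x) ↔
        (Real.pi / k * ((j : ℝ) - k / 2) ≤
          x * Real.sqrt (3 / (2 * k ^ 2) * Real.log (2 * ((n + k : ℕ) : ℝ) + 2))) := by
      have e2 : Real.log (2 * ((n + k : ℕ) : ℝ) + 2) = ℓ n := by rw [hℓ]
      rw [e2, hσ, div_le_iff₀ (hs0 n)]
      have e3 : Real.pi / k * ((j : ℝ) - k / 2) = Real.pi * ((j : ℝ) - k / 2) / k := by ring
      have e4 : x * (Real.sqrt (3 / 2 * ℓ n) / k) = x * Real.sqrt (3 / 2 * ℓ n) / k := by ring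
      rw [e3, e4]
      exact (div_le_div_iff_of_pos_right hk0).symm
    simp only [e]
  · intro t
    obtain ⟨θ, hθ⟩ : ∃ θ : ℕ → ℝ, θ = fun n => t * Real.pi / Real.sqrt (3 / 2 * ℓ n) := ⟨_, rfl⟩
    obtain ⟨τ, hτ⟩ : ∃ τ : (n : ℕ) → Fin (2 * (n + k) + 2 - k) → ℝ,
      τ = fun n i => 2 * (Real.exp (u n i) / (1 + Real.exp (u n i))) - 1 := ⟨_, rfl⟩
    have hτr : ∀ n i, τ n (Fin.rev i) = - τ n i := by
      intro n i
      rw [hτ]
      simp only [(hu n).2.1 i, Real.exp_neg]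
      have := Real.exp_pos (u n i)
      field_simp
      ring
    have hprod := prod_tendsto t C (fun n => 2 * (n + k) + 2 - k) ℓ hℓt
      (fun n i => 1 / (Real.cosh (u n i) + 1))
      (fun n i => by
        have := Real.cosh_pos (u n i)
        positivity)
      (fun n i => by
        have := Real.one_le_cosh (u n i)
        rw [div_le_div_iff₀ (by linarith) (by norm_num)]
        linarith)
      (fun n => by
        have := hC (n + k) (u n) (hkn n) (hu n)
        have e : (∑ i, 1 / (Real.cosh (u n i) + 1)) / 2 = ∑ i, 1 / (2 * (Real.cosh (u n i) + 1)) := by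
          rw [Finset.sum_div]
          refine Finset.sum_congr rfl fun i _ => ?_
          rw [div_div, mul_comm]
        rw [e, hℓ]
        exact this)
    have hθ0 : Tendsto θ atTop (𝓝 0) := by
      rw [hθ]
      refine Tendsto.const_div_atTop ?_ _
      refine Real.tendsto_sqrt_atTop.comp ?_
      exact hℓt.const_mul_atTop (by norm_num)
    have hy : Tendsto (fun n => (FF (τ n) (θ n)).re) atTop (𝓝 (Real.exp (-(t ^ 2) / 2))) := by
      have h5 : Tendsto (fun n => (FF (τ n) (θ n)).re ^ 2) atTop (𝓝 (Real.exp (-(t ^ 2)))) := by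
        refine hprod.congr fun n => ?_
        rw [(FF_real (τ n) (hτr n) (θ n)).2]
        refine Finset.prod_congr rfl fun i _ => ?_
        rw [hτ, hθ]
        exact (cosh_id _ _).symm
      have h6 := (Real.continuous_sqrt.tendsto _).comp h5
      have e7 : Real.sqrt (Real.exp (-(t ^ 2))) = Real.exp (-(t ^ 2) / 2) := by
        rw [Real.exp_half]
      rw [e7] at h6
      refine h6.congr' ?_
      have h7 : ∀ᶠ n in atTop, |θ n| < Real.pi := by
        have := hθ0.abs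
        rw [abs_zero] at this
        exact this.eventually_lt_const Real.pi_pos
      filter_upwards [h7] with n hn
      simp only [Function.comp]
      exact Real.sqrt_sq (FF_pos (τ n) (hτr n) (θ n) hn)
    have h8 := (Complex.continuous_ofReal.tendsto _).comp hy
    rw [Complex.ofReal_exp] at h8
    refine h8.congr fun n => ?_
    simp only [Function.comp]
    rw [← (FF_real (τ n) (hτr n) (θ n)).1]
    obtain ⟨w, hw⟩ : ∃ w : ℂ, w = Complex.exp ((θ n : ℂ) * Complex.I) := ⟨_, rfl⟩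
    have hw0 : w ≠ 0 := by rw [hw]; exact Complex.exp_ne_zero _
    have g1 : ∀ j : ℤ, Complex.exp (((t * (Real.pi * ((j : ℝ) - k / 2) /
        Real.sqrt (3 / 2 * ℓ n)) : ℝ) : ℂ) * Complex.I) =
          Complex.exp (-((θ n : ℂ) * k / 2) * Complex.I) * w ^ j := by
      intro j
      rw [hw, ← Complex.exp_int_mul, ← Complex.exp_add]
      congr 1
      have : t * (Real.pi * ((j : ℝ) - k / 2) / Real.sqrt (3 / 2 * ℓ n)) =
          θ n * ((j : ℝ) - k / 2) := by
        rw [hθ]; ring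
      rw [this]
      push_cast
      ring
    have g2 := hgen (n + k) w (hkn n) hw0
    obtain ⟨-, f1, -, f2⟩ := h4 _ _ (u n) (hu n)
    have f1 := f1 w hw0
    have f2 := f2 w
    have g3 : ∑ j ∈ Finset.Icc ((k : ℤ) - ((n + k : ℕ) : ℤ) - 1) (((n + k : ℕ) : ℤ) + 1),
        (P (n + k) j : ℂ) * Complex.exp (((t * (Real.pi * ((j : ℝ) - k / 2) /
        Real.sqrt (3 / 2 * ℓ n)) : ℝ) : ℂ) * Complex.I) =
        Complex.exp (-((θ n : ℂ) * k / 2) * Complex.I) *
          (w ^ (n + k + 1) * Dl (2 * (n + k) + 2 - k) (2 * k) w⁻¹ /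
            Dl (2 * (n + k) + 2 - k) (2 * k) 1) := by
      rw [← g2, Finset.mul_sum]
      refine Finset.sum_congr rfl fun j _ => ?_
      rw [g1]; ring
    rw [g3]
    have hN : ((2 * (n + k) + 2 - k : ℕ) : ℂ) = 2 * n + k + 2 := by
      have : 2 * (n + k) + 2 - k = 2 * n + k + 2 := by omega
      rw [this]; push_cast; ring
    have g4 : FF (τ n) (θ n) = Complex.exp (-((θ n : ℂ) / 2 * (2 * n + k + 2)) * Complex.I) *
        ∏ i, (1 - ((Real.exp (u n i) / (1 + Real.exp (u n i)) : ℝ) : ℂ)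
          + ((Real.exp (u n i) / (1 + Real.exp (u n i)) : ℝ) : ℂ) * w) := by
      have e1 : Complex.exp (-((θ n : ℂ) / 2 * (2 * n + k + 2)) * Complex.I) =
          ∏ _i : Fin (2 * (n + k) + 2 - k), Complex.exp (-((θ n : ℂ) / 2) * Complex.I) := by
        rw [Finset.prod_const, Finset.card_univ, Fintype.card_fin, ← Complex.exp_nat_mul, hN]
        congr 1; ring
      rw [e1, ← Finset.prod_mul_distrib]
      unfold FF
      refine Finset.prod_congr rfl fun i _ => ?_
      have e2 : w = Complex.exp ((θ n : ℂ) / 2 * Complex.I) * Complex.exp ((θ n : ℂ) / 2 * Complex.I) := by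
        rw [hw, ← Complex.exp_add]; congr 1; ring
      have e3 : Complex.exp (-((θ n : ℂ) / 2) * Complex.I) * Complex.exp ((θ n : ℂ) / 2 * Complex.I) = 1 := by
        rw [← Complex.exp_add, ← Complex.exp_zero]; congr 1; ring
      have e4 : Complex.exp ((θ n : ℂ) / 2 * Complex.I) =
          Complex.cos ((θ n : ℂ) / 2) + Complex.sin ((θ n : ℂ) / 2) * Complex.I :=
        Complex.exp_mul_I _
      have e5 : Complex.exp (-((θ n : ℂ) / 2) * Complex.I) =
          Complex.cos ((θ n : ℂ) / 2) - Complex.sin ((θ n : ℂ) / 2) * Complex.I := by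
        rw [Complex.exp_mul_I, Complex.cos_neg, Complex.sin_neg]; ring
      rw [hτ]
      simp only
      generalize (Real.exp (u n i) / (1 + Real.exp (u n i)) : ℝ) = pp
      have e6 : Complex.exp (-((θ n : ℂ) / 2) * Complex.I) * (1 - (pp : ℂ) + pp * w) =
          (1 - pp) * Complex.exp (-((θ n : ℂ) / 2) * Complex.I) +
            pp * Complex.exp ((θ n : ℂ) / 2 * Complex.I) := by
        rw [e2]
        linear_combination (pp * Complex.exp ((θ n : ℂ) / 2 * Complex.I)) * e3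
      rw [e6, e4, e5]
      push_cast
      ring
    have g5 : Complex.exp (-((θ n : ℂ) * k / 2) * Complex.I) * w ^ (n + k + 1) =
        Complex.exp (-((θ n : ℂ) / 2 * (2 * n + k + 2)) * Complex.I) *
          w ^ (2 * (n + k) + 2 - k) := by
      rw [hw, ← Complex.exp_nat_mul, ← Complex.exp_nat_mul, ← Complex.exp_add, ← Complex.exp_add, hN]
      congr 1
      push_cast
      ring
    rw [g4]
    have g7 := hD0 n
    symm
    calc Complex.exp (-((θ n : ℂ) * k / 2) * Complex.I) *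
          (w ^ (n + k + 1) * Dl (2 * (n + k) + 2 - k) (2 * k) w⁻¹ /
            Dl (2 * (n + k) + 2 - k) (2 * k) 1)
        = (Complex.exp (-((θ n : ℂ) * k / 2) * Complex.I) * w ^ (n + k + 1)) *
            Dl (2 * (n + k) + 2 - k) (2 * k) w⁻¹ / Dl (2 * (n + k) + 2 - k) (2 * k) 1 := by ring
      _ = Complex.exp (-((θ n : ℂ) / 2 * (2 * n + k + 2)) * Complex.I) *
            (w ^ (2 * (n + k) + 2 - k) * Dl (2 * (n + k) + 2 - k) (2 * k) w⁻¹) /
              Dl (2 * (n + k) + 2 - k) (2 * k) 1 := by rw [g5]; ring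
      _ = _ := by
          rw [f1, f2, mul_comm (Dl _ _ 1), ← mul_assoc, mul_div_assoc, div_self g7, mul_one]

end Pool.Agent.Helper21.AW
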