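import Pool.Agent.Helper21.AW.Stm
import Pool.Graph.R_seed8.H863R2.Cyl.GProp
import Pool.Graph.R_seed8.H863R2.Cyl.Braid
import Pool.Graph.R_seed8.H988R2.Perc.T03

/-!
# Package G1: exchange of legs, symmetry in the through parameters, moving a leg, the degree
(adapted from `ML/T_legx`, `ML/T_thr`, `ML/T_mvR`, `ML/T_deg` of the library)
-/

set_option autoImplicit false

namespace Pool.Agent.Helper21.AW

open Pool.Agent.H863R2.Cyl Pool.Agent.H160R2.ML Pool.Agent.Helper21.EV
open Pool.Agent.H988R2.Perc (Word PD)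
open H974 H906.Cyl

namespace TG1

open Pool.Agent.H863R2.Cyl.PairAux (lin_bs bilin_ext)

theorem prE_bs (e : ℕ → ℕ → Word → Word → ℂ) (p r : ℕ) (w' w : Word) :
    prE e p r (bs w') (bs w) = e p r w' w := by
  unfold prE bs
  rw [Finsupp.linearCombination_single, one_smul, Finsupp.linearCombination_single, one_smul]

theorem prE_act_zero {k : ℕ} {e : ℂ → ℕ → ℕ → Word → Word → ℂ} (he : LSpecW k e) {c : ℂ}
    (hc : c ≠ 0) {p r N N' i : ℕ}
    (hl : p + r = 2 * k) (hN : N' + p = N + 2 + r) (hE : Even N) (hi : i + 2 ≤ p)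
    (hp : p ≤ N + 2) {v' v : VW} (hv' : v' ∈ VN N') (hv : v ∈ VN (N + 2)) :
    prE (e c) p r v' (lin (act i) v) = 0 := by
  have h := bilin_ext (A := (prE (e c) p r).compl₂ (lin (act i))) (B := 0) (N' := N')
    (N := N + 2)
    (fun w' w h1 h2 h3 h4 => by
      have h5 : i + 2 ≤ w.length := by omega
      have h6 : (cap i w).length = N := by
        have := length_cap h5
        omega
      rw [LinearMap.compl₂_apply, lin_bs, prE_bs, act_eq h5]
      rw [he.zero c p r i w' (cap i w) hc hl h2 (ok_cap h4 h5) (by rw [h6]; exact hE)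
        (by rw [h6]; omega) hi (by rw [h6]; exact hp)]
      rfl) hv' hv
  exact h

theorem word_act {k : ℕ} {e : ℂ → ℕ → ℕ → Word → Word → ℂ} (he : LSpecW k e) {c : ℂ}
    (hc : c ≠ 0) {p r N s : ℕ}
    (hpr : p + r = 2 * k) (hev : Even (p + N)) (hs : s + 2 ≤ N) {w' w : Word}
    (h1 : w'.length = r + N) (h2 : Ok w') (h3 : w.length = p + N) (h4 : Ok w) :
    e c p r (act (r + s) w') w = e c p r w' (act (p + s) w) := by
  have a1 : (p + s) + 2 ≤ w.length := by omega
  have a2 : (r + s) + 2 ≤ w'.length := by omega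
  have l1 := length_cap a1
  have l2 := length_cap a2
  have o1 := ok_cap h4 a1
  have o2 := ok_cap h2 a2
  have e1 : Even (cap (p + s) w).length := by
    rw [Nat.even_iff] at hev ⊢
    omega
  have e2 : Even (cap (r + s) w').length := by
    rw [Nat.even_iff] at hev ⊢
    omega
  have hc' : c⁻¹ ≠ 0 := inv_ne_zero hc
  have r1 : e c p r w' (act (p + s) w) = e c p r (cap (r + s) w') (cap (p + s) w) := by
    rw [act_eq a1, he.insR c p r (p + s) w' (cap (p + s) w) hc hpr h2 o1 e1 (by omega) (by omega)
      (by omega)]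
    congr 2
    omega
  have r2 : e c p r (act (r + s) w') w = e c p r (cap (r + s) w') (cap (p + s) w) := by
    rw [he.symm c p r (act (r + s) w') w hc hpr (by rw [length_act]; omega) (by omega)
      (ok_act _ h2) h4, act_eq a2,
      he.insR c⁻¹ r p (r + s) w (cap (r + s) w') hc' (by omega) h4 o2 e2 (by omega) (by omega)
      (by omega), he.symm c p r (cap (r + s) w') (cap (p + s) w) hc hpr (by omega) (by omega)
      o2 o1]
    congr 3
    omega
  rw [r1, r2]

theorem prE_act {k : ℕ} {e : ℂ → ℕ → ℕ → Word → Word → ℂ} (he : LSpecW k e) {c : ℂ}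
    (hc : c ≠ 0) {p r N s : ℕ}
    (hpr : p + r = 2 * k) (hev : Even (p + N)) (hs : s + 2 ≤ N) {v' v : VW}
    (hv' : v' ∈ VN (r + N)) (hv : v ∈ VN (p + N)) :
    prE (e c) p r (lin (act (r + s)) v') v = prE (e c) p r v' (lin (act (p + s)) v) := by
  have h := bilin_ext (A := (prE (e c) p r).comp (lin (act (r + s))))
    (B := (prE (e c) p r).compl₂ (lin (act (p + s)))) (N' := r + N) (N := p + N)
    (fun w' w h1 h2 h3 h4 => by
      rw [LinearMap.compl₂_apply, LinearMap.comp_apply, lin_bs, lin_bs, prE_bs, prE_bs,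
        word_act he hc hpr hev hs h1 h2 h3 h4]) hv' hv
  exact h

theorem prE_lin (e : ℕ → ℕ → Word → Word → ℂ) (p r p' r' : ℕ) (f : Word → Word) (a b : VW)
    (h : ∀ w' ∈ a.support, ∀ w ∈ b.support, e p r w' (f w) = e p' r' w' w) :
    prE e p r a (lin f b) = prE e p' r' a b := by
  unfold prE
  rw [Finsupp.linearCombination_apply, Finsupp.linearCombination_apply, Finsupp.sum, Finsupp.sum,
    LinearMap.sum_apply, LinearMap.sum_apply]
  refine Finset.sum_congr rfl fun w' hw' => ?_
  rw [LinearMap.smul_apply, LinearMap.smul_apply]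
  congr 1
  unfold lin
  rw [Finsupp.lmapDomain_apply, Finsupp.linearCombination_mapDomain,
    Finsupp.linearCombination_apply, Finsupp.linearCombination_apply, Finsupp.sum, Finsupp.sum]
  refine Finset.sum_congr rfl fun w hw => ?_
  rw [Function.comp_apply, h w' hw' w hw]

theorem mem_VN {N : ℕ} {a : VW} (ha : a ∈ VN N) {w : Word} (hw : w ∈ a.support) :
    w.length = N ∧ Ok w := by
  have h := (Finsupp.mem_supported ℂ a).1 ha
  exact h hw

end TG1

theorem t_legx' : W_legx := by
  intro q k e Ψ Ψ' D c hc u v B z x y hl hE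
  have h1 := D.h.exch u (v ++ z) x y
  have e1 : (u ++ y :: x :: v) ++ z = u ++ y :: x :: (v ++ z) := by simp
  have e2 : (u ++ x :: y :: v) ++ z = u ++ x :: y :: (v ++ z) := by simp
  have l1 : (u ++ y :: x :: v).length = u.length + v.length + 2 := by
    simp only [List.length_append, List.length_cons]; omega
  have l2 : (u ++ x :: y :: v).length = u.length + v.length + 2 := by
    simp only [List.length_append, List.length_cons]; omega
  unfold Pool.Agent.H160R2.ML.GG
  rw [l1, l2, e1, e2]
  have h2 := congrArg (prE (e c) (u.length + v.length + 2) B.length (Ψ' (B ++ z))) h1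
  rw [map_add, map_smul, map_smul, map_smul] at h2
  have hm := D.h.mem (u ++ x :: y :: (v ++ z))
  have hm' := D.h'.mem (B ++ z)
  have l3 : (u ++ x :: y :: (v ++ z)).length = (u.length + v.length + z.length) + 2 := by
    simp only [List.length_append, List.length_cons]; omega
  rw [l3] at hm
  rw [List.length_append] at hm'
  rw [TG1.prE_act_zero D.he hc hl (by omega) hE (by omega) (by omega) hm' hm] at h2
  rw [smul_zero, add_zero, smul_eq_mul, smul_eq_mul] at h2
  exact h2

open TG1 in
theorem t_thr' : W_thr := by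
  intro q k e Ψ Ψ' D c hc A B z z' hp hAB hev hz
  obtain ⟨hq, hk, he, hΨ, hΨ'⟩ := D
  have hq3 : q ^ 3 = 1 := by linear_combination (q - 1) * hq
  -- adjacent swaps
  have hswap : ∀ (u v : List ℂ) (x y : ℂ), x ^ 3 ≠ y ^ 3 →
      Even (A.length + (u ++ x :: y :: v).length) →
      GG (e c) Ψ' Ψ A B (u ++ y :: x :: v) = GG (e c) Ψ' Ψ A B (u ++ x :: y :: v) := by
    intro u v x y hxy hE
    unfold Pool.Agent.H160R2.ML.GG
    have e1 := hΨ.exch (A ++ u) v x y
    have e2 := hΨ'.exch (B ++ u) v x y
    rw [List.append_assoc, List.append_assoc] at e1 e2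
    have m1 := hΨ.mem (A ++ (u ++ x :: y :: v))
    have m2 := hΨ'.mem (B ++ (u ++ x :: y :: v))
    rw [List.length_append] at m1 m2
    rw [List.length_append] at e1 e2
    set N := (u ++ x :: y :: v).length with hN
    have hN2 : u.length + 2 ≤ N := by rw [hN]; simp
    set X := Ψ (A ++ (u ++ x :: y :: v))
    set X' := Ψ' (B ++ (u ++ x :: y :: v))
    set Y := Ψ (A ++ (u ++ y :: x :: v))
    set Y' := Ψ' (B ++ (u ++ y :: x :: v))
    set i := u.length
    set p := A.length
    set r := B.length
    have h1 : prE (e c) p r (lin (act (r + i)) X') X = prE (e c) p r X' (lin (act (p + i)) X) :=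
      prE_act he hc hAB hE hN2 m2 m1
    have m3 : lin (act (p + i)) X ∈ VN (p + N) := GPropAux.lin_mem m1 fun w hw hok =>
      ⟨(length_act _ w).trans hw, ok_act _ hok⟩
    have h2 : prE (e c) p r (lin (act (r + i)) X') (lin (act (p + i)) X) =
        prE (e c) p r X' (lin (act (p + i)) X) := by
      rw [prE_act he hc hAB hE hN2 m2 m3, GPropAux.lin_lin]
      congr 1
      refine GPropAux.lin_apply_congr m1 fun w hw _ => ?_
      exact act_of_arcAt (arcAt_act _ (by omega))
    have h3 : prE (e c) p r ((q ^ 2 * y - (q ^ 2) ^ 2 * x) • Y') ((q * y - q ^ 2 * x) • Y) =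
        prE (e c) p r ((q ^ 2 * x - (q ^ 2) ^ 2 * y) • X' + (x - y) • lin (act (r + i)) X')
          ((q * x - q ^ 2 * y) • X + (x - y) • lin (act (p + i)) X) := by
      rw [e1, e2]
    simp only [map_add, map_smul, LinearMap.add_apply, LinearMap.smul_apply, smul_eq_mul] at h3
    rw [h1, h2] at h3
    have c1 : (q ^ 2 * y - (q ^ 2) ^ 2 * x) * (q * y - q ^ 2 * x) = x ^ 2 + x * y + y ^ 2 := by
      linear_combination (y ^ 2 + q ^ 3 * x ^ 2 + x ^ 2 - q * x * y - q ^ 2 * x * y) * hq3 - x * y * hq
    have c2 : (q ^ 2 * x - (q ^ 2) ^ 2 * y) * (q * x - q ^ 2 * y) = x ^ 2 + x * y + y ^ 2 := by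
      linear_combination (x ^ 2 + q ^ 3 * y ^ 2 + y ^ 2 - q * x * y - q ^ 2 * x * y) * hq3 - x * y * hq
    have c3 : (q ^ 2 * x - (q ^ 2) ^ 2 * y) + (q * x - q ^ 2 * y) + (x - y) = 0 := by
      linear_combination (x - y) * hq - q * y * hq3
    have hne : x ^ 2 + x * y + y ^ 2 ≠ 0 := by
      intro h0
      apply hxy
      linear_combination (x - y) * h0
    apply mul_left_cancel₀ hne
    linear_combination h3 - prE (e c) p r Y' Y * c1 + prE (e c) p r X' X * c2 +
      (x - y) * prE (e c) p r X' (lin (act (p + i)) X) * c3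
  have key : ∀ u : List ℂ, ((u ++ z).map (fun x => x ^ 3)).Nodup →
      Even (A.length + (u ++ z).length) →
      GG (e c) Ψ' Ψ A B (u ++ z) = GG (e c) Ψ' Ψ A B (u ++ z') := by
    clear hev hz
    induction hp with
    | nil => intro u _ _; rfl
    | cons x _ ih =>
      intro u hu hE
      have := ih (u ++ [x]) (by simpa using hu) (by simpa using hE)
      simpa using this
    | swap x y l =>
      intro u hu hE
      refine hswap u l x y ?_ ?_
      · intro h0
        rw [List.map_append, List.nodup_append] at hu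
        have h1 := hu.2.1
        rw [List.map_cons, List.map_cons, List.nodup_cons] at h1
        apply h1.1
        rw [← h0]
        exact List.mem_cons_self
      · simpa using hE
    | trans h1 h2 ih1 ih2 =>
      rename_i l1 l2 l3
      intro u hu hE
      have hperm : (u ++ l1).Perm (u ++ l2) := h1.append_left u
      rw [ih1 u hu hE, ih2 u ((hperm.map _).nodup_iff.1 hu) (by rw [← hperm.length_eq]; exact hE)]
  have := key [] (by simpa using hz.2) (by simpa using hev)
  simpa using this

theorem t_mvR' : W_mvR := by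
  intro q k e Ψ Ψ' hD c hc A B z x hl hev
  have h1 : (A ++ [x]) ++ (q * x) :: z = A ++ x :: (q * x) :: z := by simp
  have h2 : (B ++ [q * x]) ++ z = B ++ (q * x) :: z := by simp
  unfold Pool.Agent.H160R2.ML.GG
  rw [h1, h2, hD.h.recu A z x, map_smul, smul_eq_mul]
  congr 1
  rw [List.length_append, List.length_append, List.length_singleton, List.length_singleton]
  apply TG1.prE_lin
  intro w' hw' w hw
  obtain ⟨h3, h4⟩ := TG1.mem_VN (hD.h'.mem _) hw'
  obtain ⟨h5, h6⟩ := TG1.mem_VN (hD.h.mem _) hw
  rw [List.length_append] at h5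
  simp only [List.length_append, List.length_cons] at h3
  have h7 := hD.he.moveR c (A.length + 1) B.length w' w hc hl h4 h6 (by rw [h5]; exact hev)
    (by omega) (by omega) (by omega)
  rwa [Nat.add_sub_cancel] at h7

theorem t_deg' : W_deg := by
  intro q k e Ψ Ψ' hD c hc A B z _
  have hPD : ∀ w : Word, ∃ P : Polynomial ℂ, P.natDegree ≤ A.length + z.length ∧
      ∀ x, Ψ (A ++ x :: z) w = P.eval x := by
    intro w
    have h := hD.h.deg (A.length + z.length + 1) w
    obtain ⟨P, hP, hPe⟩ := Pool.Agent.H988R2.Perc.PD.univ h A z rfl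
    refine ⟨P, ?_, hPe⟩
    simpa using hP
  choose P hPd hPe using hPD
  refine ⟨∑ w ∈ BLAux.SN (A.length + z.length + 1),
    Polynomial.C (prE (e c) (A.length + 1) B.length (Ψ' (B ++ z)) (bs w)) * P w, ?_, ?_⟩
  · refine Polynomial.natDegree_sum_le_of_forall_le _ _ fun w _ => ?_
    exact (Polynomial.natDegree_C_mul_le _ _).trans (hPd w)
  · intro x
    have hmem := hD.h.mem (A ++ x :: z)
    have hlen : (A ++ x :: z).length = A.length + z.length + 1 := by
      simp only [List.length_append, List.length_cons]; omega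
    rw [hlen] at hmem
    have hex := BLAux.expand hmem
    have hA : A ++ [x] ++ z = A ++ x :: z := by simp
    have hl1 : (A ++ [x]).length = A.length + 1 := by simp
    unfold Pool.Agent.H160R2.ML.GG
    rw [hA, hl1, hex, map_sum, Polynomial.eval_finsetSum]
    refine Finset.sum_congr rfl fun w _ => ?_
    rw [map_smul, Polynomial.eval_mul, Polynomial.eval_C, ← hPe w x, smul_eq_mul, mul_comm]

end Pool.Agent.Helper21.AW
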