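import Pool.Agent.Helper21.AW.Stm
import Pool.Graph.R_seed8.H863R2.Cyl.Braid

/-! Package G2 (helper25): moving a leg across the seam, the symmetry, and the value without
through strands, for the weighted leg functionals. -/

set_option autoImplicit false

namespace Pool.Agent.Helper21.AW

open Pool.Agent.H863R2.Cyl Pool.Agent.H160R2.ML
open Pool.Agent.H988R2.Perc (Word PD)
open H974 H906.Cyl

namespace G2

/-- moving maps of words from one side to the other one, with a factor -/
theorem prE_moveC (c : ℂ) (e : ℕ → ℕ → Word → Word → ℂ) (p r p₂ r₂ : ℕ) (f g : Word → Word)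
    {x v : VW} {N' N : ℕ} (hx : x ∈ VN N') (hv : v ∈ VN N)
    (h : ∀ w' u : Word, w'.length = N' → Ok w' → u.length = N → Ok u →
      e p r w' (f u) = c * e p₂ r₂ (g w') u) :
    prE e p r x (lin f v) = c * prE e p₂ r₂ (lin g x) v := by
  unfold prE lin
  rw [Finsupp.lmapDomain_apply, Finsupp.lmapDomain_apply, Finsupp.linearCombination_mapDomain,
    Finsupp.linearCombination_apply, Finsupp.linearCombination_apply, Finsupp.sum, Finsupp.sum,
    LinearMap.sum_apply, LinearMap.sum_apply, Finset.mul_sum]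
  refine Finset.sum_congr rfl fun w' hw' => ?_
  rw [LinearMap.smul_apply, LinearMap.smul_apply, Finsupp.linearCombination_mapDomain]
  have hw := (Finsupp.mem_supported ℂ x).1 hx hw'
  rw [smul_eq_mul, smul_eq_mul, mul_left_comm]
  congr 1
  simp only [Function.comp]
  rw [Finsupp.linearCombination_apply, Finsupp.linearCombination_apply, Finsupp.sum, Finsupp.sum,
    Finset.mul_sum]
  refine Finset.sum_congr rfl fun u hu => ?_
  have h2 := (Finsupp.mem_supported ℂ v).1 hv hu
  simp only [Function.comp, smul_eq_mul]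
  rw [h w' u hw.1 hw.2 h2.1 h2.2]
  ring

end G2

open G2 in
theorem t_mvL' : W_mvL := by
  intro q k e Ψ Ψ' hD c hc A B z y hl hev
  have h1 : Ψ ((q * y) :: A ++ (z ++ [y])) = fac q y (A ++ z) • lin seam (Ψ (A ++ z)) := by
    have e1 : (q * y) :: A ++ (z ++ [y]) = (q * y) :: (A ++ z ++ [y]) := by simp
    have e2 : A ++ z ++ [y] ++ [q * y] = (A ++ z) ++ y :: (q * y) :: [] := by simp
    rw [e1, hD.h.rot, e2, hD.h.recu (A ++ z) [] y, List.append_nil, map_smul,
      BLAux.rotr_lin_lins (hD.h.mem (A ++ z))]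
  have h2 : lin rotr (Ψ' (B ++ (z ++ [y]))) = Ψ' (y :: B ++ z) := by
    have e1 : B ++ (z ++ [y]) = (B ++ z) ++ [y] := by simp
    have e2 : y :: B ++ z = y :: (B ++ z) := by simp
    rw [e1, e2, hD.h'.rot]
  unfold GG
  rw [h1, map_smul, smul_eq_mul, ← h2, mul_left_comm c]
  congr 1
  have hx := hD.h'.mem (B ++ (z ++ [y]))
  have hv := hD.h.mem (A ++ z)
  refine prE_moveC c (e c) _ _ _ _ seam rotr hx hv fun w' u hw' hok' hu hok => ?_
  have hlen : w'.length = B.length + (z.length + 1) := by
    rw [hw']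
    simp
  have hulen : u.length = A.length + z.length := by
    rw [hu]
    simp
  have h3 := hD.he.moveL c (A.length + 1) B.length w' u hc (by omega) hok' hok
    (by rw [hulen]; exact hev) (by omega) (by omega) (by omega)
  rw [List.length_cons, List.length_cons, h3, Nat.add_sub_cancel]

theorem t_swap' : W_swap := by
  intro q k e Ψ Ψ' hD c hc A B z hl
  unfold GG
  rw [Tswap.prE_apply, Tswap.prE_apply, Finset.sum_comm, Finset.mul_sum]
  refine Finset.sum_congr rfl fun w hw => ?_
  rw [Finset.mul_sum]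
  refine Finset.sum_congr rfl fun w' hw' => ?_
  have h1 := (Finsupp.mem_supported ℂ _).1 (hD.h.mem (A ++ z)) hw
  have h2 := (Finsupp.mem_supported ℂ _).1 (hD.h'.mem (B ++ z)) hw'
  have h1' : w.length = A.length + z.length := by
    rw [h1.1, List.length_append]
  have h2' : w'.length = B.length + z.length := by
    rw [h2.1, List.length_append]
  rw [hD.he.symm c A.length B.length w' w hc hl (by omega) (by omega) h2.2 h1.2]
  ring

open Tbs in
theorem t_bs' : W_bs := by
  intro q k e Ψ Ψ' hD c hc A B hAB hA hGA hGB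
  have hq := hD.hq
  have hq2 : (q ^ 2) ^ 2 + q ^ 2 + 1 = 0 := by
    have h3 : q ^ 3 = 1 := by linear_combination (q - 1) * hq
    calc (q ^ 2) ^ 2 + q ^ 2 + 1 = q ^ 3 * q + q ^ 2 + 1 := by ring
      _ = q ^ 2 + q + 1 := by rw [h3]; ring
      _ = 0 := hq
  have hB : Even B.length := by
    have h1 : Even (2 * k) := even_two_mul k
    rw [← hAB] at h1
    exact (Nat.even_add.mp h1).mp hA
  have hAs : ∀ w ∈ (Ψ A).support, w.length = A.length ∧ Ok w := fun w hw =>
    (Finsupp.mem_supported ℂ _).mp (hD.h.mem A) hw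
  have hBs : ∀ w ∈ (Ψ' B).support, w.length = B.length ∧ Ok w := fun w hw =>
    (Finsupp.mem_supported ℂ _).mp (hD.h'.mem B) hw
  have hGG : GG (e c) Ψ' Ψ A B [] =
      Ψ' B (bw B.length) * (Ψ A (bw A.length) * c ^ (A.length / 2)) := by
    unfold GG
    rw [List.append_nil, List.append_nil, pr_single (e c) A.length B.length (Ψ' B) (Ψ A)
      (bw B.length) (bw A.length), hD.he.base c A.length B.length hc hAB hA hB]
    intro w' hw' w hw hne
    obtain ⟨l1, o1⟩ := hAs w hw
    obtain ⟨l2, o2⟩ := hBs w' hw'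
    rcases hne with hne | hne
    · obtain ⟨i, u, rfl, hu, hue, hul, hi⟩ := exists_arc B.length w' hB l2 o2 hne
      rw [hD.he.symm c A.length B.length _ _ hc hAB (by omega) (by omega) o2 o1]
      rw [hD.he.zero c⁻¹ B.length A.length i w u (inv_ne_zero hc) (by omega) o1 hu hue (by omega)
        hi (by omega), mul_zero]
    · obtain ⟨i, u, rfl, hu, hue, hul, hi⟩ := exists_arc A.length w hA l1 o1 hne
      exact hD.he.zero c A.length B.length i w' u hc hAB o2 hu hue (by omega) hi (by omega)
  have h1 := t_comp q Ψ hq hD.h A hA hGA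
  have h2 := t_comp (q ^ 2) Ψ' hq2 hD.h' B hB hGB
  rw [hGG, ← h1, ← h2]
  ring

end Pool.Agent.Helper21.AW
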