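import Pool.Agent.Helper21.AW.Stm2
import Pool.Graph.R_seed8.H160R2.ML.T_HV
import Pool.Graph.R_seed8.H160R2.ML.T_HL
import Pool.Graph.R_seed8.H160R2.ML.T_EG

/-!
# Task HV: the homogeneous value (weighted form)
-/

set_option autoImplicit false

namespace Pool.Agent.Helper21.AW

open Pool.Agent.H863R2.Cyl Pool.Agent.H160R2.ML
open Pool.Agent.H988R2.Perc (Word PD)
open Filter Topology

namespace THVW

open Pool.Agent.H160R2.ML.THV

theorem cont_GG' {q : ℂ} {e : ℕ → ℕ → Word → Word → ℂ} {Ψ Ψ' : List ℂ → VW}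
    (h : Fam q Ψ) (h' : Fam (q ^ 2) Ψ') (A B : List ℂ) (N : ℕ) :
    Continuous (fun z : Fin N → ℂ => GG e Ψ' Ψ A B (List.ofFn z)) := by
  have h1 : (fun z : Fin N → ℂ => GG e Ψ' Ψ A B (List.ofFn z)) = fun z =>
      ∑ w' ∈ GPropAux.WS (B.length + N), ∑ w ∈ GPropAux.WS (A.length + N),
        e A.length B.length w' w * (Ψ' (B ++ List.ofFn z) w' * Ψ (A ++ List.ofFn z) w) := by
    funext z
    have m1 := h'.mem (B ++ List.ofFn z)
    have m2 := h.mem (A ++ List.ofFn z)
    rw [List.length_append, List.length_ofFn] at m1 m2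
    exact prE_eq e A.length B.length m1 m2
  rw [h1]
  refine continuous_finsetSum _ fun w' _ => continuous_finsetSum _ fun w _ => ?_
  exact continuous_const.mul ((cont_pd (h'.deg _ w') B N rfl).mul
    (cont_pd (h.deg _ w) A N rfl))

end THVW

open Pool.Agent.H160R2.ML.THV THVW in
theorem t_HV2 : W_TB2 → W_L4 → W_HV := by
  intro hTB hL4 q k e Ψ Ψ' hD n hkn hn
  classical
  have hq := hD.hq
  have hq3 : q ^ 3 = 1 := by linear_combination (q - 1) * hq
  obtain ⟨N, hN⟩ : ∃ N, N = 2 * n - k := ⟨_, rfl⟩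
  have hkN : k + N = 2 * n := by omega
  rw [← hN]
  obtain ⟨κ, hκ, hform⟩ := hTB q k e Ψ Ψ' hD k k N (by ring)
    (by rw [hkN]; exact even_two_mul n)
  set A : List ℂ := List.replicate k 1 with hA
  refine ⟨κ * pfq q A * pfq (q ^ 2) A * ((-3) ^ (N * (N - 1)) * 1 *
    ((q / (1 - q ^ 2)) ^ N * (1 / 3) ^ (N * (N - 1) / 2) * (1 - q) ^ (2 * k * N))), ?_, ?_⟩
  · obtain ⟨n1, n2, n3, -⟩ := norms hq
    have hs : 0 < Real.sqrt 3 := Real.sqrt_pos.2 (by norm_num)
    have hκ0 : κ ≠ 0 := by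
      rintro rfl
      rw [norm_zero, zero_pow (by norm_num), zero_mul] at hκ
      exact zero_ne_one hκ
    have hpf := pfq_norm hq k
    rw [← hA] at hpf
    have hpf0 : ‖pfq q A‖ * ‖pfq (q ^ 2) A‖ ≠ 0 := by
      rw [hpf]
      exact pow_ne_zero _ hs.ne'
    have hp1 : pfq q A ≠ 0 := norm_ne_zero_iff.1 (left_ne_zero_of_mul hpf0)
    have hp2 : pfq (q ^ 2) A ≠ 0 := norm_ne_zero_iff.1 (right_ne_zero_of_mul hpf0)
    have hq0 : q ≠ 0 := norm_ne_zero_iff.1 (by rw [n1]; exact one_ne_zero)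
    have hq1 : (1 - q) ≠ 0 := norm_ne_zero_iff.1 (by rw [n2]; exact hs.ne')
    have hq2 : (1 - q ^ 2) ≠ 0 := norm_ne_zero_iff.1 (by rw [n3]; exact hs.ne')
    refine mul_ne_zero (mul_ne_zero (mul_ne_zero hκ0 hp1) hp2) (mul_ne_zero (mul_ne_zero
      (pow_ne_zero _ (by norm_num)) one_ne_zero) (mul_ne_zero (mul_ne_zero
        (pow_ne_zero _ (div_ne_zero hq0 hq2)) (pow_ne_zero _ (by norm_num))) (pow_ne_zero _ hq1)))
  intro c hc
  set l : Filter ℝ := 𝓝[>] (0 : ℝ) with hl
  set x : ℝ → ℕ → ℂ := fun t k => ((1 + t * k : ℝ) : ℂ) with hx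
  have hcont : ∀ k : ℕ, Tendsto (fun t : ℝ => x t k) l (𝓝 1) := by
    intro k
    have h1 : Continuous (fun t : ℝ => x t k) := by
      simp only [hx]
      fun_prop
    have h2 := h1.tendsto 0
    have h3 : x 0 k = 1 := by simp [hx]
    rw [h3] at h2
    exact h2.mono_left nhdsWithin_le_nhds
  have hpos : ∀ᶠ t in l, (0 : ℝ) < t := self_mem_nhdsWithin
  have hinj : ∀ᶠ t in l, Function.Injective (x t) := by
    filter_upwards [hpos] with t ht a b hab
    have h1 : (1 + t * a : ℝ) = 1 + t * b := Complex.ofReal_injective hab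
    have h2 : t * (a : ℝ) = t * b := by linarith
    have h3 := mul_left_cancel₀ ht.ne' h2
    exact_mod_cast h3
  have hmain := t_HL q (q ^ (2 * k) * c) hq N (2 * k) l x hcont hinj
  set z : ℝ → Fin N → ℂ := fun t i => x t i with hz
  have hztend : Tendsto z l (𝓝 (fun _ => (1 : ℂ))) := by
    rw [tendsto_pi_nhds]
    intro i
    exact hcont i
  have hGt : Tendsto (fun t => GG (e c) Ψ' Ψ A A (List.ofFn (z t))) l
      (𝓝 (GG (e c) Ψ' Ψ A A (List.ofFn (fun _ : Fin N => (1 : ℂ))))) :=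
    ((cont_GG' hD.h hD.h' A A N).tendsto _).comp hztend
  have hq2 : (q ^ 2 * 1 - q * 1) ^ 2 = (-3 : ℂ) := by
    linear_combination (q ^ 2 - 3 * q + 3) * hq
  have hP : Tendsto (fun t => wd q (z t)) l (𝓝 ((-3) ^ (N * (N - 1)))) := by
    have h1 : Tendsto (fun t => ∏ i, ∏ j ∈ Finset.univ.filter (· ≠ i),
        (q ^ 2 * z t i - q * z t j) ^ 2) l
        (𝓝 (∏ i : Fin N, ∏ _j ∈ Finset.univ.filter (· ≠ i), (q ^ 2 * 1 - q * 1) ^ 2)) := by
      refine tendsto_finsetProd _ fun i _ => tendsto_finsetProd _ fun j _ => ?_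
      exact (((hcont i).const_mul _).sub ((hcont j).const_mul _)).pow 2
    rw [hq2] at h1
    have h2 : (∏ i : Fin N, ∏ _j ∈ Finset.univ.filter (· ≠ i), (-3 : ℂ)) =
        (-3) ^ (N * (N - 1)) := by
      have h3 : ∀ i : Fin N, (∏ _j ∈ Finset.univ.filter (· ≠ i), (-3 : ℂ)) = (-3) ^ (N - 1) := by
        intro i
        rw [Finset.prod_const, Finset.filter_ne', Finset.card_erase_of_mem (Finset.mem_univ i),
          Finset.card_univ, Fintype.card_fin]
      rw [Finset.prod_congr rfl fun i _ => h3 i, Finset.prod_const, Finset.card_univ,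
        Fintype.card_fin, ← pow_mul, mul_comm]
    rw [h2] at h1
    exact h1
  have hZ : Tendsto (fun t => ∏ i, z t i) l (𝓝 1) := by
    have h1 : Tendsto (fun t => ∏ i, z t i) l (𝓝 (∏ _i : Fin N, (1 : ℂ))) :=
      tendsto_finsetProd _ fun i _ => hcont i
    simpa using h1
  have hRHS := (((hP.mul hZ).mul hmain).const_mul (κ * pfq q A * pfq (q ^ 2) A)).const_mul
    (c ^ n * c⁻¹ ^ N)
  have heq : ∀ᶠ t in l, GG (e c) Ψ' Ψ A A (List.ofFn (z t)) = c ^ n * c⁻¹ ^ N *
      (κ * pfq q A * pfq (q ^ 2) A *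
      (wd q (z t) * (∏ i, z t i) * (T q (q ^ (2 * k) * c) (List.replicate (2 * k) 1)
        (fun i : Fin N => x t i) / ((Matrix.vandermonde (fun i : Fin N => x t i)).det
          * (Matrix.vandermonde (fun i : Fin N => x t i)).det)))) := by
    filter_upwards [hpos, hinj] with t ht hit
    have hzinj : Function.Injective (z t) := by
      intro a b hab
      exact Fin.ext (hit hab)
    have hGn : Gn (List.ofFn (z t)) := by
      constructor
      · intro y hy
        rw [List.mem_ofFn] at hy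
        obtain ⟨i, rfl⟩ := hy
        simp only [hz, hx]
        have : (0 : ℝ) < 1 + t * (i : ℕ) := by positivity
        exact_mod_cast this.ne'
      · rw [List.map_ofFn, List.nodup_ofFn]
        intro a b hab
        simp only [hz, hx, Function.comp] at hab
        have h3 : (1 + t * (a : ℕ) : ℝ) ^ 3 = (1 + t * (b : ℕ) : ℝ) ^ 3 := by exact_mod_cast hab
        have h4 : (1 + t * (a : ℕ) : ℝ) = 1 + t * (b : ℕ) :=
          (pow_left_inj₀ (by positivity) (by positivity) (by norm_num)).mp h3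
        have h5 : t * ((a : ℕ) : ℝ) = t * ((b : ℕ) : ℝ) := by linarith
        have h6 := mul_left_cancel₀ ht.ne' h5
        exact Fin.ext (by exact_mod_cast h6)
    have h1 := hform c hc A A (z t) (by simp [hA]) (by simp [hA]) hGn
    rw [vd_eq, hkN, Nat.mul_div_cancel_left n (by norm_num)] at h1
    have hAA : A ++ A = List.replicate (2 * k) 1 := by
      rw [hA, List.replicate_append_replicate]
      congr 1
      ring
    rw [hAA] at h1
    have hV : (Matrix.vandermonde (z t)).det ≠ 0 := Matrix.det_vandermonde_ne_zero_iff.mpr hzinj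
    have hVV : (Matrix.vandermonde (z t)).det * (Matrix.vandermonde (z t)).det ≠ 0 :=
      mul_ne_zero hV hV
    change _ = _ * (_ * (_ * (_ / ((Matrix.vandermonde (z t)).det *
      (Matrix.vandermonde (z t)).det))))
    rw [← mul_div_assoc, ← mul_div_assoc, ← mul_div_assoc, eq_div_iff hVV]
    exact h1
  have hfin := tendsto_nhds_unique (hGt.congr' heq) hRHS
  rw [List.ofFn_const] at hfin
  rw [hfin]
  have hw : q ^ (2 * k) * c * (-q ^ 2) ^ (2 * k) = c := by
    have h1 : q ^ (2 * k) * (-q ^ 2) ^ (2 * k) = 1 := by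
      rw [← mul_pow, pow_mul, show (q * -q ^ 2) ^ 2 = (q ^ 3) ^ 2 by ring, hq3]
      simp
    linear_combination c * h1
  rw [hw]
  obtain ⟨u, hu⟩ := t_EG N (2 * k)
  have hpal := (hL4 N (2 * k) u hu).2.1 c hc
  have hcN : c⁻¹ ^ N * c ^ N = 1 := by rw [← mul_pow, inv_mul_cancel₀ hc, one_pow]
  rw [← hpal]
  linear_combination (κ * pfq q A * pfq (q ^ 2) A * ((-3) ^ (N * (N - 1)) * 1 *
    ((q / (1 - q ^ 2)) ^ N * (1 / 3) ^ (N * (N - 1) / 2) * (1 - q) ^ (2 * k * N))) * c ^ n *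
    Dl N (2 * k) c⁻¹) * hcN

end Pool.Agent.Helper21.AW
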