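import Pool.Agent.Helper21.AW.Stm
import Pool.Graph.R_seed8.H160R2.ML.T_insR

/-!
# Package INSR: an arc between through strands, with the counter
-/

set_option autoImplicit false

namespace Pool.Agent.Helper21.AW

open Pool.Agent.H863R2.Cyl Pool.Agent.H160R2.ML
open Pool.Agent.H988R2.Perc (Word PD)
open Pool.Agent.H863R2.Cyl.Sem4Aux

namespace TINSR

open Pool.Agent.H160R2.ML.TinsR

/-- the collapsing map with the counter -/
def Ph (N i N' i' : ℕ) (X : (ℤ × Bool) × ℤ) : (ℤ × Bool) × ℤ := (ph N i N' i' X.1, X.2)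

variable {p r i : ℕ} {w' u v' : Word} {i' : ℕ}

/-- from the old relation to the new one -/
theorem fwd (H : HH p r i w' u v' i') {x y : (ℤ × Bool) × ℤ}
    (hx : ¬ Is u.length i v'.length i' x.1) (hy : ¬ Is u.length i v'.length i' y.1)
    (h : CnW p r w' (lins i u) x y) :
    CnW p r v' u (Ph u.length i v'.length i' x) (Ph u.length i v'.length i' y) := by
  have hi := H.hi
  have hi' := H.hi'
  have hl2 := H.l2
  have hlv := H.lv
  have hii := H.ii
  have hpi := H.hp
  set N := u.length with hN
  set N' := v'.length with hN'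
  set y₀ := Ph N i N' i' y with hy₀
  have hE := Relation.EqvGen.is_equivalence (LgW p r v' u)
  set P : (ℤ × Bool) × ℤ → Prop := fun z => match z with
    | ((a, true), n) => ∃ b, ¬ iso N' i' b ∧ Rw w' a b ∧ CnW p r v' u ((sm N' i' b, true), n) y₀
    | ((a, false), n) => (¬ iso N i a ∧ CnW p r v' u ((sm N i a, false), n) y₀) ∨
      ∃ k : ℤ, a = i + 1 + k * (N + 2) ∧ ∃ b, ¬ iso N' i' b ∧ Rw w' (i' + 1 + k * (N' + 2)) b ∧
        CnW p r v' u ((sm N' i' b, true), n + if 0 ≤ k then 1 else 0) y₀ with hP
  have hPt : ∀ a n : ℤ, P ((a, true), n) ↔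
      ∃ b, ¬ iso N' i' b ∧ Rw w' a b ∧ CnW p r v' u ((sm N' i' b, true), n) y₀ :=
    fun a n => Iff.rfl
  have hPf : ∀ a n : ℤ, P ((a, false), n) ↔
      (¬ iso N i a ∧ CnW p r v' u ((sm N i a, false), n) y₀) ∨
      ∃ k : ℤ, a = i + 1 + k * (N + 2) ∧ ∃ b, ¬ iso N' i' b ∧ Rw w' (i' + 1 + k * (N' + 2)) b ∧
        CnW p r v' u ((sm N' i' b, true), n + if 0 ≤ k then 1 else 0) y₀ := fun a n => Iff.rfl
  have hPtn : ∀ a n : ℤ, ¬ iso N' i' a →
      (P ((a, true), n) ↔ CnW p r v' u ((sm N' i' a, true), n) y₀) := by
    intro a n ha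
    rw [hPt]
    constructor
    · rintro ⟨b, hb, h1, h2⟩
      exact hE.trans (Relation.EqvGen.rel _ _ (LgW.upp _ _ _ (H.up ha hb h1))) h2
    · intro h
      exact ⟨a, ha, (Rw_equiv _).refl _, h⟩
  have hPfn : ∀ a n : ℤ, ¬ iso N i a →
      (P ((a, false), n) ↔ CnW p r v' u ((sm N i a, false), n) y₀) := by
    intro a n ha
    rw [hPf]
    constructor
    · rintro (h | ⟨k, hk, _⟩)
      · exact h.2
      · exact absurd ⟨k, hk⟩ ha
    · intro h
      exact Or.inl ⟨ha, h⟩
  have hL : ∀ x y, LgW p r w' (lins i u) x y → (P x ↔ P y) := by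
    intro x y hxy
    rcases hxy with ⟨a, b, n, h⟩ | ⟨a, b, n, h⟩ | ⟨s, n, j, hj⟩
    · rw [rw_lins' hi] at h
      rcases h with h | ⟨h1, h2, h3⟩
      · rw [h]
      · rw [hPfn a n h1, hPfn b n h2]
        have e : CnW p r v' u ((sm N i a, false), n) ((sm N i b, false), n) :=
          Relation.EqvGen.rel _ _ (LgW.low _ _ _ h3)
        exact ⟨fun h => hE.trans (hE.symm e) h, fun h => hE.trans e h⟩
    · rw [hPt, hPt]
      constructor
      · rintro ⟨c, h1, h2, h3⟩
        exact ⟨c, h1, (Rw_equiv _).trans ((Rw_equiv _).symm h) h2, h3⟩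
      · rintro ⟨c, h1, h2, h3⟩
        exact ⟨c, h1, (Rw_equiv _).trans h h2, h3⟩
    · rw [llen] at hj
      have ea : s * ((lins i u).length : ℤ) + p + j = s * ((N : ℤ) + 2) + (p + j) := by
        rw [llen]; push_cast; ring
      have eb : s * (w'.length : ℤ) + r + j = s * ((N' : ℤ) + 2) + (r + j) := by
        rw [hl2]; push_cast; ring
      rw [ea, eb]
      rcases lt_trichotomy (p + j) (i + 1) with hc | hc | hc
      · obtain ⟨t1, t2⟩ := sm_lo (N := N) (i := i) hi s (p + j) (by omega) (by omega)
        obtain ⟨t3, t4⟩ := sm_lo (N := N') (i := i') hi' s (r + j) (by omega) (by omega)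
        rw [hPfn _ _ t2, hPtn _ _ t4, t1, t3]
        have g := LgW.glue (p := p) (r := r) (w' := v') (w := u) s n j (by omega)
        have e : CnW p r v' u ((s * N + (p + j), false), n)
            ((s * N' + (r + j), true), n + if 0 ≤ s then 1 else 0) := by
          have := Relation.EqvGen.rel _ _ g
          rw [add_assoc, add_assoc] at this
          exact this
        exact ⟨fun h => hE.trans (hE.symm e) h, fun h => hE.trans e h⟩
      · have e1 : s * ((N : ℤ) + 2) + (p + j) = i + 1 + s * (N + 2) := by
          have : (p : ℤ) + j = i + 1 := by exact_mod_cast hc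
          rw [this]; ring
        have e2 : s * ((N' : ℤ) + 2) + (r + j) = i' + 1 + s * (N' + 2) := by
          have : (r : ℤ) + j = i' + 1 := by
            have : r + j = i' + 1 := by omega
            exact_mod_cast this
          rw [this]; ring
        rw [e1, e2, hPt, hPf]
        constructor
        · rintro (h | ⟨k, hk, h⟩)
          · exact absurd ⟨s, rfl⟩ h.1
          · have : k = s := by
              have h5 : (s - k) * ((N : ℤ) + 2) = 0 := by linear_combination hk
              rcases mul_eq_zero.1 h5 with h6 | h6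
              · omega
              · omega
            rw [this] at h
            exact h
        · intro h
          exact Or.inr ⟨s, rfl, h⟩
      · obtain ⟨t1, t2⟩ := sm_hi (N := N) (i := i) hi s (p + j) (by omega) (by omega)
        obtain ⟨t3, t4⟩ := sm_hi (N := N') (i := i') hi' s (r + j) (by omega) (by omega)
        rw [hPfn _ _ t2, hPtn _ _ t4, t1, t3]
        have g := LgW.glue (p := p) (r := r) (w' := v') (w := u) s n (j - 2) (by omega)
        have ej : ((j - 2 : ℕ) : ℤ) = j - 2 := by omega
        have e : CnW p r v' u ((s * N + (p + j) - 2, false), n)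
            ((s * N' + (r + j) - 2, true), n + if 0 ≤ s then 1 else 0) := by
          have := Relation.EqvGen.rel _ _ g
          rw [ej] at this
          rw [show s * (N : ℤ) + (p + j) - 2 = s * (u.length : ℤ) + p + (j - 2) by rw [hN]; ring,
            show s * (N' : ℤ) + (r + j) - 2 = s * (v'.length : ℤ) + r + (j - 2) by rw [hN']; ring]
          exact this
        exact ⟨fun h => hE.trans (hE.symm e) h, fun h => hE.trans e h⟩
  have hC : ∀ x y, CnW p r w' (lins i u) x y → (P x ↔ P y) := by
    intro x y hxy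
    unfold CnW at hxy
    induction hxy with
    | rel x y h => exact hL x y h
    | refl x => exact Iff.rfl
    | symm x y _ ih => exact ih.symm
    | trans x y z _ _ ih1 ih2 => exact ih1.trans ih2
  have hPn : ∀ z : (ℤ × Bool) × ℤ, ¬ Is N i N' i' z.1 →
      (P z ↔ CnW p r v' u (Ph N i N' i' z) y₀) := by
    intro z hz
    rcases z with ⟨⟨a, _ | _⟩, n⟩
    · exact hPfn a n hz
    · exact hPtn a n hz
  rw [← hPn x hx, hC x y h, hPn y hy]
  exact Relation.EqvGen.refl _

/-- the upper relation of the capped word -/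
theorem gen (H : HH p r i w' u v' i') {a b : ℤ}
    (h : Relation.EqvGen (fun x y => (¬ isol w' i' x ∧ ¬ isol w' i' y ∧ Rw w' x y) ∨
        ∃ k : ℤ, x = i' + k * w'.length ∧ y = i' + 2 + k * w'.length) a b) (n : ℤ) :
    CnW p r w' (lins i u) ((a, true), n) ((b, true), n) := by
  have hi := H.hi
  have hi' := H.hi'
  have hl2 := H.l2
  have hlv := H.lv
  have hii := H.ii
  have hpi := H.hp
  have hE := Relation.EqvGen.is_equivalence (LgW p r w' (lins i u))
  induction h with
  | rel a b h =>
    rcases h with h | ⟨k, h1, h2⟩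
    · exact Relation.EqvGen.rel _ _ (LgW.upp _ _ _ h.2.2)
    · have ej : ((i - p : ℕ) : ℤ) = i - p := by omega
      have ej2 : ((i - p + 2 : ℕ) : ℤ) = i - p + 2 := by omega
      have ei : (i' : ℤ) = i + r - p := by omega
      have g1 := Relation.EqvGen.rel _ _ (LgW.glue (p := p) (r := r) (w' := w') (w := lins i u) k
        (n - if 0 ≤ k then 1 else 0) (i - p) (by rw [llen]; omega))
      have g2 := Relation.EqvGen.rel _ _ (LgW.glue (p := p) (r := r) (w' := w') (w := lins i u) k
        (n - if 0 ≤ k then 1 else 0) (i - p + 2) (by rw [llen]; omega))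
      rw [sub_add_cancel] at g1 g2
      have e1 : k * ((lins i u).length : ℤ) + p + ((i - p : ℕ) : ℤ) =
          k * ((u.length : ℤ) + 2) + i := by
        rw [llen, ej]; push_cast; ring
      have e2 : k * ((lins i u).length : ℤ) + p + ((i - p + 2 : ℕ) : ℤ) =
          k * ((u.length : ℤ) + 2) + (i + 2) := by
        rw [llen, ej2]; push_cast; ring
      have e3 : k * (w'.length : ℤ) + r + ((i - p : ℕ) : ℤ) = a := by
        rw [h1, ej, ei]; ring
      have e4 : k * (w'.length : ℤ) + r + ((i - p + 2 : ℕ) : ℤ) = b := by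
        rw [h2, ej2, ei]; ring
      rw [e1, e3] at g1
      rw [e2, e4] at g2
      obtain ⟨t1, t2⟩ := sm_lo (N := u.length) (i := i) hi k i (by omega) (by omega)
      obtain ⟨t3, t4⟩ := sm_hi (N := u.length) (i := i) hi k (i + 2) (by omega) (by omega)
      have g3 : CnW p r w' (lins i u)
          ((k * ((u.length : ℤ) + 2) + i, false), n - if 0 ≤ k then 1 else 0)
          ((k * ((u.length : ℤ) + 2) + (i + 2), false), n - if 0 ≤ k then 1 else 0) := by
        apply Relation.EqvGen.rel
        apply LgW.low
        rw [rw_lins' hi]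
        right
        refine ⟨t2, t4, ?_⟩
        rw [t1, t3, show k * (u.length : ℤ) + ((i : ℤ) + 2) - 2 = k * (u.length : ℤ) + i by ring]
        exact (Rw_equiv _).refl _
      exact hE.trans (hE.symm g1) (hE.trans g3 g2)
  | refl a => exact Relation.EqvGen.refl _
  | symm a b _ ih => exact Relation.EqvGen.symm _ _ ih
  | trans a b c _ _ ih1 ih2 => exact Relation.EqvGen.trans _ _ _ ih1 ih2

/-- two points with the same image are connected -/
theorem same (H : HH p r i w' u v' i') {x y : (ℤ × Bool) × ℤ}
    (hx : ¬ Is u.length i v'.length i' x.1) (hy : ¬ Is u.length i v'.length i' y.1)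
    (h : Ph u.length i v'.length i' x = Ph u.length i v'.length i' y) :
    CnW p r w' (lins i u) x y := by
  have h' : ph u.length i v'.length i' x.1 = ph u.length i v'.length i' y.1 :=
    congrArg Prod.fst h
  have hn : (Ph u.length i v'.length i' x).2 = (Ph u.length i v'.length i' y).2 :=
    congrArg Prod.snd h
  rcases x with ⟨⟨a, _ | _⟩, n⟩
  · rcases y with ⟨⟨b, _ | _⟩, m⟩
    · have h1 : sm u.length i a = sm u.length i b := congrArg Prod.fst h'
      have hn' : n = m := hn
      subst hn'
      apply Relation.EqvGen.rel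
      apply LgW.low
      rw [rw_lins' H.hi]
      right
      refine ⟨hx, hy, ?_⟩
      rw [h1]
      exact (Rw_equiv _).refl _
    · exact absurd (congrArg Prod.snd h') (by simp [ph])
  · rcases y with ⟨⟨b, _ | _⟩, m⟩
    · exact absurd (congrArg Prod.snd h') (by simp [ph])
    · have h1 : sm v'.length i' a = sm v'.length i' b := congrArg Prod.fst h'
      have hn' : n = m := hn
      subst hn'
      apply gen H
      rw [← H.capp hx hy, h1]
      exact (Rw_equiv _).refl _

/-- from the new relation to the old one -/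
theorem bwd (H : HH p r i w' u v' i') {X Y : (ℤ × Bool) × ℤ} (h : CnW p r v' u X Y) :
    X = Y ∨ ∃ x y : (ℤ × Bool) × ℤ, ¬ Is u.length i v'.length i' x.1 ∧
      ¬ Is u.length i v'.length i' y.1 ∧
      Ph u.length i v'.length i' x = X ∧ Ph u.length i v'.length i' y = Y ∧
      CnW p r w' (lins i u) x y := by
  have hi := H.hi
  have hi' := H.hi'
  have hl2 := H.l2
  have hlv := H.lv
  have hii := H.ii
  have hpi := H.hp
  have hE := Relation.EqvGen.is_equivalence (LgW p r w' (lins i u))
  unfold CnW at h
  induction h with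
  | rel X Y h =>
    rcases h with ⟨a, b, n, h⟩ | ⟨a, b, n, h⟩ | ⟨s, n, j, hj⟩
    · rcases Nat.eq_zero_or_pos u.length with h0 | h0
      · have hu : u = [] := List.length_eq_zero_iff.1 h0
        rw [hu, Rw_nil] at h
        left
        rw [h]
      · right
        obtain ⟨t1, t2⟩ := sec_spec (N := u.length) (i := i) h0 a
        obtain ⟨t3, t4⟩ := sec_spec (N := u.length) (i := i) h0 b
        refine ⟨((Sem4Aux.sec u.length i a, false), n), ((Sem4Aux.sec u.length i b, false), n),
          t1, t3, ?_, ?_, ?_⟩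
        · simp only [Ph, ph, t2]
        · simp only [Ph, ph, t4]
        · apply Relation.EqvGen.rel
          apply LgW.low
          rw [rw_lins' hi]
          right
          exact ⟨t1, t3, by rw [t2, t4]; exact h⟩
    · rcases Nat.eq_zero_or_pos v'.length with h0 | h0
      · have hu : v' = [] := List.length_eq_zero_iff.1 h0
        rw [hu, Rw_nil] at h
        left
        rw [h]
      · right
        obtain ⟨t1, t2⟩ := sec_spec (N := v'.length) (i := i') h0 a
        obtain ⟨t3, t4⟩ := sec_spec (N := v'.length) (i := i') h0 b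
        refine ⟨((Sem4Aux.sec v'.length i' a, true), n), ((Sem4Aux.sec v'.length i' b, true), n),
          t1, t3, ?_, ?_, ?_⟩
        · simp only [Ph, ph, t2]
        · simp only [Ph, ph, t4]
        · apply gen H
          rw [← H.capp t1 t3, t2, t4]
          exact h
    · right
      rcases le_or_gt (p + j) i with hc | hc
      · obtain ⟨t1, t2⟩ := sm_lo (N := u.length) (i := i) hi s (p + j) (by omega) (by omega)
        obtain ⟨t3, t4⟩ := sm_lo (N := v'.length) (i := i') hi' s (r + j) (by omega) (by omega)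
        refine ⟨((s * ((u.length : ℤ) + 2) + (p + j), false), n),
          ((s * ((v'.length : ℤ) + 2) + (r + j), true), n + if 0 ≤ s then 1 else 0),
          t2, t4, ?_, ?_, ?_⟩
        · simp only [Ph, ph, t1, add_assoc]
        · simp only [Ph, ph, t3, add_assoc]
        · have g := Relation.EqvGen.rel _ _ (LgW.glue (p := p) (r := r) (w' := w')
            (w := lins i u) s n j (by rw [llen]; omega))
          rw [llen, hl2] at g
          push_cast at g
          rw [add_assoc, add_assoc (s * _)] at g
          exact g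
      · obtain ⟨t1, t2⟩ := sm_hi (N := u.length) (i := i) hi s (p + j + 2) (by omega) (by omega)
        obtain ⟨t3, t4⟩ := sm_hi (N := v'.length) (i := i') hi' s (r + j + 2) (by omega)
          (by omega)
        refine ⟨((s * ((u.length : ℤ) + 2) + (p + j + 2), false), n),
          ((s * ((v'.length : ℤ) + 2) + (r + j + 2), true), n + if 0 ≤ s then 1 else 0),
          t2, t4, ?_, ?_, ?_⟩
        · simp only [Ph, ph, t1, Prod.mk.injEq, and_true]
          ring
        · simp only [Ph, ph, t3, Prod.mk.injEq, and_true]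
          ring
        · have g := Relation.EqvGen.rel _ _ (LgW.glue (p := p) (r := r) (w' := w')
            (w := lins i u) s n (j + 2) (by rw [llen]; omega))
          rw [llen, hl2] at g
          push_cast at g
          rw [show s * ((u.length : ℤ) + 2) + p + (j + 2) =
            s * ((u.length : ℤ) + 2) + (p + j + 2) by ring,
            show s * ((v'.length : ℤ) + 2) + r + (j + 2) =
            s * ((v'.length : ℤ) + 2) + (r + j + 2) by ring] at g
          exact g
  | refl X => exact Or.inl rfl
  | symm X Y _ ih =>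
    rcases ih with h | ⟨x, y, h1, h2, h3, h4, h5⟩
    · exact Or.inl h.symm
    · exact Or.inr ⟨y, x, h2, h1, h4, h3, hE.symm h5⟩
  | trans X Y Z _ _ ih1 ih2 =>
    rcases ih1 with h | ⟨x, y, h1, h2, h3, h4, h5⟩
    · rw [h]; exact ih2
    · rcases ih2 with k | ⟨y', z, k1, k2, k3, k4, k5⟩
      · rw [← k]; exact Or.inr ⟨x, y, h1, h2, h3, h4, h5⟩
      · exact Or.inr ⟨x, z, h1, k2, h3, k4,
          hE.trans h5 (hE.trans (same H h2 k1 (h4.trans k3.symm)) k5)⟩

/-- the two relations agree -/
theorem cn_iff (H : HH p r i w' u v' i') {x y : (ℤ × Bool) × ℤ}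
    (hx : ¬ Is u.length i v'.length i' x.1) (hy : ¬ Is u.length i v'.length i' y.1) :
    CnW p r w' (lins i u) x y ↔
      CnW p r v' u (Ph u.length i v'.length i' x) (Ph u.length i v'.length i' y) := by
  have hE := Relation.EqvGen.is_equivalence (LgW p r w' (lins i u))
  constructor
  · exact fwd H hx hy
  · intro h
    rcases bwd H h with h | ⟨x', y', h1, h2, h3, h4, h5⟩
    · exact same H hx hy h
    · exact hE.trans (same H hx h1 h3.symm) (hE.trans h5 (same H h2 hy h4))

/-- the sectors of the slit `0` -/
theorem lff (H : HH p r i w' u v' i') (hpr : 1 ≤ p + r) (j : ℤ) :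
    ¬ Is u.length i v'.length i' (lf p r j).1 ∧
      Ph u.length i v'.length i' (lf p r j) = lf p r j := by
  have hi := H.hi
  have hi' := H.hi'
  have hl2 := H.l2
  have hlv := H.lv
  have hii := H.ii
  have hpi := H.hp
  have c0 : 0 ≤ j % ((p + r : ℕ) : ℤ) := Int.emod_nonneg _ (by omega)
  have c1 : j % ((p + r : ℕ) : ℤ) < ((p + r : ℕ) : ℤ) := Int.emod_lt_of_pos _ (by omega)
  unfold lf
  split_ifs with h
  · obtain ⟨t1, t2⟩ := sm_lo (N := u.length) (i := i) hi 0 (j % ((p + r : ℕ) : ℤ)) c0 (by omega)
    rw [zero_mul, zero_add, zero_mul, zero_add] at t1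
    rw [zero_mul, zero_add] at t2
    exact ⟨t2, by simp only [Ph, ph, t1]⟩
  · obtain ⟨t1, t2⟩ := sm_lo (N := v'.length) (i := i') hi' 0
      (((p + r : ℕ) : ℤ) - j % ((p + r : ℕ) : ℤ)) (by omega) (by omega)
    rw [zero_mul, zero_add, zero_mul, zero_add] at t1
    rw [zero_mul, zero_add] at t2
    exact ⟨t2, by simp only [Ph, ph, t1]⟩

theorem ixx (H : HH p r i w' u v' i') (hpr : 1 ≤ p + r) (j : ℤ) :
    Ix p r w' (lins i u) j ↔ Ix p r v' u j := by
  unfold Ix
  refine forall_congr' fun c => forall_congr' fun hc => exists_congr fun d =>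
    and_congr_right fun hd => ?_
  have h1 := lff H hpr (j + c)
  have h2 := H.ptt 1 d hd
  have h3 : ¬ Is u.length i v'.length i' (tg p r w' (lins i u) d).1 := h2.1
  rw [cn_iff H h1.1 h3, h1.2]
  have h4 : Ph u.length i v'.length i' (tg p r w' (lins i u) d) = tg p r v' u d := by
    unfold Ph tg
    simp only
    rw [h2.2]
  rw [h4]

end TINSR

open TINSR Pool.Agent.H160R2.ML.TinsR in
theorem t_INSR : W_insR := by
  intro k p r i w' u hk hpr hw' _ _ hl hpi hi j
  have h1 := length_cap (i := i - p + r) (w := w') (by omega)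
  have H : HH p r i w' u (cap (i - p + r) w') (i - p + r) :=
    { ok := hw'
      l2 := h1.symm
      lv := by omega
      hv := rfl
      ii := by omega
      hp := hpi
      hi := hi }
  unfold JJ
  rw [H.good, ixx H (by omega) j]

end Pool.Agent.Helper21.AW
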