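import Pool.Agent.Helper21.AW.Stm
import Pool.Agent.Helper21.WN.T_L1
import Pool.Agent.Helper31.AW.L23

/-! # Task L23 -/

set_option autoImplicit false

namespace Pool.Agent.Helper21.AW

theorem t_L2 : W_L2 := fun k t _ => Pool.Agent.Helper31.AW.l2 k t
  (Pool.Agent.Helper21.WN.t_L1 t).1 (Pool.Agent.Helper21.WN.t_L1 t).2

theorem t_L3 : W_L3 := fun k _ => Pool.Agent.Helper31.AW.l3 k

end Pool.Agent.Helper21.AW
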