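import Pool.Agent.Helper21.AW.Stm

/-!
# The generating function as a product (step L4)
-/

set_option autoImplicit false

namespace Pool.Agent.Helper21.AW

open Pool.Agent.H160R2.ML

namespace L4W

variable {N l : ℕ} {u : Fin N → ℝ}

/-- products may be reversed -/
theorem prod_rev (f : Fin N → ℝ) : ∏ i, f (Fin.rev i) = ∏ i, f i :=
  Equiv.prod_comp Fin.revPerm f

theorem prod_revC (f : Fin N → ℂ) : ∏ i, f (Fin.rev i) = ∏ i, f i :=
  Equiv.prod_comp Fin.revPerm f

/-- the symmetric generating function -/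
noncomputable def R (u : Fin N → ℝ) (t : ℝ) : ℝ :=
  ∏ i, (Real.exp (t / 2) + Real.exp (-(t / 2)) * Real.exp (u i))

theorem R_pos (t : ℝ) : 0 < R u t := Finset.prod_pos fun _ _ => by positivity

theorem R_sq (hu : ∀ i, u (Fin.rev i) = - u i) (t : ℝ) :
    R u t ^ 2 = ∏ i, (2 * (Real.cosh (u i) + Real.cosh t)) := by
  have h1 : R u t = ∏ i, (Real.exp (t / 2) + Real.exp (-(t / 2)) * Real.exp (-u i)) := by
    unfold R
    rw [← prod_rev (fun i => Real.exp (t / 2) + Real.exp (-(t / 2)) * Real.exp (u i))]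
    simp only [hu]
  rw [sq]
  nth_rewrite 2 [h1]
  unfold R
  rw [← Finset.prod_mul_distrib]
  refine Finset.prod_congr rfl fun i _ => ?_
  rw [Real.cosh_eq, Real.cosh_eq]
  have e1 : Real.exp (t / 2) * Real.exp (-(t / 2)) = 1 := by rw [← Real.exp_add]; simp
  have e2 : Real.exp (u i) * Real.exp (-u i) = 1 := by rw [← Real.exp_add]; simp
  have e3 : Real.exp (t / 2) * Real.exp (t / 2) = Real.exp t := by rw [← Real.exp_add]; ring_nf
  have e4 : Real.exp (-(t / 2)) * Real.exp (-(t / 2)) = Real.exp (-t) := by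
    rw [← Real.exp_add]; ring_nf
  linear_combination e3 + (Real.exp (u i) * Real.exp (-u i)) * e4 + Real.exp (-t) * e2 +
    (Real.exp (u i) + Real.exp (-u i)) * e1

theorem Dl_exp (h : IsEig N l u) (t : ℝ) :
    Complex.exp ((t * N / 2 : ℝ) : ℂ) * Dl N l (Complex.exp (t : ℂ))⁻¹ = (R u t : ℂ) := by
  rw [h.2.2]
  have h1 : Complex.exp ((t * N / 2 : ℝ) : ℂ) = ∏ _i : Fin N, Complex.exp ((t / 2 : ℝ) : ℂ) := by
    rw [Finset.prod_const, Finset.card_univ, Fintype.card_fin, ← Complex.exp_nat_mul]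
    congr 1
    push_cast
    ring
  rw [h1, ← Finset.prod_mul_distrib]
  unfold R
  rw [Complex.ofReal_prod]
  refine Finset.prod_congr rfl fun i _ => ?_
  push_cast
  rw [← Complex.exp_neg, mul_add, mul_one, ← mul_assoc, ← Complex.exp_add]
  congr 2
  congr 1
  ring

end L4W

theorem t_L4 : W_L4 := by
  intro N l u h
  have hu := h.2.1
  have hD1 : Dl N l 1 = (L4W.R u 0 : ℂ) := by
    have := L4W.Dl_exp h 0
    simpa using this
  refine ⟨fun t => ?_, fun w hw => ?_, ⟨_, L4W.R_pos 0, hD1⟩, fun w => ?_⟩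
  · rw [L4W.Dl_exp h t, hD1, ← Complex.ofReal_mul]
    congr 1
    have pos : ∀ x y : ℝ, 0 < Real.cosh x + Real.cosh y := fun x y =>
      add_pos (Real.cosh_pos x) (Real.cosh_pos y)
    have pos1 : ∀ x : ℝ, 0 < Real.cosh x + 1 := fun x => by have := Real.cosh_pos x; linarith
    have hsq : L4W.R u t ^ 2 = (L4W.R u 0 * Real.exp ((∑ i, Real.log ((Real.cosh (u i) +
        Real.cosh t) / (Real.cosh (u i) + 1))) / 2)) ^ 2 := by
      rw [mul_pow, L4W.R_sq hu, L4W.R_sq hu, ← Real.exp_nat_mul]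
      have e1 : ((2 : ℕ) : ℝ) * ((∑ i, Real.log ((Real.cosh (u i) +
        Real.cosh t) / (Real.cosh (u i) + 1))) / 2) = ∑ i, Real.log ((Real.cosh (u i) +
        Real.cosh t) / (Real.cosh (u i) + 1)) := by push_cast; ring
      rw [e1, Real.exp_sum, ← Finset.prod_mul_distrib]
      refine Finset.prod_congr rfl fun i _ => ?_
      rw [Real.exp_log (div_pos (pos _ _) (pos1 _)), Real.cosh_zero]
      have := (pos1 (u i)).ne'
      field_simp
    exact (sq_eq_sq₀ (L4W.R_pos t).le (mul_pos (L4W.R_pos 0) (Real.exp_pos _)).le).1 hsq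
  · have hE : (∏ i, (Real.exp (u i) : ℂ)) = 1 := by
      have h1 : (∏ i, Real.exp (u i)) = 1 := by
        have h2 : (∏ i, Real.exp (u i)) * (∏ i, Real.exp (u i)) = 1 := by
          nth_rewrite 2 [← L4W.prod_rev]
          rw [← Finset.prod_mul_distrib]
          refine Finset.prod_eq_one fun i _ => ?_
          rw [hu, ← Real.exp_add]
          simp
        have h3 : 0 < ∏ i, Real.exp (u i) := Finset.prod_pos fun i _ => Real.exp_pos _
        nlinarith [sq_nonneg ((∏ i, Real.exp (u i)) - 1)]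
      rw [← Complex.ofReal_prod, h1, Complex.ofReal_one]
    rw [h.2.2, h.2.2]
    have h1 : w ^ N = ∏ _i : Fin N, w := by simp
    rw [h1, ← Finset.prod_mul_distrib, ← L4W.prod_revC (fun i => w * (1 + w⁻¹ * (Real.exp (u i) : ℂ))),
      ← one_mul (∏ i, w * (1 + w⁻¹ * (Real.exp (u (Fin.rev i)) : ℂ)))]
    nth_rewrite 1 [← hE]
    rw [← Finset.prod_mul_distrib]
    refine Finset.prod_congr rfl fun i _ => ?_
    rw [hu]
    have e1 : (Real.exp (u i) : ℂ) * (Real.exp (-u i) : ℂ) = 1 := by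
      rw [← Complex.ofReal_mul, ← Real.exp_add]; simp
    have e2 : w * w⁻¹ = 1 := mul_inv_cancel₀ hw
    linear_combination w * w⁻¹ * e1 + e2
  · rw [hD1, h.2.2]
    unfold L4W.R
    rw [Complex.ofReal_prod, ← Finset.prod_mul_distrib]
    refine Finset.prod_congr rfl fun i _ => ?_
    have h1 : (0:ℝ) < 1 + Real.exp (u i) := by positivity
    have h2 : ((1 : ℂ) + (Real.exp (u i) : ℂ)) ≠ 0 := by
      have h3 : ((1 + Real.exp (u i) : ℝ) : ℂ) ≠ 0 := by exact_mod_cast h1.ne'
      simpa using h3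
    simp only [zero_div, neg_zero, Real.exp_zero, one_mul]
    rw [Complex.ofReal_div, Complex.ofReal_add, Complex.ofReal_one]
    field_simp
    ring

end Pool.Agent.Helper21.AW
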