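import Pool.Agent.Helper21.AW.Defs
import Pool.Agent.Helper21.EV.Prob2
import Pool.Graph.R_seed8.H160R2.ML.All

/-!
# The steps (every step is a `Prop`; package `X` proves `t_X` from its hypotheses)
-/

set_option autoImplicit false

namespace Pool.Agent.Helper21.AW

open Pool.Agent.H863R2.Cyl Pool.Agent.H160R2.ML Pool.Agent.Helper21.EV
open Pool.Agent.H988R2.Perc (Word PD)
open MeasureTheory ProbabilityTheory Filter Topology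

/-! ## K: the index of the legs -/

def W_symm : Prop := ∀ (k p r : ℕ) (w' w : Word), 1 ≤ k → p + r = 2 * k →
  w'.length + p = w.length + r → p ≤ w.length → ∀ j : ℤ, JJ p r w' w j → JJ r p w w' (k - j)

def W_insR : Prop := ∀ (k p r i : ℕ) (w' u : Word), 1 ≤ k → p + r = 2 * k → Ok w' → Ok u →
  Even u.length → w'.length + p = u.length + 2 + r → p ≤ i → i ≤ u.length →
  ∀ j : ℤ, JJ p r w' (lins i u) j ↔ JJ p r (cap (i - p + r) w') u j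

def W_moveR : Prop := ∀ (k p r : ℕ) (w' u : Word), 1 ≤ k → p + r = 2 * k → Ok w' → Ok u →
  Even u.length → w'.length + p = u.length + 2 + r → 1 ≤ p → p ≤ u.length + 1 →
  ∀ j : ℤ, JJ p r w' (lins (p - 1) u) j ↔ JJ (p - 1) (r + 1) w' u j

def W_moveL : Prop := ∀ (k p r : ℕ) (w' u : Word), 1 ≤ k → p + r = 2 * k → Ok w' → Ok u →
  Even u.length → w'.length + p = u.length + 2 + r → 1 ≤ p → p ≤ u.length + 1 →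
  ∀ j : ℤ, JJ p r w' (seam u) j ↔ JJ (p - 1) (r + 1) (rotr w') u (j - 1)

def W_base : Prop := ∀ k p r : ℕ, 1 ≤ k → p + r = 2 * k → Even p → Even r →
  ∀ j : ℤ, JJ p r (bw r) (bw p) j ↔ 2 * j = p

/-- the index is unique, and it exists -/
def W_uniq : Prop := ∀ (k p r : ℕ) (w' w : Word), 1 ≤ k → p + r = 2 * k → Ok w' → Ok w →
  Even w.length → w'.length + p = w.length + r → p ≤ w.length →
  (∀ j j' : ℤ, JJ p r w' w j → JJ p r w' w j' → j = j') ∧ (Good p r w' w → ∃ j, JJ p r w' w j)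

def W_LS : Prop := ∀ k : ℕ, 1 ≤ k → LSpecW k eW

/-! ## G: the partition function with legs -/

def W_legx : Prop := ∀ (q : ℂ) (k : ℕ) (e : ℂ → ℕ → ℕ → Word → Word → ℂ) (Ψ Ψ' : List ℂ → VW),
  DatW q k e Ψ Ψ' → ∀ c : ℂ, c ≠ 0 → ∀ (u v B z : List ℂ) (x y : ℂ),
  u.length + v.length + 2 + B.length = 2 * k → Even (u.length + v.length + z.length) →
  (q * y - q ^ 2 * x) * GG (e c) Ψ' Ψ (u ++ y :: x :: v) B z =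
    (q * x - q ^ 2 * y) * GG (e c) Ψ' Ψ (u ++ x :: y :: v) B z

def W_thr : Prop := ∀ (q : ℂ) (k : ℕ) (e : ℂ → ℕ → ℕ → Word → Word → ℂ) (Ψ Ψ' : List ℂ → VW),
  DatW q k e Ψ Ψ' → ∀ c : ℂ, c ≠ 0 → ∀ (A B z z' : List ℂ), z.Perm z' →
  A.length + B.length = 2 * k → Even (A.length + z.length) → Gn z →
  GG (e c) Ψ' Ψ A B z = GG (e c) Ψ' Ψ A B z'

def W_mvR : Prop := ∀ (q : ℂ) (k : ℕ) (e : ℂ → ℕ → ℕ → Word → Word → ℂ) (Ψ Ψ' : List ℂ → VW),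
  DatW q k e Ψ Ψ' → ∀ c : ℂ, c ≠ 0 → ∀ (A B z : List ℂ) (x : ℂ),
  A.length + 1 + B.length = 2 * k → Even (A.length + z.length) →
  GG (e c) Ψ' Ψ (A ++ [x]) B ((q * x) :: z) =
    fac q x (A ++ z) * GG (e c) Ψ' Ψ A (B ++ [q * x]) z

def W_mvL : Prop := ∀ (q : ℂ) (k : ℕ) (e : ℂ → ℕ → ℕ → Word → Word → ℂ) (Ψ Ψ' : List ℂ → VW),
  DatW q k e Ψ Ψ' → ∀ c : ℂ, c ≠ 0 → ∀ (A B z : List ℂ) (y : ℂ),
  A.length + 1 + B.length = 2 * k → Even (A.length + z.length) →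
  GG (e c) Ψ' Ψ ((q * y) :: A) B (z ++ [y]) =
    c * (fac q y (A ++ z) * GG (e c) Ψ' Ψ A (y :: B) z)

def W_deg : Prop := ∀ (q : ℂ) (k : ℕ) (e : ℂ → ℕ → ℕ → Word → Word → ℂ) (Ψ Ψ' : List ℂ → VW),
  DatW q k e Ψ Ψ' → ∀ c : ℂ, c ≠ 0 → ∀ (A B z : List ℂ), A.length + 1 + B.length = 2 * k →
  ∃ P : Polynomial ℂ, P.natDegree ≤ A.length + z.length ∧
    ∀ x, P.eval x = GG (e c) Ψ' Ψ (A ++ [x]) B z

def W_swap : Prop := ∀ (q : ℂ) (k : ℕ) (e : ℂ → ℕ → ℕ → Word → Word → ℂ) (Ψ Ψ' : List ℂ → VW),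
  DatW q k e Ψ Ψ' → ∀ c : ℂ, c ≠ 0 → ∀ (A B z : List ℂ), A.length + B.length = 2 * k →
  GG (e c) Ψ' Ψ A B z = c ^ k * GG (e c⁻¹) Ψ Ψ' B A z

def W_bs : Prop := ∀ (q : ℂ) (k : ℕ) (e : ℂ → ℕ → ℕ → Word → Word → ℂ) (Ψ Ψ' : List ℂ → VW),
  DatW q k e Ψ Ψ' → ∀ c : ℂ, c ≠ 0 → ∀ (A B : List ℂ), A.length + B.length = 2 * k →
  Even A.length → Gn A → Gn B →
  GG (e c) Ψ' Ψ A B [] * ((q - 1) ^ (A.length / 2) * (q ^ 2 - 1) ^ (B.length / 2))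
    = c ^ (A.length / 2) * (pfq q A * pfq (q ^ 2) B)

/-- **the exact formula** (generic parameters) -/
def W_TA : Prop := ∀ (q : ℂ) (k : ℕ) (e : ℂ → ℕ → ℕ → Word → Word → ℂ) (Ψ Ψ' : List ℂ → VW),
  DatW q k e Ψ Ψ' → ∀ p r N : ℕ, p + r = 2 * k → Even (p + N) →
  ∃ κ : ℂ, ‖κ‖ ^ 4 * 3 ^ (2 * k) = 1 ∧ ∀ c : ℂ, c ≠ 0 → ∀ (A B : List ℂ) (z : Fin N → ℂ),
    A.length = p → B.length = r → Gn (A ++ B ++ List.ofFn z) →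
    GG (e c) Ψ' Ψ A B (List.ofFn z) * vd z =
      c ^ ((p + N) / 2) * (κ * pfq q A * pfq (q ^ 2) B *
        (wd q z * (∏ i, z i) * T q (q ^ (2 * k) * c⁻¹) (A ++ B) z))

/-- the same for arbitrary legs -/
def W_TB : Prop := ∀ (q : ℂ) (k : ℕ) (e : ℂ → ℕ → ℕ → Word → Word → ℂ) (Ψ Ψ' : List ℂ → VW),
  DatW q k e Ψ Ψ' → ∀ p r N : ℕ, p + r = 2 * k → Even (p + N) →
  ∃ κ : ℂ, ‖κ‖ ^ 4 * 3 ^ (2 * k) = 1 ∧ ∀ c : ℂ, c ≠ 0 → ∀ (A B : List ℂ) (z : Fin N → ℂ),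
    A.length = p → B.length = r → Gn (List.ofFn z) →
    GG (e c) Ψ' Ψ A B (List.ofFn z) * vd z =
      c ^ ((p + N) / 2) * (κ * pfq q A * pfq (q ^ 2) B *
        (wd q z * (∏ i, z i) * T q (q ^ (2 * k) * c⁻¹) (A ++ B) z))

/-- the homogeneous value -/
def W_HV : Prop := ∀ (q : ℂ) (k : ℕ) (e : ℂ → ℕ → ℕ → Word → Word → ℂ) (Ψ Ψ' : List ℂ → VW),
  DatW q k e Ψ Ψ' → ∀ n : ℕ, k ≤ 2 * n → 1 ≤ n → ∃ κ : ℂ, κ ≠ 0 ∧ ∀ c : ℂ, c ≠ 0 →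
    GG (e c) Ψ' Ψ (List.replicate k 1) (List.replicate k 1) (List.replicate (2 * n - k) 1)
      = κ * (c ^ n * Dl (2 * n - k) (2 * k) c⁻¹)

/-- the law of the index for the stationary measure (circumference `2n+2`) -/
def W_PB : Prop := ∀ n k : ℕ, 1 ≤ k → k ≤ 2 * n + 2 → ∀ μ : Wd (2 * n + 1 + 1) → ℝ,
  (∀ σ, 0 ≤ μ σ) → ∑ σ, μ σ = 1 →
  (∀ σ, ∑ c : Fin (2 * n + 1 + 1) → Bool, push (Tc (2 * n + 1) c) μ σ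
      = 2 ^ (2 * n + 1 + 1) * μ σ) → ∀ c : ℂ, c ≠ 0 →
  (∑ σ, ∑ τ, (μ σ : ℂ) * μ τ * eW c k k τ.1 σ.1) * (RR (2 * n + 2) 0 (Real.pi / 3) : ℂ)
    = c ^ (n + 1) * Dl (2 * n + 2 - k) (2 * k) c⁻¹

/-! ## T: from words to the bi-infinite cylinder (circumference `2n+2`) -/

/-- links below the level `0` -/
inductive LowL {m : ℕ} (ω : Fin (m + 1) × ℤ → Bool) : ℤ × ℤ → ℤ × ℤ → Prop
  | ur (j t : ℤ) : t < 0 → ω (col m j, t) = false → LowL ω (j, t) (j + 1, t + 1)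
  | ul (j t : ℤ) : t < 0 → ω (col m j, t) = true → LowL ω (j + 1, t) (j, t + 1)

/-- links above the level `0` -/
inductive UppL {m : ℕ} (ω : Fin (m + 1) × ℤ → Bool) : ℤ × ℤ → ℤ × ℤ → Prop
  | ur (j t : ℤ) : 0 ≤ t → ω (col m j, t) = false → UppL ω (j, t) (j + 1, t + 1)
  | ul (j t : ℤ) : 0 ≤ t → ω (col m j, t) = true → UppL ω (j + 1, t) (j, t + 1)

/-- the lower word decides about the connections below the level `0` -/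
def W_TL : Prop := ∀ (n : ℕ) (ω : Fin (2 * n + 1 + 1) × ℤ → Bool) (M s : ℕ), s < M →
  lowc ω 0 M s = alt (2 * n + 1) → ∀ (σ : Wd (2 * n + 1 + 1)) (a b : ℤ),
  (Relation.EqvGen (LowL ω) (a, 0) (b, 0) ↔ Rw (rows (2 * n + 1) (lowc ω 0 M) M σ).1 a b)

/-- the upper word decides about the connections above the level `0` -/
def W_TU : Prop := ∀ (n : ℕ) (ω : Fin (2 * n + 1 + 1) × ℤ → Bool) (M s : ℕ), s < M →
  uppc ω 0 M s = alt (2 * n + 1) → ∀ (τ : Wd (2 * n + 1 + 1)) (a b : ℤ),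
  (Relation.EqvGen (UppL ω) (a, 0) (b, 0) ↔ Rw (rows (2 * n + 1) (uppc ω 0 M) M τ).1 a b)

/-- gluing -/
def W_TG : Prop := ∀ (m k : ℕ) (ω : Fin (m + 1) × ℤ → Bool) (w' w : Word), 1 ≤ k →
  k ≤ m + 1 → w.length = m + 1 → w'.length = m + 1 →
  (∀ a b : ℤ, Relation.EqvGen (LowL ω) (a, 0) (b, 0) ↔ Rw w a b) →
  (∀ a b : ℤ, Relation.EqvGen (UppL ω) (a, 0) (b, 0) ↔ Rw w' a b) →
  (Arms k ω ↔ Good k k w' w) ∧ ∀ j : ℤ, Spiral k ω j ↔ JJ k k w' w j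

open Classical in
/-- **the law of the index** -/
def W_TP : Prop := ∀ (n k : ℕ) (p : ℤ → unitInterval) (ε : ℝ), Ell ε p → 1 ≤ k →
  k ≤ 2 * n + 2 → ∀ μ : Wd (2 * n + 1 + 1) → ℝ, (∀ σ, 0 ≤ μ σ) → ∑ σ, μ σ = 1 →
  (∀ σ, ∑ c : Fin (2 * n + 1 + 1) → Bool, push (Tc (2 * n + 1) c) μ σ
      = 2 ^ (2 * n + 1 + 1) * μ σ) →
  ((coins (2 * n + 1) p).real {ω | Arms k ω} =
    ∑ σ, ∑ τ, μ σ * μ τ * (if Good k k τ.1 σ.1 then 1 else 0)) ∧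
  (∀ j : ℤ, (coins (2 * n + 1) p).real {ω | Spiral k ω j} =
    ∑ σ, ∑ τ, μ σ * μ τ * (if JJ k k τ.1 σ.1 j then 1 else 0)) ∧
  ∀ᵐ ω ∂(coins (2 * n + 1) p), ∃ (M s1 s2 : ℕ), s1 < M ∧ s2 < M ∧
    lowc ω 0 M s1 = alt (2 * n + 1) ∧ uppc ω 0 M s2 = alt (2 * n + 1)

/-! ## L: asymptotics -/

/-- linear statistics of the eigenvalues, up to a bounded error -/
def W_L2 : Prop := ∀ (k : ℕ) (t : ℝ), 1 ≤ k → ∃ C : ℝ, ∀ (n : ℕ) (u : Fin (2 * n + 2 - k) → ℝ),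
  k ≤ 2 * n + 2 → IsEig (2 * n + 2 - k) (2 * k) u →
  |∑ i, Real.log ((Real.cosh (u i) + Real.cosh t) / (Real.cosh (u i) + 1))
    - 3 / (2 * Real.pi ^ 2) * t ^ 2 * Real.log (2 * n + 2)| ≤ C

/-- the variance -/
def W_L3 : Prop := ∀ k : ℕ, 1 ≤ k → ∃ C : ℝ, ∀ (n : ℕ) (u : Fin (2 * n + 2 - k) → ℝ),
  k ≤ 2 * n + 2 → IsEig (2 * n + 2 - k) (2 * k) u →
  |∑ i, 1 / (2 * (Real.cosh (u i) + 1)) - 3 / (2 * Real.pi ^ 2) * Real.log (2 * n + 2)| ≤ C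

/-- the generating function as a product (all sizes) -/
def W_L4 : Prop := ∀ (N l : ℕ) (u : Fin N → ℝ), IsEig N l u →
  (∀ t : ℝ, Complex.exp ((t * N / 2 : ℝ) : ℂ) * Dl N l (Complex.exp (t : ℂ))⁻¹ =
    Dl N l 1 * (Real.exp ((∑ i, Real.log ((Real.cosh (u i) + Real.cosh t) /
      (Real.cosh (u i) + 1))) / 2) : ℂ)) ∧
  (∀ w : ℂ, w ≠ 0 → w ^ N * Dl N l w⁻¹ = Dl N l w) ∧
  (∃ D : ℝ, 0 < D ∧ Dl N l 1 = (D : ℂ)) ∧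
  (∀ w : ℂ, Dl N l w = Dl N l 1 * ∏ i, (1 - ((Real.exp (u i) / (1 + Real.exp (u i)) : ℝ) : ℂ)
    + ((Real.exp (u i) / (1 + Real.exp (u i)) : ℝ) : ℂ) * w))

/-- the central limit theorem -/
def W_CLT : Prop := ∀ (k : ℕ), 1 ≤ k → ∀ P : ℕ → ℤ → ℝ, (∀ n j, 0 ≤ P n j) →
  (∀ (n : ℕ) (w : ℂ), k ≤ 2 * n + 2 → w ≠ 0 →
    ∑ j ∈ Finset.Icc ((k : ℤ) - n - 1) (n + 1), (P n j : ℂ) * w ^ j =
      w ^ (n + 1) * Dl (2 * n + 2 - k) (2 * k) w⁻¹ / Dl (2 * n + 2 - k) (2 * k) 1) →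
  ∀ x : ℝ, Tendsto (fun n : ℕ => ∑ j ∈ Finset.Icc ((k : ℤ) - n - 1) (n + 1),
    if Real.pi / k * ((j : ℝ) - k / 2) ≤ x * Real.sqrt (3 / (2 * k ^ 2) * Real.log (2 * n + 2))
      then P n j else 0) atTop (𝓝 ((gaussianReal 0 1).real (Set.Iic x)))

/-- comparison of Laurent polynomials -/
def W_LAU : Prop := ∀ (n k : ℕ) (Q : ℤ → ℝ) (S : Finset ℤ) (c : ℂ), 1 ≤ k → k ≤ 2 * n + 2 →
  (∀ j, j ∉ S → Q j = 0) →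
  (∀ w : ℂ, w ≠ 0 → ∑ j ∈ S, (Q j : ℂ) * w ^ j =
    c * (w ^ (n + 1) * Dl (2 * n + 2 - k) (2 * k) w⁻¹)) →
  (∀ j : ℤ, j < (k : ℤ) - n - 1 ∨ (n : ℤ) + 1 < j → Q j = 0) ∧
  ∀ w : ℂ, w ≠ 0 → ∑ j ∈ Finset.Icc ((k : ℤ) - n - 1) (n + 1), (Q j : ℂ) * w ^ j =
    c * (w ^ (n + 1) * Dl (2 * n + 2 - k) (2 * k) w⁻¹)

end Pool.Agent.Helper21.AW
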