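import Mathlib
import Pool.Agent.Helper21.AW.Stm

/-!
Project AW (helper21), package LAU (helper34).
-/

set_option autoImplicit false

namespace Pool.Agent.Helper21.AW

namespace LAU

open Polynomial

theorem laurent_zero (F : Finset ℤ) (A : ℤ → ℂ)
    (hA : ∀ w : ℂ, w ≠ 0 → ∑ h ∈ F, A h * w ^ h = 0) : ∀ h ∈ F, A h = 0 := by
  obtain ⟨M, hM⟩ : ∃ M : ℕ, ∀ h ∈ F, 0 ≤ h + M := by
    refine ⟨∑ h ∈ F, h.natAbs, fun h hh => ?_⟩
    have h1 : h.natAbs ≤ ∑ h ∈ F, h.natAbs :=
      Finset.single_le_sum (f := fun h : ℤ => h.natAbs) (fun _ _ => Nat.zero_le _) hh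
    omega
  let p : ℂ[X] := ∑ h ∈ F, C (A h) * X ^ (h + M).toNat
  have hp : p = 0 := by
    apply Polynomial.eq_zero_of_infinite_isRoot
    refine Set.Infinite.mono (s := {w : ℂ | w ≠ 0}) (fun w hw => ?_) ?_
    · have hw0 : w ≠ 0 := hw
      change p.eval w = 0
      simp only [p, eval_finsetSum, eval_mul, eval_C, eval_pow, eval_X]
      have h2 : ∀ h ∈ F, A h * w ^ (h + M).toNat = w ^ M * (A h * w ^ h) := by
        intro h hh
        have h3 : w ^ (h + M).toNat = w ^ (h + (M : ℤ)) := by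
          rw [← zpow_natCast, Int.toNat_of_nonneg (hM h hh)]
        rw [h3, zpow_add₀ hw0, zpow_natCast]
        ring
      rw [Finset.sum_congr rfl h2, ← Finset.mul_sum, hA w hw0, mul_zero]
    · exact (Set.finite_singleton (0 : ℂ)).infinite_compl
  intro h hh
  have h3 : p.coeff (h + M).toNat = A h := by
    simp only [p, finsetSum_coeff, coeff_C_mul, coeff_X_pow]
    rw [Finset.sum_eq_single h]
    · simp
    · intro k hk hne
      have : (h + M).toNat ≠ (k + M).toNat := by
        have := hM h hh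
        have := hM k hk
        omega
      rw [if_neg this, mul_zero]
    · intro h'
      exact absurd hh h'
  rw [← h3, hp, coeff_zero]

theorem dl_poly (N l : ℕ) (u : Fin N → ℝ) (hu : H160R2.ML.IsEig N l u) :
    ∃ d : ℕ → ℂ, ∀ ω : ℂ, H160R2.ML.Dl N l ω = ∑ k ∈ Finset.range (N + 1), d k * ω ^ k := by
  let D : ℂ[X] := ∏ i, (1 + X * C ((Real.exp (u i) : ℝ) : ℂ))
  have hD : D.natDegree < N + 1 := by
    refine Nat.lt_succ_of_le ((natDegree_prod_le _ _).trans ?_)
    refine (Finset.sum_le_card_nsmul _ _ 1 fun i _ => ?_).trans (by simp)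
    refine (natDegree_add_le _ _).trans ?_
    rw [natDegree_one]
    have : (X * C ((Real.exp (u i) : ℝ) : ℂ)).natDegree ≤ 1 := by
      refine natDegree_mul_le.trans ?_
      rw [natDegree_C, natDegree_X]
    omega
  refine ⟨fun k => D.coeff k, fun ω => ?_⟩
  rw [← eval_eq_sum_range' hD, hu.2.2 ω]
  simp only [D, eval_prod, eval_add, eval_one, eval_mul, eval_X, eval_C]

end LAU

theorem t_LAU : W_LAU := by
  classical
  intro n k Q S c hk1 hk2 hQS hgen
  obtain ⟨u, hu⟩ := H160R2.ML.t_EG (2 * n + 2 - k) (2 * k)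
  obtain ⟨d, hd⟩ := LAU.dl_poly (2 * n + 2 - k) (2 * k) u hu
  obtain ⟨I, hI⟩ : ∃ I : Finset ℤ, I = Finset.Icc ((k : ℤ) - n - 1) (n + 1) := ⟨_, rfl⟩
  have h1 : ∀ w : ℂ, w ≠ 0 →
      c * (w ^ (n + 1) * H160R2.ML.Dl (2 * n + 2 - k) (2 * k) w⁻¹) =
      ∑ h ∈ I, c * d (n + 1 - h).toNat * w ^ h := by
    intro w hw
    rw [hd, Finset.mul_sum, Finset.mul_sum]
    refine Finset.sum_nbij' (fun j : ℕ => (n : ℤ) + 1 - j) (fun h : ℤ => ((n : ℤ) + 1 - h).toNat)
      ?_ ?_ ?_ ?_ ?_
    · intro j hj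
      have := Finset.mem_range.1 hj
      rw [hI, Finset.mem_Icc]
      omega
    · intro h hh
      rw [hI] at hh
      have := Finset.mem_Icc.1 hh
      rw [Finset.mem_range]
      omega
    · intro j hj
      omega
    · intro h hh
      rw [hI] at hh
      have := Finset.mem_Icc.1 hh
      omega
    · intro j hj
      have h2 : ((n : ℤ) + 1 - ((n : ℤ) + 1 - (j : ℤ))).toNat = j := by omega
      rw [h2, zpow_sub₀ hw, zpow_natCast]
      have h3 : w ^ ((n : ℤ) + 1) = w ^ (n + 1) := by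
        rw [← zpow_natCast]
        push_cast
        rfl
      rw [h3, inv_pow]
      ring
  have h2 := LAU.laurent_zero (S ∪ I)
    (fun h => (Q h : ℂ) - if h ∈ I then c * d (n + 1 - h).toNat else 0) (by
      intro w hw
      simp only [sub_mul, Finset.sum_sub_distrib, ite_mul, zero_mul]
      have h3 : ∑ h ∈ S ∪ I, (Q h : ℂ) * w ^ h =
          ∑ h ∈ S, (Q h : ℂ) * w ^ h := by
        refine (Finset.sum_subset Finset.subset_union_left fun h _ hS => ?_).symm
        rw [hQS h hS, Complex.ofReal_zero, zero_mul]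
      rw [h3, hgen w hw, h1 w hw, ← Finset.sum_filter, Finset.filter_mem_eq_inter,
        Finset.inter_eq_right.2 Finset.subset_union_right, sub_self])
  have h4 : ∀ h : ℤ, h ∉ I → Q h = 0 := by
    intro h hh
    by_cases hS : h ∈ S
    · have h5 := h2 h (Finset.mem_union_left _ hS)
      simp only [if_neg hh, sub_zero] at h5
      exact_mod_cast h5
    · exact hQS h hS
  refine ⟨fun j hj => h4 j ?_, fun w hw => ?_⟩
  · rw [hI, Finset.mem_Icc]
    omega
  rw [← hgen w hw, ← hI]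
  have h7 : ∑ h ∈ S ∪ I, (Q h : ℂ) * w ^ h = ∑ h ∈ S, (Q h : ℂ) * w ^ h := by
    refine (Finset.sum_subset Finset.subset_union_left fun h _ hS => ?_).symm
    rw [hQS h hS, Complex.ofReal_zero, zero_mul]
  rw [← h7]
  refine Finset.sum_subset Finset.subset_union_right fun h _ hh => ?_
  rw [h4 h hh, Complex.ofReal_zero, zero_mul]

end Pool.Agent.Helper21.AW
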