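import Pool.Agent.Helper21.AW.T_UNIQ

/-! Package LS (helper93): the axioms of the weighted leg functional. -/

set_option autoImplicit false

namespace Pool.Agent.Helper21.AW

open Pool.Agent.H863R2.Cyl Pool.Agent.H160R2.ML Pool.Agent.Helper21.EV
open Pool.Agent.H988R2.Perc (Word PD)

/-- the weighted leg functional, restricted to words of even length -/
noncomputable def eV (c : ℂ) (p r : ℕ) (w' w : Word) : ℂ :=
  if Even w.length then eW c p r w' w else 0

theorem eV_even {c : ℂ} {p r : ℕ} {w' w : Word} (h : Even w.length) :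
    eV c p r w' w = eW c p r w' w := if_pos h

def W_LSV : Prop := ∀ k : ℕ, 1 ≤ k → LSpecW k eV

namespace LSx

theorem eW_eq {c : ℂ} {p r : ℕ} {w' w : Word} (hP : Uniq.Pr p r w' w) {j : ℤ}
    (h : JJ p r w' w j) : eW c p r w' w = c ^ j := by
  have he : ∃ j, JJ p r w' w j := ⟨j, h⟩
  unfold eW
  rw [dif_pos he, hP.1 _ _ (Classical.choose_spec he) h]

theorem eW_zero {c : ℂ} {p r : ℕ} {w' w : Word} (h : ¬ ∃ j, JJ p r w' w j) :
    eW c p r w' w = 0 := by
  unfold eW
  rw [dif_neg h]

theorem eW_iff {c : ℂ} (hc : c ≠ 0) (d : ℤ) {p r p1 r1 : ℕ} {w' w v' v : Word}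
    (hP : Uniq.Pr p r w' w) (hP1 : Uniq.Pr p1 r1 v' v)
    (hJ : ∀ j, JJ p r w' w j ↔ JJ p1 r1 v' v (j - d)) :
    eW c p r w' w = c ^ d * eW c p1 r1 v' v := by
  by_cases h : ∃ j, JJ p r w' w j
  · obtain ⟨j, hj⟩ := h
    rw [eW_eq hP hj, eW_eq hP1 ((hJ j).1 hj), ← zpow_add₀ hc]
    congr 1
    ring
  · rw [eW_zero h, eW_zero, mul_zero]
    rintro ⟨j, hj⟩
    exact h ⟨j + d, (hJ _).2 (by simpa using hj)⟩

theorem eW_symm (hs : W_symm) {c : ℂ} (hc : c ≠ 0) {k p r : ℕ} {w' w : Word} (hk : 1 ≤ k)
    (hpr : p + r = 2 * k) (hl : w'.length + p = w.length + r) (hp : p ≤ w.length)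
    (hP : Uniq.Pr p r w' w) (hP1 : Uniq.Pr r p w w') :
    eW c p r w' w = c ^ k * eW c⁻¹ r p w w' := by
  by_cases h : ∃ j, JJ p r w' w j
  · obtain ⟨j, hj⟩ := h
    rw [eW_eq hP hj, eW_eq hP1 (hs k p r w' w hk hpr hl hp j hj), inv_zpow, ← zpow_natCast,
      ← zpow_neg, ← zpow_add₀ hc]
    congr 1
    ring
  · rw [eW_zero h, eW_zero, mul_zero]
    rintro ⟨j, hj⟩
    exact h ⟨k - j, hs k r p w w' hk (by omega) (by omega) (by omega) j hj⟩

end LSx

open LSx in
theorem t_LS : W_symm → W_insR → W_moveR → W_moveL → W_base → W_uniq → W_LSV := by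
  intro hs hR hmR hmL hB hU k hk
  have hP : ∀ (p r : ℕ) (w' w : Word), p + r = 2 * k → Ok w' → Ok w → Even w.length →
      w'.length + p = w.length + r → p ≤ w.length → Uniq.Pr p r w' w :=
    fun p r w' w h1 h2 h3 h4 h5 h6 => hU k p r w' w hk h1 h2 h3 h4 h5 h6
  have hins : ∀ (i : ℕ) (u : Word), (lins i u).length = u.length + 2 := fun i u =>
    Pool.Agent.H988R2.Perc.length_ins i u
  have hseam : ∀ u : Word, (seam u).length = u.length + 2 := fun u => by simp [seam]
  constructor
  · intro c p r w' w hc hpr hl hp hw' hw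
    by_cases he : Even w.length
    · have he' : Even w'.length := by
        obtain ⟨m, hm⟩ := he
        exact ⟨k + m - p, by omega⟩
      rw [eV_even he, eV_even he']
      exact eW_symm hs hc hk hpr hl hp (hP p r w' w hpr hw' hw he hl hp)
        (hP r p w w' (by omega) hw hw' he' (by omega) (by omega))
    · have he' : ¬ Even w'.length := by
        intro h
        apply he
        obtain ⟨m, hm⟩ := h
        exact ⟨m + p - k, by omega⟩
      unfold eV
      rw [if_neg he, if_neg he', mul_zero]
  · intro c p r i w' u _ hpr hw' hu hue hl hi hp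
    have hG := Uniq.not_good (t_zero p r i w' u hw' hu hue hl hi hp)
    have he : Even (lins i u).length := by
      rw [hins]
      exact hue.add (by decide)
    rw [eV_even he, eW_zero]
    rintro ⟨j, hj⟩
    exact hG hj.1
  · intro c p r i w' u hc hpr hw' hu hue hl hi hiu
    have he : Even (lins i u).length := by
      rw [hins]
      exact hue.add (by decide)
    have hcl := length_cap (i := i - p + r) (w := w') (by omega)
    have hco := ok_cap (i := i - p + r) (w := w') hw' (by omega)
    rw [eV_even he, eV_even hue, eW_iff hc 0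
      (hP p r w' (lins i u) hpr hw' (ok_lins.2 hu) he (by rw [hins]; omega) (by rw [hins]; omega))
      (hP p r (cap (i - p + r) w') u hpr hco hu hue (by omega) (by omega))
      (fun j => by
        rw [sub_zero]
        exact hR k p r i w' u hk hpr hw' hu hue hl hi hiu j), zpow_zero, one_mul]
  · intro c p r w' u hc hpr hw' hu hue hl h1 h2
    have he : Even (lins (p - 1) u).length := by
      rw [hins]
      exact hue.add (by decide)
    rw [eV_even he, eV_even hue, eW_iff hc 0
      (hP p r w' (lins (p - 1) u) hpr hw' (ok_lins.2 hu) he (by rw [hins]; omega)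
        (by rw [hins]; omega))
      (hP (p - 1) (r + 1) w' u (by omega) hw' hu hue (by omega) (by omega))
      (fun j => by
        rw [sub_zero]
        exact hmR k p r w' u hk hpr hw' hu hue hl h1 h2 j), zpow_zero, one_mul]
  · intro c p r w' u hc hpr hw' hu hue hl h1 h2
    have he : Even (seam u).length := by
      rw [hseam]
      exact hue.add (by decide)
    have hrl : (rotr w').length = w'.length := length_rotr w'
    rw [eV_even he, eV_even hue, eW_iff hc 1
      (hP p r w' (seam u) hpr hw' (ok_seam.2 hu) he (by rw [hseam]; omega)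
        (by rw [hseam]; omega))
      (hP (p - 1) (r + 1) (rotr w') u (by omega) (ok_rotr.2 hw') hu hue (by omega) (by omega))
      (hmL k p r w' u hk hpr hw' hu hue hl h1 h2), zpow_one]
  · intro c p r hc hpr hp hr
    have hlen : ∀ n : ℕ, Even n → (bw n).length = n := by
      rintro n ⟨m, rfl⟩
      unfold bw
      rw [List.length_append, List.length_replicate, List.length_replicate]
      omega
    have hok : ∀ n : ℕ, Even n → Ok (bw n) := by
      rintro n ⟨m, rfl⟩
      unfold Ok
      rw [hlen _ ⟨m, rfl⟩]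
      unfold bw
      rw [List.count_append, List.count_replicate_self, List.count_replicate]
      simp
      omega
    have hpp := hP p r (bw r) (bw p) hpr (hok r hr) (hok p hp) (by rw [hlen p hp]; exact hp)
      (by rw [hlen p hp, hlen r hr]; omega) (by rw [hlen p hp])
    have hj : JJ p r (bw r) (bw p) ((p / 2 : ℕ) : ℤ) := by
      rw [hB k p r hk hpr hp hr]
      obtain ⟨m, rfl⟩ := hp
      push_cast
      omega
    rw [eV_even (by rw [hlen p hp]; exact hp), eW_eq hpp hj, zpow_natCast]

end Pool.Agent.Helper21.AW
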