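import Pool.Agent.Helper21.AW.Stm
import Pool.Graph.R_seed8.H160R2.ML.T_moveL

/-!
# AW, package MOVL (helper64): an arc across the seam, with the counter
-/

set_option autoImplicit false

namespace Pool.Agent.Helper21.AW

open Pool.Agent.H863R2.Cyl Pool.Agent.H160R2.ML Pool.Agent.Helper21.EV
open Pool.Agent.H988R2.Perc (Word PD)

namespace TMOVL

open Pool.Agent.H160R2.ML.TmoveL

open Classical in
/-- the map of the faces with the counter -/
noncomputable def phiW (L W : ℕ) (x : (ℤ × Bool) × ℤ) : (ℤ × Bool) × ℤ :=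
  if x.1.2 = true then ((x.1.1 + 1, true), x.2)
  else if ((L : ℤ) + 2) ∣ x.1.1 then
    ((x.1.1 / (L + 2) * W + 1, true), x.2 + if 1 ≤ x.1.1 / ((L : ℤ) + 2) then 1 else 0)
  else ((ff L x.1.1, false), x.2)

/-- the map back -/
def psiW (L : ℕ) (x : (ℤ × Bool) × ℤ) : (ℤ × Bool) × ℤ :=
  if x.1.2 = true then ((x.1.1 - 1, true), x.2) else ((gi L x.1.1, false), x.2)

theorem phiW_true (L W : ℕ) (b x : ℤ) : phiW L W ((b, true), x) = ((b + 1, true), x) := by
  unfold phiW; simp

theorem phiW_dvd (L W : ℕ) (k x : ℤ) : phiW L W ((k * ((L : ℤ) + 2), false), x) =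
    ((k * W + 1, true), x + if 1 ≤ k then 1 else 0) := by
  unfold phiW
  have h : (k * ((L : ℤ) + 2)) / ((L : ℤ) + 2) = k := Int.mul_ediv_cancel _ (by omega)
  simp only [Bool.false_eq_true, if_false]
  rw [if_pos (Dvd.intro_left _ rfl), h]

theorem phiW_not (L W : ℕ) {j : ℤ} (x : ℤ) (h : ¬ ((L : ℤ) + 2) ∣ j) :
    phiW L W ((j, false), x) = ((ff L j, false), x) := by
  unfold phiW
  simp only [Bool.false_eq_true, if_false]
  rw [if_neg h]

theorem phiW_in (L W : ℕ) (s j x : ℤ) (h1 : 1 ≤ j) (h2 : j ≤ L + 1) :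
    phiW L W ((s * (L + 2) + j, false), x) = ((s * L + (j - 1), false), x) := by
  rw [phiW_not L W x (not_dvd L s j h1 h2), ff_eq L s j h1 h2]

variable {P r : ℕ} {w' u : Word}

theorem fwd (hl : w'.length + (P + 1) = u.length + 2 + r) (hP : P ≤ u.length)
    (x y : (ℤ × Bool) × ℤ) (h : LgW (P + 1) r w' (seam u) x y) :
    CnW P (r + 1) (rotr w') u (phiW u.length w'.length x) (phiW u.length w'.length y) := by
  have hW : w' ≠ [] := by
    rintro rfl
    simp at hl
    omega
  cases h with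
  | low a b x h =>
    rw [rw_seam] at h
    rcases h with h | ⟨h1, h2, h3⟩
    · rw [h]; exact Relation.EqvGen.refl _
    · rw [phiW_not _ _ _ h1, phiW_not _ _ _ h2]
      exact Relation.EqvGen.rel _ _ (LgW.low _ _ _ h3)
  | upp a b x h =>
    rw [phiW_true, phiW_true]
    exact Relation.EqvGen.rel _ _ (LgW.upp _ _ _ ((Rw_rotr w' hW a b).2 h))
  | glue s x i hi =>
    rw [len_seam] at hi ⊢
    rcases Nat.lt_or_ge (i + P) (u.length + 1) with h1 | h1
    · have e1 : s * ((u.length + 2 : ℕ) : ℤ) + ((P + 1 : ℕ) : ℤ) + (i : ℤ) =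
          s * ((u.length : ℤ) + 2) + ((P : ℤ) + 1 + i) := by push_cast; ring
      rw [e1, phiW_in _ _ _ _ _ (by omega) (by omega), phiW_true]
      have g := LgW.glue (p := P) (r := r + 1) (w' := rotr w') (w := u) s x i (by omega)
      rw [len_rotr] at g
      have e2 : s * (u.length : ℤ) + ((P : ℤ) + 1 + i - 1) = s * (u.length : ℤ) + P + i := by ring
      have e3 : s * (w'.length : ℤ) + r + i + 1 = s * (w'.length : ℤ) + ((r + 1 : ℕ) : ℤ) + i := by
        push_cast; ring
      rw [e2, e3]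
      exact Relation.EqvGen.rel _ _ g
    · have h2 : i + P = u.length + 1 := by omega
      have e1 : s * ((u.length + 2 : ℕ) : ℤ) + ((P + 1 : ℕ) : ℤ) + (i : ℤ) =
          (s + 1) * ((u.length : ℤ) + 2) := by
        have : (i : ℤ) + P = u.length + 1 := by exact_mod_cast h2
        push_cast
        linear_combination this
      have e2 : s * (w'.length : ℤ) + r + i + 1 = (s + 1) * w'.length + 1 := by
        have h3 : (r : ℤ) + i = w'.length := by omega
        linear_combination h3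
      have e3 : (if 1 ≤ s + 1 then (1 : ℤ) else 0) = if 0 ≤ s then 1 else 0 := by
        split_ifs <;> omega
      rw [e1, phiW_dvd, phiW_true, e2, e3]
      exact Relation.EqvGen.refl _

theorem bwd (hl : w'.length + (P + 1) = u.length + 2 + r) (hP : P ≤ u.length)
    (x y : (ℤ × Bool) × ℤ) (h : LgW P (r + 1) (rotr w') u x y) :
    CnW (P + 1) r w' (seam u) (psiW u.length x) (psiW u.length y) := by
  have hW : w' ≠ [] := by
    rintro rfl
    simp at hl
    omega
  unfold psiW
  cases h with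
  | low a b x h =>
    simp only [Bool.false_eq_true, if_false]
    exact Relation.EqvGen.rel _ _ (LgW.low _ _ _ (rw_gi u h))
  | upp a b x h =>
    simp only [if_true]
    have := (Rw_rotr w' hW (a - 1) (b - 1)).1 (by rwa [sub_add_cancel, sub_add_cancel])
    exact Relation.EqvGen.rel _ _ (LgW.upp _ _ _ this)
  | glue s x i hi =>
    simp only [Bool.false_eq_true, if_false, if_true]
    rw [len_rotr]
    have g := LgW.glue (p := P + 1) (r := r) (w' := w') (w := seam u) s x i (by
      rw [len_seam]; omega)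
    rw [len_seam] at g
    have e1 : s * ((u.length + 2 : ℕ) : ℤ) + ((P + 1 : ℕ) : ℤ) + (i : ℤ) =
        s * ((u.length : ℤ) + 2) + ((P : ℤ) + 1 + i) := by push_cast; ring
    rw [e1] at g
    have h1 := rw_ret u (not_dvd u.length s ((P : ℤ) + 1 + i) (by omega) (by omega))
    rw [ff_eq _ _ _ (by omega) (by omega)] at h1
    have e2 : s * (u.length : ℤ) + ((P : ℤ) + 1 + i - 1) = s * (u.length : ℤ) + P + i := by ring
    rw [e2] at h1
    have e3 : s * (w'.length : ℤ) + ((r + 1 : ℕ) : ℤ) + i - 1 = s * (w'.length : ℤ) + r + i := by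
      push_cast; ring
    rw [e3]
    exact Relation.EqvGen.trans _ _ _
      (Relation.EqvGen.symm _ _ (Relation.EqvGen.rel _ _ (LgW.low _ _ _ h1)))
      (Relation.EqvGen.rel _ _ g)

theorem ret (hl : w'.length + (P + 1) = u.length + 2 + r) (hP : P ≤ u.length)
    (x : (ℤ × Bool) × ℤ) :
    CnW (P + 1) r w' (seam u) x (psiW u.length (phiW u.length w'.length x)) := by
  obtain ⟨⟨j, c⟩, x⟩ := x
  cases c with
  | true =>
    rw [phiW_true]
    unfold psiW
    simp only [if_true, add_sub_cancel_right]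
    exact Relation.EqvGen.refl _
  | false =>
    by_cases hd : ((u.length : ℤ) + 2) ∣ j
    · obtain ⟨k, rfl⟩ := hd
      rw [mul_comm, phiW_dvd]
      unfold psiW
      simp only [if_true, add_sub_cancel_right]
      have g := LgW.glue (p := P + 1) (r := r) (w' := w') (w := seam u) (k - 1) x
        (u.length + 1 - P) (by rw [len_seam]; omega)
      rw [len_seam] at g
      have e0 : ((u.length + 1 - P : ℕ) : ℤ) = u.length + 1 - P := by omega
      have e1 : (k - 1) * ((u.length + 2 : ℕ) : ℤ) + ((P + 1 : ℕ) : ℤ) +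
          ((u.length + 1 - P : ℕ) : ℤ) = k * ((u.length : ℤ) + 2) := by
        rw [e0]; push_cast; ring
      have e2 : (k - 1) * (w'.length : ℤ) + r + ((u.length + 1 - P : ℕ) : ℤ) = k * w'.length := by
        rw [e0]
        have h3 : (w'.length : ℤ) + (P + 1) = u.length + 2 + r := by exact_mod_cast hl
        linear_combination -h3
      have e3 : (if 0 ≤ k - 1 then (1 : ℤ) else 0) = if 1 ≤ k then 1 else 0 := by
        split_ifs <;> omega
      rw [e1, e2, e3] at g
      exact Relation.EqvGen.rel _ _ g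
    · rw [phiW_not _ _ _ hd]
      unfold psiW
      simp only [Bool.false_eq_true, if_false]
      exact Relation.EqvGen.rel _ _ (LgW.low _ _ _ (rw_ret u hd))

theorem CnW_iff (hl : w'.length + (P + 1) = u.length + 2 + r) (hP : P ≤ u.length)
    (x y : (ℤ × Bool) × ℤ) : CnW (P + 1) r w' (seam u) x y ↔
      CnW P (r + 1) (rotr w') u (phiW u.length w'.length x) (phiW u.length w'.length y) := by
  constructor
  · intro h
    exact TmoveL.eqv_map' _ (fwd hl hP) h
  · intro h
    have h1 := TmoveL.eqv_map' _ (bwd hl hP) h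
    exact Relation.EqvGen.trans _ _ _ (ret hl hP x)
      (Relation.EqvGen.trans _ _ _ h1 (Relation.EqvGen.symm _ _ (ret hl hP y)))

/-- the sectors of the slit `1` -/
theorem tgmap (hl : w'.length + (P + 1) = u.length + 2 + r) (hP : P ≤ u.length) (d : ℕ)
    (hd : d < P + 1 + r) :
    CnW P (r + 1) (rotr w') u (phiW u.length w'.length (tg (P + 1) r w' (seam u) d))
      (tg P (r + 1) (rotr w') u (rho P r d)) := by
  unfold tg pt rho
  rw [len_seam, len_rotr]
  rcases Nat.eq_zero_or_pos d with h0 | h0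
  · subst h0
    simp only [Nat.zero_le, if_true]
    have e1 : 1 * ((u.length + 2 : ℕ) : ℤ) + ((0 : ℕ) : ℤ) = 1 * ((u.length : ℤ) + 2) := by
      push_cast; ring
    rw [e1, phiW_dvd]
    rcases Nat.eq_zero_or_pos r with hr | hr
    · subst hr
      simp only [add_zero, le_refl, if_true]
      have g := LgW.glue (p := P) (r := 0 + 1) (w' := rotr w') (w := u) 1 0 0 (by omega)
      rw [len_rotr] at g
      have e2 : 1 * (u.length : ℤ) + (P : ℤ) + ((0 : ℕ) : ℤ) = 1 * (u.length : ℤ) + P := by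
        push_cast; ring
      have e3 : 1 * (w'.length : ℤ) + ((0 + 1 : ℕ) : ℤ) + ((0 : ℕ) : ℤ) =
          1 * (w'.length : ℤ) + 1 := by push_cast; ring
      rw [e2, e3] at g
      simp only [zero_le_one, if_true] at g
      exact Relation.EqvGen.symm _ _ (Relation.EqvGen.rel _ _ g)
    · rw [if_neg (by omega : ¬ P + r ≤ P), if_neg (by omega : ¬ P + r ≤ P)]
      have e2 : 1 * (w'.length : ℤ) + ((P : ℤ) + ((r + 1 : ℕ) : ℤ) - ((P + r : ℕ) : ℤ)) =
          1 * (w'.length : ℤ) + 1 := by push_cast; ring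
      rw [e2]
      simp only [le_refl, if_true, zero_add]
      exact Relation.EqvGen.refl _
  · rw [if_neg (by omega : ¬ d = 0)]
    rcases Nat.lt_or_ge (P + 1) d with h1 | h1
    · rw [if_neg (by omega : ¬ d ≤ P + 1), if_neg (by omega : ¬ d - 1 ≤ P),
        if_neg (by omega : ¬ d ≤ P + 1), if_neg (by omega : ¬ d - 1 ≤ P), phiW_true]
      have e2 : 1 * (w'.length : ℤ) + (((P + 1 : ℕ) : ℤ) + (r : ℤ) - (d : ℤ)) + 1 =
          1 * (w'.length : ℤ) + ((P : ℤ) + ((r + 1 : ℕ) : ℤ) - ((d - 1 : ℕ) : ℤ)) := by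
        have : ((d - 1 : ℕ) : ℤ) = d - 1 := by omega
        rw [this]; push_cast; ring
      rw [e2]
      exact Relation.EqvGen.refl _
    · rw [if_pos h1, if_pos (by omega : d - 1 ≤ P), if_pos h1, if_pos (by omega : d - 1 ≤ P)]
      have e1 : 1 * ((u.length + 2 : ℕ) : ℤ) + (d : ℤ) = 1 * ((u.length : ℤ) + 2) + d := by
        push_cast; ring
      have e2 : ((d - 1 : ℕ) : ℤ) = (d : ℤ) - 1 := by omega
      rw [e1, phiW_in _ _ _ _ _ (by omega) (by omega), e2]
      exact Relation.EqvGen.refl _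

/-- the sectors of the slit `0` -/
theorem lfmap (hP : P ≤ u.length) (i : ℤ) :
    CnW P (r + 1) (rotr w') u (phiW u.length w'.length (lf (P + 1) r i))
      (lf P (r + 1) (i - 1)) := by
  have hll : P + (r + 1) = P + 1 + r := by omega
  have hlpos : (0 : ℤ) < ((P + 1 + r : ℕ) : ℤ) := by push_cast; omega
  obtain ⟨t, c, hi, hc0, hc1⟩ : ∃ t c : ℤ, i = t * ((P + 1 + r : ℕ) : ℤ) + c ∧ 0 ≤ c ∧
      c < ((P + 1 + r : ℕ) : ℤ) :=
    ⟨i / ((P + 1 + r : ℕ) : ℤ), i % ((P + 1 + r : ℕ) : ℤ), by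
      rw [mul_comm]; exact (Int.mul_ediv_add_emod i _).symm, Int.emod_nonneg _ hlpos.ne',
      Int.emod_lt_of_pos _ hlpos⟩
  have hmod : i % ((P + 1 + r : ℕ) : ℤ) = c := by
    rw [hi, add_comm, Int.add_mul_emod_self_right, Int.emod_eq_of_lt hc0 hc1]
  have hdiv : i / ((P + 1 + r : ℕ) : ℤ) = t := by
    rw [hi, add_comm, Int.add_mul_ediv_right _ _ hlpos.ne', Int.ediv_eq_zero_of_lt hc0 hc1, zero_add]
  have hlen : ((P + 1 + r : ℕ) : ℤ) = (P : ℤ) + 1 + r := by push_cast; ring
  rcases eq_or_lt_of_le hc0 with h0 | h0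
  · -- the sector `0`
    have hmod' : (i - 1) % ((P + 1 + r : ℕ) : ℤ) = (P : ℤ) + r := by
      have e : i - 1 = ((P : ℤ) + r) + (t - 1) * ((P + 1 + r : ℕ) : ℤ) := by
        rw [hi, ← h0, hlen]; ring
      rw [e, Int.add_mul_emod_self_right, Int.emod_eq_of_lt (by omega) (by omega)]
    have hdiv' : (i - 1) / ((P + 1 + r : ℕ) : ℤ) = t - 1 := by
      have e : i - 1 = ((P : ℤ) + r) + (t - 1) * ((P + 1 + r : ℕ) : ℤ) := by
        rw [hi, ← h0, hlen]; ring
      rw [e, Int.add_mul_ediv_right _ _ hlpos.ne', Int.ediv_eq_zero_of_lt (by omega) (by omega),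
        zero_add]
    unfold lf
    rw [hll, hmod, hdiv, hmod', hdiv', ← h0]
    rw [if_pos (by omega : (0 : ℤ) ≤ ((P + 1 : ℕ) : ℤ))]
    have e1 := phiW_dvd u.length w'.length 0 t
    rw [zero_mul, zero_mul, zero_add, if_neg (by omega : ¬ (1 : ℤ) ≤ 0), add_zero] at e1
    rw [e1]
    rcases Nat.eq_zero_or_pos r with hr | hr
    · subst hr
      rw [if_pos (by push_cast; omega)]
      have g := LgW.glue (p := P) (r := 0 + 1) (w' := rotr w') (w := u) 0 (t - 1) 0 (by omega)
      rw [if_pos le_rfl] at g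
      have e2 : 0 * (u.length : ℤ) + (P : ℤ) + ((0 : ℕ) : ℤ) = (P : ℤ) + ((0 : ℕ) : ℤ) := by
        push_cast; ring
      have e3 : 0 * ((rotr w').length : ℤ) + ((0 + 1 : ℕ) : ℤ) + ((0 : ℕ) : ℤ) = 1 := by
        push_cast; ring
      rw [e2, e3, sub_add_cancel] at g
      exact Relation.EqvGen.symm _ _ (Relation.EqvGen.rel _ _ g)
    · rw [if_neg (by omega)]
      have e2 : ((P + 1 + r : ℕ) : ℤ) - ((P : ℤ) + r) = 1 := by rw [hlen]; ring
      rw [e2, sub_add_cancel]
      exact Relation.EqvGen.refl _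
  · have hmod' : (i - 1) % ((P + 1 + r : ℕ) : ℤ) = c - 1 := by
      have e : i - 1 = (c - 1) + t * ((P + 1 + r : ℕ) : ℤ) := by rw [hi]; ring
      rw [e, Int.add_mul_emod_self_right, Int.emod_eq_of_lt (by omega) (by omega)]
    have hdiv' : (i - 1) / ((P + 1 + r : ℕ) : ℤ) = t := by
      have e : i - 1 = (c - 1) + t * ((P + 1 + r : ℕ) : ℤ) := by rw [hi]; ring
      rw [e, Int.add_mul_ediv_right _ _ hlpos.ne', Int.ediv_eq_zero_of_lt (by omega) (by omega),
        zero_add]
    unfold lf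
    rw [hll, hmod, hdiv, hmod', hdiv']
    rcases lt_or_ge ((P : ℤ) + 1) c with h1 | h1
    · rw [if_neg (by push_cast; omega), if_neg (by omega), phiW_true]
      have e2 : ((P + 1 + r : ℕ) : ℤ) - c + 1 = ((P + 1 + r : ℕ) : ℤ) - (c - 1) := by ring
      rw [e2]
      exact Relation.EqvGen.refl _
    · rw [if_pos (by push_cast; omega), if_pos (by omega)]
      have e := phiW_in u.length w'.length 0 c t (by omega) (by omega)
      rw [zero_mul, zero_mul, zero_add, zero_add] at e
      rw [e]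
      exact Relation.EqvGen.refl _

theorem Ix_iff (hl : w'.length + (P + 1) = u.length + 2 + r) (hP : P ≤ u.length) (j : ℤ) :
    Ix (P + 1) r w' (seam u) j ↔ Ix P (r + 1) (rotr w') u (j - 1) := by
  have key : ∀ (i : ℤ) (d : ℕ), d < P + 1 + r →
      (CnW (P + 1) r w' (seam u) (lf (P + 1) r i) (tg (P + 1) r w' (seam u) d) ↔
        CnW P (r + 1) (rotr w') u (lf P (r + 1) (i - 1)) (tg P (r + 1) (rotr w') u (rho P r d))) := by
    intro i d hd
    rw [CnW_iff hl hP]
    have h1 := lfmap (r := r) (w' := w') (u := u) hP i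
    have h2 := tgmap (w' := w') (u := u) hl hP d hd
    constructor
    · intro h
      exact Relation.EqvGen.trans _ _ _ (Relation.EqvGen.symm _ _ h1)
        (Relation.EqvGen.trans _ _ _ h h2)
    · intro h
      exact Relation.EqvGen.trans _ _ _ h1
        (Relation.EqvGen.trans _ _ _ h (Relation.EqvGen.symm _ _ h2))
  unfold Ix
  constructor
  · intro h i hi
    obtain ⟨d, hd, hc⟩ := h i (by omega)
    refine ⟨rho P r d, rho_lt hd, ?_⟩
    have := (key (j + i) d hd).1 hc
    rwa [show j + (i : ℤ) - 1 = j - 1 + i by ring] at this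
  · intro h i hi
    obtain ⟨d, hd, hc⟩ := h i (by omega)
    obtain ⟨d', hd', rfl⟩ := rho_surj hd
    refine ⟨d', hd', (key (j + i) d' hd').2 ?_⟩
    rwa [show j + (i : ℤ) - 1 = j - 1 + i by ring]

end TMOVL

theorem t_MOVL : W_moveL := by
  intro k p r w' u _ _ _ _ _ hl hp hp' j
  obtain ⟨P, rfl⟩ : ∃ P, p = P + 1 := ⟨p - 1, by omega⟩
  have h := TmoveL.Good_iff (P := P) (r := r) (w' := w') (u := u) hl (by omega)
  have h2 := TMOVL.Ix_iff (P := P) (r := r) (w' := w') (u := u) hl (by omega) j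
  rw [Nat.add_sub_cancel]
  unfold JJ
  rw [h, h2]

end Pool.Agent.Helper21.AW
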