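import Pool.Agent.Helper21.AW.Stm
import Pool.Graph.R_seed8.H160R2.ML.T_moveR

/-!
# Package MOVR: arc between the last leg and the first through strand, with the counter
-/

set_option autoImplicit false

namespace Pool.Agent.Helper21.AW

open Pool.Agent.H863R2.Cyl Pool.Agent.H160R2.ML
open Pool.Agent.H988R2.Perc (Word PD)
open Pool.Agent.H863R2.Cyl.Sem4Aux

namespace TMOVR

open Pool.Agent.H160R2.ML.TmoveR (rw_lins' len_lins)

open Classical in
/-- the collapsing map -/
noncomputable def ph (N i r Lu : ℕ) (X : (ℤ × Bool) × ℤ) : (ℤ × Bool) × ℤ :=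
  if X.1.2 = true then X else if iso N i X.1.1 then
    ((ct N i X.1.1 * Lu + r, true), X.2 + if 0 ≤ ct N i X.1.1 then 1 else 0) else
    ((sm N i X.1.1, false), X.2)

theorem ph_true (N i r Lu : ℕ) (b x : ℤ) : ph N i r Lu ((b, true), x) = ((b, true), x) := by
  simp [ph]

theorem ph_iso {N i r Lu : ℕ} {a : ℤ} (x : ℤ) (h : iso N i a) :
    ph N i r Lu ((a, false), x) =
      ((ct N i a * Lu + r, true), x + if 0 ≤ ct N i a then 1 else 0) := by
  simp [ph, h]

theorem ph_non {N i r Lu : ℕ} {a : ℤ} (x : ℤ) (h : ¬ iso N i a) :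
    ph N i r Lu ((a, false), x) = ((sm N i a, false), x) := by
  simp [ph, h]

section main

variable {i r : ℕ} {w' u : Word}

theorem fwd (hi : i ≤ u.length) {X Y : (ℤ × Bool) × ℤ}
    (h : CnW (i + 1) r w' (lins i u) X Y) :
    CnW i (r + 1) w' u (ph u.length i r w'.length X) (ph u.length i r w'.length Y) := by
  unfold CnW at h ⊢
  induction h with
  | rel X Y h =>
    rcases h with ⟨a, b, x, hab⟩ | ⟨a, b, x, hab⟩ | ⟨s, x, j, hj⟩
    · rw [rw_lins' hi] at hab
      rcases hab with rfl | ⟨h1, h2, h3⟩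
      · exact Relation.EqvGen.refl _
      · rw [ph_non x h1, ph_non x h2]
        exact Relation.EqvGen.rel _ _ (LgW.low _ _ _ h3)
    · rw [ph_true, ph_true]
      exact Relation.EqvGen.rel _ _ (LgW.upp _ _ _ hab)
    · rw [len_lins] at hj ⊢
      rw [ph_true]
      rcases Nat.eq_zero_or_pos j with h0 | h0
      · subst h0
        have e1 : s * ((u.length + 2 : ℕ) : ℤ) + ((i + 1 : ℕ) : ℤ) + ((0 : ℕ) : ℤ) =
            ((u.length : ℤ) + 2) * s + ((u.length : ℤ) + 1) - ((u.length : ℤ) - i) := by
          push_cast; ring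
        have h1 : iso u.length i
            (s * ((u.length + 2 : ℕ) : ℤ) + ((i + 1 : ℕ) : ℤ) + ((0 : ℕ) : ℤ)) :=
          (iso_iff e1 (by omega) (by omega)).mpr rfl
        rw [ph_iso x h1, ct_eq e1 (by omega) (by omega)]
        have e2 : s * (w'.length : ℤ) + r + ((0 : ℕ) : ℤ) = s * (w'.length : ℤ) + r := by
          push_cast; ring
        rw [e2]
        exact Relation.EqvGen.refl _
      · obtain ⟨k, rfl⟩ : ∃ k, j = k + 1 := ⟨j - 1, by omega⟩
        have e1 : s * ((u.length + 2 : ℕ) : ℤ) + ((i + 1 : ℕ) : ℤ) + ((k + 1 : ℕ) : ℤ) =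
            ((u.length : ℤ) + 2) * (s + 1) + (k : ℤ) - ((u.length : ℤ) - i) := by
          push_cast; ring
        have h1 : ¬ iso u.length i
            (s * ((u.length + 2 : ℕ) : ℤ) + ((i + 1 : ℕ) : ℤ) + ((k + 1 : ℕ) : ℤ)) := by
          rw [iso_iff e1 (by omega) (by omega)]
          omega
        rw [ph_non x h1]
        have e3 : sm u.length i
            (s * ((u.length + 2 : ℕ) : ℤ) + ((i + 1 : ℕ) : ℤ) + ((k + 1 : ℕ) : ℤ)) =
            s * (u.length : ℤ) + (i : ℤ) + (k : ℤ) := by
          unfold sm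
          rw [ct_eq e1 (by omega) (by omega)]
          push_cast; ring
        rw [e3]
        have h4 := LgW.glue (p := i) (r := r + 1) (w' := w') (w := u) s x k (by omega)
        have e4 : s * (w'.length : ℤ) + ((r + 1 : ℕ) : ℤ) + (k : ℤ) =
            s * (w'.length : ℤ) + r + ((k + 1 : ℕ) : ℤ) := by push_cast; ring
        rw [e4] at h4
        exact Relation.EqvGen.rel _ _ h4
  | refl x => exact Relation.EqvGen.refl _
  | symm x y _ ih => exact Relation.EqvGen.symm _ _ ih
  | trans x y z _ _ ih1 ih2 => exact Relation.EqvGen.trans _ _ _ ih1 ih2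

theorem iso_glue (hi : i ≤ u.length) {a : ℤ} (x : ℤ) (h : iso u.length i a) :
    CnW (i + 1) r w' (lins i u) ((a, false), x)
      ((ct u.length i a * w'.length + r, true), x + if 0 ≤ ct u.length i a then 1 else 0) := by
  obtain ⟨k, hk⟩ := h
  have e1 : a = ((u.length : ℤ) + 2) * k + ((u.length : ℤ) + 1) - ((u.length : ℤ) - i) := by
    rw [hk]; ring
  rw [ct_eq e1 (by omega) (by omega)]
  have h4 := LgW.glue (p := i + 1) (r := r) (w' := w') (w := lins i u) k x 0
    (by rw [len_lins]; omega)
  rw [len_lins] at h4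
  have e2 : k * ((u.length + 2 : ℕ) : ℤ) + ((i + 1 : ℕ) : ℤ) + ((0 : ℕ) : ℤ) = a := by
    rw [hk]; push_cast; ring
  have e3 : k * (w'.length : ℤ) + r + ((0 : ℕ) : ℤ) = k * (w'.length : ℤ) + r := by
    push_cast; ring
  rw [e2, e3] at h4
  exact Relation.EqvGen.rel _ _ h4

theorem fibre (hi : i ≤ u.length) {X Y : (ℤ × Bool) × ℤ}
    (h : ph u.length i r w'.length X = ph u.length i r w'.length Y) :
    CnW (i + 1) r w' (lins i u) X Y := by
  obtain ⟨⟨a, α⟩, x⟩ := X
  obtain ⟨⟨b, β⟩, y⟩ := Y
  have hE := Relation.EqvGen.is_equivalence (LgW (i + 1) r w' (lins i u))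
  cases α <;> cases β
  · by_cases ha : iso u.length i a <;> by_cases hb : iso u.length i b
    · rw [ph_iso x ha, ph_iso y hb] at h
      have h1 := iso_glue (r := r) (w' := w') hi x ha
      have h2 := iso_glue (r := r) (w' := w') hi y hb
      rw [← h] at h2
      exact hE.trans h1 (hE.symm h2)
    · rw [ph_iso x ha, ph_non y hb] at h
      simp at h
    · rw [ph_non x ha, ph_iso y hb] at h
      simp at h
    · rw [ph_non x ha, ph_non y hb] at h
      have h1 : sm u.length i a = sm u.length i b := congrArg (fun z => z.1.1) h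
      have hxy : x = y := congrArg Prod.snd h
      subst hxy
      refine Relation.EqvGen.rel _ _ (LgW.low _ _ _ ?_)
      rw [rw_lins' hi]
      right
      refine ⟨ha, hb, ?_⟩
      rw [h1]
      exact (Rw_equiv _).refl _
  · by_cases ha : iso u.length i a
    · rw [ph_iso x ha, ph_true] at h
      have h1 := iso_glue (r := r) (w' := w') hi x ha
      rw [h] at h1
      exact h1
    · rw [ph_non x ha, ph_true] at h
      simp at h
  · by_cases hb : iso u.length i b
    · rw [ph_iso y hb, ph_true] at h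
      have h1 := iso_glue (r := r) (w' := w') hi y hb
      rw [← h] at h1
      exact hE.symm h1
    · rw [ph_non y hb, ph_true] at h
      simp at h
  · rw [ph_true, ph_true] at h
    rw [h]
    exact Relation.EqvGen.refl _

theorem bwd_aux (hi : i ≤ u.length) {X Y : (ℤ × Bool) × ℤ} (h : CnW i (r + 1) w' u X Y) :
    X = Y ∨ ∃ x y, ph u.length i r w'.length x = X ∧ ph u.length i r w'.length y = Y ∧
      CnW (i + 1) r w' (lins i u) x y := by
  have hE := Relation.EqvGen.is_equivalence (LgW (i + 1) r w' (lins i u))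
  unfold CnW at h
  induction h with
  | rel X Y h =>
    rcases h with ⟨a, b, x, hab⟩ | ⟨a, b, x, hab⟩ | ⟨s, x, j, hj⟩
    · rcases Nat.eq_zero_or_pos u.length with h0 | h0
      · left
        have hu : u = [] := List.length_eq_zero_iff.mp h0
        subst hu
        have hinc : Sem1Aux.Inc (sg ([] : Word)) (fun a => a) := by
          intro x
          unfold sg
          simp
        rw [Sem1Aux.Rw_iff hinc] at hab
        have := hab.1
        simp only at this
        rw [this]
      · right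
        obtain ⟨t1, t2⟩ := sec_spec (i := i) h0 a
        obtain ⟨t3, t4⟩ := sec_spec (i := i) h0 b
        refine ⟨((Sem4Aux.sec u.length i a, false), x), ((Sem4Aux.sec u.length i b, false), x),
          ?_, ?_, ?_⟩
        · rw [ph_non x t1, t2]
        · rw [ph_non x t3, t4]
        · refine Relation.EqvGen.rel _ _ (LgW.low _ _ _ ?_)
          rw [rw_lins' hi]
          right
          refine ⟨t1, t3, ?_⟩
          rw [t2, t4]
          exact hab
    · right
      exact ⟨((a, true), x), ((b, true), x), ph_true _ _ _ _ _ _, ph_true _ _ _ _ _ _,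
        Relation.EqvGen.rel _ _ (LgW.upp _ _ _ hab)⟩
    · right
      have h4 := LgW.glue (p := i + 1) (r := r) (w' := w') (w := lins i u) s x (j + 1)
        (by rw [len_lins]; omega)
      rw [len_lins] at h4
      refine ⟨_, _, ?_, ?_, Relation.EqvGen.rel _ _ h4⟩
      · have e1 : s * ((u.length + 2 : ℕ) : ℤ) + ((i + 1 : ℕ) : ℤ) + ((j + 1 : ℕ) : ℤ) =
            ((u.length : ℤ) + 2) * (s + 1) + (j : ℤ) - ((u.length : ℤ) - i) := by
          push_cast; ring
        have h1 : ¬ iso u.length i
            (s * ((u.length + 2 : ℕ) : ℤ) + ((i + 1 : ℕ) : ℤ) + ((j + 1 : ℕ) : ℤ)) := by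
          rw [iso_iff e1 (by omega) (by omega)]
          omega
        rw [ph_non x h1]
        congr 2
        unfold sm
        rw [ct_eq e1 (by omega) (by omega)]
        push_cast; ring
      · rw [ph_true]
        congr 2
        push_cast; ring
  | refl X => exact Or.inl rfl
  | symm X Y _ ih =>
    rcases ih with h | ⟨x, y, h1, h2, h3⟩
    · exact Or.inl h.symm
    · exact Or.inr ⟨y, x, h2, h1, hE.symm h3⟩
  | trans X Y Z _ _ ih1 ih2 =>
    rcases ih1 with h | ⟨x, y, h1, h2, h3⟩
    · subst h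
      exact ih2
    · rcases ih2 with h | ⟨y', z, k1, k2, k3⟩
      · subst h
        exact Or.inr ⟨x, y, h1, h2, h3⟩
      · exact Or.inr ⟨x, z, h1, k2, hE.trans h3 (hE.trans (fibre hi (h2.trans k1.symm)) k3)⟩

theorem cn_iff (hi : i ≤ u.length) (X Y : (ℤ × Bool) × ℤ) :
    CnW (i + 1) r w' (lins i u) X Y ↔
      CnW i (r + 1) w' u (ph u.length i r w'.length X) (ph u.length i r w'.length Y) := by
  have hE := Relation.EqvGen.is_equivalence (LgW (i + 1) r w' (lins i u))
  constructor
  · exact fwd hi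
  · intro h
    rcases bwd_aux hi h with h | ⟨x', y', h1, h2, h3⟩
    · exact fibre hi h
    · exact hE.trans (fibre hi h1.symm) (hE.trans h3 (fibre hi h2))

theorem lf_eq (hi : i ≤ u.length) (J : ℤ) :
    ph u.length i r w'.length (lf (i + 1) r J) = lf i (r + 1) J := by
  have e0 : i + 1 + r = i + (r + 1) := by omega
  unfold lf
  rw [e0]
  have hc0 : 0 ≤ J % ((i + (r + 1) : ℕ) : ℤ) := Int.emod_nonneg _ (by positivity)
  generalize J % ((i + (r + 1) : ℕ) : ℤ) = c at hc0 ⊢
  generalize J / ((i + (r + 1) : ℕ) : ℤ) = x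
  rcases lt_trichotomy c ((i : ℤ) + 1) with h | h | h
  · rw [if_pos (by push_cast; omega), if_pos (by omega)]
    have e1 : c = ((u.length : ℤ) + 2) * 0 + (c + ((u.length : ℤ) - i)) - ((u.length : ℤ) - i) := by
      ring
    have h1 : ¬ iso u.length i c := by
      rw [iso_iff e1 (by omega) (by omega)]
      omega
    rw [ph_non x h1]
    congr 2
    unfold sm
    rw [ct_eq e1 (by omega) (by omega)]
    ring
  · subst h
    rw [if_pos (by push_cast; omega), if_neg (by omega)]
    have e1 : (i : ℤ) + 1 = ((u.length : ℤ) + 2) * 0 + ((u.length : ℤ) + 1) -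
        ((u.length : ℤ) - i) := by ring
    have h1 : iso u.length i ((i : ℤ) + 1) := (iso_iff e1 (by omega) (by omega)).mpr rfl
    rw [ph_iso x h1, ct_eq e1 (by omega) (by omega), if_pos le_rfl]
    congr 2
    push_cast; ring
  · rw [if_neg (by push_cast; omega), if_neg (by omega), ph_true]

theorem tg_eq (hi : i ≤ u.length) (d : ℕ) :
    ph u.length i r w'.length (tg (i + 1) r w' (lins i u) d) = tg i (r + 1) w' u d := by
  unfold tg pt
  rw [len_lins]
  rcases lt_trichotomy d (i + 1) with h | h | h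
  · rw [if_pos (by omega), if_pos (by omega), if_pos (by omega), if_pos (by omega)]
    have e1 : (1 : ℤ) * ((u.length + 2 : ℕ) : ℤ) + (d : ℤ) =
        ((u.length : ℤ) + 2) * 1 + ((d : ℤ) + ((u.length : ℤ) - i)) - ((u.length : ℤ) - i) := by
      push_cast; ring
    have h1 : ¬ iso u.length i ((1 : ℤ) * ((u.length + 2 : ℕ) : ℤ) + (d : ℤ)) := by
      rw [iso_iff e1 (by omega) (by omega)]
      omega
    rw [ph_non 0 h1]
    congr 2
    unfold sm
    rw [ct_eq e1 (by omega) (by omega)]
    push_cast; ring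
  · subst h
    rw [if_pos le_rfl, if_pos le_rfl, if_neg (by omega), if_neg (by omega)]
    have e1 : (1 : ℤ) * ((u.length + 2 : ℕ) : ℤ) + ((i + 1 : ℕ) : ℤ) =
        ((u.length : ℤ) + 2) * 1 + ((u.length : ℤ) + 1) - ((u.length : ℤ) - i) := by
      push_cast; ring
    have h1 : iso u.length i ((1 : ℤ) * ((u.length + 2 : ℕ) : ℤ) + ((i + 1 : ℕ) : ℤ)) :=
      (iso_iff e1 (by omega) (by omega)).mpr rfl
    rw [ph_iso 0 h1, ct_eq e1 (by omega) (by omega), if_pos zero_le_one, zero_add]
    congr 2
    push_cast; ring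
  · rw [if_neg (by omega), if_neg (by omega), if_neg (by omega), if_neg (by omega), ph_true]
    congr 2
    push_cast; ring

theorem ix_iff (hi : i ≤ u.length) (J : ℤ) :
    Ix (i + 1) r w' (lins i u) J ↔ Ix i (r + 1) w' u J := by
  unfold Ix
  have e : i + 1 + r = i + (r + 1) := by omega
  rw [e]
  have key : ∀ (t : ℤ) (d : ℕ),
      CnW (i + 1) r w' (lins i u) (lf (i + 1) r t) (tg (i + 1) r w' (lins i u) d) ↔
      CnW i (r + 1) w' u (lf i (r + 1) t) (tg i (r + 1) w' u d) := by
    intro t d
    rw [cn_iff hi, lf_eq hi, tg_eq hi]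
  simp only [key]

end main

end TMOVR

/-- arc between the last leg and the first through strand -/
theorem t_MOVR : W_moveR := by
  intro k p r w' u _ _ _ _ _ _ hp hp2 j
  obtain ⟨i, rfl⟩ : ∃ i, p = i + 1 := ⟨p - 1, by omega⟩
  have hi : i ≤ u.length := by omega
  rw [Nat.add_sub_cancel]
  exact and_congr (Pool.Agent.H160R2.ML.TmoveR.good_iff (r := r) (w' := w') hi)
    (TMOVR.ix_iff hi j)

end Pool.Agent.Helper21.AW
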