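import Pool.Agent.Helper21.EV.Asym
import Pool.Graph.R_seed8.H160R2.ML.T_PB

/-!
# The normalisation in closed form
-/

set_option autoImplicit false

namespace Pool.Agent.Helper21.AW

open Pool.Agent.H863R2.Cyl Pool.Agent.H160R2.ML Pool.Agent.Helper21.EV
open Pool.Agent.H974R3 (Dval aexp)
open Pool.Agent.H974R3.Value
open Pool.Agent.Helper21.ID (fac_succ)

/-- the product of the ratios -/
theorem ff_prod (n : ℕ) : ff 1 (2 * n) * ff 2 (2 * n) = 3 ^ (2 * n) *
    (((3 * n).factorial : ℝ) * ((3 * n + 2).factorial : ℝ) * (n.factorial : ℝ) ^ 2 /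
      (((2 * n).factorial : ℝ) * ((2 * n + 1).factorial : ℝ)) ^ 2) := by
  induction n with
  | zero =>
    unfold ff Pool.Agent.H974R3.Value.ee
    norm_num [Finset.prod_range_succ, aexp]
  | succ n ih =>
    have k1 := ff_even n
    have k2 := ff_even2 n
    rw [show 2 * (n + 1) = 2 * n + 2 from by ring, k1, k2]
    have e1 : ((3 * (n + 1)).factorial : ℝ) =
        (3 * n + 3) * ((3 * n + 2) * ((3 * n + 1) * ((3 * n).factorial : ℝ))) := by
      rw [show 3 * (n + 1) = 3 * n + 1 + 1 + 1 from by ring]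
      simp only [Nat.factorial_succ]
      push_cast
      ring
    have e2 : ((3 * (n + 1) + 2).factorial : ℝ) =
        (3 * n + 5) * ((3 * n + 4) * ((3 * n + 3) * ((3 * n + 2).factorial : ℝ))) := by
      rw [show 3 * (n + 1) + 2 = 3 * n + 2 + 1 + 1 + 1 from by ring]
      simp only [Nat.factorial_succ]
      push_cast
      ring
    have e3 : ((2 * n + 2).factorial : ℝ) = (2 * n + 2) * ((2 * n + 1) * ((2 * n).factorial : ℝ)) := by
      rw [show 2 * n + 2 = 2 * n + 1 + 1 from by ring]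
      simp only [Nat.factorial_succ]
      push_cast
      ring
    have e4 : ((2 * n + 2 + 1).factorial : ℝ) =
        (2 * n + 3) * ((2 * n + 2) * ((2 * n + 1).factorial : ℝ)) := by
      rw [show 2 * n + 2 + 1 = 2 * n + 1 + 1 + 1 from by ring]
      simp only [Nat.factorial_succ]
      push_cast
      ring
    have e5 : (((n + 1).factorial : ℕ) : ℝ) = (n + 1) * (n.factorial : ℝ) := by
      rw [Nat.factorial_succ]; push_cast; ring
    have h3 : ∀ m : ℕ, (0 : ℝ) < (m.factorial : ℝ) := fun m => by exact_mod_cast m.factorial_pos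
    have a1 := h3 (2 * n)
    have a2 := h3 (2 * n + 1)
    rw [e1, e2, e3, e4, e5]
    rw [show ff 1 (2 * n) * ((3 * (n : ℝ) + 3) ^ 2 * (3 * n + 2) * (3 * n + 4) /
      ((2 * (n : ℝ) + 1) * (2 * n + 2) ^ 2 * (2 * n + 3))) * (ff 2 (2 * n) *
      ((3 * (n : ℝ) + 3) ^ 2 * (3 * n + 1) * (3 * n + 5) /
      ((2 * (n : ℝ) + 1) * (2 * n + 2) ^ 2 * (2 * n + 3)))) = (ff 1 (2 * n) * ff 2 (2 * n)) *
      (((3 * (n : ℝ) + 3) ^ 2 * (3 * n + 2) * (3 * n + 4) /
      ((2 * (n : ℝ) + 1) * (2 * n + 2) ^ 2 * (2 * n + 3))) *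
      ((3 * (n : ℝ) + 3) ^ 2 * (3 * n + 1) * (3 * n + 5) /
      ((2 * (n : ℝ) + 1) * (2 * n + 2) ^ 2 * (2 * n + 3)))) by ring, ih, pow_add]
    field_simp

theorem Dval_prod (n : ℕ) : Dval 1 (2 * n) * Dval 2 (2 * n) = 3 ^ (n * (n - 1)) * ahtE n := by
  induction n with
  | zero =>
    unfold ahtE
    simp [Dval]
  | succ n ih =>
    rw [show 2 * (n + 1) = 2 * n + 2 from by ring, Dval_add2, Dval_add2, ahtE_succ,
      show Dval 1 (2 * n) * ff 1 (2 * n) * (Dval 2 (2 * n) * ff 2 (2 * n)) =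
        (Dval 1 (2 * n) * Dval 2 (2 * n)) * (ff 1 (2 * n) * ff 2 (2 * n)) by ring, ih, ff_prod]
    have e : (n + 1) * (n + 1 - 1) = n * (n - 1) + 2 * n := by
      rcases n with _ | n
      · rfl
      · simp only [Nat.add_sub_cancel]; ring
    rw [e, pow_add]
    ring

theorem norm_value (n : ℕ) : RR (2 * n) 0 (Real.pi / 3) = ahtE n ^ 2 := by
  obtain ⟨q, hq⟩ : ∃ q : ℂ, q ^ 2 + q + 1 = 0 := ⟨_, Pool.Agent.H988R2.Perc.q_spec⟩
  obtain ⟨G, hG, hG1⟩ := gspec_plus q hq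
  set w := Complex.exp (Real.pi / 3 * Complex.I) with hw
  have hwre : w = ((1 / 2 : ℝ) : ℂ) + ((Real.sqrt 3 / 2 : ℝ) : ℂ) * Complex.I := by
    rw [hw, Complex.exp_mul_I]
    have h1 : Complex.cos (Real.pi / 3) = ((1 / 2 : ℝ) : ℂ) := by
      rw [← Real.cos_pi_div_three]; push_cast; rfl
    have h2 : Complex.sin (Real.pi / 3) = ((Real.sqrt 3 / 2 : ℝ) : ℂ) := by
      rw [← Real.sin_pi_div_three]; push_cast; rfl
    rw [h1, h2]
  have hw0 : w ≠ 0 := Complex.exp_ne_zero _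
  have hwnorm : ‖w‖ = 1 := by
    rw [hw]
    have : (Real.pi / 3 * Complex.I : ℂ) = ((Real.pi / 3 : ℝ) : ℂ) * Complex.I := by push_cast; ring
    rw [this, Complex.norm_exp_ofReal_mul_I]
  have hwne : w ≠ -1 := by
    intro h
    have h1 : w.re = 1 / 2 := by rw [hwre]; simp
    rw [h] at h1
    norm_num at h1
  have hw1 : w + w⁻¹ = 1 := by
    have h3 : Real.sqrt 3 * Real.sqrt 3 = 3 := Real.mul_self_sqrt (by norm_num)
    have h4 : w * w - w + 1 = 0 := by
      rw [hwre]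
      apply Complex.ext
      · simp
        nlinarith
      · simp
        ring
    field_simp
    linear_combination h4
  have g2 := G_ones hq hw0 hwne (G := G) (by rw [hw1]; exact hG) n
  rw [hG1] at g2
  have n1 := congrArg norm g2
  have hwn : ‖(w⁻¹) ^ n‖ = 1 := by rw [norm_pow, norm_inv, hwnorm, inv_one, one_pow]
  have h3 : ‖(3 : ℂ)‖ = 3 := by norm_num
  rw [norm_mul, norm_mul, hwn, mul_one, norm_pow, norm_pow, hw, TPB.norm_pas, h3,
    Complex.norm_real, Real.norm_eq_abs, sq_abs, Dval_prod, mul_pow, ← pow_mul] at n1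
  have h4 : (0 : ℝ) < 3 ^ (2 * n * (n - 1)) := by positivity
  apply mul_left_cancel₀ h4.ne'
  rw [← n1]
  congr 2
  ring

theorem t_NORM (n : ℕ) : RR (2 * n + 2) 0 (Real.pi / 3) = ahtE (n + 1) ^ 2 := by
  rw [show 2 * n + 2 = 2 * (n + 1) from by ring]
  exact norm_value (n + 1)

end Pool.Agent.Helper21.AW
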