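import Pool.Agent.Helper21.AW.Stm

/-!
# `2k` arms, package SYMM (helper7): exchange of above and below
-/

set_option autoImplicit false

namespace Pool.Agent.Helper21.AW

open Pool.Agent.H863R2.Cyl Pool.Agent.H160R2.ML Pool.Agent.Helper21.EV
open Pool.Agent.H988R2.Perc (Word PD)

namespace SY

/-- exchange of above and below, with the label reflected -/
def fl (x : (ℤ × Bool) × ℤ) : (ℤ × Bool) × ℤ := ((x.1.1, !x.1.2), 1 - x.2)

theorem cn_fl {p r : ℕ} {w' w : Word} (h : w'.length + p = w.length + r)
    {x y : (ℤ × Bool) × ℤ} (hc : CnW p r w' w x y) : CnW r p w w' (fl x) (fl y) := by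
  induction hc with
  | rel x y hxy =>
    cases hxy with
    | low a b x hab => exact Relation.EqvGen.rel _ _ (LgW.upp a b (1 - x) hab)
    | upp a b x hab => exact Relation.EqvGen.rel _ _ (LgW.low a b (1 - x) hab)
    | glue s x i hi =>
      have h1 := LgW.glue (p := r) (r := p) (w' := w) (w := w') s
        (1 - (x + if 0 ≤ s then 1 else 0)) i (by omega)
      have h2 : 1 - (x + if 0 ≤ s then (1 : ℤ) else 0) + (if 0 ≤ s then (1 : ℤ) else 0) =
          1 - x := by ring
      rw [h2] at h1
      exact Relation.EqvGen.symm _ _ (Relation.EqvGen.rel _ _ h1)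
  | refl x => exact Relation.EqvGen.refl _
  | symm x y _ ih => exact Relation.EqvGen.symm _ _ ih
  | trans x y z _ _ ih1 ih2 => exact Relation.EqvGen.trans _ _ _ ih1 ih2

/-- the left end of the slit `s` -/
theorem left {p r : ℕ} {w' w : Word} (h : w'.length + p = w.length + r) (hp : p ≤ w.length)
    (s x : ℤ) : CnW p r w' w ((s * w.length, false), x)
      ((s * w'.length, true), x + if 0 ≤ s - 1 then 1 else 0) := by
  have hg := LgW.glue (p := p) (r := r) (w' := w') (w := w) (s - 1) x (w.length - p) (by omega)
  have e3 : (s - 1) * (w.length : ℤ) + p + ((w.length - p : ℕ) : ℤ) = s * w.length := by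
    rw [Nat.cast_sub hp]; ring
  have e4 : (s - 1) * (w'.length : ℤ) + r + ((w.length - p : ℕ) : ℤ) = s * w'.length := by
    rw [Nat.cast_sub hp]
    have : (w'.length : ℤ) + p = w.length + r := by exact_mod_cast h
    linarith
  rw [e3, e4] at hg
  exact Relation.EqvGen.rel _ _ hg

/-- the right end of the slit `s` -/
theorem right {p r : ℕ} {w' w : Word} (hp : p ≤ w.length)
    (s x : ℤ) : CnW p r w' w ((s * w.length + p, false), x)
      ((s * w'.length + r, true), x + if 0 ≤ s then 1 else 0) := by
  have hg := LgW.glue (p := p) (r := r) (w' := w') (w := w) s x 0 (by omega)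
  rw [Nat.cast_zero, add_zero, add_zero] at hg
  exact Relation.EqvGen.rel _ _ hg

/-- the sectors of the slit `0` -/
theorem lf_fl {p r : ℕ} {w' w : Word} (h : w'.length + p = w.length + r) (hp : p ≤ w.length)
    (hl : 0 < p + r) (i : ℤ) :
    CnW r p w w' (fl (lf p r i)) (lf r p ((p + r : ℕ) - i)) := by
  have hr : r ≤ w'.length := by omega
  obtain ⟨l, hl'⟩ : ∃ l : ℤ, l = ((p + r : ℕ) : ℤ) := ⟨_, rfl⟩
  have hl0 : 0 < l := by rw [hl']; exact_mod_cast hl
  have hlc : l = p + r := by rw [hl']; push_cast; ring
  have hrp : (((r + p : ℕ)) : ℤ) = l := by rw [hl', Nat.add_comm]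
  obtain ⟨m, hm⟩ : ∃ m, m = i % l := ⟨_, rfl⟩
  obtain ⟨q, hq⟩ : ∃ q, q = i / l := ⟨_, rfl⟩
  have hmq : i = m + l * q := by rw [hm, hq]; exact (Int.emod_add_mul_ediv i l).symm
  have hm0 : 0 ≤ m := by rw [hm]; exact Int.emod_nonneg _ hl0.ne'
  have hml : m < l := by rw [hm]; exact Int.emod_lt_of_pos _ hl0
  unfold lf
  rw [hrp, ← hl', ← hm, ← hq]
  rcases hm0.eq_or_lt with h0 | h0
  · -- the left end
    have e1 : (l - i) % l = 0 := by
      rw [hmq, ← h0]
      have : l - (0 + l * q) = l * (1 - q) := by ring
      rw [this]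
      exact Int.mul_emod_right _ _
    have e2 : (l - i) / l = 1 - q := by
      rw [hmq, ← h0]
      have : l - (0 + l * q) = l * (1 - q) := by ring
      rw [this]
      exact Int.mul_ediv_cancel_left _ hl0.ne'
    rw [e1, e2, ← h0, if_pos (by positivity), if_pos (by positivity)]
    have h3 := left (p := r) (r := p) (w' := w) (w := w') (by omega) hr 0 (1 - q)
    rw [if_neg (by norm_num), zero_mul, zero_mul, add_zero] at h3
    exact Relation.EqvGen.symm _ _ h3
  · have e1 : (l - i) % l = l - m := by
      rw [hmq]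
      have : l - (m + l * q) = (l - m) + l * (-q) := by ring
      rw [this, Int.add_mul_emod_self_left]
      exact Int.emod_eq_of_lt (by linarith) (by linarith)
    have e2 : (l - i) / l = -q := by
      rw [hmq]
      have : l - (m + l * q) = (l - m) + l * (-q) := by ring
      rw [this, Int.add_mul_ediv_left _ _ hl0.ne', Int.ediv_eq_zero_of_lt (by linarith) (by linarith)]
      ring
    rw [e1, e2]
    rcases lt_trichotomy m p with hlt | heq | hgt
    · rw [if_pos hlt.le, if_neg (by linarith)]
      have : fl ((m, false), q) = ((l - (l - m), true), -q + 1) := by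
        unfold fl
        simp only [Bool.not_false, Prod.mk.injEq, and_true]
        constructor <;> ring
      rw [this]
      exact Relation.EqvGen.refl _
    · rw [if_pos heq.le, if_pos (by linarith)]
      have h3 := right (p := r) (r := p) (w' := w) (w := w') hr 0 (-q)
      rw [if_pos le_rfl, zero_mul, zero_add, zero_mul, zero_add] at h3
      have e3 : fl ((m, false), q) = (((p : ℤ), true), -q + 1) := by
        unfold fl
        simp only [Bool.not_false, Prod.mk.injEq, and_true]
        exact ⟨heq, by ring⟩
      have e4 : l - m = r := by linarith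
      rw [e3, e4]
      exact Relation.EqvGen.symm _ _ h3
    · rw [if_neg (by linarith), if_pos (by linarith)]
      have : fl ((l - m, true), q + 1) = ((l - m, false), -q) := by
        unfold fl
        simp only [Bool.not_true, Prod.mk.injEq, true_and]
        ring
      rw [this]
      exact Relation.EqvGen.refl _

/-- the sectors of the slit `1` -/
theorem tg_fl {p r : ℕ} {w' w : Word} (h : w'.length + p = w.length + r) (hp : p ≤ w.length)
    {d : ℕ} (hd : d < p + r) : ∃ d' : ℕ, d' < r + p ∧
    CnW r p w w' (fl (tg p r w' w d)) (tg r p w w' d') := by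
  have hr : r ≤ w'.length := by omega
  rcases Nat.eq_zero_or_pos d with h0 | h0
  · refine ⟨0, by omega, ?_⟩
    rw [h0]
    unfold tg pt
    rw [if_pos (Nat.zero_le _), if_pos (Nat.zero_le _), if_pos (Nat.zero_le _),
      if_pos (Nat.zero_le _), Nat.cast_zero, add_zero, add_zero]
    have h3 := left (p := r) (r := p) (w' := w) (w := w') (by omega) hr 1 0
    rw [if_pos (by norm_num)] at h3
    have e3 : fl ((1 * (w.length : ℤ), false), 0) = ((1 * (w.length : ℤ), true), 0 + 1) := by
      unfold fl
      simp
    rw [e3]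
    exact Relation.EqvGen.symm _ _ h3
  · refine ⟨p + r - d, by omega, ?_⟩
    have hc : ((p + r - d : ℕ) : ℤ) = p + r - d := by
      rw [Nat.cast_sub hd.le]; push_cast; ring
    unfold tg pt
    rcases lt_trichotomy d p with hlt | heq | hgt
    · rw [if_pos hlt.le, if_pos hlt.le, if_neg (by omega), if_neg (by omega), hc]
      have : fl ((1 * (w.length : ℤ) + d, false), 0) =
          ((1 * (w.length : ℤ) + ((r : ℤ) + p - (p + r - d)), true), 1) := by
        unfold fl
        simp only [Bool.not_false, Prod.mk.injEq, and_true]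
        constructor <;> ring
      rw [this]
      exact Relation.EqvGen.refl _
    · rw [if_pos heq.le, if_pos heq.le, if_pos (by omega), if_pos (by omega), hc]
      have h3 := right (p := r) (r := p) (w' := w) (w := w') hr 1 0
      rw [if_pos (by norm_num)] at h3
      have e3 : fl ((1 * (w.length : ℤ) + d, false), 0) =
          ((1 * (w.length : ℤ) + p, true), 0 + 1) := by
        unfold fl
        rw [heq]
        simp
      have e4 : (p : ℤ) + r - d = r := by rw [heq]; ring
      rw [e3, e4]
      exact Relation.EqvGen.symm _ _ h3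
    · rw [if_neg (by omega), if_neg (by omega), if_pos (by omega), if_pos (by omega), hc]
      have : fl ((1 * (w'.length : ℤ) + ((p : ℤ) + r - d), true), 1) =
          ((1 * (w'.length : ℤ) + ((p : ℤ) + r - d), false), 0) := by
        unfold fl
        simp
      rw [this]
      exact Relation.EqvGen.refl _

end SY

theorem t_SYMM : W_symm := by
  intro k p r w' w hk hpr hlen hp j hJ
  obtain ⟨hG, hI⟩ := hJ
  refine ⟨Tsymm.good_of hlen hp hG, ?_⟩
  intro i hi
  obtain ⟨d, hd, hcn⟩ := hI (k - i) (by omega)
  obtain ⟨d', hd', hcn'⟩ := SY.tg_fl hlen hp hd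
  refine ⟨d', hd', ?_⟩
  have h1 := SY.lf_fl hlen hp (by omega) (j + ((k - i : ℕ) : ℤ))
  have e1 : ((p + r : ℕ) : ℤ) - (j + ((k - i : ℕ) : ℤ)) = (k : ℤ) - j + i := by
    rw [hpr, Nat.cast_sub (by omega)]
    push_cast
    ring
  rw [e1] at h1
  exact Relation.EqvGen.trans _ _ _ (Relation.EqvGen.symm _ _ h1)
    (Relation.EqvGen.trans _ _ _ (SY.cn_fl hlen hcn) hcn')

end Pool.Agent.Helper21.AW
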