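import Pool.Agent.Helper21.AW.Stm

/-!
Project AW (helper21): package TG (gluing).
-/

set_option autoImplicit false

namespace Pool.Agent.Helper21.AW

open Pool.Agent.H863R2.Cyl Pool.Agent.H160R2.ML Pool.Agent.Helper21.EV
open Pool.Agent.H988R2.Perc (Word PD)

namespace TG

open Relation

/-- points of the level `0` -/
def io (u : (ℤ × Bool) × ℤ) : ((ℤ × ℤ) × Bool) × ℤ := (((u.1.1, 0), u.1.2), u.2)

section

variable {m k : ℕ} {ω : Fin (m + 1) × ℤ → Bool} {w' w : Word}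

theorem low_lift {g h : ℤ × ℤ} (hgh : EqvGen (LowL ω) g h) (x : ℤ) :
    EqvGen (CutW k ω) ((g, false), x) ((h, false), x) := by
  induction hgh with
  | rel g h hgh =>
    cases hgh with
    | ur j t ht ho => exact EqvGen.rel _ _ (CutW.lowr j t x ht ho)
    | ul j t ht ho => exact EqvGen.rel _ _ (CutW.lowl j t x ht ho)
  | refl g => exact EqvGen.refl _
  | symm g h _ ih => exact EqvGen.symm _ _ ih
  | trans g h l _ _ ih1 ih2 => exact EqvGen.trans _ _ _ ih1 ih2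

theorem upp_lift {g h : ℤ × ℤ} (hgh : EqvGen (UppL ω) g h) (x : ℤ) :
    EqvGen (CutW k ω) ((g, true), x) ((h, true), x) := by
  induction hgh with
  | rel g h hgh =>
    cases hgh with
    | ur j t ht ho => exact EqvGen.rel _ _ (CutW.uppr j t x ht ho)
    | ul j t ht ho => exact EqvGen.rel _ _ (CutW.uppl j t x ht ho)
  | refl g => exact EqvGen.refl _
  | symm g h _ ih => exact EqvGen.symm _ _ ih
  | trans g h l _ _ ih1 ih2 => exact EqvGen.trans _ _ _ ih1 ih2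

theorem of_cn (hw : w.length = m + 1) (hw' : w'.length = m + 1)
    (hL : ∀ a b : ℤ, EqvGen (LowL ω) (a, 0) (b, 0) ↔ Rw w a b)
    (hU : ∀ a b : ℤ, EqvGen (UppL ω) (a, 0) (b, 0) ↔ Rw w' a b) {u v : (ℤ × Bool) × ℤ}
    (h : CnW k k w' w u v) : EqvGen (CutW k ω) (io u) (io v) := by
  induction h with
  | rel u v h =>
    cases h with
    | low a b x hab => exact low_lift ((hL a b).2 hab) x
    | upp a b x hab => exact upp_lift ((hU a b).2 hab) x
    | glue s x i hi =>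
      have h1 := CutW.glue (m := m) (k := k) (ω := ω) s x i (by rw [← hw]; exact hi)
      have h2 := EqvGen.rel _ _ h1
      simp only [io, hw, hw']
      exact h2
  | refl u => exact EqvGen.refl _
  | symm u v _ ih => exact EqvGen.symm _ _ ih
  | trans u v t _ _ ih1 ih2 => exact EqvGen.trans _ _ _ ih1 ih2

/-- the invariant -/
def Inv (k : ℕ) (ω : Fin (m + 1) × ℤ → Bool) (w' w : Word) (u : (ℤ × Bool) × ℤ)
    (g : ((ℤ × ℤ) × Bool) × ℤ) : Prop :=
  (g.1.2 = false → ∃ a : ℤ, EqvGen (LowL ω) g.1.1 (a, 0) ∧ CnW k k w' w u ((a, false), g.2)) ∧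
  (g.1.2 = true → ∃ a : ℤ, EqvGen (UppL ω) g.1.1 (a, 0) ∧ CnW k k w' w u ((a, true), g.2))

theorem inv_step (hw : w.length = m + 1) (hw' : w'.length = m + 1)
    (hL : ∀ a b : ℤ, EqvGen (LowL ω) (a, 0) (b, 0) ↔ Rw w a b)
    (hU : ∀ a b : ℤ, EqvGen (UppL ω) (a, 0) (b, 0) ↔ Rw w' a b) (u : (ℤ × Bool) × ℤ)
    {g h : ((ℤ × ℤ) × Bool) × ℤ} (hgh : CutW k ω g h) : Inv k ω w' w u g ↔ Inv k ω w' w u h := by
  have hlow : ∀ (g1 g2 : ℤ × ℤ) (x : ℤ), LowL ω g1 g2 →
      (Inv k ω w' w u ((g1, false), x) ↔ Inv k ω w' w u ((g2, false), x)) := by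
    intro g1 g2 x h12
    constructor
    · intro hI
      refine ⟨fun _ => ?_, fun h => absurd h (by simp)⟩
      obtain ⟨a, ha, hc⟩ := hI.1 rfl
      exact ⟨a, (EqvGen.symm _ _ (EqvGen.rel _ _ h12)).trans _ _ _ ha, hc⟩
    · intro hI
      refine ⟨fun _ => ?_, fun h => absurd h (by simp)⟩
      obtain ⟨a, ha, hc⟩ := hI.1 rfl
      exact ⟨a, (EqvGen.rel _ _ h12).trans _ _ _ ha, hc⟩
  have hupp : ∀ (g1 g2 : ℤ × ℤ) (x : ℤ), UppL ω g1 g2 →
      (Inv k ω w' w u ((g1, true), x) ↔ Inv k ω w' w u ((g2, true), x)) := by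
    intro g1 g2 x h12
    constructor
    · intro hI
      refine ⟨fun h => absurd h (by simp), fun _ => ?_⟩
      obtain ⟨a, ha, hc⟩ := hI.2 rfl
      exact ⟨a, (EqvGen.symm _ _ (EqvGen.rel _ _ h12)).trans _ _ _ ha, hc⟩
    · intro hI
      refine ⟨fun h => absurd h (by simp), fun _ => ?_⟩
      obtain ⟨a, ha, hc⟩ := hI.2 rfl
      exact ⟨a, (EqvGen.rel _ _ h12).trans _ _ _ ha, hc⟩
  cases hgh with
  | lowr j t x ht ho => exact hlow _ _ x (LowL.ur j t ht ho)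
  | lowl j t x ht ho => exact hlow _ _ x (LowL.ul j t ht ho)
  | uppr j t x ht ho => exact hupp _ _ x (UppL.ur j t ht ho)
  | uppl j t x ht ho => exact hupp _ _ x (UppL.ul j t ht ho)
  | glue s x i hi =>
    have hg : CnW k k w' w ((s * (m + 1 : ℕ) + k + i, false), x)
        ((s * (m + 1 : ℕ) + k + i, true), x + if 0 ≤ s then 1 else 0) := by
      have h1 := LgW.glue (p := k) (r := k) (w' := w') (w := w) s x i (by rw [hw]; exact hi)
      have h2 := EqvGen.rel _ _ h1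
      simp only [hw, hw'] at h2
      exact h2
    constructor
    · intro hI
      refine ⟨fun h => absurd h (by simp), fun _ => ?_⟩
      obtain ⟨a, ha, hc⟩ := hI.1 rfl
      refine ⟨_, EqvGen.refl _, EqvGen.trans _ _ _ hc (EqvGen.trans _ _ _ ?_ hg)⟩
      exact EqvGen.symm _ _ (EqvGen.rel _ _ (LgW.low _ _ _ ((hL _ _).1 ha)))
    · intro hI
      refine ⟨fun _ => ?_, fun h => absurd h (by simp)⟩
      obtain ⟨a, ha, hc⟩ := hI.2 rfl
      refine ⟨_, EqvGen.refl _, EqvGen.trans _ _ _ hc (EqvGen.trans _ _ _ ?_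
        (EqvGen.symm _ _ hg))⟩
      exact EqvGen.symm _ _ (EqvGen.rel _ _ (LgW.upp _ _ _ ((hU _ _).1 ha)))

theorem inv_eqv (hw : w.length = m + 1) (hw' : w'.length = m + 1)
    (hL : ∀ a b : ℤ, EqvGen (LowL ω) (a, 0) (b, 0) ↔ Rw w a b)
    (hU : ∀ a b : ℤ, EqvGen (UppL ω) (a, 0) (b, 0) ↔ Rw w' a b) (u : (ℤ × Bool) × ℤ)
    {g h : ((ℤ × ℤ) × Bool) × ℤ} (hgh : EqvGen (CutW k ω) g h) :
    Inv k ω w' w u g ↔ Inv k ω w' w u h := by
  induction hgh with
  | rel g h hgh => exact inv_step hw hw' hL hU u hgh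
  | refl g => exact Iff.rfl
  | symm g h _ ih => exact ih.symm
  | trans g h l _ _ ih1 ih2 => exact ih1.trans ih2

theorem cn_iff (hw : w.length = m + 1) (hw' : w'.length = m + 1)
    (hL : ∀ a b : ℤ, EqvGen (LowL ω) (a, 0) (b, 0) ↔ Rw w a b)
    (hU : ∀ a b : ℤ, EqvGen (UppL ω) (a, 0) (b, 0) ↔ Rw w' a b) (u v : (ℤ × Bool) × ℤ) :
    EqvGen (CutW k ω) (io u) (io v) ↔ CnW k k w' w u v := by
  refine ⟨fun h => ?_, of_cn hw hw' hL hU⟩
  have h1 : Inv k ω w' w u (io u) := by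
    obtain ⟨⟨a, β⟩, x⟩ := u
    cases β
    · exact ⟨fun _ => ⟨a, EqvGen.refl _, EqvGen.refl _⟩, fun h => absurd h (by simp [io])⟩
    · exact ⟨fun h => absurd h (by simp [io]), fun _ => ⟨a, EqvGen.refl _, EqvGen.refl _⟩⟩
  have h2 := (inv_eqv hw hw' hL hU u h).1 h1
  obtain ⟨⟨b, β⟩, y⟩ := v
  cases β
  · obtain ⟨a, ha, hc⟩ := h2.1 rfl
    exact EqvGen.trans _ _ _ hc
      (EqvGen.symm _ _ (EqvGen.rel _ _ (LgW.low _ _ _ ((hL _ _).1 ha))))
  · obtain ⟨a, ha, hc⟩ := h2.2 rfl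
    exact EqvGen.trans _ _ _ hc
      (EqvGen.symm _ _ (EqvGen.rel _ _ (LgW.upp _ _ _ ((hU _ _).1 ha))))

theorem cn_proj {p r : ℕ} {u v : (ℤ × Bool) × ℤ} (h : CnW p r w' w u v) :
    Cn p r w' w u.1 v.1 := by
  induction h with
  | rel u v h =>
    cases h with
    | low a b x hab => exact EqvGen.rel _ _ (Lg.low a b hab)
    | upp a b x hab => exact EqvGen.rel _ _ (Lg.upp a b hab)
    | glue s x i hi => exact EqvGen.rel _ _ (Lg.glue s i hi)
  | refl u => exact EqvGen.refl _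
  | symm u v _ ih => exact EqvGen.symm _ _ ih
  | trans u v t _ _ ih1 ih2 => exact EqvGen.trans _ _ _ ih1 ih2

theorem cn_lift {p r : ℕ} {u v : ℤ × Bool} (h : Cn p r w' w u v) :
    (∀ x : ℤ, ∃ y : ℤ, CnW p r w' w (u, x) (v, y)) ∧
      ∀ y : ℤ, ∃ x : ℤ, CnW p r w' w (u, x) (v, y) := by
  induction h with
  | rel u v h =>
    cases h with
    | low a b hab =>
      exact ⟨fun x => ⟨x, EqvGen.rel _ _ (LgW.low a b x hab)⟩,
        fun x => ⟨x, EqvGen.rel _ _ (LgW.low a b x hab)⟩⟩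
    | upp a b hab =>
      exact ⟨fun x => ⟨x, EqvGen.rel _ _ (LgW.upp a b x hab)⟩,
        fun x => ⟨x, EqvGen.rel _ _ (LgW.upp a b x hab)⟩⟩
    | glue s i hi =>
      refine ⟨fun x => ⟨_, EqvGen.rel _ _ (LgW.glue s x i hi)⟩,
        fun y => ⟨y - (if 0 ≤ s then 1 else 0), ?_⟩⟩
      have h1 := EqvGen.rel _ _ (LgW.glue (p := p) (r := r) (w' := w') (w := w) s
        (y - (if 0 ≤ s then 1 else 0)) i hi)
      rw [sub_add_cancel] at h1
      exact h1
  | refl u => exact ⟨fun x => ⟨x, EqvGen.refl _⟩, fun x => ⟨x, EqvGen.refl _⟩⟩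
  | symm u v _ ih =>
    refine ⟨fun x => ?_, fun x => ?_⟩
    · obtain ⟨y, hy⟩ := ih.2 x
      exact ⟨y, EqvGen.symm _ _ hy⟩
    · obtain ⟨y, hy⟩ := ih.1 x
      exact ⟨y, EqvGen.symm _ _ hy⟩
  | trans u v t _ _ ih1 ih2 =>
    refine ⟨fun x => ?_, fun x => ?_⟩
    · obtain ⟨y, hy⟩ := ih1.1 x
      obtain ⟨z, hz⟩ := ih2.1 y
      exact ⟨z, EqvGen.trans _ _ _ hy hz⟩
    · obtain ⟨y, hy⟩ := ih2.2 x
      obtain ⟨z, hz⟩ := ih1.2 y
      exact ⟨z, EqvGen.trans _ _ _ hz hy⟩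

theorem sec_eq (hw : w.length = m + 1) (hw' : w'.length = m + 1) (s x : ℤ) (c : ℕ) :
    ((sec m k s c, x) : ((ℤ × ℤ) × Bool) × ℤ) = io (pt k k w' w s c, x) := by
  unfold sec pt io
  by_cases h : c ≤ k
  · simp only [if_pos h, hw]
  · simp only [if_neg h, hw']
    congr 4
    ring

theorem goal_eq (hw : w.length = m + 1) (hw' : w'.length = m + 1) (d : ℕ) :
    goal m k d = io (tg k k w' w d) := by
  unfold goal tg
  exact sec_eq hw hw' 1 _ d

theorem lift_eq (hk : 1 ≤ k) (i : ℤ) : lift m k i = io (lf k k i) := by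
  have h2 : (2 * (k : ℤ)) = ((k + k : ℕ) : ℤ) := by
    push_cast
    ring
  have h0 : 0 ≤ i % ((k + k : ℕ) : ℤ) := Int.emod_nonneg _ (by push_cast; omega)
  have h1 : ((i % ((k + k : ℕ) : ℤ)).toNat : ℤ) = i % ((k + k : ℕ) : ℤ) := Int.toNat_of_nonneg h0
  unfold lift lf sec io
  rw [h2]
  by_cases h : i % ((k + k : ℕ) : ℤ) ≤ k
  · have h3 : (i % ((k + k : ℕ) : ℤ)).toNat ≤ k := by omega
    simp only [if_pos h, if_pos h3, h1, add_zero, zero_mul, zero_add]
  · have h3 : ¬ (i % ((k + k : ℕ) : ℤ)).toNat ≤ k := by omega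
    simp only [if_neg h, if_neg h3, h1, zero_mul, zero_add]

end

end TG

open TG in
/-- **Package TG.** -/
theorem t_TG : W_TG := by
  intro m k ω w' w hk hkm hw hw' hL hU
  have hkk : 2 * k = k + k := two_mul k
  have key := fun u v => cn_iff (k := k) hw hw' hL hU u v
  have h1 : Arms k ω ↔ Good k k w' w := by
    unfold Arms Pool.Agent.H160R2.ML.Good
    rw [hkk]
    refine and_congr ?_ ?_
    · refine forall_congr' fun c => forall_congr' fun d => imp_congr_right fun _ =>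
        imp_congr_right fun _ => imp_congr_right fun _ => ⟨fun h hcn => ?_, fun h x y hcn => ?_⟩
      · obtain ⟨y, hy⟩ := (cn_lift hcn).1 0
        refine h 0 y ?_
        rw [sec_eq hw hw', sec_eq hw hw']
        exact (key _ _).2 hy
      · rw [sec_eq hw hw', sec_eq hw hw'] at hcn
        exact h (cn_proj ((key _ _).1 hcn))
    · refine forall_congr' fun c => imp_congr_right fun _ => exists_congr fun s =>
        and_congr_right fun _ => exists_congr fun d => and_congr_right fun _ =>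
        ⟨fun h => ?_, fun h => ?_⟩
      · obtain ⟨x, y, h⟩ := h
        rw [sec_eq hw hw', sec_eq hw hw'] at h
        exact cn_proj ((key _ _).1 h)
      · obtain ⟨y, hy⟩ := (cn_lift h).1 0
        refine ⟨0, y, ?_⟩
        rw [sec_eq hw hw', sec_eq hw hw']
        exact (key _ _).2 hy
  refine ⟨h1, fun j => ?_⟩
  unfold Spiral JJ
  refine and_congr h1 ?_
  unfold Ix
  refine forall_congr' fun i => ?_
  have hi : i ≤ k ↔ 2 * i ≤ k + k := by omega
  rw [hi]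
  refine imp_congr_right fun _ => ?_
  rw [hkk]
  refine exists_congr fun d => and_congr_right fun _ => ?_
  rw [lift_eq hk, goal_eq (w := w) (w' := w') hw hw']
  exact key _ _

end Pool.Agent.Helper21.AW
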