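import Pool.Agent.Helper21.AW.Stm

/-!
# Package `TL`: the lower word decides about the connections below the level `0`
-/

set_option autoImplicit false

namespace Pool.Agent.Helper21.AW

open Pool.Agent.H863R2.Cyl Pool.Agent.Helper21.EV Relation
open Pool.Agent.H988R2.Perc (Word)

namespace PTL

variable {m : ℕ}

/-- from connections below the level `0` to connections in the rows -/
theorem low_to_lk {ω : Fin (m + 1) × ℤ → Bool} {p q : ℤ × ℤ} (h : EqvGen (LowL ω) p q) :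
    ∃ M0 : ℕ, ∀ M, M0 ≤ M → ∀ w : Word,
      EqvGen (Lk m (lowc ω 0 M) M w) (p.1, (p.2 + M).toNat) (q.1, (q.2 + M).toNat) := by
  induction h with
  | rel x y h =>
    cases h with
    | ur j t ht h3 =>
      refine ⟨(-t).toNat, fun M hM w => EqvGen.rel _ _ ?_⟩
      have e2 : (t + 1 + (M : ℤ)).toNat = (t + M).toNat + 1 := by omega
      show Lk m _ M w (j, (t + (M : ℤ)).toNat) (j + 1, (t + 1 + (M : ℤ)).toNat)
      rw [e2]
      refine Lk.link0 _ _ (by omega) ?_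
      rw [cl_col]
      show ω (col m j, 0 - (M : ℤ) + ((t + M).toNat : ℤ)) = false
      rw [show 0 - (M : ℤ) + ((t + M).toNat : ℤ) = t by omega]
      exact h3
    | ul j t ht h3 =>
      refine ⟨(-t).toNat, fun M hM w => EqvGen.rel _ _ ?_⟩
      have e2 : (t + 1 + (M : ℤ)).toNat = (t + M).toNat + 1 := by omega
      show Lk m _ M w (j + 1, (t + (M : ℤ)).toNat) (j, (t + 1 + (M : ℤ)).toNat)
      rw [e2]
      refine Lk.link1 _ _ (by omega) ?_
      rw [cl_col]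
      show ω (col m j, 0 - (M : ℤ) + ((t + M).toNat : ℤ)) = true
      rw [show 0 - (M : ℤ) + ((t + M).toNat : ℤ) = t by omega]
      exact h3
  | refl x => exact ⟨0, fun M _ w => EqvGen.refl _⟩
  | symm x y _ ih =>
    obtain ⟨M0, h0⟩ := ih
    exact ⟨M0, fun M hM w => (h0 M hM w).symm⟩
  | trans x y z _ _ ih1 ih2 =>
    obtain ⟨M1, h1⟩ := ih1
    obtain ⟨M2, h2⟩ := ih2
    exact ⟨max M1 M2, fun M hM w => (h1 M (by omega) w).trans _ _ _ (h2 M (by omega) w)⟩

/-- connections in the rows of sites of one parity do not use the pattern with peaks of this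
parity -/
theorem lk_to_low {ω : Fin (m + 1) × ℤ → Bool} {M : ℕ} {w : Word} (ρ : ℤ)
    (hp : ∀ a : ℤ, (a - M - ρ) % 2 = 0 → Peak w a) {p q : ℤ × ℕ}
    (h : EqvGen (Lk m (lowc ω 0 M) M w) p q) :
    ((p.1 + (p.2 - M) - ρ) % 2 = 0 ↔ (q.1 + (q.2 - M) - ρ) % 2 = 0) ∧
      ((p.1 + (p.2 - M) - ρ) % 2 = 0 →
        EqvGen (LowL ω) (p.1, (p.2 : ℤ) - M) (q.1, (q.2 : ℤ) - M)) := by
  induction h with
  | rel x y h =>
    cases h with
    | bot a b h =>
      show (((a + (((0 : ℕ) : ℤ) - M) - ρ) % 2 = 0 ↔ (b + (((0 : ℕ) : ℤ) - M) - ρ) % 2 = 0)) ∧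
        ((a + (((0 : ℕ) : ℤ) - M) - ρ) % 2 = 0 →
        EqvGen (LowL ω) (a, ((0 : ℕ) : ℤ) - M) (b, ((0 : ℕ) : ℤ) - M))
      by_cases ha : (a - M - ρ) % 2 = 0
      · have := peak_eq (hp a ha) h
        subst this
        exact ⟨Iff.rfl, fun _ => EqvGen.refl _⟩
      · by_cases hb : (b - M - ρ) % 2 = 0
        · have := peak_eq' (hp b hb) h
          subst this
          exact ⟨Iff.rfl, fun _ => EqvGen.refl _⟩
        · refine ⟨⟨fun h => ?_, fun h => ?_⟩, fun h => ?_⟩ <;> · exfalso; push_cast at h; omega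
    | link0 j t ht h3 =>
      rw [cl_col] at h3
      have h3' : ω (col m j, (t : ℤ) - M) = false := by
        have : ω (col m j, 0 - (M : ℤ) + (t : ℤ)) = false := h3
        rwa [show 0 - (M : ℤ) + (t : ℤ) = t - M by ring] at this
      have e : (((t + 1 : ℕ) : ℤ)) - M = (t : ℤ) - M + 1 := by push_cast; ring
      show (((j + ((t : ℤ) - M) - ρ) % 2 = 0 ↔ (j + 1 + (((t + 1 : ℕ) : ℤ) - M) - ρ) % 2 = 0)) ∧
        ((j + ((t : ℤ) - M) - ρ) % 2 = 0 →
        EqvGen (LowL ω) (j, (t : ℤ) - M) (j + 1, ((t + 1 : ℕ) : ℤ) - M))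
      rw [e]
      exact ⟨by omega, fun _ => EqvGen.rel _ _ (LowL.ur j ((t : ℤ) - M) (by omega) h3')⟩
    | link1 j t ht h3 =>
      rw [cl_col] at h3
      have h3' : ω (col m j, (t : ℤ) - M) = true := by
        have : ω (col m j, 0 - (M : ℤ) + (t : ℤ)) = true := h3
        rwa [show 0 - (M : ℤ) + (t : ℤ) = t - M by ring] at this
      have e : (((t + 1 : ℕ) : ℤ)) - M = (t : ℤ) - M + 1 := by push_cast; ring
      show (((j + 1 + ((t : ℤ) - M) - ρ) % 2 = 0 ↔ (j + (((t + 1 : ℕ) : ℤ) - M) - ρ) % 2 = 0)) ∧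
        ((j + 1 + ((t : ℤ) - M) - ρ) % 2 = 0 →
        EqvGen (LowL ω) (j + 1, (t : ℤ) - M) (j, ((t + 1 : ℕ) : ℤ) - M))
      rw [e]
      exact ⟨by omega, fun _ => EqvGen.rel _ _ (LowL.ul j ((t : ℤ) - M) (by omega) h3')⟩
  | refl x => exact ⟨Iff.rfl, fun _ => EqvGen.refl _⟩
  | symm x y _ ih => exact ⟨ih.1.symm, fun h => (ih.2 (ih.1.2 h)).symm⟩
  | trans x y z _ _ ih1 ih2 =>
    exact ⟨ih1.1.trans ih2.1, fun h => (ih1.2 h).trans _ _ _ (ih2.2 (ih1.1.1 h))⟩

end PTL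

theorem t_TL : W_TL := by
  intro n ω M s hs hl σ a b
  constructor
  · intro h
    obtain ⟨A, h0⟩ := PTL.low_to_lk h
    have h3 := h0 (A + M) (by omega) σ.1
    rw [show ((0 : ℤ) + ((A + M : ℕ) : ℤ)).toNat = A + M by omega] at h3
    have h4 := (Rw_rows (2 * n + 1) (by omega) (lowc ω 0 (A + M)) (A + M) σ a b).2 h3
    have e1 : rows (2 * n + 1) (lowc ω 0 (A + M)) (A + M) σ =
        rows (2 * n + 1) (lowc ω 0 M) M (rows (2 * n + 1) (lowc ω 0 (A + M)) A σ) := by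
      rw [rows_add']
      apply rows_congr'
      intro t _
      funext j
      show ω (j, 0 - ((A + M : ℕ) : ℤ) + ((A + t : ℕ) : ℤ)) = ω (j, 0 - (M : ℤ) + (t : ℤ))
      congr 2
      push_cast
      ring
    rw [e1, rows_alt hs hl _ σ] at h4
    exact h4
  · intro h
    obtain ⟨σ', hσ⟩ := exists_peaks n (a + M)
    rw [rows_alt hs hl σ σ', Rw_rows (2 * n + 1) (by omega)] at h
    have h3 := (PTL.lk_to_low a (fun x hx => hσ x (by omega)) h).2 (by
      show (a + ((M : ℤ) - M) - a) % 2 = 0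
      rw [show a + ((M : ℤ) - M) - a = 0 by ring]
      rfl)
    have e : ((M : ℤ) - M) = 0 := by ring
    have h4 : EqvGen (LowL ω) (a, (M : ℤ) - M) (b, (M : ℤ) - M) := h3
    rwa [e] at h4

end Pool.Agent.Helper21.AW
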