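import Pool.Agent.Helper21.AW.Stm

/-!
# The law of the index on the bi-infinite cylinder
-/

set_option autoImplicit false

namespace Pool.Agent.Helper21.AW

open Pool.Agent.H863R2.Cyl Pool.Agent.H160R2.ML Pool.Agent.Helper21.EV
open Pool.Agent.H988R2.Perc (Word PD)
open MeasureTheory ProbabilityTheory Filter Topology
open Pool.Agent.Helper21.ID (rw1)

/-! ### the general value -/

namespace TPp

theorem gd_rows {n : ℕ} {ω : Fin (2 * n + 1 + 1) × ℤ → Bool} {t0 : ℤ} {M : ℕ}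
    (hω : ω ∈ EV.GG (2 * n + 1) t0 M) :
    ∃ s1 s2 : ℕ, s1 < M ∧ s2 < M ∧ lowc ω t0 M s1 = alt (2 * n + 1) ∧
      uppc ω t0 M s2 = alt (2 * n + 1) := by
  have e1 : ∃ s : Fin M, (fun j => ω (j, t0 - M + (s : ℕ))) = alt (2 * n + 1) := by
    by_contra hc
    push Not at hc
    exact hω.1 hc
  have e2 : ∃ s : Fin M, (fun j => ω (j, t0 + (s : ℕ))) = fun j => !alt (2 * n + 1) j := by
    by_contra hc
    push Not at hc
    exact hω.2 hc
  obtain ⟨s1, h1⟩ := e1
  obtain ⟨s2, h2⟩ := e2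
  have b1 := s1.2
  have b2 := s2.2
  refine ⟨s1, M - 1 - s2, b1, by omega, h1, ?_⟩
  funext j
  have h3 := congrFun h2 j
  show (!ω (j, t0 + (M : ℤ) - 1 - ((M - 1 - (s2 : ℕ) : ℕ) : ℤ))) = _
  rw [show t0 + (M : ℤ) - 1 - ((M - 1 - (s2 : ℕ) : ℕ) : ℤ) = t0 + ((s2 : ℕ) : ℤ) by omega]
  have h4 : ω (j, t0 + ((s2 : ℕ) : ℤ)) = !alt (2 * n + 1) j := h3
  rw [h4, Bool.not_not]

theorem bad_real {n : ℕ} {ε : ℝ} {p : ℤ → unitInterval} (hp : Ell ε p) (t0 : ℤ) (M : ℕ) :
    (coins (2 * n + 1) p).real (EV.GG (2 * n + 1) t0 M)ᶜ ≤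
      2 * (1 - ε ^ (2 * n + 1 + 1)) ^ M := by
  have e : (EV.GG (2 * n + 1) t0 M)ᶜ =
      Bad (alt (2 * n + 1)) (t0 - M) M ∪ Bad (fun j => !alt (2 * n + 1) j) t0 M := by
    unfold EV.GG
    rw [Set.compl_inter, compl_compl, compl_compl]
  rw [e]
  refine le_trans (measureReal_union_le _ _) ?_
  have h3 := bad_le hp (alt (2 * n + 1)) (t0 - M) M
  have h4 := bad_le hp (fun j => !alt (2 * n + 1) j) t0 M
  linarith

theorem bad_tends {n : ℕ} {ε : ℝ} {p : ℤ → unitInterval} (hp : Ell ε p) :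
    Tendsto (fun M : ℕ => 2 * (1 - ε ^ (2 * n + 1 + 1)) ^ M) atTop (𝓝 0) := by
  have := (tendsto_bad (m := 2 * n + 1) hp).const_mul 2
  simpa using this

theorem value_gen {n : ℕ} {ε : ℝ} {p : ℤ → unitInterval} (hp : Ell ε p) (t0 : ℤ)
    {μ : Wd (2 * n + 1 + 1) → ℝ} (m0 : ∀ σ, 0 ≤ μ σ) (m1 : ∑ σ, μ σ = 1)
    (m2 : ∀ σ, ∑ c : Fin (2 * n + 1 + 1) → Bool, push (Tc (2 * n + 1) c) μ σ
      = 2 ^ (2 * n + 1 + 1) * μ σ)
    (S : Set (Fin (2 * n + 1 + 1) × ℤ → Bool)) (mW : MeasurableSet S)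
    (K : Word → Word → ℝ) (hK : ∀ w' w, K w' w = 0 ∨ K w' w = 1)
    (hS : ∀ (M : ℕ) (ω : Fin (2 * n + 1 + 1) × ℤ → Bool), ω ∈ EV.GG (2 * n + 1) t0 M →
      ∀ σ τ : Wd (2 * n + 1 + 1),
      (ω ∈ S ↔ K (rows (2 * n + 1) (uppc ω t0 M) M τ).1 (rows (2 * n + 1) (lowc ω t0 M) M σ).1
        = 1)) :
    (coins (2 * n + 1) p).real S = ∑ σ, ∑ τ, μ σ * μ τ * K τ.1 σ.1 := by
  classical
  set V : ℝ := ∑ σ, ∑ τ, μ σ * μ τ * K τ.1 σ.1 with hv
  have K0 : ∀ w' w, 0 ≤ K w' w := fun w' w => by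
    rcases hK w' w with h | h <;> rw [h]; norm_num
  have K1 : ∀ w' w, K w' w ≤ 1 := fun w' w => by
    rcases hK w' w with h | h <;> rw [h]; norm_num
  -- the averaged indicator
  let G : (M : ℕ) → (Fin M → Fin (2 * n + 1 + 1) → Bool) × (Fin M → Fin (2 * n + 1 + 1) → Bool) → ℝ :=
    fun M x => ∑ σ, ∑ τ, μ σ * μ τ *
      (K (rows (2 * n + 1) (ex x.2) M τ).1 (rows (2 * n + 1) (ex x.1) M σ).1)
  have hint : ∀ M : ℕ, ∫ ω, G M (win t0 M ω) ∂(coins (2 * n + 1) p) = V := by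
    intro M
    rw [integral_win]
    set W1 : (Fin M → Fin (2 * n + 1 + 1) → Bool) → ℝ :=
      fun a => ∏ s : Fin M, rw1 (p (t0 - M + (s : ℕ)) : ℝ) (a s) with hW1
    set W2 : (Fin M → Fin (2 * n + 1 + 1) → Bool) → ℝ :=
      fun b => ∏ s : Fin M, rw1 (1 - (p (t0 + M - 1 - (s : ℕ)) : ℝ)) (b s) with hW2
    have r1 : ∀ g : Wd (2 * n + 1 + 1) → ℝ, ∑ a, W1 a * ∑ σ, μ σ * g (rows (2 * n + 1) (ex a) M σ)
        = ∑ σ, μ σ * g σ := fun g =>
      rows_stat_bias (2 * n + 1) μ m1 m2 M (fun s => (p (t0 - M + (s : ℕ)) : ℝ)) g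
    have r2 : ∀ g : Wd (2 * n + 1 + 1) → ℝ, ∑ a, W2 a * ∑ σ, μ σ * g (rows (2 * n + 1) (ex a) M σ)
        = ∑ σ, μ σ * g σ := fun g =>
      rows_stat_bias (2 * n + 1) μ m1 m2 M (fun s => 1 - (p (t0 + M - 1 - (s : ℕ)) : ℝ)) g
    have e1 : ∑ a, ∑ b, W1 a * W2 b * G M (a, b) = ∑ b, W2 b * ∑ τ, μ τ *
        (∑ a, W1 a * ∑ σ, μ σ *
          (fun σ' : Wd (2 * n + 1 + 1) => K (rows (2 * n + 1) (ex b) M τ).1 σ'.1)
            (rows (2 * n + 1) (ex a) M σ)) := by
      rw [Finset.sum_comm]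
      refine Finset.sum_congr rfl fun b _ => ?_
      have e2 : ∀ a, W1 a * W2 b * G M (a, b) = ∑ τ, W2 b * (μ τ * (W1 a * ∑ σ, μ σ *
          (K (rows (2 * n + 1) (ex b) M τ).1 (rows (2 * n + 1) (ex a) M σ).1))) := by
        intro a
        show W1 a * W2 b * ∑ σ, ∑ τ, _ = _
        rw [Finset.sum_comm, Finset.mul_sum]
        refine Finset.sum_congr rfl fun τ _ => ?_
        rw [Finset.mul_sum, Finset.mul_sum, Finset.mul_sum, Finset.mul_sum]
        refine Finset.sum_congr rfl fun σ _ => ?_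
        ring
      simp only [e2]
      rw [Finset.sum_comm, Finset.mul_sum]
      refine Finset.sum_congr rfl fun τ _ => ?_
      rw [← Finset.mul_sum, ← Finset.mul_sum]
    show ∑ a, ∑ b, W1 a * W2 b * G M (a, b) = V
    rw [e1]
    have e4 : ∑ b, W2 b * ∑ τ, μ τ *
        (∑ a, W1 a * ∑ σ, μ σ *
          (fun σ' : Wd (2 * n + 1 + 1) => K (rows (2 * n + 1) (ex b) M τ).1 σ'.1)
            (rows (2 * n + 1) (ex a) M σ)) =
        ∑ b, W2 b * ∑ τ, μ τ * ∑ σ, μ σ * K (rows (2 * n + 1) (ex b) M τ).1 σ.1 := by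
      refine Finset.sum_congr rfl fun b _ => ?_
      congr 1
      refine Finset.sum_congr rfl fun τ _ => ?_
      exact congrArg (fun x => μ τ * x)
        (r1 (fun σ' => K (rows (2 * n + 1) (ex b) M τ).1 σ'.1))
    rw [e4]
    refine (r2 (fun τ' => ∑ σ, μ σ * K τ'.1 σ.1)).trans ?_
    rw [hv, Finset.sum_comm]
    refine Finset.sum_congr rfl fun τ _ => ?_
    rw [Finset.mul_sum]
    refine Finset.sum_congr rfl fun σ _ => ?_
    ring
  have hrow1 : ∀ ω (M : ℕ) σ, rows (2 * n + 1) (ex (win t0 M ω).1) M σ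
      = rows (2 * n + 1) (lowc ω t0 M) M σ := by
    intro ω M σ
    apply rows_congr'
    intro t ht
    unfold ex
    rw [dif_pos ht]
    rfl
  have hrow2 : ∀ ω (M : ℕ) σ, rows (2 * n + 1) (ex (win t0 M ω).2) M σ
      = rows (2 * n + 1) (uppc ω t0 M) M σ := by
    intro ω M σ
    apply rows_congr'
    intro t ht
    unfold ex
    rw [dif_pos ht]
    rfl
  have hG0 : ∀ M x, 0 ≤ G M x := fun M x => Finset.sum_nonneg fun σ _ =>
    Finset.sum_nonneg fun τ _ => mul_nonneg (mul_nonneg (m0 σ) (m0 τ)) (K0 _ _)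
  have hG1 : ∀ M x, G M x ≤ 1 := by
    intro M x
    calc G M x ≤ ∑ σ, ∑ τ, μ σ * μ τ := by
          refine Finset.sum_le_sum fun σ _ => Finset.sum_le_sum fun τ _ => ?_
          exact mul_le_of_le_one_right (mul_nonneg (m0 σ) (m0 τ)) (K1 _ _)
      _ = 1 := by rw [← Finset.sum_mul_sum, m1, one_mul]
  have hmeas : ∀ M : ℕ, Measurable fun ω => G M (win t0 M ω) := fun M =>
    (measurable_of_finite (G M)).comp (measurable_win t0 M)
  have hintg : ∀ M : ℕ, Integrable (fun ω => G M (win t0 M ω)) (coins (2 * n + 1) p) := by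
    intro M
    refine Integrable.of_bound (hmeas M).aestronglyMeasurable 1 (Eventually.of_forall fun ω => ?_)
    rw [Real.norm_eq_abs, abs_of_nonneg (hG0 _ _)]
    exact hG1 _ _
  -- on the good event the averaged indicator is the indicator
  have hgood : ∀ M ω, ω ∈ EV.GG (2 * n + 1) t0 M →
      (ω ∈ S → G M (win t0 M ω) = 1) ∧ (ω ∉ S → G M (win t0 M ω) = 0) := by
    intro M ω hω
    constructor
    · intro h
      have e4 : ∀ σ τ, K (rows (2 * n + 1) (ex (win t0 M ω).2) M τ).1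
          (rows (2 * n + 1) (ex (win t0 M ω).1) M σ).1 = 1 := by
        intro σ τ
        rw [hrow1, hrow2]
        exact (hS M ω hω σ τ).1 h
      show ∑ σ, ∑ τ, μ σ * μ τ * K (rows (2 * n + 1) (ex (win t0 M ω).2) M τ).1
          (rows (2 * n + 1) (ex (win t0 M ω).1) M σ).1 = 1
      simp only [e4, mul_one]
      rw [← Finset.sum_mul_sum, m1, one_mul]
    · intro h
      have e4 : ∀ σ τ, K (rows (2 * n + 1) (ex (win t0 M ω).2) M τ).1
          (rows (2 * n + 1) (ex (win t0 M ω).1) M σ).1 = 0 := by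
        intro σ τ
        rw [hrow1, hrow2]
        rcases hK (rows (2 * n + 1) (uppc ω t0 M) M τ).1 (rows (2 * n + 1) (lowc ω t0 M) M σ).1
          with h' | h'
        · exact h'
        · exact absurd ((hS M ω hω σ τ).2 h') h
      show ∑ σ, ∑ τ, μ σ * μ τ * K (rows (2 * n + 1) (ex (win t0 M ω).2) M τ).1
          (rows (2 * n + 1) (ex (win t0 M ω).1) M σ).1 = 0
      simp only [e4, mul_zero, Finset.sum_const_zero]
  have hup : ∀ M : ℕ, (coins (2 * n + 1) p).real S ≤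
      V + 2 * (1 - ε ^ (2 * n + 1 + 1)) ^ M := by
    intro M
    have mA := measurableSet_GG (2 * n + 1) t0 M
    have h1 : (coins (2 * n + 1) p).real (S ∩ EV.GG (2 * n + 1) t0 M) ≤ V := by
      rw [← hint M, ← integral_indicator_one (mW.inter mA)]
      refine integral_mono ?_ (hintg M) ?_
      · exact (integrable_const (1 : ℝ)).indicator (mW.inter mA)
      · intro ω
        show (S ∩ EV.GG (2 * n + 1) t0 M).indicator 1 ω ≤ G M (win t0 M ω)
        by_cases h : ω ∈ S ∩ EV.GG (2 * n + 1) t0 M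
        · rw [Set.indicator_of_mem h, (hgood M ω h.2).1 h.1]
          exact le_refl _
        · rw [Set.indicator_of_notMem h]
          exact hG0 _ _
    have h2 : (coins (2 * n + 1) p).real S ≤
        (coins (2 * n + 1) p).real (S ∩ EV.GG (2 * n + 1) t0 M) +
        (coins (2 * n + 1) p).real (EV.GG (2 * n + 1) t0 M)ᶜ := by
      refine le_trans (measureReal_mono (s₂ := (S ∩ EV.GG (2 * n + 1) t0 M) ∪
        (EV.GG (2 * n + 1) t0 M)ᶜ) ?_) (measureReal_union_le _ _)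
      intro ω hω
      by_cases h3 : ω ∈ EV.GG (2 * n + 1) t0 M
      · exact Or.inl ⟨hω, h3⟩
      · exact Or.inr h3
    have := bad_real (n := n) hp t0 M
    linarith
  have hdown : ∀ M : ℕ, V ≤ (coins (2 * n + 1) p).real S +
      2 * (1 - ε ^ (2 * n + 1 + 1)) ^ M := by
    intro M
    have mA := measurableSet_GG (2 * n + 1) t0 M
    have h1 : V ≤ (coins (2 * n + 1) p).real (S ∪ (EV.GG (2 * n + 1) t0 M)ᶜ) := by
      rw [← hint M, ← integral_indicator_one (mW.union mA.compl)]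
      refine integral_mono (hintg M) ?_ ?_
      · exact (integrable_const (1 : ℝ)).indicator (mW.union mA.compl)
      · intro ω
        show G M (win t0 M ω) ≤ (S ∪ (EV.GG (2 * n + 1) t0 M)ᶜ).indicator 1 ω
        by_cases h : ω ∈ S ∪ (EV.GG (2 * n + 1) t0 M)ᶜ
        · rw [Set.indicator_of_mem h]
          exact hG1 _ _
        · rw [Set.indicator_of_notMem h]
          have h3 : ω ∉ S := fun h' => h (Or.inl h')
          have h4 : ω ∈ EV.GG (2 * n + 1) t0 M := by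
            by_contra h'
            exact h (Or.inr h')
          rw [(hgood M ω h4).2 h3]
    have h2 := measureReal_union_le (μ := coins (2 * n + 1) p) S
      (EV.GG (2 * n + 1) t0 M)ᶜ
    have := bad_real (n := n) hp t0 M
    linarith
  have hlim := bad_tends (n := n) hp
  apply le_antisymm
  · have h1 : Tendsto (fun M : ℕ => V + 2 * (1 - ε ^ (2 * n + 1 + 1)) ^ M) atTop
        (𝓝 (V + 0)) := hlim.const_add _
    rw [add_zero] at h1
    exact ge_of_tendsto' h1 hup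
  · have h1 : Tendsto (fun M : ℕ => (coins (2 * n + 1) p).real S +
        2 * (1 - ε ^ (2 * n + 1 + 1)) ^ M) atTop
        (𝓝 ((coins (2 * n + 1) p).real S + 0)) := hlim.const_add _
    rw [add_zero] at h1
    exact ge_of_tendsto' h1 hdown

/-! ### measurability -/

theorem cutW_cases {m : ℕ} (k : ℕ) (ω : Fin (m + 1) × ℤ → Bool)
    (a b : ((ℤ × ℤ) × Bool) × ℤ) : CutW k ω a b ↔
    ((a.1.2 = false ∧ b.1.2 = false ∧ a.1.1.2 < 0 ∧ b.1.1 = (a.1.1.1 + 1, a.1.1.2 + 1) ∧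
        b.2 = a.2 ∧ ω (col m a.1.1.1, a.1.1.2) = false) ∨
      (a.1.2 = false ∧ b.1.2 = false ∧ a.1.1.2 < 0 ∧ a.1.1.1 = b.1.1.1 + 1 ∧
        b.1.1.2 = a.1.1.2 + 1 ∧ b.2 = a.2 ∧ ω (col m b.1.1.1, a.1.1.2) = true)) ∨
    ((a.1.2 = true ∧ b.1.2 = true ∧ 0 ≤ a.1.1.2 ∧ b.1.1 = (a.1.1.1 + 1, a.1.1.2 + 1) ∧
        b.2 = a.2 ∧ ω (col m a.1.1.1, a.1.1.2) = false) ∨
      (a.1.2 = true ∧ b.1.2 = true ∧ 0 ≤ a.1.1.2 ∧ a.1.1.1 = b.1.1.1 + 1 ∧
        b.1.1.2 = a.1.1.2 + 1 ∧ b.2 = a.2 ∧ ω (col m b.1.1.1, a.1.1.2) = true)) ∨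
    ∃ (s : ℤ) (i : ℕ), i + k ≤ m + 1 ∧ a.1 = ((s * (m + 1 : ℕ) + k + i, 0), false) ∧
      b = (((s * (m + 1 : ℕ) + k + i, 0), true), a.2 + if 0 ≤ s then 1 else 0) := by
  constructor
  · intro h
    cases h with
    | lowr j t x ht hw => exact Or.inl (Or.inl ⟨rfl, rfl, ht, rfl, rfl, hw⟩)
    | lowl j t x ht hw => exact Or.inl (Or.inr ⟨rfl, rfl, ht, rfl, rfl, rfl, hw⟩)
    | uppr j t x ht hw => exact Or.inr (Or.inl (Or.inl ⟨rfl, rfl, ht, rfl, rfl, hw⟩))
    | uppl j t x ht hw => exact Or.inr (Or.inl (Or.inr ⟨rfl, rfl, ht, rfl, rfl, rfl, hw⟩))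
    | glue s x i hi => exact Or.inr (Or.inr ⟨s, i, hi, rfl, rfl⟩)
  · obtain ⟨⟨⟨j, t⟩, c⟩, x⟩ := a
    obtain ⟨⟨⟨j', t'⟩, c'⟩, x'⟩ := b
    simp only [Prod.mk.injEq]
    rintro ((⟨rfl, rfl, ht, ⟨rfl, rfl⟩, rfl, hw⟩ | ⟨rfl, rfl, ht, rfl, rfl, rfl, hw⟩) |
      (⟨rfl, rfl, ht, ⟨rfl, rfl⟩, rfl, hw⟩ | ⟨rfl, rfl, ht, rfl, rfl, rfl, hw⟩) |
      ⟨s, i, hi, ⟨⟨rfl, rfl⟩, rfl⟩, ⟨⟨rfl, rfl⟩, rfl⟩, rfl⟩)
    · exact CutW.lowr _ _ _ ht hw
    · exact CutW.lowl _ _ _ ht hw
    · exact CutW.uppr _ _ _ ht hw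
    · exact CutW.uppl _ _ _ ht hw
    · exact CutW.glue _ _ _ hi

theorem measurableSet_and_const {Ω : Type*} [MeasurableSpace Ω] {P : Prop} {Q : Ω → Prop}
    (h : MeasurableSet {ω | Q ω}) : MeasurableSet {ω | P ∧ Q ω} :=
  (MeasurableSet.const P).inter h

theorem measurableSet_cutW {m : ℕ} (k : ℕ) (a b : ((ℤ × ℤ) × Bool) × ℤ) :
    MeasurableSet {ω : Fin (m + 1) × ℤ → Bool | CutW k ω a b} := by
  have e : {ω : Fin (m + 1) × ℤ → Bool | CutW k ω a b} = _ :=
    Set.ext fun ω => cutW_cases k ω a b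
  rw [e]
  refine MeasurableSet.union (MeasurableSet.union ?_ ?_) (MeasurableSet.union
    (MeasurableSet.union ?_ ?_) ?_)
  · exact measurableSet_and_const (measurableSet_and_const (measurableSet_and_const
      (measurableSet_and_const (measurableSet_and_const (measurableSet_coord _ _)))))
  · exact measurableSet_and_const (measurableSet_and_const (measurableSet_and_const
      (measurableSet_and_const (measurableSet_and_const (measurableSet_and_const
        (measurableSet_coord _ _))))))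
  · exact measurableSet_and_const (measurableSet_and_const (measurableSet_and_const
      (measurableSet_and_const (measurableSet_and_const (measurableSet_coord _ _)))))
  · exact measurableSet_and_const (measurableSet_and_const (measurableSet_and_const
      (measurableSet_and_const (measurableSet_and_const (measurableSet_and_const
        (measurableSet_coord _ _))))))
  · exact MeasurableSet.const _

theorem measurableSet_conn {m : ℕ} (k : ℕ) (a b : ((ℤ × ℤ) × Bool) × ℤ) :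
    MeasurableSet {ω : Fin (m + 1) × ℤ → Bool | Relation.EqvGen (CutW k ω) a b} :=
  measurableSet_eqvGen (fun ω : Fin (m + 1) × ℤ → Bool => CutW k ω)
    (fun a b => measurableSet_cutW k a b) a b

theorem measurableSet_all {Ω ι : Type*} [MeasurableSpace Ω] [Countable ι] {Q : ι → Ω → Prop}
    (h : ∀ i, MeasurableSet {ω | Q i ω}) : MeasurableSet {ω | ∀ i, Q i ω} := by
  have e : {ω | ∀ i, Q i ω} = ⋂ i, {ω | Q i ω} := by
    ext ω
    simp only [Set.mem_iInter]
    exact Iff.rfl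
  rw [e]
  exact MeasurableSet.iInter h

theorem measurableSet_ex {Ω ι : Type*} [MeasurableSpace Ω] [Countable ι] {Q : ι → Ω → Prop}
    (h : ∀ i, MeasurableSet {ω | Q i ω}) : MeasurableSet {ω | ∃ i, Q i ω} := by
  have e : {ω | ∃ i, Q i ω} = ⋃ i, {ω | Q i ω} := by
    ext ω
    simp only [Set.mem_iUnion]
    exact Iff.rfl
  rw [e]
  exact MeasurableSet.iUnion h

theorem measurableSet_imp {Ω : Type*} [MeasurableSpace Ω] {P : Prop} {Q : Ω → Prop}
    (h : MeasurableSet {ω | Q ω}) : MeasurableSet {ω | P → Q ω} :=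
  by
    by_cases hP : P
    · have e : {ω | P → Q ω} = {ω | Q ω} := by
        ext ω
        exact ⟨fun h' => h' hP, fun h' _ => h'⟩
      rw [e]
      exact h
    · have e : {ω | P → Q ω} = Set.univ := by
        ext ω
        exact ⟨fun _ => trivial, fun _ h' => absurd h' hP⟩
      rw [e]
      exact MeasurableSet.univ

theorem measurableSet_arms {m : ℕ} (k : ℕ) :
    MeasurableSet {ω : Fin (m + 1) × ℤ → Bool | Arms k ω} := by
  refine MeasurableSet.inter ?_ ?_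
  · exact measurableSet_all fun c => measurableSet_all fun d => measurableSet_imp
      (measurableSet_imp (measurableSet_imp (measurableSet_all fun x => measurableSet_all fun y =>
        (measurableSet_conn k _ _).compl)))
  · exact measurableSet_all fun c => measurableSet_imp (measurableSet_ex fun s =>
      measurableSet_and_const (measurableSet_ex fun d => measurableSet_and_const
        (measurableSet_ex fun x => measurableSet_ex fun y => measurableSet_conn k _ _)))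

theorem measurableSet_spiral {m : ℕ} (k : ℕ) (j : ℤ) :
    MeasurableSet {ω : Fin (m + 1) × ℤ → Bool | Spiral k ω j} := by
  refine (measurableSet_arms k).inter ?_
  exact measurableSet_all fun i => measurableSet_imp (measurableSet_ex fun d =>
    measurableSet_and_const (measurableSet_conn k _ _))

/-! ### the law -/

theorem words_of_gd (hTL : W_TL) (hTU : W_TU) (hTG : W_TG) {n k : ℕ} (hk : 1 ≤ k)
    (hk' : k ≤ 2 * n + 2) {M : ℕ} {ω : Fin (2 * n + 1 + 1) × ℤ → Bool}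
    (hω : ω ∈ EV.GG (2 * n + 1) 0 M) (σ τ : Wd (2 * n + 1 + 1)) :
    (Arms k ω ↔ Good k k (rows (2 * n + 1) (uppc ω 0 M) M τ).1
      (rows (2 * n + 1) (lowc ω 0 M) M σ).1) ∧
    ∀ j : ℤ, Spiral k ω j ↔ JJ k k (rows (2 * n + 1) (uppc ω 0 M) M τ).1
      (rows (2 * n + 1) (lowc ω 0 M) M σ).1 j := by
  obtain ⟨s1, s2, b1, b2, h1, h2⟩ := gd_rows hω
  exact hTG (2 * n + 1) k ω _ _ hk hk' (rows (2 * n + 1) (lowc ω 0 M) M σ).2.1
    (rows (2 * n + 1) (uppc ω 0 M) M τ).2.1 (fun a b => hTL n ω M s1 b1 h1 σ a b)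
    (fun a b => hTU n ω M s2 b2 h2 τ a b)

end TPp

open TPp in
theorem t_TP (hTL : W_TL) (hTU : W_TU) (hTG : W_TG) : W_TP := by
  classical
  intro n k p ε hp hk hk' μ m0 m1 m2
  refine ⟨?_, ?_, ?_⟩
  · refine (value_gen hp 0 m0 m1 m2 {ω | Arms k ω} (measurableSet_arms k)
      (fun w' w => if Good k k w' w then 1 else 0) (fun w' w => ?_) fun M ω hω σ τ => ?_)
    · show (if Good k k w' w then (1 : ℝ) else 0) = 0 ∨ _
      split_ifs
      · exact Or.inr rfl
      · exact Or.inl rfl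
    · have h := (words_of_gd hTL hTU hTG hk hk' hω σ τ).1
      show Arms k ω ↔ (if Good k k _ _ then (1 : ℝ) else 0) = 1
      rw [h]
      split_ifs with h3
      · exact ⟨fun _ => rfl, fun _ => h3⟩
      · exact ⟨fun h4 => absurd h4 h3, fun h4 => absurd h4 (by norm_num)⟩
  · intro j
    refine (value_gen hp 0 m0 m1 m2 {ω | Spiral k ω j} (measurableSet_spiral k j)
      (fun w' w => if JJ k k w' w j then 1 else 0) (fun w' w => ?_) fun M ω hω σ τ => ?_)
    · show (if JJ k k w' w j then (1 : ℝ) else 0) = 0 ∨ _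
      split_ifs
      · exact Or.inr rfl
      · exact Or.inl rfl
    · have h := (words_of_gd hTL hTU hTG hk hk' hω σ τ).2 j
      show Spiral k ω j ↔ (if JJ k k _ _ j then (1 : ℝ) else 0) = 1
      rw [h]
      split_ifs with h3
      · exact ⟨fun _ => rfl, fun _ => h3⟩
      · exact ⟨fun h4 => absurd h4 h3, fun h4 => absurd h4 (by norm_num)⟩
  · have hz : (coins (2 * n + 1) p).real (⋂ M, (EV.GG (2 * n + 1) 0 M)ᶜ) = 0 := by
      apply le_antisymm _ measureReal_nonneg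
      refine ge_of_tendsto' (bad_tends (n := n) hp) fun M => ?_
      exact le_trans (measureReal_mono (Set.iInter_subset _ M)) (bad_real hp 0 M)
    have hz' : (coins (2 * n + 1) p) (⋂ M, (EV.GG (2 * n + 1) 0 M)ᶜ) = 0 := by
      rwa [measureReal_eq_zero_iff] at hz
    have : ∀ᵐ ω ∂(coins (2 * n + 1) p), ω ∉ ⋂ M, (EV.GG (2 * n + 1) 0 M)ᶜ :=
      measure_eq_zero_iff_ae_notMem.1 hz'
    filter_upwards [this] with ω hω
    simp only [Set.mem_iInter, not_forall] at hω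
    obtain ⟨M, hM⟩ := hω
    have hM' : ω ∈ EV.GG (2 * n + 1) 0 M := by
      by_contra hc
      exact hM hc
    obtain ⟨s1, s2, b1, b2, h1, h2⟩ := gd_rows hM'
    exact ⟨M, s1, s2, b1, b2, h1, h2⟩

end Pool.Agent.Helper21.AW
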