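import Pool.Agent.Helper21.AW.Stm

/-!
# Package `TU`: the upper word decides about the connections above the level `0`
-/

set_option autoImplicit false

namespace Pool.Agent.Helper21.AW

open Pool.Agent.H863R2.Cyl Pool.Agent.Helper21.EV Relation
open Pool.Agent.H988R2.Perc (Word)

namespace PTU

variable {m : ℕ}

/-- from connections above the level `0` to connections in the rows -/
theorem upp_to_lk {ω : Fin (m + 1) × ℤ → Bool} {p q : ℤ × ℤ} (h : EqvGen (UppL ω) p q) :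
    ∃ M0 : ℕ, ∀ M, M0 ≤ M → ∀ w : Word,
      EqvGen (Lk m (uppc ω 0 M) M w) (p.1, ((M : ℤ) - p.2).toNat) (q.1, ((M : ℤ) - q.2).toNat) := by
  induction h with
  | rel x y h =>
    cases h with
    | ur j t ht h3 =>
      refine ⟨(t + 1).toNat, fun M hM w => (EqvGen.rel _ _ ?_).symm⟩
      have e2 : ((M : ℤ) - t).toNat = ((M : ℤ) - (t + 1)).toNat + 1 := by omega
      show Lk m _ M w (j + 1, ((M : ℤ) - (t + 1)).toNat) (j, ((M : ℤ) - t).toNat)
      rw [e2]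
      refine Lk.link1 _ _ (by omega) ?_
      rw [cl_col]
      show (!ω (col m j, 0 + (M : ℤ) - 1 - (((M : ℤ) - (t + 1)).toNat : ℤ))) = true
      rw [show 0 + (M : ℤ) - 1 - (((M : ℤ) - (t + 1)).toNat : ℤ) = t by omega, h3]
      rfl
    | ul j t ht h3 =>
      refine ⟨(t + 1).toNat, fun M hM w => (EqvGen.rel _ _ ?_).symm⟩
      have e2 : ((M : ℤ) - t).toNat = ((M : ℤ) - (t + 1)).toNat + 1 := by omega
      show Lk m _ M w (j, ((M : ℤ) - (t + 1)).toNat) (j + 1, ((M : ℤ) - t).toNat)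
      rw [e2]
      refine Lk.link0 _ _ (by omega) ?_
      rw [cl_col]
      show (!ω (col m j, 0 + (M : ℤ) - 1 - (((M : ℤ) - (t + 1)).toNat : ℤ))) = false
      rw [show 0 + (M : ℤ) - 1 - (((M : ℤ) - (t + 1)).toNat : ℤ) = t by omega, h3]
      rfl
  | refl x => exact ⟨0, fun M _ w => EqvGen.refl _⟩
  | symm x y _ ih =>
    obtain ⟨M0, h0⟩ := ih
    exact ⟨M0, fun M hM w => (h0 M hM w).symm⟩
  | trans x y z _ _ ih1 ih2 =>
    obtain ⟨M1, h1⟩ := ih1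
    obtain ⟨M2, h2⟩ := ih2
    exact ⟨max M1 M2, fun M hM w => (h1 M (by omega) w).trans _ _ _ (h2 M (by omega) w)⟩

/-- connections in the rows of sites of one parity do not use the pattern with peaks of this
parity -/
theorem lk_to_upp {ω : Fin (m + 1) × ℤ → Bool} {M : ℕ} {w : Word} (ρ : ℤ)
    (hp : ∀ a : ℤ, (a + M - ρ) % 2 = 0 → Peak w a) {p q : ℤ × ℕ}
    (h : EqvGen (Lk m (uppc ω 0 M) M w) p q) :
    ((p.1 + (M - p.2) - ρ) % 2 = 0 ↔ (q.1 + (M - q.2) - ρ) % 2 = 0) ∧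
      ((p.1 + (M - p.2) - ρ) % 2 = 0 →
        EqvGen (UppL ω) (p.1, (M : ℤ) - p.2) (q.1, (M : ℤ) - q.2)) := by
  induction h with
  | rel x y h =>
    cases h with
    | bot a b h =>
      show (((a + ((M : ℤ) - ((0 : ℕ) : ℤ)) - ρ) % 2 = 0 ↔
          (b + ((M : ℤ) - ((0 : ℕ) : ℤ)) - ρ) % 2 = 0)) ∧
        ((a + ((M : ℤ) - ((0 : ℕ) : ℤ)) - ρ) % 2 = 0 →
        EqvGen (UppL ω) (a, (M : ℤ) - ((0 : ℕ) : ℤ)) (b, (M : ℤ) - ((0 : ℕ) : ℤ)))
      by_cases ha : (a + M - ρ) % 2 = 0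
      · have := peak_eq (hp a ha) h
        subst this
        exact ⟨Iff.rfl, fun _ => EqvGen.refl _⟩
      · by_cases hb : (b + M - ρ) % 2 = 0
        · have := peak_eq' (hp b hb) h
          subst this
          exact ⟨Iff.rfl, fun _ => EqvGen.refl _⟩
        · refine ⟨⟨fun h => ?_, fun h => ?_⟩, fun h => ?_⟩ <;> · exfalso; push_cast at h; omega
    | link0 j t ht h3 =>
      rw [cl_col] at h3
      have h3' : ω (col m j, (M : ℤ) - ((t + 1 : ℕ) : ℤ)) = true := by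
        have h4 : (!ω (col m j, 0 + (M : ℤ) - 1 - (t : ℤ))) = false := h3
        rw [show 0 + (M : ℤ) - 1 - (t : ℤ) = M - ((t + 1 : ℕ) : ℤ) by push_cast; ring] at h4
        simpa using h4
      have e : (M : ℤ) - (t : ℤ) = (M : ℤ) - ((t + 1 : ℕ) : ℤ) + 1 := by push_cast; ring
      show (((j + ((M : ℤ) - (t : ℤ)) - ρ) % 2 = 0 ↔
          (j + 1 + ((M : ℤ) - ((t + 1 : ℕ) : ℤ)) - ρ) % 2 = 0)) ∧
        ((j + ((M : ℤ) - (t : ℤ)) - ρ) % 2 = 0 →
        EqvGen (UppL ω) (j, (M : ℤ) - (t : ℤ)) (j + 1, (M : ℤ) - ((t + 1 : ℕ) : ℤ)))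
      rw [e]
      exact ⟨by omega, fun _ => (EqvGen.rel _ _
        (UppL.ul j ((M : ℤ) - ((t + 1 : ℕ) : ℤ)) (by push_cast; omega) h3')).symm⟩
    | link1 j t ht h3 =>
      rw [cl_col] at h3
      have h3' : ω (col m j, (M : ℤ) - ((t + 1 : ℕ) : ℤ)) = false := by
        have h4 : (!ω (col m j, 0 + (M : ℤ) - 1 - (t : ℤ))) = true := h3
        rw [show 0 + (M : ℤ) - 1 - (t : ℤ) = M - ((t + 1 : ℕ) : ℤ) by push_cast; ring] at h4
        simpa using h4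
      have e : (M : ℤ) - (t : ℤ) = (M : ℤ) - ((t + 1 : ℕ) : ℤ) + 1 := by push_cast; ring
      show (((j + 1 + ((M : ℤ) - (t : ℤ)) - ρ) % 2 = 0 ↔
          (j + ((M : ℤ) - ((t + 1 : ℕ) : ℤ)) - ρ) % 2 = 0)) ∧
        ((j + 1 + ((M : ℤ) - (t : ℤ)) - ρ) % 2 = 0 →
        EqvGen (UppL ω) (j + 1, (M : ℤ) - (t : ℤ)) (j, (M : ℤ) - ((t + 1 : ℕ) : ℤ)))
      rw [e]
      exact ⟨by omega, fun _ => (EqvGen.rel _ _
        (UppL.ur j ((M : ℤ) - ((t + 1 : ℕ) : ℤ)) (by push_cast; omega) h3')).symm⟩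
  | refl x => exact ⟨Iff.rfl, fun _ => EqvGen.refl _⟩
  | symm x y _ ih => exact ⟨ih.1.symm, fun h => (ih.2 (ih.1.2 h)).symm⟩
  | trans x y z _ _ ih1 ih2 =>
    exact ⟨ih1.1.trans ih2.1, fun h => (ih1.2 h).trans _ _ _ (ih2.2 (ih1.1.1 h))⟩

end PTU

theorem t_TU : W_TU := by
  intro n ω M s hs hl τ a b
  constructor
  · intro h
    obtain ⟨A, h0⟩ := PTU.upp_to_lk h
    have h3 := h0 (A + M) (by omega) τ.1
    rw [show (((A + M : ℕ) : ℤ) - 0).toNat = A + M by omega] at h3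
    have h4 := (Rw_rows (2 * n + 1) (by omega) (uppc ω 0 (A + M)) (A + M) τ a b).2 h3
    have e1 : rows (2 * n + 1) (uppc ω 0 (A + M)) (A + M) τ =
        rows (2 * n + 1) (uppc ω 0 M) M (rows (2 * n + 1) (uppc ω 0 (A + M)) A τ) := by
      rw [rows_add']
      apply rows_congr'
      intro t _
      funext j
      show (!ω (j, 0 + ((A + M : ℕ) : ℤ) - 1 - ((A + t : ℕ) : ℤ))) =
        !ω (j, 0 + (M : ℤ) - 1 - (t : ℤ))
      congr 3
      push_cast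
      ring
    rw [e1, rows_alt hs hl _ τ] at h4
    exact h4
  · intro h
    obtain ⟨σ', hσ⟩ := exists_peaks n (a - M)
    rw [rows_alt hs hl τ σ', Rw_rows (2 * n + 1) (by omega)] at h
    have h3 := (PTU.lk_to_upp a (fun x hx => hσ x (by omega)) h).2 (by
      show (a + ((M : ℤ) - M) - a) % 2 = 0
      rw [show a + ((M : ℤ) - M) - a = 0 by ring]
      rfl)
    have e : ((M : ℤ) - M) = 0 := by ring
    have h4 : EqvGen (UppL ω) (a, (M : ℤ) - M) (b, (M : ℤ) - M) := h3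
    rwa [e] at h4

end Pool.Agent.Helper21.AW
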