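import Pool.Agent.Helper21.AW.Stm

/-! Package UNIQ (helper93): the index of good legs exists and is unique. -/

set_option autoImplicit false

namespace Pool.Agent.Helper21.AW

open Pool.Agent.H863R2.Cyl Pool.Agent.H160R2.ML Pool.Agent.Helper21.EV
open Pool.Agent.H988R2.Perc (Word PD)

namespace Uniq

/-- uniqueness and existence of the index -/
def Pr (p r : ℕ) (w' w : Word) : Prop :=
  (∀ j j' : ℤ, JJ p r w' w j → JJ p r w' w j' → j = j') ∧ (Good p r w' w → ∃ j, JJ p r w' w j)

theorem good_iff {p r p1 r1 : ℕ} {w' w v' v : Word} (h : ee p r w' w = ee p1 r1 v' v) :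
    Good p r w' w ↔ Good p1 r1 v' v := by
  unfold ee at h
  by_cases h1 : Good p r w' w <;> by_cases h2 : Good p1 r1 v' v <;> simp_all

theorem not_good {p r : ℕ} {w' w : Word} (h : ee p r w' w = 0) : ¬ Good p r w' w := by
  unfold ee at h
  intro h1
  simp [h1] at h

theorem Pr.of_not {p r : ℕ} {w' w : Word} (h : ¬ Good p r w' w) : Pr p r w' w :=
  ⟨fun _ _ h1 => absurd h1.1 h, fun h1 => absurd h1 h⟩

theorem Pr.of_iff {p r p1 r1 : ℕ} {w' w v' v : Word} (c : ℤ)
    (hJ : ∀ j : ℤ, JJ p r w' w j ↔ JJ p1 r1 v' v (j - c))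
    (hG : Good p r w' w ↔ Good p1 r1 v' v) (h : Pr p1 r1 v' v) : Pr p r w' w := by
  refine ⟨fun j j' h1 h2 => ?_, fun h1 => ?_⟩
  · have := h.1 _ _ ((hJ j).1 h1) ((hJ j').1 h2)
    omega
  · obtain ⟨j, hj⟩ := h.2 (hG.1 h1)
    exact ⟨j + c, (hJ _).2 (by simpa using hj)⟩

theorem Pr.symm (hs : W_symm) {k p r : ℕ} {w' w : Word} (hk : 1 ≤ k) (hpr : p + r = 2 * k)
    (hl : w'.length + p = w.length + r) (hp : p ≤ w.length) (h : Pr r p w w') : Pr p r w' w := by
  refine ⟨fun j j' h1 h2 => ?_, fun h1 => ?_⟩
  · have := h.1 _ _ (hs k p r w' w hk hpr hl hp j h1) (hs k p r w' w hk hpr hl hp j' h2)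
    omega
  · have hG : Good r p w w' := (good_iff (t_symm p r w' w hl hp (by omega))).1 h1
    obtain ⟨j, hj⟩ := h.2 hG
    exact ⟨k - j, hs k r p w w' hk (by omega) (by omega) (by omega) j hj⟩

/-- one reduction of the lower word -/
theorem step (hR : W_insR) (hmR : W_moveR) (hmL : W_moveL) {k p r n : ℕ} {w' w : Word}
    (hk : 1 ≤ k) (IH : ∀ (p r : ℕ) (w' w : Word), w'.length + w.length < n → p + r = 2 * k →
      Ok w' → Ok w → Even w.length → w'.length + p = w.length + r → p ≤ w.length → Pr p r w' w)
    (hn : w'.length + w.length = n) (hpr : p + r = 2 * k) (hw' : Ok w') (hw : Ok w)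
    (he : Even w.length) (hl : w'.length + p = w.length + r) (hp : p ≤ w.length)
    (hc : w ≠ bw w.length ∨ (1 ≤ p ∧ p < w.length)) : Pr p r w' w := by
  have hev : Even (p + r) := ⟨k, by omega⟩
  by_cases hb : w = bw w.length
  · obtain ⟨h1, h2⟩ := hc.resolve_left (fun h => h hb)
    obtain ⟨c, hc⟩ := he
    obtain ⟨h, rfl⟩ : ∃ h, c = h + 1 := ⟨c - 1, by omega⟩
    have e : w = seam (bw (2 * h)) := by
      rw [hb, ← Tcomp.bw_seam]
      congr 1
      omega
    generalize bw (2 * h) = u at e
    subst e
    have hlen : (seam u).length = u.length + 2 := by simp [seam]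
    have hu : Ok u := ok_seam.1 hw
    have hue : Even u.length := ⟨h, by omega⟩
    have hrl : (rotr w').length = w'.length := length_rotr w'
    exact Pr.of_iff 1 (hmL k p r w' u hk hpr hw' hu hue (by omega) h1 (by omega))
      (good_iff (t_moveL p r w' u hev hw' hu hue (by omega) h1 (by omega)))
      (IH (p - 1) (r + 1) (rotr w') u (by omega) (by omega) (ok_rotr.2 hw') hu hue (by omega)
        (by omega))
  · obtain ⟨i, u, rfl, hu, hue, hul, hi⟩ := Tbs.exists_arc w.length w he rfl hw hb
    rcases lt_or_ge i p with h1 | h1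
    · rcases Nat.lt_or_ge (i + 1) p with h2 | h2
      · exact Pr.of_not (not_good (t_zero p r i w' u hw' hu hue (by omega) (by omega) (by omega)))
      · obtain rfl : i = p - 1 := by omega
        exact Pr.of_iff 0 (fun j => by
            rw [sub_zero]
            exact hmR k p r w' u hk hpr hw' hu hue (by omega) (by omega) (by omega) j)
          (good_iff (t_moveR p r w' u hev hw' hu hue (by omega) (by omega) (by omega)))
          (IH (p - 1) (r + 1) w' u (by omega) (by omega) hw' hu hue (by omega) (by omega))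
    · have hcl := length_cap (i := i - p + r) (w := w') (by omega)
      have hco := ok_cap (i := i - p + r) (w := w') hw' (by omega)
      exact Pr.of_iff 0 (fun j => by
            rw [sub_zero]
            exact hR k p r i w' u hk hpr hw' hu hue (by omega) h1 (by omega) j)
          (good_iff (t_insR p r i w' u hev (by omega) hw' hu hue (by omega) h1 (by omega)))
          (IH p r (cap (i - p + r) w') u (by omega) hpr hco hu hue (by omega) (by omega))

theorem main (hs : W_symm) (hR : W_insR) (hmR : W_moveR) (hmL : W_moveL) (hB : W_base) {k : ℕ}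
    (hk : 1 ≤ k) : ∀ (n p r : ℕ) (w' w : Word), w'.length + w.length = n → p + r = 2 * k →
      Ok w' → Ok w → Even w.length → w'.length + p = w.length + r → p ≤ w.length →
      Pr p r w' w := by
  intro n
  induction n using Nat.strong_induction_on with
  | _ n IH =>
  intro p r w' w hn hpr hw' hw he hl hp
  have IH' : ∀ (p r : ℕ) (w' w : Word), w'.length + w.length < n → p + r = 2 * k →
      Ok w' → Ok w → Even w.length → w'.length + p = w.length + r → p ≤ w.length →
      Pr p r w' w := fun p r w' w h1 => IH _ h1 p r w' w rfl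
  have he' : Even w'.length := by
    obtain ⟨c, hc⟩ := he
    exact ⟨k + c - p, by omega⟩
  by_cases hc : w ≠ bw w.length ∨ (1 ≤ p ∧ p < w.length)
  · exact step hR hmR hmL hk IH' hn hpr hw' hw he hl hp hc
  · push Not at hc
    obtain ⟨hb, hc⟩ := hc
    by_cases hc' : w' ≠ bw w'.length ∨ (1 ≤ r ∧ r < w'.length)
    · exact Pr.symm hs hk hpr hl hp (step hR hmR hmL hk IH' (by omega) (by omega) hw hw' he'
        (by omega) (by omega) hc')
    · push Not at hc'
      obtain ⟨hb', hc'⟩ := hc'
      have hpL : p = w.length := by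
        by_contra h
        rcases Nat.eq_zero_or_pos p with h0 | h0
        · have := hc' (by omega)
          omega
        · have := hc h0
          omega
      have hrL : r = w'.length := by omega
      have hbb : ∀ j : ℤ, JJ p r w' w j ↔ 2 * j = p := by
        have := hB k p r hk hpr (hpL ▸ he) (hrL ▸ he')
        rw [hb, hb', ← hpL, ← hrL]
        exact this
      obtain ⟨c, hc⟩ := he
      refine ⟨fun j j' h1 h2 => ?_, fun _ => ⟨c, (hbb _).2 (by omega)⟩⟩
      have h3 := (hbb j).1 h1
      have h4 := (hbb j').1 h2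
      omega

end Uniq

theorem t_UNIQ : W_symm → W_insR → W_moveR → W_moveL → W_base → W_uniq := by
  intro hs hR hmR hmL hB k p r w' w hk hpr hw' hw he hl hp
  exact Uniq.main hs hR hmR hmL hB hk _ p r w' w rfl hpr hw' hw he hl hp

end Pool.Agent.Helper21.AW
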