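import Pool.Agent.Helper21.AW.Fin
import Pool.Agent.Helper21.AW.Stm2
import Pool.Agent.Helper21.AW.T_SYMM
import Pool.Agent.Helper21.AW.T_INSR
import Pool.Agent.Helper21.AW.T_MOVR
import Pool.Agent.Helper21.AW.T_MOVL
import Pool.Agent.Helper21.AW.T_BASE
import Pool.Agent.Helper21.AW.T_UNIQ
import Pool.Agent.Helper21.AW.T_LS
import Pool.Agent.Helper21.AW.T_G1
import Pool.Agent.Helper21.AW.T_G2
import Pool.Agent.Helper21.AW.T_TA
import Pool.Agent.Helper21.AW.T_TB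
import Pool.Agent.Helper21.AW.T_HV
import Pool.Agent.Helper21.AW.T_PB2
import Pool.Agent.Helper21.AW.T_TL
import Pool.Agent.Helper21.AW.T_TU
import Pool.Agent.Helper21.AW.T_TG
import Pool.Agent.Helper21.AW.T_TP
import Pool.Agent.Helper21.AW.T_L23
import Pool.Agent.Helper21.AW.T_L4
import Pool.Agent.Helper21.AW.T_LAU
import Pool.Agent.Helper21.AW.T_CLT
import Pool.Agent.Helper21.AW.T_NORM

/-!
# Assembly
-/

set_option autoImplicit false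

namespace Pool.Agent.Helper21.AW

open Pool.Agent.H863R2.Cyl Pool.Agent.H160R2.ML Pool.Agent.Helper21.EV
open Pool.Agent.H988R2.Perc (Word PD)
open MeasureTheory ProbabilityTheory Filter Topology

theorem a_uniq : W_uniq := t_UNIQ t_SYMM t_INSR t_MOVR t_MOVL t_BASE
theorem a_LS : W_LSV := t_LS t_SYMM t_INSR t_MOVR t_MOVL t_BASE a_uniq
theorem a_TA : W_TA2 := t_TA2 t_legx' t_thr' t_mvR' t_mvL' t_deg' t_swap' t_bs'
theorem a_TB : W_TB2 := t_TB2 a_TA t_deg'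
theorem a_HV : W_HV := t_HV2 a_TB t_L4
theorem a_PB : W_PB := t_PB2 a_HV a_LS a_uniq
theorem a_TP : W_TP := t_TP t_TL t_TU t_TG
theorem a_L2 : W_L2 := t_L2
theorem a_L3 : W_L3 := t_L3
theorem a_CLT : W_CLT := t_CLT' a_L3 t_L4

theorem a_unique {n k : ℕ} (hk : 1 ≤ k) (hk2 : k ≤ 2 * n + 2) (p : ℤ → unitInterval) (ε : ℝ)
    (hp : Ell ε p) : ∀ᵐ ω ∂(coins (2 * n + 1) p),
      (∀ j j' : ℤ, Spiral k ω j → Spiral k ω j' → j = j') ∧ (Arms k ω → ∃ j, Spiral k ω j) :=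
  ae_unique a_uniq t_TL t_TU t_TG a_TP hk hk2 p ε hp

theorem a_law {n k : ℕ} (hk : 1 ≤ k) (hk2 : k ≤ 2 * n + 2) (p : ℤ → unitInterval) (ε : ℝ)
    (hp : Ell ε p) :
    (∀ j : ℤ, j < (k : ℤ) - n - 1 ∨ (n : ℤ) + 1 < j →
      (coins (2 * n + 1) p).real {ω | Spiral k ω j} = 0) ∧
    (∀ w : ℂ, w ≠ 0 → ∑ j ∈ Finset.Icc ((k : ℤ) - n - 1) (n + 1),
      ((coins (2 * n + 1) p).real {ω | Spiral k ω j} : ℂ) * w ^ j =
      (ZZ n : ℂ)⁻¹ * (w ^ (n + 1) * Dl (2 * n + 2 - k) (2 * k) w⁻¹)) :=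
  law a_uniq a_PB a_TP t_LAU hk hk2 p ε hp

theorem a_arms {n k : ℕ} (hk : 1 ≤ k) (hk2 : k ≤ 2 * n + 2) (p : ℤ → unitInterval) (ε : ℝ)
    (hp : Ell ε p) : ((coins (2 * n + 1) p).real {ω | Arms k ω} : ℂ) =
      Dl (2 * n + 2 - k) (2 * k) 1 / ZZ n :=
  arms_value a_uniq a_PB t_TL t_TU t_TG a_TP t_LAU hk hk2 p ε hp

end Pool.Agent.Helper21.AW
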