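import Pool.Agent.Helper21.AW.Stm
import Pool.Agent.Helper31.AW.L23

/-!
# Linear statistics for complex weights: the statement
-/

set_option autoImplicit false

namespace Pool.Agent.Helper21.AW

open Pool.Agent.H160R2.ML

/-- the analogue of `W_L2` for the weights `e^{iφ}`, `0 ≤ φ < π` -/
def W_LPHI : Prop := ∀ (k : ℕ) (φ : ℝ), 0 ≤ φ → φ < Real.pi → ∃ C : ℝ,
  ∀ (n : ℕ) (u : Fin (2 * n + 2 - k) → ℝ), k ≤ 2 * n + 2 → IsEig (2 * n + 2 - k) (2 * k) u →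
  |∑ i, Real.log ((2 * Real.cosh (u i) + 2) / (2 * Real.cosh (u i) + 2 * Real.cos φ))
    - 3 / (2 * Real.pi ^ 2) * φ ^ 2 * Real.log (2 * n + 2)| ≤ C

end Pool.Agent.Helper21.AW
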