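import Pool.Agent.Helper21.AW.Fin
import Pool.Agent.Helper21.AW.CStm

/-!
# Exponents with an electric charge
-/

set_option autoImplicit false

namespace Pool.Agent.Helper21.AW

open Pool.Agent.H160R2.ML Pool.Agent.Helper21.EV
open MeasureTheory ProbabilityTheory Filter Topology

theorem den_pos {φ : ℝ} (h0 : 0 ≤ φ) (h1 : φ < Real.pi) (x : ℝ) :
    0 < 2 * Real.cosh x + 2 * Real.cos φ := by
  have h2 := Real.one_le_cosh x
  have h3 : Real.cos Real.pi < Real.cos φ := Real.cos_lt_cos_of_nonneg_of_le_pi h0 le_rfl h1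
  rw [Real.cos_pi] at h3
  linarith

theorem RR_sq {N l : ℕ} {u : Fin N → ℝ} (hu : IsEig N l u) (φ : ℝ) :
    RR N l φ ^ 2 = ∏ i, (Real.exp (u i) * (2 * Real.cosh (u i) + 2 * Real.cos φ)) := by
  unfold RR
  rw [hu.2.2, norm_prod, ← Finset.prod_pow]
  refine Finset.prod_congr rfl fun i _ => ?_
  have e1 : (1 : ℂ) + Complex.exp (φ * Complex.I) * (Real.exp (u i) : ℂ) =
      ((1 + Real.cos φ * Real.exp (u i) : ℝ) : ℂ) + ((Real.sin φ * Real.exp (u i) : ℝ) : ℂ) * Complex.I := by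
    rw [Complex.exp_mul_I]
    push_cast
    ring
  rw [e1, ← Complex.normSq_eq_norm_sq, Complex.normSq_add_mul_I, Real.cosh_eq]
  have e2 : Real.exp (u i) * Real.exp (-u i) = 1 := by rw [← Real.exp_add]; simp
  have e3 := Real.sin_sq_add_cos_sq φ
  linear_combination Real.exp (u i) ^ 2 * e3 - e2

theorem RR_ratio {N l : ℕ} {u : Fin N → ℝ} (hu : IsEig N l u) {φ : ℝ} (h0 : 0 ≤ φ)
    (h1 : φ < Real.pi) : RR N l φ = RR N l 0 * Real.exp (-(∑ i, Real.log ((2 * Real.cosh (u i) + 2) /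
      (2 * Real.cosh (u i) + 2 * Real.cos φ))) / 2) := by
  have hp0 : 0 ≤ RR N l 0 := norm_nonneg _
  have hp1 : 0 ≤ RR N l φ := norm_nonneg _
  refine (sq_eq_sq₀ hp1 (by positivity)).1 ?_
  rw [mul_pow, RR_sq hu, RR_sq hu, ← Real.exp_nat_mul]
  have e1 : ((2 : ℕ) : ℝ) * (-(∑ i, Real.log ((2 * Real.cosh (u i) + 2) /
      (2 * Real.cosh (u i) + 2 * Real.cos φ))) / 2) = ∑ i, -Real.log ((2 * Real.cosh (u i) + 2) /
      (2 * Real.cosh (u i) + 2 * Real.cos φ)) := by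
    rw [Finset.sum_neg_distrib]; push_cast; ring
  rw [e1, Real.exp_sum, ← Finset.prod_mul_distrib]
  refine Finset.prod_congr rfl fun i _ => ?_
  have h2 := den_pos h0 h1 (u i)
  have h3 : 0 < 2 * Real.cosh (u i) + 2 := by have := Real.cosh_pos (u i); linarith
  rw [Real.exp_neg, Real.exp_log (div_pos h3 h2), Real.cos_zero, mul_one]
  field_simp

/-- the value of the Fourier transform of the index -/
theorem four (hL4 : W_L4) {n k : ℕ} (hk2 : k ≤ 2 * n + 2) (P : ℤ → ℝ)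
    (hP : ∀ w : ℂ, w ≠ 0 → ∑ j ∈ Finset.Icc ((k : ℤ) - n - 1) (n + 1), (P j : ℂ) * w ^ j =
      (ZZ n : ℂ)⁻¹ * (w ^ (n + 1) * Dl (2 * n + 2 - k) (2 * k) w⁻¹)) {φ : ℝ} (h0 : 0 ≤ φ)
    (h1 : φ < Real.pi) :
    (∑ j ∈ Finset.Icc ((k : ℤ) - n - 1) (n + 1), (P j : ℂ) *
      Complex.exp (φ * (j - k / 2) * Complex.I) = ((RR (2 * n + 2 - k) (2 * k) φ / ZZ n : ℝ) : ℂ)) ∧
    ∑ j ∈ Finset.Icc ((k : ℤ) - n - 1) (n + 1), (P j : ℂ) *
      Complex.exp (-(φ * (j - k / 2) * Complex.I)) =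
        ((RR (2 * n + 2 - k) (2 * k) φ / ZZ n : ℝ) : ℂ) := by
  obtain ⟨u, hu⟩ := t_EG (2 * n + 2 - k) (2 * k)
  have hpal := (hL4 _ _ u hu).2.1
  have hPH := (a_PH (2 * n + 2 - k) (2 * k) φ h0 h1).2
  have hM : ((2 * n + 2 - k : ℕ) : ℝ) = 2 * n + 2 - k := by
    rw [Nat.cast_sub (by omega)]
    push_cast
    ring
  have key : ∑ j ∈ Finset.Icc ((k : ℤ) - n - 1) (n + 1), (P j : ℂ) *
      Complex.exp (φ * (j - k / 2) * Complex.I) = ((RR (2 * n + 2 - k) (2 * k) φ / ZZ n : ℝ) : ℂ) := by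
    have hw := hP (Complex.exp (φ * Complex.I)) (Complex.exp_ne_zero _)
    have h2 := hpal (Complex.exp (φ * Complex.I)) (Complex.exp_ne_zero _)
    have h3 : ∑ j ∈ Finset.Icc ((k : ℤ) - n - 1) (n + 1), (P j : ℂ) *
        Complex.exp (φ * (j - k / 2) * Complex.I) = Complex.exp (-(φ * (k / 2) * Complex.I)) *
        ∑ j ∈ Finset.Icc ((k : ℤ) - n - 1) (n + 1), (P j : ℂ) * Complex.exp (φ * Complex.I) ^ j := by
      rw [Finset.mul_sum]
      refine Finset.sum_congr rfl fun j _ => ?_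
      rw [← Complex.exp_int_mul, mul_left_comm, ← Complex.exp_add]
      congr 2
      ring
    have h4 : Complex.exp (φ * Complex.I) ^ (n + 1) *
        Dl (2 * n + 2 - k) (2 * k) (Complex.exp (φ * Complex.I))⁻¹ =
        Complex.exp (φ * (k / 2) * Complex.I) * (RR (2 * n + 2 - k) (2 * k) φ : ℂ) := by
      have h5 : Complex.exp (φ * Complex.I) ^ (2 * n + 2 - k) ≠ 0 :=
        pow_ne_zero _ (Complex.exp_ne_zero _)
      apply mul_left_cancel₀ h5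
      have hM' : ((2 * n + 2 - k : ℕ) : ℂ) = 2 * n + 2 - k := by
        have := congrArg (fun x : ℝ => (x : ℂ)) hM
        push_cast at this
        simpa using this
      have h7 : Complex.exp (φ * Complex.I) ^ (n + 1) *
          Complex.exp (((2 * n + 2 - k : ℕ) * φ / 2 : ℝ) * Complex.I) =
          Complex.exp (φ * Complex.I) ^ (2 * n + 2 - k) * Complex.exp (φ * (k / 2) * Complex.I) := by
        rw [← Complex.exp_nat_mul, ← Complex.exp_nat_mul, ← Complex.exp_add, ← Complex.exp_add]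
        congr 1
        rw [hM, hM']
        push_cast
        ring
      calc Complex.exp (φ * Complex.I) ^ (2 * n + 2 - k) * (Complex.exp (φ * Complex.I) ^ (n + 1) *
            Dl (2 * n + 2 - k) (2 * k) (Complex.exp (φ * Complex.I))⁻¹)
          = Complex.exp (φ * Complex.I) ^ (n + 1) * (Complex.exp (φ * Complex.I) ^ (2 * n + 2 - k) *
            Dl (2 * n + 2 - k) (2 * k) (Complex.exp (φ * Complex.I))⁻¹) := by ring
        _ = (Complex.exp (φ * Complex.I) ^ (n + 1) *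
              Complex.exp (((2 * n + 2 - k : ℕ) * φ / 2 : ℝ) * Complex.I)) *
              (RR (2 * n + 2 - k) (2 * k) φ : ℂ) := by rw [h2, hPH]; ring
        _ = _ := by rw [h7]; ring
    rw [h3, hw, h4, mul_left_comm, ← mul_assoc (Complex.exp (-(φ * (k / 2) * Complex.I))),
      ← Complex.exp_add, neg_add_cancel, Complex.exp_zero, one_mul]
    push_cast
    rw [div_eq_mul_inv, mul_comm]
  refine ⟨key, ?_⟩
  have h6 := congrArg (starRingEnd ℂ) key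
  rw [Complex.conj_ofReal, map_sum] at h6
  rw [← h6]
  refine Finset.sum_congr rfl fun j _ => ?_
  rw [map_mul, Complex.conj_ofReal, ← Complex.exp_conj]
  congr 2
  simp only [map_mul, map_sub, map_div₀, Complex.conj_ofReal, Complex.conj_I, map_intCast,
    map_natCast, map_ofNat]
  ring

/-- the exponents -/
theorem cgm (hL : W_LPHI) (k : ℕ) (hk : 1 ≤ k) {φ : ℝ} (hφ0 : 0 ≤ φ) (hφ1 : φ < Real.pi) :
    ∃ c C : ℝ, 0 < c ∧ 0 < C ∧ ∀ n : ℕ, k ≤ n + 1 →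
    c * (2 * (n : ℝ) + 2) ^ (-((4 * (k : ℝ) ^ 2 - 1) / 12) - 3 * φ ^ 2 / (4 * Real.pi ^ 2)) ≤
      RR (2 * n + 2 - k) (2 * k) φ / ZZ n ∧
    RR (2 * n + 2 - k) (2 * k) φ / ZZ n ≤
      C * (2 * (n : ℝ) + 2) ^ (-((4 * (k : ℝ) ^ 2 - 1) / 12) - 3 * φ ^ 2 / (4 * Real.pi ^ 2)) := by
  obtain ⟨C0, h0⟩ := hL k φ hφ0 hφ1
  obtain ⟨c1, C1, hc1, hC1, h1⟩ := a_FA k hk
  set α : ℝ := -((4 * (k : ℝ) ^ 2 - 1) / 12) with hα
  have h2α : (0 : ℝ) < 2 ^ (-α) := Real.rpow_pos_of_pos (by norm_num) _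
  refine ⟨c1 * 2 ^ (-α) * Real.exp (-C0 / 2), C1 * 2 ^ (-α) * Real.exp (C0 / 2), by positivity,
    by positivity, ?_⟩
  intro n hn
  obtain ⟨u, hu⟩ := t_EG (2 * n + 2 - k) (2 * k)
  set s := ∑ i, Real.log ((2 * Real.cosh (u i) + 2) / (2 * Real.cosh (u i) + 2 * Real.cos φ)) with hs
  have hZ := ZZ_pos n
  have hval : RR (2 * n + 2 - k) (2 * k) φ / ZZ n =
      RR (2 * n + 2 - k) (2 * k) 0 / ZZ n * Real.exp (-s / 2) := by
    rw [RR_ratio hu hφ0 hφ1, ← hs]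
    ring
  have hs2 := h0 n u (by omega) hu
  rw [← hs, abs_le] at hs2
  have hn0 : (0 : ℝ) ≤ n := Nat.cast_nonneg n
  have hN0 : (0 : ℝ) < 2 * (n : ℝ) + 2 := by linarith
  have hpow : (2 * (n : ℝ) + 2) ^ (-(3 * φ ^ 2 / (4 * Real.pi ^ 2)) : ℝ) =
      Real.exp (-(3 / (2 * Real.pi ^ 2) * φ ^ 2 * Real.log (2 * n + 2)) / 2) := by
    rw [Real.rpow_def_of_pos hN0]
    congr 1
    ring
  obtain ⟨h7, h8⟩ := h1 (n + 1) hn
  have e2 : 2 * (n + 1) - k = 2 * n + 2 - k := by omega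
  have e3 : 2 * (n + 1) = 2 * n + 2 := by ring
  rw [e2, e3, ← ZZ_eq] at h7 h8
  have hr : ((n + 1 : ℕ) : ℝ) ^ α = 2 ^ (-α) * (2 * (n : ℝ) + 2) ^ α := by
    have e4 : (2 * (n : ℝ) + 2) = 2 * ((n + 1 : ℕ) : ℝ) := by push_cast; ring
    rw [e4, Real.mul_rpow (by norm_num) (Nat.cast_nonneg _), ← mul_assoc,
      ← Real.rpow_add (by norm_num)]
    simp
  rw [hr] at h7 h8
  rw [hval, sub_eq_add_neg, Real.rpow_add hN0, hpow]
  set E := Real.exp (-(3 / (2 * Real.pi ^ 2) * φ ^ 2 * Real.log (2 * n + 2)) / 2) with hE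
  have hE0 : 0 < E := Real.exp_pos _
  have hes1 : Real.exp (-C0 / 2) * E ≤ Real.exp (-s / 2) := by
    rw [hE, ← Real.exp_add]
    apply Real.exp_le_exp.2
    linarith [hs2.2]
  have hes2 : Real.exp (-s / 2) ≤ Real.exp (C0 / 2) * E := by
    rw [hE, ← Real.exp_add]
    apply Real.exp_le_exp.2
    linarith [hs2.1]
  have hX : 0 < (2 * (n : ℝ) + 2) ^ α := Real.rpow_pos_of_pos hN0 _
  have hD : 0 ≤ RR (2 * n + 2 - k) (2 * k) 0 := norm_nonneg _
  generalize (2 * (n : ℝ) + 2) ^ α = X at *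
  generalize RR (2 * n + 2 - k) (2 * k) 0 = D at *
  have h9 : c1 * 2 ^ (-α) * X ≤ D / ZZ n := by
    rw [le_div_iff₀ hZ]
    calc c1 * 2 ^ (-α) * X * ZZ n = c1 * (2 ^ (-α) * X) * ZZ n := by ring
      _ ≤ D := h7
  have h10 : D / ZZ n ≤ C1 * 2 ^ (-α) * X := by
    rw [div_le_iff₀ hZ]
    calc D ≤ C1 * (2 ^ (-α) * X) * ZZ n := h8
      _ = C1 * 2 ^ (-α) * X * ZZ n := by ring
  constructor
  · calc c1 * 2 ^ (-α) * Real.exp (-C0 / 2) * (X * E)
        = (c1 * 2 ^ (-α) * X) * (Real.exp (-C0 / 2) * E) := by ring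
      _ ≤ D / ZZ n * Real.exp (-s / 2) := mul_le_mul h9 hes1 (by positivity) (by positivity)
  · calc D / ZZ n * Real.exp (-s / 2) ≤ (C1 * 2 ^ (-α) * X) * (Real.exp (C0 / 2) * E) :=
          mul_le_mul h10 hes2 (Real.exp_pos _).le (by positivity)
      _ = C1 * 2 ^ (-α) * Real.exp (C0 / 2) * (X * E) := by ring

end Pool.Agent.Helper21.AW
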