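import Pool.Graph.R_seed8.H160R2.ML.Defs
import Pool.Agent.Helper21.EV.Defs

/-!
# The winding of `2k` arms of critical percolation on cylinders of even circumference: definitions
-/

set_option autoImplicit false

namespace Pool.Agent.Helper21.AW

open Pool.Agent.H863R2.Cyl Pool.Agent.H160R2.ML Pool.Agent.Helper21.EV
open Pool.Agent.H988R2.Perc (Word PD)

/-! ## percolation -/

/-- connections on the cylinder of circumference `m+1`, in its universal cover, cut at the level `0`
along the slit `(0,0), …, (k,0)` and its translates, together with a counter. A site below the level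
`0` has the side `false`, a site above it the side `true`, a site of the level `0` has one copy of
each side; the two copies are joined unless the site is an interior point of a slit (`glue`). The
counter is the signed number of passages of the half-line of the level `0` on the right of the slit
`(0,0), …, (k,0)`, in the upward direction. -/
inductive CutW {m : ℕ} (k : ℕ) (ω : Fin (m + 1) × ℤ → Bool) :
    ((ℤ × ℤ) × Bool) × ℤ → ((ℤ × ℤ) × Bool) × ℤ → Prop
  | lowr (j t x : ℤ) : t < 0 → ω (col m j, t) = false →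
      CutW k ω (((j, t), false), x) (((j + 1, t + 1), false), x)
  | lowl (j t x : ℤ) : t < 0 → ω (col m j, t) = true →
      CutW k ω (((j + 1, t), false), x) (((j, t + 1), false), x)
  | uppr (j t x : ℤ) : 0 ≤ t → ω (col m j, t) = false →
      CutW k ω (((j, t), true), x) (((j + 1, t + 1), true), x)
  | uppl (j t x : ℤ) : 0 ≤ t → ω (col m j, t) = true →
      CutW k ω (((j + 1, t), true), x) (((j, t + 1), true), x)
  | glue (s x : ℤ) (i : ℕ) : i + k ≤ m + 1 →
      CutW k ω (((s * (m + 1 : ℕ) + k + i, 0), false), x)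
        (((s * (m + 1 : ℕ) + k + i, 0), true), x + if 0 ≤ s then 1 else 0)

/-- the sectors around the slit `s`, counterclockwise from its left end: `c = 0` is the left end,
`0 < c < k` the lower copies of the interior points, `c = k` the right end, `k < c < 2k` the upper
copies of the interior points -/
def sec (m k : ℕ) (s : ℤ) (c : ℕ) : (ℤ × ℤ) × Bool :=
  if c ≤ k then ((s * (m + 1 : ℕ) + c, 0), false)
  else ((s * (m + 1 : ℕ) + (2 * k - c), 0), true)

/-- `2k` arms start at the slit: the `2k` sectors are not connected with each other, and every one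
of them is connected with a sector of another translate of the slit -/
def Arms {m : ℕ} (k : ℕ) (ω : Fin (m + 1) × ℤ → Bool) : Prop :=
  (∀ c d : ℕ, c < 2 * k → d < 2 * k → c ≠ d → ∀ x y : ℤ,
    ¬ Relation.EqvGen (CutW k ω) (sec m k 0 c, x) (sec m k 0 d, y)) ∧
  ∀ c : ℕ, c < 2 * k → ∃ s : ℤ, s ≠ 0 ∧ ∃ d : ℕ, d < 2 * k ∧ ∃ x y : ℤ,
    Relation.EqvGen (CutW k ω) (sec m k 0 c, x) (sec m k s d, y)

/-- the sectors of the slit `0`, numbered through all turns: `i + 2kx` is the sector `i` after `x`
turns -/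
def lift (m k : ℕ) (i : ℤ) : ((ℤ × ℤ) × Bool) × ℤ :=
  (sec m k 0 (i % (2 * k)).toNat, i / (2 * k) + if i % (2 * k) ≤ k then 0 else 1)

/-- the sectors of the slit `1`, which lies on the right of the slit `0` -/
def goal (m k : ℕ) (d : ℕ) : ((ℤ × ℤ) × Bool) × ℤ :=
  (sec m k 1 d, if d ≤ k then 0 else 1)

/-- `2k` arms start at the slit, and those which lead to the right are, numbered through all
turns, the sectors `j, …, j+k` -/
def Spiral {m : ℕ} (k : ℕ) (ω : Fin (m + 1) × ℤ → Bool) (j : ℤ) : Prop :=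
  Arms k ω ∧ ∀ i : ℕ, i ≤ k → ∃ d : ℕ, d < 2 * k ∧
    Relation.EqvGen (CutW k ω) (lift m k (j + i)) (goal m k d)

/-- the determinant `det (δ_ij + w binom(l+i+j, j))`, `0 ≤ i, j < N` -/
noncomputable def armDet (N l : ℕ) (w : ℂ) : ℂ :=
  (Matrix.of fun i j : Fin N => (if i = j then 1 else 0)
    + w * ((l + i.val + j.val).choose j.val : ℂ)).det

/-! ## words -/

/-- links of the faces with the counter -/
inductive LgW (p r : ℕ) (w' w : Word) : (ℤ × Bool) × ℤ → (ℤ × Bool) × ℤ → Prop
  | low (a b x : ℤ) : Rw w a b → LgW p r w' w ((a, false), x) ((b, false), x)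
  | upp (a b x : ℤ) : Rw w' a b → LgW p r w' w ((a, true), x) ((b, true), x)
  | glue (s x : ℤ) (i : ℕ) : i + p ≤ w.length →
      LgW p r w' w ((s * w.length + p + i, false), x)
        ((s * w'.length + r + i, true), x + if 0 ≤ s then 1 else 0)

def CnW (p r : ℕ) (w' w : Word) : (ℤ × Bool) × ℤ → (ℤ × Bool) × ℤ → Prop :=
  Relation.EqvGen (LgW p r w' w)

/-- the sectors of the slit `0`, numbered through all turns -/
def lf (p r : ℕ) (i : ℤ) : (ℤ × Bool) × ℤ :=
  if i % (p + r : ℕ) ≤ p then ((i % (p + r : ℕ), false), i / (p + r : ℕ))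
  else (((p + r : ℕ) - i % (p + r : ℕ), true), i / (p + r : ℕ) + 1)

/-- the sectors of the slit `1` -/
def tg (p r : ℕ) (w' w : Word) (d : ℕ) : (ℤ × Bool) × ℤ :=
  (pt p r w' w 1 d, if d ≤ p then 0 else 1)

/-- the sectors which lead to the right are `j, …, j + (p+r)/2` -/
def Ix (p r : ℕ) (w' w : Word) (j : ℤ) : Prop :=
  ∀ i : ℕ, 2 * i ≤ p + r → ∃ d : ℕ, d < p + r ∧ CnW p r w' w (lf p r (j + i)) (tg p r w' w d)

/-- the legs are good and have the index `j` -/
def JJ (p r : ℕ) (w' w : Word) (j : ℤ) : Prop := Good p r w' w ∧ Ix p r w' w j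

/-- the weighted leg functional -/
noncomputable def eW (c : ℂ) (p r : ℕ) (w' w : Word) : ℂ :=
  open Classical in
  if h : ∃ j, JJ p r w' w j then c ^ (Classical.choose h) else 0

/-- the weighted leg functionals for all weights: axioms (`2k` legs) -/
structure LSpecW (k : ℕ) (e : ℂ → ℕ → ℕ → Word → Word → ℂ) : Prop where
  symm : ∀ (c : ℂ) (p r : ℕ) (w' w : Word), c ≠ 0 → p + r = 2 * k →
    w'.length + p = w.length + r → p ≤ w.length → Ok w' → Ok w →
    e c p r w' w = c ^ k * e c⁻¹ r p w w'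
  zero : ∀ (c : ℂ) (p r i : ℕ) (w' u : Word), c ≠ 0 → p + r = 2 * k → Ok w' → Ok u →
    Even u.length → w'.length + p = u.length + 2 + r → i + 2 ≤ p → p ≤ u.length + 2 →
    e c p r w' (lins i u) = 0
  insR : ∀ (c : ℂ) (p r i : ℕ) (w' u : Word), c ≠ 0 → p + r = 2 * k → Ok w' → Ok u →
    Even u.length → w'.length + p = u.length + 2 + r → p ≤ i → i ≤ u.length →
    e c p r w' (lins i u) = e c p r (cap (i - p + r) w') u
  moveR : ∀ (c : ℂ) (p r : ℕ) (w' u : Word), c ≠ 0 → p + r = 2 * k → Ok w' → Ok u →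
    Even u.length → w'.length + p = u.length + 2 + r → 1 ≤ p → p ≤ u.length + 1 →
    e c p r w' (lins (p - 1) u) = e c (p - 1) (r + 1) w' u
  moveL : ∀ (c : ℂ) (p r : ℕ) (w' u : Word), c ≠ 0 → p + r = 2 * k → Ok w' → Ok u →
    Even u.length → w'.length + p = u.length + 2 + r → 1 ≤ p → p ≤ u.length + 1 →
    e c p r w' (seam u) = c * e c (p - 1) (r + 1) (rotr w') u
  base : ∀ (c : ℂ) (p r : ℕ), c ≠ 0 → p + r = 2 * k → Even p → Even r →
    e c p r (bw r) (bw p) = c ^ (p / 2)

/-- the common data -/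
structure DatW (q : ℂ) (k : ℕ) (e : ℂ → ℕ → ℕ → Word → Word → ℂ) (Ψ Ψ' : List ℂ → VW) : Prop where
  hq : q ^ 2 + q + 1 = 0
  hk : 1 ≤ k
  he : LSpecW k e
  h : Fam q Ψ
  h' : Fam (q ^ 2) Ψ'

end Pool.Agent.Helper21.AW
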