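import Pool.Agent.Helper21.AW.Meas

/-!
# Assembly
-/

set_option autoImplicit false

namespace Pool.Agent.Helper21.AW

open Pool.Agent.H863R2.Cyl Pool.Agent.H160R2.ML Pool.Agent.Helper21.EV
open Pool.Agent.H988R2.Perc (Word PD)
open MeasureTheory ProbabilityTheory Filter Topology

theorem armDet_eq (N l : ℕ) (w : ℂ) : armDet N l w = Dl N l w := rfl

/-- the normalisation -/
noncomputable def ZZ (n : ℕ) : ℝ := ‖armDet (2 * n + 2) 0 (Complex.exp (Real.pi / 3 * Complex.I))‖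

theorem ZZ_eq (n : ℕ) : ZZ n = RR (2 * n + 2) 0 (Real.pi / 3) := by
  unfold ZZ RR
  rw [armDet_eq]
  norm_num

theorem ZZ_pos (n : ℕ) : 0 < ZZ n := by
  rw [ZZ_eq]
  exact (a_PH (2 * n + 2) 0 (Real.pi / 3) (by positivity) (by linarith [Real.pi_pos])).1

/-! ### the weighted functional -/

theorem eW_of {c : ℂ} {p r : ℕ} {w' w : Word} {j : ℤ} (hj : JJ p r w' w j)
    (hu : ∀ j j' : ℤ, JJ p r w' w j → JJ p r w' w j' → j = j') : eW c p r w' w = c ^ j := by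
  have hex : ∃ j, JJ p r w' w j := ⟨j, hj⟩
  unfold eW
  rw [dif_pos hex, hu _ j (Classical.choose_spec hex) hj]

theorem eW_none {c : ℂ} {p r : ℕ} {w' w : Word} (hj : ¬ ∃ j, JJ p r w' w j) :
    eW c p r w' w = 0 := by
  unfold eW
  rw [dif_neg hj]

/-- the properties of the words of length `2n+2` -/
theorem uq (hU : W_uniq) {n k : ℕ} (hk : 1 ≤ k) (hk2 : k ≤ 2 * n + 2) (σ τ : Wd (2 * n + 1 + 1)) :
    (∀ j j' : ℤ, JJ k k τ.1 σ.1 j → JJ k k τ.1 σ.1 j' → j = j') ∧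
      (Good k k τ.1 σ.1 → ∃ j, JJ k k τ.1 σ.1 j) := by
  have h1 : σ.1.length = 2 * n + 1 + 1 := σ.2.1
  have h2 : τ.1.length = 2 * n + 1 + 1 := τ.2.1
  refine hU k k k τ.1 σ.1 hk (by ring) τ.2.2 σ.2.2 ?_ (by rw [h1, h2]) (by omega)
  rw [h1]
  exact ⟨n + 1, by ring⟩

open Classical in
/-- the possible values of the index -/
noncomputable def SS (n k : ℕ) : Finset ℤ :=
  Finset.univ.image (fun x : Wd (2 * n + 1 + 1) × Wd (2 * n + 1 + 1) =>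
    if h : ∃ j, JJ k k x.2.1 x.1.1 j then Classical.choose h else 0)

theorem mem_SS (hU : W_uniq) {n k : ℕ} (hk : 1 ≤ k) (hk2 : k ≤ 2 * n + 2) {j : ℤ}
    {σ τ : Wd (2 * n + 1 + 1)} (hc : JJ k k τ.1 σ.1 j) : j ∈ SS n k := by
  classical
  have hex : ∃ j, JJ k k τ.1 σ.1 j := ⟨j, hc⟩
  refine Finset.mem_image.2 ⟨(σ, τ), Finset.mem_univ _, ?_⟩
  show (if h : ∃ j, JJ k k τ.1 σ.1 j then Classical.choose h else 0) = j
  rw [dif_pos hex]
  exact (uq hU hk hk2 σ τ).1 _ _ (Classical.choose_spec hex) hc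

open Classical in
theorem sum_SS (hU : W_uniq) {n k : ℕ} (hk : 1 ≤ k) (hk2 : k ≤ 2 * n + 2)
    (σ τ : Wd (2 * n + 1 + 1)) (w : ℂ) :
    ∑ j ∈ SS n k, (if JJ k k τ.1 σ.1 j then 1 else 0) * w ^ j = eW w k k τ.1 σ.1 := by
  by_cases hex : ∃ j, JJ k k τ.1 σ.1 j
  · obtain ⟨j, hc⟩ := hex
    rw [eW_of hc (uq hU hk hk2 σ τ).1, Finset.sum_eq_single_of_mem j (mem_SS hU hk hk2 hc)]
    · rw [if_pos hc, one_mul]
    · intro b _ hb
      rw [if_neg, zero_mul]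
      intro hb2
      exact hb ((uq hU hk hk2 σ τ).1 _ _ hb2 hc)
  · rw [eW_none hex]
    refine Finset.sum_eq_zero fun j _ => ?_
    rw [if_neg, zero_mul]
    exact fun hc => hex ⟨j, hc⟩

/-! ### the exact law -/

theorem ae_unique (hU : W_uniq) (hTL : W_TL) (hTU : W_TU) (hTG : W_TG) (hTP : W_TP) {n k : ℕ}
    (hk : 1 ≤ k) (hk2 : k ≤ 2 * n + 2) (p : ℤ → unitInterval) (ε : ℝ) (hp : Ell ε p) :
    ∀ᵐ ω ∂(coins (2 * n + 1) p), (∀ j j' : ℤ, Spiral k ω j → Spiral k ω j' → j = j') ∧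
      (Arms k ω → ∃ j, Spiral k ω j) := by
  obtain ⟨μ, m0, m1, m2, -, -⟩ := markov_exists (2 * n + 1)
  have h6 := (hTP n k p ε hp hk hk2 μ m0 m1 m2).2.2
  filter_upwards [h6] with ω hω
  obtain ⟨M, s1, s2, b1, b2, h1, h2⟩ := hω
  obtain ⟨σ⟩ : Nonempty (Wd (2 * n + 1 + 1)) := ⟨base (2 * n + 1)⟩
  have h3 := hTL n ω M s1 b1 h1 σ
  have h4 := hTU n ω M s2 b2 h2 σ
  set w := rows (2 * n + 1) (lowc ω 0 M) M σ with hw
  set w' := rows (2 * n + 1) (uppc ω 0 M) M σ with hw'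
  obtain ⟨h5, h6⟩ := hTG (2 * n + 1) k ω w'.1 w.1 hk (by omega) w.2.1 w'.2.1 h3 h4
  obtain ⟨h7, h8⟩ := uq hU hk hk2 w w'
  refine ⟨fun j j' hj hj' => h7 j j' ((h6 j).1 hj) ((h6 j').1 hj'), fun ha => ?_⟩
  obtain ⟨j, hj⟩ := h8 (h5.1 ha)
  exact ⟨j, (h6 j).2 hj⟩

/-- **the exact law** -/
theorem law (hU : W_uniq) (hPB : W_PB) (hTP : W_TP) (hLau : W_LAU) {n k : ℕ}
    (hk : 1 ≤ k) (hk2 : k ≤ 2 * n + 2) (p : ℤ → unitInterval) (ε : ℝ) (hp : Ell ε p) :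
    (∀ j : ℤ, j < (k : ℤ) - n - 1 ∨ (n : ℤ) + 1 < j →
      (coins (2 * n + 1) p).real {ω | Spiral k ω j} = 0) ∧
    (∀ w : ℂ, w ≠ 0 → ∑ j ∈ Finset.Icc ((k : ℤ) - n - 1) (n + 1),
      ((coins (2 * n + 1) p).real {ω | Spiral k ω j} : ℂ) * w ^ j =
      (ZZ n : ℂ)⁻¹ * (w ^ (n + 1) * Dl (2 * n + 2 - k) (2 * k) w⁻¹)) := by
  classical
  obtain ⟨μ, m0, m1, m2, -, -⟩ := markov_exists (2 * n + 1)
  have h6 := (hTP n k p ε hp hk hk2 μ m0 m1 m2).2.1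
  have hZ : (ZZ n : ℂ) ≠ 0 := by exact_mod_cast (ZZ_pos n).ne'
  refine hLau n k (fun j => (coins (2 * n + 1) p).real {ω | Spiral k ω j}) (SS n k) (ZZ n : ℂ)⁻¹
    hk hk2 ?_ ?_
  · intro j hj
    show (coins (2 * n + 1) p).real {ω | Spiral k ω j} = 0
    rw [h6 j]
    refine Finset.sum_eq_zero fun σ _ => Finset.sum_eq_zero fun τ _ => ?_
    rw [if_neg, mul_zero]
    intro hc
    exact hj (mem_SS hU hk hk2 hc)
  · intro w hw
    have h1 := hPB n k hk hk2 μ m0 m1 m2 w hw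
    rw [← ZZ_eq] at h1
    have h2 : ∑ j ∈ SS n k, (((coins (2 * n + 1) p).real {ω | Spiral k ω j} : ℝ) : ℂ) * w ^ j =
        ∑ σ, ∑ τ, (μ σ : ℂ) * μ τ * eW w k k τ.1 σ.1 := by
      have e1 : ∀ j ∈ SS n k, (((coins (2 * n + 1) p).real {ω | Spiral k ω j} : ℝ) : ℂ) * w ^ j =
          ∑ σ, ∑ τ, (μ σ : ℂ) * μ τ * ((if JJ k k τ.1 σ.1 j then 1 else 0) * w ^ j) := by
        intro j _
        rw [h6 j]
        push_cast
        rw [Finset.sum_mul]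
        refine Finset.sum_congr rfl fun σ _ => ?_
        rw [Finset.sum_mul]
        refine Finset.sum_congr rfl fun τ _ => ?_
        split_ifs <;> simp
      rw [Finset.sum_congr rfl e1, Finset.sum_comm]
      refine Finset.sum_congr rfl fun σ _ => ?_
      rw [Finset.sum_comm]
      refine Finset.sum_congr rfl fun τ _ => ?_
      rw [← Finset.mul_sum, sum_SS hU hk hk2]
    show ∑ j ∈ SS n k, (((coins (2 * n + 1) p).real {ω | Spiral k ω j} : ℝ) : ℂ) * w ^ j = _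
    rw [h2, ← h1]
    field_simp

/-- probability of a set of values of the index -/
theorem prob_sum {n k : ℕ} (p : ℤ → unitInterval)
    (h1 : ∀ᵐ ω ∂(coins (2 * n + 1) p), (∀ j j' : ℤ, Spiral k ω j → Spiral k ω j' → j = j') ∧
      (Arms k ω → ∃ j, Spiral k ω j))
    (h2 : ∀ j : ℤ, j < (k : ℤ) - n - 1 ∨ (n : ℤ) + 1 < j →
      (coins (2 * n + 1) p).real {ω | Spiral k ω j} = 0) (A : ℤ → Prop) [DecidablePred A] :
    (coins (2 * n + 1) p).real {ω | ∃ j, Spiral k ω j ∧ A j} =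
      ∑ j ∈ Finset.Icc ((k : ℤ) - n - 1) (n + 1),
        if A j then (coins (2 * n + 1) p).real {ω | Spiral k ω j} else 0 := by
  have h3 : (coins (2 * n + 1) p).real {ω | ∃ j, Spiral k ω j ∧ A j} =
      (coins (2 * n + 1) p).real (⋃ j ∈ (Finset.Icc ((k : ℤ) - n - 1) (n + 1)).filter A,
        {ω | Spiral k ω j}) := by
    refine measureReal_congr ?_
    have h4 : ∀ᵐ ω ∂(coins (2 * n + 1) p), ∀ j : ℤ, j < (k : ℤ) - n - 1 ∨ (n : ℤ) + 1 < j →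
        ¬ Spiral k ω j := by
      rw [ae_all_iff]
      intro j
      by_cases hj : j < (k : ℤ) - n - 1 ∨ (n : ℤ) + 1 < j
      · have h5 := h2 j hj
        rw [measureReal_eq_zero_iff] at h5
        have h6 : ∀ᵐ ω ∂(coins (2 * n + 1) p), ¬ Spiral k ω j := by
          rw [ae_iff]
          simpa using h5
        filter_upwards [h6] with ω hω _
        exact hω
      · filter_upwards with ω h5
        exact absurd h5 hj
    filter_upwards [h4] with ω hω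
    apply propext
    show (∃ j, Spiral k ω j ∧ A j) ↔
      ω ∈ (⋃ j ∈ (Finset.Icc ((k : ℤ) - n - 1) (n + 1)).filter A, {ω | Spiral k ω j})
    simp only [Set.mem_iUnion, Finset.mem_filter, Finset.mem_Icc]
    constructor
    · rintro ⟨j, h5, h6⟩
      have h7 : ¬ (j < (k : ℤ) - n - 1 ∨ (n : ℤ) + 1 < j) := fun h8 => hω j h8 h5
      rw [not_or, not_lt, not_lt] at h7
      exact ⟨j, ⟨h7, h6⟩, h5⟩
    · rintro ⟨j, ⟨-, h6⟩, h5⟩
      exact ⟨j, h5, h6⟩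
  rw [h3, measureReal_biUnion_finset₀, Finset.sum_filter]
  · intro j _ j' _ hne
    show AEDisjoint (coins (2 * n + 1) p) {ω | Spiral k ω j} {ω | Spiral k ω j'}
    unfold AEDisjoint
    have h4 : ∀ᵐ ω ∂(coins (2 * n + 1) p),
        ω ∉ ({ω | Spiral k ω j} ∩ {ω | Spiral k ω j'} : Set (Fin (2 * n + 1 + 1) × ℤ → Bool)) := by
      filter_upwards [h1] with ω hω
      rintro ⟨h5, h6⟩
      exact hne (hω.1 _ _ h5 h6)
    rw [ae_iff] at h4
    have e : {a : Fin (2 * n + 1 + 1) × ℤ → Bool | ¬ a ∉ ({ω | Spiral k ω j} ∩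
        {ω | Spiral k ω j'} : Set (Fin (2 * n + 1 + 1) × ℤ → Bool))} =
        {ω | Spiral k ω j} ∩ {ω | Spiral k ω j'} := by
      ext a
      exact not_not
    rw [e] at h4
    exact h4
  · intro j _
    exact (measurableSet_spiral k j).nullMeasurableSet

/-- the probability of the arms -/
theorem prob_arms {n k : ℕ} (p : ℤ → unitInterval)
    (h1 : ∀ᵐ ω ∂(coins (2 * n + 1) p), (∀ j j' : ℤ, Spiral k ω j → Spiral k ω j' → j = j') ∧
      (Arms k ω → ∃ j, Spiral k ω j)) :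
    (coins (2 * n + 1) p).real {ω | Arms k ω} =
      (coins (2 * n + 1) p).real {ω | ∃ j, Spiral k ω j ∧ True} := by
  refine measureReal_congr ?_
  filter_upwards [h1] with ω hω
  apply propext
  show Arms k ω ↔ ∃ j, Spiral k ω j ∧ True
  constructor
  · intro h
    obtain ⟨j, hj⟩ := hω.2 h
    exact ⟨j, hj, trivial⟩
  · rintro ⟨j, hj, -⟩
    exact hj.1

theorem Dl_one_ne (hL4 : W_L4) (N l : ℕ) : Dl N l 1 ≠ 0 := by
  obtain ⟨u, hu⟩ := t_EG N l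
  obtain ⟨D, hD, hD2⟩ := (hL4 N l u hu).2.2.1
  rw [hD2]
  exact_mod_cast hD.ne'

theorem Dl_one_real (hL4 : W_L4) (N l : ℕ) : ∃ D : ℝ, 0 < D ∧ Dl N l 1 = (D : ℂ) ∧ RR N l 0 = D := by
  obtain ⟨u, hu⟩ := t_EG N l
  obtain ⟨D, hD, hD2⟩ := (hL4 N l u hu).2.2.1
  refine ⟨D, hD, hD2, ?_⟩
  unfold RR
  have e : Complex.exp (((0 : ℝ) : ℂ) * Complex.I) = 1 := by simp
  rw [e, hD2, Complex.norm_real, Real.norm_of_nonneg hD.le]

/-- the value of the probability of the arms -/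
theorem arms_value (hU : W_uniq) (hPB : W_PB) (hTL : W_TL) (hTU : W_TU) (hTG : W_TG)
    (hTP : W_TP) (hLau : W_LAU) {n k : ℕ}
    (hk : 1 ≤ k) (hk2 : k ≤ 2 * n + 2) (p : ℤ → unitInterval) (ε : ℝ) (hp : Ell ε p) :
    ((coins (2 * n + 1) p).real {ω | Arms k ω} : ℂ) = Dl (2 * n + 2 - k) (2 * k) 1 / ZZ n := by
  classical
  have h1 := ae_unique hU hTL hTU hTG hTP hk hk2 p ε hp
  obtain ⟨h2, h3⟩ := law hU hPB hTP hLau hk hk2 p ε hp
  rw [prob_arms p h1, prob_sum p h1 h2 (fun _ => True)]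
  have h4 := h3 1 one_ne_zero
  rw [one_pow, inv_one, one_mul] at h4
  have h5 : Dl (2 * n + 2 - k) (2 * k) 1 / (ZZ n : ℂ) =
      (ZZ n : ℂ)⁻¹ * Dl (2 * n + 2 - k) (2 * k) 1 := by
    rw [div_eq_mul_inv, mul_comm]
  rw [h5, ← h4, Complex.ofReal_sum]
  refine Finset.sum_congr rfl fun j _ => ?_
  rw [one_zpow, mul_one, if_pos trivial]

/-- palindromic symmetry -/
theorem pal (hL4 : W_L4) {n k : ℕ} (hk2 : k ≤ 2 * n + 2) (w : ℂ) (hw : w ≠ 0) :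
    w ^ (n + 1) * Dl (2 * n + 2 - k) (2 * k) w⁻¹ =
      w ^ ((k : ℤ) - n - 1) * Dl (2 * n + 2 - k) (2 * k) w := by
  obtain ⟨u, hu⟩ := t_EG (2 * n + 2 - k) (2 * k)
  have h := (hL4 _ _ u hu).2.1 w hw
  rw [← h, ← mul_assoc, ← zpow_natCast w (2 * n + 2 - k), ← zpow_add₀ hw, ← zpow_natCast w (n + 1)]
  congr 2
  push_cast [Nat.cast_sub hk2]
  ring

/-- the Bernoulli parameters -/
theorem bern (hL3 : W_L3) (hL4 : W_L4) (k : ℕ) (hk : 1 ≤ k) :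
    ∃ a : (n : ℕ) → Fin (2 * n + 2 - k) → ℝ, (∀ n i, 0 < a n i ∧ a n i < 1) ∧
    (∀ n i, a n (Fin.rev i) = 1 - a n i) ∧
    (∀ (n : ℕ) (w : ℂ), armDet (2 * n + 2 - k) (2 * k) w =
      armDet (2 * n + 2 - k) (2 * k) 1 * ∏ i, (1 - (a n i : ℂ) + (a n i : ℂ) * w)) ∧
    ∃ C : ℝ, ∀ n : ℕ, k ≤ 2 * n + 2 →
      |∑ i, a n i * (1 - a n i) - 3 / (2 * Real.pi ^ 2) * Real.log (2 * n + 2)| ≤ C := by
  choose u hu using fun n : ℕ => t_EG (2 * n + 2 - k) (2 * k)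
  refine ⟨fun n i => Real.exp (u n i) / (1 + Real.exp (u n i)), ?_, ?_, ?_, ?_⟩
  · intro n i
    have h := Real.exp_pos (u n i)
    constructor
    · positivity
    · rw [div_lt_one (by positivity)]
      linarith
  · intro n i
    have h := Real.exp_pos (u n i)
    show Real.exp (u n (Fin.rev i)) / (1 + Real.exp (u n (Fin.rev i))) = 1 -
      Real.exp (u n i) / (1 + Real.exp (u n i))
    rw [(hu n).2.1, Real.exp_neg]
    field_simp
    ring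
  · intro n w
    exact (hL4 _ _ (u n) (hu n)).2.2.2 w
  · obtain ⟨C, hC⟩ := hL3 k hk
    refine ⟨C, fun n hn => ?_⟩
    have h1 := hC n (u n) hn (hu n)
    have h2 : ∑ i, Real.exp (u n i) / (1 + Real.exp (u n i)) *
        (1 - Real.exp (u n i) / (1 + Real.exp (u n i))) = ∑ i, 1 / (2 * (Real.cosh (u n i) + 1)) := by
      refine Finset.sum_congr rfl fun i _ => ?_
      have h := Real.exp_pos (u n i)
      rw [Real.cosh_eq, Real.exp_neg]
      field_simp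
      ring
    show |∑ i, Real.exp (u n i) / (1 + Real.exp (u n i)) *
        (1 - Real.exp (u n i) / (1 + Real.exp (u n i))) - _| ≤ C
    rw [h2]
    exact h1

/-- exponential moments -/
theorem expm (hL2 : W_L2) (hL4 : W_L4) (k : ℕ) (hk : 1 ≤ k) (t : ℝ) :
    ∃ c C : ℝ, 0 < c ∧ 0 < C ∧ ∀ n : ℕ, k ≤ n + 1 →
    ∀ P : ℤ → ℝ, (∀ w : ℂ, w ≠ 0 → ∑ j ∈ Finset.Icc ((k : ℤ) - n - 1) (n + 1), (P j : ℂ) * w ^ j =
      (ZZ n : ℂ)⁻¹ * (w ^ (n + 1) * Dl (2 * n + 2 - k) (2 * k) w⁻¹)) →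
    c * (2 * (n : ℝ) + 2) ^ (-((4 * (k : ℝ) ^ 2 - 1) / 12) + 3 * t ^ 2 / (4 * Real.pi ^ 2)) ≤
      ∑ j ∈ Finset.Icc ((k : ℤ) - n - 1) (n + 1), P j * Real.exp (t * (j - k / 2)) ∧
    ∑ j ∈ Finset.Icc ((k : ℤ) - n - 1) (n + 1), P j * Real.exp (t * (j - k / 2)) ≤
      C * (2 * (n : ℝ) + 2) ^ (-((4 * (k : ℝ) ^ 2 - 1) / 12) + 3 * t ^ 2 / (4 * Real.pi ^ 2)) := by
  obtain ⟨C0, h0⟩ := hL2 k t hk
  obtain ⟨c1, C1, hc1, hC1, h1⟩ := a_FA k hk
  set α : ℝ := -((4 * (k : ℝ) ^ 2 - 1) / 12) with hα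
  have h2α : (0 : ℝ) < 2 ^ (-α) := Real.rpow_pos_of_pos (by norm_num) _
  refine ⟨c1 * 2 ^ (-α) * Real.exp (-C0 / 2), C1 * 2 ^ (-α) * Real.exp (C0 / 2), by positivity,
    by positivity, ?_⟩
  intro n hn P hP
  obtain ⟨u, hu⟩ := t_EG (2 * n + 2 - k) (2 * k)
  have hw := (hL4 _ _ u hu).1 t
  obtain ⟨D, hD, hD2, hD3⟩ := Dl_one_real hL4 (2 * n + 2 - k) (2 * k)
  set s := ∑ i, Real.log ((Real.cosh (u i) + Real.cosh t) / (Real.cosh (u i) + 1)) with hs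
  have hZ := ZZ_pos n
  have hZc : (ZZ n : ℂ) ≠ 0 := by exact_mod_cast hZ.ne'
  have hval : ∑ j ∈ Finset.Icc ((k : ℤ) - n - 1) (n + 1), P j * Real.exp (t * (j - k / 2)) =
      D / ZZ n * Real.exp (s / 2) := by
    have h4 := hP (Complex.exp (t : ℂ)) (Complex.exp_ne_zero _)
    have h5 : ∀ j : ℤ, ((Real.exp (t * (j - k / 2)) : ℝ) : ℂ) =
        Complex.exp ((-(t * k / 2) : ℝ) : ℂ) * Complex.exp (t : ℂ) ^ j := by
      intro j
      rw [← Complex.exp_int_mul, ← Complex.exp_add]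
      push_cast
      congr 1
      ring
    have h6 : ((∑ j ∈ Finset.Icc ((k : ℤ) - n - 1) (n + 1), P j * Real.exp (t * (j - k / 2)) : ℝ) : ℂ) =
        ((D / ZZ n * Real.exp (s / 2) : ℝ) : ℂ) := by
      have h7 : ((∑ j ∈ Finset.Icc ((k : ℤ) - n - 1) (n + 1), P j * Real.exp (t * (j - k / 2)) : ℝ) : ℂ) =
          Complex.exp ((-(t * k / 2) : ℝ) : ℂ) *
            ∑ j ∈ Finset.Icc ((k : ℤ) - n - 1) (n + 1), (P j : ℂ) * Complex.exp (t : ℂ) ^ j := by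
        rw [Complex.ofReal_sum, Finset.mul_sum]
        refine Finset.sum_congr rfl fun j _ => ?_
        rw [Complex.ofReal_mul, h5]
        ring
      have h8 : Complex.exp ((-(t * k / 2) : ℝ) : ℂ) * Complex.exp (t : ℂ) ^ (n + 1) =
          Complex.exp ((t * ((2 * n + 2 - k : ℕ) : ℝ) / 2 : ℝ) : ℂ) := by
        rw [← Complex.exp_nat_mul, ← Complex.exp_add]
        congr 1
        have h9 : ((2 * n + 2 - k : ℕ) : ℝ) = 2 * n + 2 - k := by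
          rw [Nat.cast_sub (by omega)]
          push_cast
          ring
        rw [h9]
        push_cast
        ring
      rw [h7, h4]
      have h10 : Complex.exp ((-(t * k / 2) : ℝ) : ℂ) * ((ZZ n : ℂ)⁻¹ *
          (Complex.exp (t : ℂ) ^ (n + 1) * Dl (2 * n + 2 - k) (2 * k) (Complex.exp (t : ℂ))⁻¹)) =
          (ZZ n : ℂ)⁻¹ * ((Complex.exp ((-(t * k / 2) : ℝ) : ℂ) * Complex.exp (t : ℂ) ^ (n + 1)) *
            Dl (2 * n + 2 - k) (2 * k) (Complex.exp (t : ℂ))⁻¹) := by ring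
      rw [h10, h8, hw, hD2]
      push_cast
      ring
    exact_mod_cast h6
  have hs2 := h0 n u (by omega) hu
  rw [← hs, abs_le] at hs2
  have hn0 : (0 : ℝ) ≤ n := Nat.cast_nonneg n
  have hN0 : (0 : ℝ) < 2 * (n : ℝ) + 2 := by linarith
  have hpow : (2 * (n : ℝ) + 2) ^ (3 * t ^ 2 / (4 * Real.pi ^ 2) : ℝ) =
      Real.exp (3 / (2 * Real.pi ^ 2) * t ^ 2 * Real.log (2 * n + 2) / 2) := by
    rw [Real.rpow_def_of_pos hN0]
    congr 1
    ring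
  obtain ⟨h7, h8⟩ := h1 (n + 1) hn
  have e2 : 2 * (n + 1) - k = 2 * n + 2 - k := by omega
  have e3 : 2 * (n + 1) = 2 * n + 2 := by ring
  rw [e2, e3, ← ZZ_eq, hD3] at h7 h8
  have hr : ((n + 1 : ℕ) : ℝ) ^ α = 2 ^ (-α) * (2 * (n : ℝ) + 2) ^ α := by
    have e4 : (2 * (n : ℝ) + 2) = 2 * ((n + 1 : ℕ) : ℝ) := by push_cast; ring
    rw [e4, Real.mul_rpow (by norm_num) (Nat.cast_nonneg _), ← mul_assoc,
      ← Real.rpow_add (by norm_num)]
    simp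
  rw [hr] at h7 h8
  rw [hval, Real.rpow_add hN0, hpow]
  set E := Real.exp (3 / (2 * Real.pi ^ 2) * t ^ 2 * Real.log (2 * n + 2) / 2) with hE
  have hE0 : 0 < E := Real.exp_pos _
  have hes1 : Real.exp (-C0 / 2) * E ≤ Real.exp (s / 2) := by
    rw [hE, ← Real.exp_add]
    apply Real.exp_le_exp.2
    linarith [hs2.1]
  have hes2 : Real.exp (s / 2) ≤ Real.exp (C0 / 2) * E := by
    rw [hE, ← Real.exp_add]
    apply Real.exp_le_exp.2
    linarith [hs2.2]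
  have hX : 0 < (2 * (n : ℝ) + 2) ^ α := Real.rpow_pos_of_pos hN0 _
  generalize (2 * (n : ℝ) + 2) ^ α = X at *
  have h9 : c1 * 2 ^ (-α) * X ≤ D / ZZ n := by
    rw [le_div_iff₀ hZ]
    calc c1 * 2 ^ (-α) * X * ZZ n = c1 * (2 ^ (-α) * X) * ZZ n := by ring
      _ ≤ D := h7
  have h10 : D / ZZ n ≤ C1 * 2 ^ (-α) * X := by
    rw [div_le_iff₀ hZ]
    calc D ≤ C1 * (2 ^ (-α) * X) * ZZ n := h8
      _ = C1 * 2 ^ (-α) * X * ZZ n := by ring
  constructor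
  · calc c1 * 2 ^ (-α) * Real.exp (-C0 / 2) * (X * E)
        = (c1 * 2 ^ (-α) * X) * (Real.exp (-C0 / 2) * E) := by ring
      _ ≤ D / ZZ n * Real.exp (s / 2) := mul_le_mul h9 hes1 (by positivity) (by positivity)
  · calc D / ZZ n * Real.exp (s / 2) ≤ (C1 * 2 ^ (-α) * X) * (Real.exp (C0 / 2) * E) :=
          mul_le_mul h10 hes2 (Real.exp_pos _).le (by positivity)
      _ = C1 * 2 ^ (-α) * Real.exp (C0 / 2) * (X * E) := by ring

/-- the central limit theorem for the probabilities -/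
theorem clt (hclt : W_CLT) (hL4 : W_L4) (k : ℕ) (hk : 1 ≤ k) (x : ℝ) (p : ℕ → ℤ → unitInterval)
    (h1 : ∀ n, k ≤ 2 * n + 2 → ∀ᵐ ω ∂(coins (2 * n + 1) (p n)),
      (∀ j j' : ℤ, Spiral k ω j → Spiral k ω j' → j = j') ∧ (Arms k ω → ∃ j, Spiral k ω j))
    (h2 : ∀ (n : ℕ), k ≤ 2 * n + 2 → ∀ j : ℤ, j < (k : ℤ) - n - 1 ∨ (n : ℤ) + 1 < j →
      (coins (2 * n + 1) (p n)).real {ω | Spiral k ω j} = 0)
    (h3 : ∀ (n : ℕ), k ≤ 2 * n + 2 → ∀ (w : ℂ), w ≠ 0 →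
      ∑ j ∈ Finset.Icc ((k : ℤ) - n - 1) (n + 1),
      ((coins (2 * n + 1) (p n)).real {ω | Spiral k ω j} : ℂ) * w ^ j =
      (ZZ n : ℂ)⁻¹ * (w ^ (n + 1) * Dl (2 * n + 2 - k) (2 * k) w⁻¹))
    (h4 : ∀ n, k ≤ 2 * n + 2 → ((coins (2 * n + 1) (p n)).real {ω | Arms k ω} : ℂ) =
      Dl (2 * n + 2 - k) (2 * k) 1 / ZZ n) :
    Tendsto (fun n : ℕ => (coins (2 * n + 1) (p n)).real {ω | ∃ j : ℤ, Spiral k ω j ∧
      Real.pi / k * ((j : ℝ) - k / 2) ≤ x * Real.sqrt (3 / (2 * k ^ 2) * Real.log (2 * n + 2))} /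
      (coins (2 * n + 1) (p n)).real {ω | Arms k ω}) atTop
      (𝓝 ((gaussianReal 0 1).real (Set.Iic x))) := by
  classical
  have h5 : ∀ n, k ≤ 2 * n + 2 → 0 < (coins (2 * n + 1) (p n)).real {ω | Arms k ω} := by
    intro n hn
    obtain ⟨D, hD, hD2, -⟩ := Dl_one_real hL4 (2 * n + 2 - k) (2 * k)
    have h6 := h4 n hn
    rw [hD2] at h6
    have h7 : (coins (2 * n + 1) (p n)).real {ω | Arms k ω} = D / ZZ n := by exact_mod_cast h6
    rw [h7]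
    exact div_pos hD (ZZ_pos n)
  refine (hclt k hk (fun n j => (coins (2 * n + 1) (p n)).real {ω | Spiral k ω j} /
    (coins (2 * n + 1) (p n)).real {ω | Arms k ω}) (fun n j => ?_) (fun n w hn hw => ?_) x).congr' ?_
  · exact div_nonneg measureReal_nonneg measureReal_nonneg
  · have h6 := h3 n hn w hw
    have h7 : ((coins (2 * n + 1) (p n)).real {ω | Arms k ω} : ℂ) ≠ 0 := by
      exact_mod_cast (h5 n hn).ne'
    have h8 : ∑ j ∈ Finset.Icc ((k : ℤ) - n - 1) (n + 1),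
        (((coins (2 * n + 1) (p n)).real {ω | Spiral k ω j} /
          (coins (2 * n + 1) (p n)).real {ω | Arms k ω} : ℝ) : ℂ) * w ^ j =
        (∑ j ∈ Finset.Icc ((k : ℤ) - n - 1) (n + 1),
          ((coins (2 * n + 1) (p n)).real {ω | Spiral k ω j} : ℂ) * w ^ j) /
          (coins (2 * n + 1) (p n)).real {ω | Arms k ω} := by
      rw [Finset.sum_div]
      refine Finset.sum_congr rfl fun j _ => ?_
      push_cast
      ring
    have hD := Dl_one_ne hL4 (2 * n + 2 - k) (2 * k)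
    have hZ : (ZZ n : ℂ) ≠ 0 := by exact_mod_cast (ZZ_pos n).ne'
    rw [h8, h6, h4 n hn]
    field_simp
  · filter_upwards [eventually_ge_atTop k] with n hn
    have hn2 : k ≤ 2 * n + 2 := by omega
    rw [prob_sum (p n) (h1 n hn2) (h2 n hn2)
      (fun j : ℤ => Real.pi / k * ((j : ℝ) - k / 2) ≤
        x * Real.sqrt (3 / (2 * k ^ 2) * Real.log (2 * n + 2))), Finset.sum_div]
    refine Finset.sum_congr rfl fun j _ => ?_
    split_ifs
    · rfl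
    · rw [zero_div]

end Pool.Agent.Helper21.AW
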