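import Pool.Agent.Helper21.AW.Stm

/-!
# Measurability
-/

set_option autoImplicit false

namespace Pool.Agent.Helper21.AW

open Pool.Agent.Helper21.EV MeasureTheory

variable {m : ℕ}

open Classical in
theorem cutW_cases (k : ℕ) (ω : Fin (m + 1) × ℤ → Bool) (a b : ((ℤ × ℤ) × Bool) × ℤ) :
    CutW k ω a b ↔
    ((a.1.1.2 < 0 ∧ b = (((a.1.1.1 + 1, a.1.1.2 + 1), false), a.2) ∧ a.1.2 = false) ∧
        ω (col m a.1.1.1, a.1.1.2) = false) ∨
    ((a.1.1.2 < 0 ∧ a.1.1.1 = b.1.1.1 + 1 ∧ b = (((b.1.1.1, a.1.1.2 + 1), false), a.2) ∧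
        a.1.2 = false) ∧ ω (col m b.1.1.1, a.1.1.2) = true) ∨
    ((0 ≤ a.1.1.2 ∧ b = (((a.1.1.1 + 1, a.1.1.2 + 1), true), a.2) ∧ a.1.2 = true) ∧
        ω (col m a.1.1.1, a.1.1.2) = false) ∨
    ((0 ≤ a.1.1.2 ∧ a.1.1.1 = b.1.1.1 + 1 ∧ b = (((b.1.1.1, a.1.1.2 + 1), true), a.2) ∧
        a.1.2 = true) ∧ ω (col m b.1.1.1, a.1.1.2) = true) ∨
    ∃ (s x : ℤ) (i : ℕ), i + k ≤ m + 1 ∧ a = (((s * (m + 1 : ℕ) + k + i, 0), false), x) ∧
      b = (((s * (m + 1 : ℕ) + k + i, 0), true), x + if 0 ≤ s then 1 else 0) := by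
  constructor
  · intro h
    cases h with
    | lowr j t x h1 h2 => exact Or.inl ⟨⟨h1, rfl, rfl⟩, h2⟩
    | lowl j t x h1 h2 => exact Or.inr (Or.inl ⟨⟨h1, rfl, rfl, rfl⟩, h2⟩)
    | uppr j t x h1 h2 => exact Or.inr (Or.inr (Or.inl ⟨⟨h1, rfl, rfl⟩, h2⟩))
    | uppl j t x h1 h2 => exact Or.inr (Or.inr (Or.inr (Or.inl ⟨⟨h1, rfl, rfl, rfl⟩, h2⟩)))
    | glue s x i h => exact Or.inr (Or.inr (Or.inr (Or.inr ⟨s, x, i, h, rfl, rfl⟩)))
  · obtain ⟨⟨⟨j, t⟩, β⟩, x⟩ := a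
    obtain ⟨⟨⟨j', t'⟩, β'⟩, x'⟩ := b
    rintro (⟨⟨h1, h2, h3⟩, h4⟩ | ⟨⟨h1, h2, h3, h5⟩, h4⟩ | ⟨⟨h1, h2, h3⟩, h4⟩ |
      ⟨⟨h1, h2, h3, h5⟩, h4⟩ | ⟨s, y, i, h1, h2, h3⟩)
    · simp only at h1 h2 h3 h4
      rw [h2, h3]
      exact CutW.lowr j t x h1 h4
    · simp only at h1 h2 h3 h4 h5
      rw [h3, h2, h5]
      exact CutW.lowl j' t x h1 h4
    · simp only at h1 h2 h3 h4
      rw [h2, h3]
      exact CutW.uppr j t x h1 h4
    · simp only at h1 h2 h3 h4 h5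
      rw [h3, h2, h5]
      exact CutW.uppl j' t x h1 h4
    · rw [h2, h3]
      exact CutW.glue s y i h1

theorem measurableSet_cutW (k : ℕ) (a b : ((ℤ × ℤ) × Bool) × ℤ) :
    MeasurableSet {ω : Fin (m + 1) × ℤ → Bool | CutW k ω a b} := by
  have e : {ω : Fin (m + 1) × ℤ → Bool | CutW k ω a b} = {ω |
    ((a.1.1.2 < 0 ∧ b = (((a.1.1.1 + 1, a.1.1.2 + 1), false), a.2) ∧ a.1.2 = false) ∧
        ω (col m a.1.1.1, a.1.1.2) = false) ∨
    ((a.1.1.2 < 0 ∧ a.1.1.1 = b.1.1.1 + 1 ∧ b = (((b.1.1.1, a.1.1.2 + 1), false), a.2) ∧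
        a.1.2 = false) ∧ ω (col m b.1.1.1, a.1.1.2) = true) ∨
    ((0 ≤ a.1.1.2 ∧ b = (((a.1.1.1 + 1, a.1.1.2 + 1), true), a.2) ∧ a.1.2 = true) ∧
        ω (col m a.1.1.1, a.1.1.2) = false) ∨
    ((0 ≤ a.1.1.2 ∧ a.1.1.1 = b.1.1.1 + 1 ∧ b = (((b.1.1.1, a.1.1.2 + 1), true), a.2) ∧
        a.1.2 = true) ∧ ω (col m b.1.1.1, a.1.1.2) = true) ∨
    ∃ (s x : ℤ) (i : ℕ), i + k ≤ m + 1 ∧ a = (((s * (m + 1 : ℕ) + k + i, 0), false), x) ∧
      b = (((s * (m + 1 : ℕ) + k + i, 0), true), x + if 0 ≤ s then 1 else 0)} := by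
    ext ω
    exact cutW_cases k ω a b
  rw [e]
  refine ((MeasurableSet.const _).inter (measurableSet_coord _ _)).union
    (((MeasurableSet.const _).inter (measurableSet_coord _ _)).union
    (((MeasurableSet.const _).inter (measurableSet_coord _ _)).union
    (((MeasurableSet.const _).inter (measurableSet_coord _ _)).union (MeasurableSet.const _))))

theorem measurableSet_conn (k : ℕ) (a b : ((ℤ × ℤ) × Bool) × ℤ) :
    MeasurableSet {ω : Fin (m + 1) × ℤ → Bool | Relation.EqvGen (CutW k ω) a b} :=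
  measurableSet_eqvGen (fun ω : Fin (m + 1) × ℤ → Bool => CutW k ω) (measurableSet_cutW k) _ _

theorem measurableSet_imp {p : Prop} {S : Set (Fin (m + 1) × ℤ → Bool)} (h : p → MeasurableSet S) :
    MeasurableSet {ω | p → ω ∈ S} := by
  by_cases hp : p
  · have e : {ω | p → ω ∈ S} = S := by ext ω; simp [hp]
    rw [e]
    exact h hp
  · have e : {ω | p → ω ∈ S} = Set.univ := by ext ω; simp [hp]
    rw [e]
    exact MeasurableSet.univ

theorem measurableSet_arms (k : ℕ) :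
    MeasurableSet {ω : Fin (m + 1) × ℤ → Bool | Arms k ω} := by
  have e : {ω : Fin (m + 1) × ℤ → Bool | Arms k ω} =
      (⋂ c : Fin (2 * k), ⋂ d : Fin (2 * k), {ω | c ≠ d → ω ∈ ⋂ x : ℤ, ⋂ y : ℤ,
        {ω | Relation.EqvGen (CutW k ω) (sec m k 0 c, x) (sec m k 0 d, y)}ᶜ}) ∩
      ⋂ c : Fin (2 * k), ⋃ s : ℤ, ({_ω | s ≠ 0} ∩ ⋃ d : Fin (2 * k), ⋃ x : ℤ, ⋃ y : ℤ,
        {ω | Relation.EqvGen (CutW k ω) (sec m k 0 c, x) (sec m k s d, y)}) := by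
    ext ω
    unfold Arms
    simp only [Set.mem_inter_iff, Set.mem_iInter, Set.mem_iUnion, Set.mem_compl_iff,
      Set.mem_ofPred_eq]
    constructor
    · rintro ⟨h1, h2⟩
      refine ⟨fun c d hcd x y => h1 c d c.2 d.2 (fun h => hcd (Fin.ext h)) x y, fun c => ?_⟩
      obtain ⟨s, hs, d, hd, x, y, h⟩ := h2 c c.2
      exact ⟨s, hs, ⟨d, hd⟩, x, y, h⟩
    · rintro ⟨h1, h2⟩
      refine ⟨fun c d hc hd hcd x y => h1 ⟨c, hc⟩ ⟨d, hd⟩ (fun h => hcd (congrArg Fin.val h)) x y,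
        fun c hc => ?_⟩
      obtain ⟨s, hs, d, x, y, h⟩ := h2 ⟨c, hc⟩
      exact ⟨s, hs, d, d.2, x, y, h⟩
  rw [e]
  refine (MeasurableSet.iInter fun c => MeasurableSet.iInter fun d => measurableSet_imp fun _ =>
    MeasurableSet.iInter fun x => MeasurableSet.iInter fun y => (measurableSet_conn _ _ _).compl).inter
    (MeasurableSet.iInter fun c => MeasurableSet.iUnion fun s => (MeasurableSet.const _).inter
      (MeasurableSet.iUnion fun d => MeasurableSet.iUnion fun x => MeasurableSet.iUnion fun y =>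
        measurableSet_conn _ _ _))

theorem measurableSet_spiral (k : ℕ) (j : ℤ) :
    MeasurableSet {ω : Fin (m + 1) × ℤ → Bool | Spiral k ω j} := by
  have e : {ω : Fin (m + 1) × ℤ → Bool | Spiral k ω j} = {ω | Arms k ω} ∩
      ⋂ i : Fin (k + 1), ⋃ d : Fin (2 * k),
        {ω | Relation.EqvGen (CutW k ω) (lift m k (j + (i : ℕ))) (goal m k d)} := by
    ext ω
    unfold Spiral
    simp only [Set.mem_inter_iff, Set.mem_iInter, Set.mem_iUnion, Set.mem_ofPred_eq]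
    refine and_congr_right fun _ => ?_
    constructor
    · intro h i
      obtain ⟨d, hd, h1⟩ := h i (by omega)
      exact ⟨⟨d, hd⟩, h1⟩
    · intro h i hi
      obtain ⟨d, h1⟩ := h ⟨i, by omega⟩
      exact ⟨d, d.2, h1⟩
  rw [e]
  exact (measurableSet_arms k).inter (MeasurableSet.iInter fun i => MeasurableSet.iUnion fun d =>
    measurableSet_conn _ _ _)

end Pool.Agent.Helper21.AW
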