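import Mathlib

/-!
# Large deviations from exponential moments: the statement
-/

set_option autoImplicit false

namespace Pool.Agent.Helper21.AW

open Filter Topology

/-- exponential moments of the order `N ^ (-x + γ t²)` for all real `t` imply the large deviation
estimates on the scale `log N`, with the rate `x + y²/(4γ)`, uniformly in the index `i` -/
def W_LDP : Prop := ∀ (m x γ : ℝ), 0 < γ → ∀ (ι : Type) (S : ι → Finset ℤ) (P : ι → ℤ → ℝ)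
  (N : ι → ℝ), (∀ i, 2 ≤ N i) → (∀ i j, 0 ≤ P i j) →
  (∀ t : ℝ, ∃ c C : ℝ, 0 < c ∧ 0 < C ∧ ∀ i,
    c * N i ^ (-x + γ * t ^ 2) ≤ ∑ j ∈ S i, P i j * Real.exp (t * (j - m)) ∧
    ∑ j ∈ S i, P i j * Real.exp (t * (j - m)) ≤ C * N i ^ (-x + γ * t ^ 2)) →
  ∀ a b δ : ℝ, a < b → 0 < δ → ∃ N0 : ℝ, ∀ i, N0 ≤ N i →
    (N i ^ (-(x + (max a 0 ^ 2 + min b 0 ^ 2) / (4 * γ)) - δ) ≤
      ∑ j ∈ S i, if a * Real.log (N i) ≤ (j : ℝ) - m ∧ (j : ℝ) - m ≤ b * Real.log (N i)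
        then P i j else 0) ∧
    ∑ j ∈ S i, (if a * Real.log (N i) ≤ (j : ℝ) - m ∧ (j : ℝ) - m ≤ b * Real.log (N i)
        then P i j else 0) ≤
      N i ^ (-(x + (max a 0 ^ 2 + min b 0 ^ 2) / (4 * γ)) + δ)

end Pool.Agent.Helper21.AW
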