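import Pool.Agent.Helper21.AW.SStm

/-!
# Large deviations from exponential moments
-/

set_option autoImplicit false

namespace Pool.Agent.Helper21.AW

open Filter Topology

namespace LDPp

/-- exponential Chebyshev inequality -/
theorem tail (S : Finset ℤ) (P : ℤ → ℝ) (hP : ∀ j, 0 ≤ P j) (m N : ℝ) (hN : 0 < N) (t s y : ℝ)
    (A : ℤ → Prop) [DecidablePred A]
    (hA : ∀ j, A j → 0 ≤ s * ((j : ℝ) - m - y * Real.log N)) :
    ∑ j ∈ S, (if A j then P j * Real.exp (t * (j - m)) else 0) ≤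
      N ^ (-(s * y)) * ∑ j ∈ S, P j * Real.exp ((t + s) * (j - m)) := by
  rw [Finset.mul_sum]
  refine Finset.sum_le_sum fun j _ => ?_
  have h0 : (0 : ℝ) < N ^ (-(s * y)) := Real.rpow_pos_of_pos hN _
  split_ifs with h
  · have h1 : Real.exp (t * (j - m)) ≤ N ^ (-(s * y)) * Real.exp ((t + s) * (j - m)) := by
      rw [Real.rpow_def_of_pos hN, ← Real.exp_add]
      apply Real.exp_le_exp.2
      have := hA j h
      nlinarith
    calc P j * Real.exp (t * (j - m)) ≤ P j * (N ^ (-(s * y)) * Real.exp ((t + s) * (j - m))) :=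
          mul_le_mul_of_nonneg_left h1 (hP j)
      _ = N ^ (-(s * y)) * (P j * Real.exp ((t + s) * (j - m))) := by ring
  · have := hP j
    positivity

theorem large (C δ : ℝ) (hC : 0 < C) (hδ : 0 < δ) : ∃ N0 : ℝ, ∀ N, N0 ≤ N → C ≤ N ^ δ := by
  refine ⟨C ^ (1 / δ), fun N hN => ?_⟩
  have h0 : (0 : ℝ) < C ^ (1 / δ) := Real.rpow_pos_of_pos hC _
  calc C = (C ^ (1 / δ)) ^ δ := by
        rw [← Real.rpow_mul hC.le, one_div, inv_mul_cancel₀ hδ.ne', Real.rpow_one]
    _ ≤ N ^ δ := Real.rpow_le_rpow h0.le hN hδ.le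

end LDPp

open LDPp in
theorem t_LDP : W_LDP := by
  classical
  intro m x γ hγ ι S P N hN hP hM a b δ hab hδ
  have hN0 : ∀ i, 0 < N i := fun i => by linarith [hN i]
  have hN1 : ∀ i, 1 ≤ N i := fun i => by linarith [hN i]
  have hL : ∀ i, 0 ≤ Real.log (N i) := fun i => Real.log_nonneg (hN1 i)
  set y0 : ℝ := max a 0 + min b 0 with hy0
  have F1 : max a 0 ^ 2 + min b 0 ^ 2 = y0 ^ 2 := by
    rcases le_total a 0 with h1 | h1 <;> rcases le_total b 0 with h2 | h2
    · rw [hy0, max_eq_right h1, min_eq_left h2]; ring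
    · rw [hy0, max_eq_right h1, min_eq_right h2]; ring
    · exfalso; linarith
    · rw [hy0, max_eq_left h1, min_eq_right h2]; ring
  have F2 : a ≤ y0 ∧ y0 ≤ b := by
    rcases le_total a 0 with h1 | h1 <;> rcases le_total b 0 with h2 | h2
    · rw [hy0, max_eq_right h1, min_eq_left h2]; constructor <;> linarith
    · rw [hy0, max_eq_right h1, min_eq_right h2]; constructor <;> linarith
    · exfalso; linarith
    · rw [hy0, max_eq_left h1, min_eq_right h2]; constructor <;> linarith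
  have F3 : ∀ X L : ℝ, 0 ≤ L → a * L ≤ X → X ≤ b * L → 0 ≤ y0 * (X - y0 * L) := by
    intro X L h0 h3 h4
    rcases le_total a 0 with h1 | h1 <;> rcases le_total b 0 with h2 | h2
    · rw [hy0, max_eq_right h1, min_eq_left h2, zero_add]
      exact mul_nonneg_of_nonpos_of_nonpos h2 (by linarith)
    · rw [hy0, max_eq_right h1, min_eq_right h2]; simp
    · exfalso; linarith
    · rw [hy0, max_eq_left h1, min_eq_right h2, add_zero]
      exact mul_nonneg h1 (by linarith)
  rw [F1]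
  -- upper bound
  obtain ⟨N1, hUp⟩ : ∃ N1 : ℝ, ∀ i, N1 ≤ N i →
      ∑ j ∈ S i, (if a * Real.log (N i) ≤ (j : ℝ) - m ∧ (j : ℝ) - m ≤ b * Real.log (N i)
        then P i j else 0) ≤ N i ^ (-(x + y0 ^ 2 / (4 * γ)) + δ) := by
    obtain ⟨c, C, hc, hC, h1⟩ := hM (y0 / (2 * γ))
    obtain ⟨N1, h2⟩ := large C δ hC hδ
    refine ⟨N1, fun i hi => ?_⟩
    have h3 := tail (S i) (P i) (hP i) m (N i) (hN0 i) 0 (y0 / (2 * γ)) y0
      (fun j => a * Real.log (N i) ≤ (j : ℝ) - m ∧ (j : ℝ) - m ≤ b * Real.log (N i))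
      (fun j hj => by
        have h4 := F3 _ _ (hL i) hj.1 hj.2
        rw [div_mul_eq_mul_div]
        exact div_nonneg h4 (by positivity))
    rw [zero_add] at h3
    have h5 : ∑ j ∈ S i, (if a * Real.log (N i) ≤ (j : ℝ) - m ∧ (j : ℝ) - m ≤ b * Real.log (N i)
        then P i j else 0) = ∑ j ∈ S i, (if a * Real.log (N i) ≤ (j : ℝ) - m ∧
          (j : ℝ) - m ≤ b * Real.log (N i) then P i j * Real.exp (0 * (j - m)) else 0) := by
      refine Finset.sum_congr rfl fun j _ => ?_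
      simp
    rw [h5]
    have h6 : (0 : ℝ) < N i ^ (-(y0 / (2 * γ) * y0)) := Real.rpow_pos_of_pos (hN0 i) _
    calc _ ≤ N i ^ (-(y0 / (2 * γ) * y0)) * (C * N i ^ (-x + γ * (y0 / (2 * γ)) ^ 2)) :=
          h3.trans (mul_le_mul_of_nonneg_left (h1 i).2 h6.le)
      _ = C * N i ^ (-(x + y0 ^ 2 / (4 * γ))) := by
          rw [mul_left_comm, ← Real.rpow_add (hN0 i)]
          congr 2
          field_simp
          ring
      _ ≤ N i ^ δ * N i ^ (-(x + y0 ^ 2 / (4 * γ))) :=
          mul_le_mul_of_nonneg_right (h2 _ hi) (Real.rpow_pos_of_pos (hN0 i) _).le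
      _ = N i ^ (-(x + y0 ^ 2 / (4 * γ)) + δ) := by
          rw [← Real.rpow_add (hN0 i), add_comm]
  -- a point inside
  obtain ⟨y, hy1, hy2, hy3⟩ : ∃ y : ℝ, a < y ∧ y < b ∧ y ^ 2 / (4 * γ) ≤ y0 ^ 2 / (4 * γ) + δ / 4 := by
    have h1 : Continuous fun η : ℝ => (y0 + η * ((a + b) / 2 - y0)) ^ 2 / (4 * γ) := by fun_prop
    have h2 : ∀ᶠ η in 𝓝[>] (0 : ℝ), (y0 + η * ((a + b) / 2 - y0)) ^ 2 / (4 * γ) <
        y0 ^ 2 / (4 * γ) + δ / 4 := by
      have h3 := (h1.tendsto 0).mono_left (nhdsWithin_le_nhds (s := Set.Ioi 0))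
      refine h3.eventually_lt_const ?_
      simp only [zero_mul, add_zero]
      linarith
    have h4 : ∀ᶠ η in 𝓝[>] (0 : ℝ), η < 1 :=
      nhdsWithin_le_nhds (Iio_mem_nhds one_pos)
    have h5 : ∀ᶠ η in 𝓝[>] (0 : ℝ), 0 < η := self_mem_nhdsWithin
    obtain ⟨η, h6, h7, h8⟩ := (h2.and (h4.and h5)).exists
    refine ⟨_, ?_, ?_, h6.le⟩
    · nlinarith [F2.1, F2.2]
    · nlinarith [F2.1, F2.2]
  set t : ℝ := y / (2 * γ) with ht
  set r : ℝ := min (min (y - a) (b - y)) (δ / (4 * (|t| + 1))) with hr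
  have hr0 : 0 < r := by
    rw [hr]
    refine lt_min (lt_min (by linarith) (by linarith)) (by positivity)
  have hr1 : r ≤ y - a := (min_le_left _ _).trans (min_le_left _ _)
  have hr2 : r ≤ b - y := (min_le_left _ _).trans (min_le_right _ _)
  have hr3 : |t| * r ≤ δ / 4 := by
    have h1 : r ≤ δ / (4 * (|t| + 1)) := min_le_right _ _
    have h2 : 0 ≤ |t| := abs_nonneg t
    calc |t| * r ≤ (|t| + 1) * (δ / (4 * (|t| + 1))) :=
          mul_le_mul (by linarith) h1 hr0.le (by linarith)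
      _ = δ / 4 := by field_simp
  set s : ℝ := r / (2 * γ) with hs
  have hs0 : 0 < s := by positivity
  set ρ : ℝ := r ^ 2 / (4 * γ) with hρ
  have hρ0 : 0 < ρ := by positivity
  obtain ⟨c, C, hc, hC, h1⟩ := hM t
  obtain ⟨c1, C1, hc1, hC1, h2⟩ := hM (t + s)
  obtain ⟨c2, C2, hc2, hC2, h3⟩ := hM (t + -s)
  obtain ⟨N2, h4⟩ := large (2 * (C1 + C2) / c) ρ (by positivity) hρ0
  obtain ⟨N3, h5⟩ := large (2 / c) (δ / 2) (by positivity) (by positivity)
  refine ⟨max N1 (max N2 N3), fun i hi => ⟨?_, hUp i ((le_max_left _ _).trans hi)⟩⟩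
  have hi2 : N2 ≤ N i := (le_max_left _ _).trans ((le_max_right _ _).trans hi)
  have hi3 : N3 ≤ N i := (le_max_right _ _).trans ((le_max_right _ _).trans hi)
  set L := Real.log (N i) with hLdef
  set g : ℝ := -x + γ * t ^ 2 with hg
  have hNg : 0 < N i ^ g := Real.rpow_pos_of_pos (hN0 i) _
  -- the two tails
  have hR := tail (S i) (P i) (hP i) m (N i) (hN0 i) t s (y + r)
    (fun j => (y + r) * L < (j : ℝ) - m) (fun j hj => mul_nonneg hs0.le (by
      have : (y + r) * L < (j : ℝ) - m := hj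
      rw [← hLdef]
      linarith))
  have hLf := tail (S i) (P i) (hP i) m (N i) (hN0 i) t (-s) (y - r)
    (fun j => (j : ℝ) - m < (y - r) * L) (fun j hj => by
      have : (j : ℝ) - m < (y - r) * L := hj
      rw [← hLdef]
      exact mul_nonneg_of_nonpos_of_nonpos (by linarith) (by linarith))
  have hR2 : ∑ j ∈ S i, (if (y + r) * L < (j : ℝ) - m then P i j * Real.exp (t * (j - m)) else 0) ≤
      C1 * (N i ^ g * N i ^ (-ρ)) := by
    have h6 : (0 : ℝ) < N i ^ (-(s * (y + r))) := Real.rpow_pos_of_pos (hN0 i) _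
    calc _ ≤ N i ^ (-(s * (y + r))) * (C1 * N i ^ (-x + γ * (t + s) ^ 2)) :=
          hR.trans (mul_le_mul_of_nonneg_left (h2 i).2 h6.le)
      _ = C1 * (N i ^ g * N i ^ (-ρ)) := by
          rw [mul_left_comm, ← Real.rpow_add (hN0 i), ← Real.rpow_add (hN0 i)]
          congr 2
          rw [hg, hρ, hs, ht]
          field_simp
          ring
  have hL2 : ∑ j ∈ S i, (if (j : ℝ) - m < (y - r) * L then P i j * Real.exp (t * (j - m)) else 0) ≤
      C2 * (N i ^ g * N i ^ (-ρ)) := by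
    have h6 : (0 : ℝ) < N i ^ (-(-s * (y - r))) := Real.rpow_pos_of_pos (hN0 i) _
    calc _ ≤ N i ^ (-(-s * (y - r))) * (C2 * N i ^ (-x + γ * (t + -s) ^ 2)) :=
          hLf.trans (mul_le_mul_of_nonneg_left (h3 i).2 h6.le)
      _ = C2 * (N i ^ g * N i ^ (-ρ)) := by
          rw [mul_left_comm, ← Real.rpow_add (hN0 i), ← Real.rpow_add (hN0 i)]
          congr 2
          rw [hg, hρ, hs, ht]
          field_simp
          ring
  have hNρ : N i ^ (-ρ) ≤ c / (2 * (C1 + C2)) := by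
    rw [Real.rpow_neg (hN0 i).le]
    have h7 := h4 _ hi2
    have h8 : (0 : ℝ) < 2 * (C1 + C2) / c := by positivity
    calc (N i ^ ρ)⁻¹ ≤ (2 * (C1 + C2) / c)⁻¹ := inv_anti₀ h8 h7
      _ = c / (2 * (C1 + C2)) := inv_div _ _
  -- the window
  have hW : c / 2 * N i ^ g ≤ ∑ j ∈ S i, (if (y - r) * L ≤ (j : ℝ) - m ∧ (j : ℝ) - m ≤ (y + r) * L
      then P i j * Real.exp (t * (j - m)) else 0) := by
    have h6 : ∑ j ∈ S i, P i j * Real.exp (t * (j - m)) =
        ∑ j ∈ S i, (if (y - r) * L ≤ (j : ℝ) - m ∧ (j : ℝ) - m ≤ (y + r) * L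
          then P i j * Real.exp (t * (j - m)) else 0) +
        (∑ j ∈ S i, (if (y + r) * L < (j : ℝ) - m then P i j * Real.exp (t * (j - m)) else 0) +
        ∑ j ∈ S i, (if (j : ℝ) - m < (y - r) * L then P i j * Real.exp (t * (j - m)) else 0)) := by
      rw [← Finset.sum_add_distrib, ← Finset.sum_add_distrib]
      refine Finset.sum_congr rfl fun j _ => ?_
      have h9 : (y - r) * L ≤ (y + r) * L := by
        have := hL i
        rw [← hLdef] at this
        nlinarith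
      by_cases h7 : (y + r) * L < (j : ℝ) - m
      · rw [if_neg (fun h => absurd h.2 (not_le.2 h7)), if_pos h7,
          if_neg (not_lt.2 (h9.trans h7.le))]
        ring
      · by_cases h8 : (j : ℝ) - m < (y - r) * L
        · rw [if_neg (fun h => absurd h.1 (not_le.2 h8)), if_neg h7, if_pos h8]
          ring
        · rw [if_pos ⟨not_lt.1 h8, not_lt.1 h7⟩, if_neg h7, if_neg h8]
          ring
    have h7 := (h1 i).1
    rw [h6] at h7
    have h8 : C1 * (N i ^ g * N i ^ (-ρ)) + C2 * (N i ^ g * N i ^ (-ρ)) ≤ c / 2 * N i ^ g := by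
      calc C1 * (N i ^ g * N i ^ (-ρ)) + C2 * (N i ^ g * N i ^ (-ρ)) =
            (C1 + C2) * N i ^ g * N i ^ (-ρ) := by ring
        _ ≤ (C1 + C2) * N i ^ g * (c / (2 * (C1 + C2))) :=
            mul_le_mul_of_nonneg_left hNρ (by positivity)
        _ = c / 2 * N i ^ g := by field_simp
    linarith
  -- remove the weight
  have hX : ∑ j ∈ S i, (if (y - r) * L ≤ (j : ℝ) - m ∧ (j : ℝ) - m ≤ (y + r) * L
      then P i j * Real.exp (t * (j - m)) else 0) ≤ N i ^ (t * y + |t| * r) *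
      ∑ j ∈ S i, (if a * L ≤ (j : ℝ) - m ∧ (j : ℝ) - m ≤ b * L then P i j else 0) := by
    rw [Finset.mul_sum]
    refine Finset.sum_le_sum fun j _ => ?_
    have hpos : (0 : ℝ) < N i ^ (t * y + |t| * r) := Real.rpow_pos_of_pos (hN0 i) _
    have hLi : 0 ≤ L := hL i
    by_cases h : (y - r) * L ≤ (j : ℝ) - m ∧ (j : ℝ) - m ≤ (y + r) * L
    · have ha' : a * L ≤ (j : ℝ) - m :=
        (mul_le_mul_of_nonneg_right (show a ≤ y - r by linarith) hLi).trans h.1
      have hb' : (j : ℝ) - m ≤ b * L :=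
        h.2.trans (mul_le_mul_of_nonneg_right (show y + r ≤ b by linarith) hLi)
      rw [if_pos h, if_pos ⟨ha', hb'⟩, mul_comm]
      refine mul_le_mul_of_nonneg_right ?_ (hP i j)
      rw [Real.rpow_def_of_pos (hN0 i)]
      apply Real.exp_le_exp.2
      rw [← hLdef]
      have h10 : t * ((j : ℝ) - m - y * L) ≤ |t| * (r * L) := by
        calc t * ((j : ℝ) - m - y * L) ≤ |t * ((j : ℝ) - m - y * L)| := le_abs_self _
          _ = |t| * |(j : ℝ) - m - y * L| := abs_mul _ _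
          _ ≤ |t| * (r * L) := by
              refine mul_le_mul_of_nonneg_left ?_ (abs_nonneg t)
              have h13 : (y - r) * L = y * L - r * L := by ring
              have h14 : (y + r) * L = y * L + r * L := by ring
              rw [abs_le]
              constructor <;> linarith [h.1, h.2]
      have h15 : L * (t * y + |t| * r) = t * (y * L) + |t| * (r * L) := by ring
      have h16 : t * ((j : ℝ) - m - y * L) = t * ((j : ℝ) - m) - t * (y * L) := by ring
      linarith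
    · rw [if_neg h]
      have := hP i j
      split_ifs <;> positivity
  have hfin := hW.trans hX
  have hpos : (0 : ℝ) < N i ^ (-(t * y + |t| * r)) := Real.rpow_pos_of_pos (hN0 i) _
  have h11 := mul_le_mul_of_nonneg_left hfin hpos.le
  have h17 : ∀ z : ℝ, N i ^ (-(t * y + |t| * r)) * (N i ^ (t * y + |t| * r) * z) = z := by
    intro z
    rw [← mul_assoc, ← Real.rpow_add (hN0 i), neg_add_cancel, Real.rpow_zero, one_mul]
  rw [h17] at h11
  refine le_trans ?_ h11
  have h12 : N i ^ (-(δ / 2)) ≤ c / 2 := by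
    rw [Real.rpow_neg (hN0 i).le]
    have h7 := h5 _ hi3
    have h8 : (0 : ℝ) < 2 / c := by positivity
    calc (N i ^ (δ / 2))⁻¹ ≤ (2 / c)⁻¹ := inv_anti₀ h8 h7
      _ = c / 2 := inv_div _ _
  calc N i ^ (-(x + y0 ^ 2 / (4 * γ)) - δ) ≤
        N i ^ (-(t * y + |t| * r) + -(δ / 2) + g) := by
        refine Real.rpow_le_rpow_of_exponent_le (hN1 i) ?_
        have e : t * y - γ * t ^ 2 = y ^ 2 / (4 * γ) := by
          rw [ht]; field_simp; ring
        rw [hg]
        linarith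
    _ = N i ^ (-(t * y + |t| * r)) * (N i ^ (-(δ / 2)) * N i ^ g) := by
        rw [Real.rpow_add (hN0 i), Real.rpow_add (hN0 i), mul_assoc]
    _ ≤ N i ^ (-(t * y + |t| * r)) * (c / 2 * N i ^ g) :=
        mul_le_mul_of_nonneg_left (mul_le_mul_of_nonneg_right h12 hNg.le) hpos.le

end Pool.Agent.Helper21.AW
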