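import Pool.Agent.Helper21.AW.CStm

/-!
# Linear statistics for complex weights
-/

set_option autoImplicit false

namespace Pool.Agent.Helper21.AW

open Finset MeasureTheory Filter Topology
open Pool.Agent.H160R2.OA Pool.Agent.H160R2.SA
open Pool.Agent.H160R2.ML

namespace LPhi

/-- the lower bound of `2 cosh x + a` for `a > -2` -/
theorem lower {a δ : ℝ} (h1 : δ ≤ 1) (h2 : δ ≤ 1 + a / 2) (x : ℝ) :
    δ * (2 * Real.cosh x) ≤ 2 * Real.cosh x + a := by
  have h := Real.one_le_cosh x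
  nlinarith

theorem pos {a : ℝ} (ha : -2 < a) (x : ℝ) : 0 < 2 * Real.cosh x + a := by
  have h := Real.one_le_cosh x
  linarith

theorem exp_le (x : ℝ) : Real.exp x ≤ 2 * Real.cosh x := by
  have h1 : 2 * Real.cosh x = Real.exp x + Real.exp (-x) := by rw [Real.cosh_eq]; ring
  have h4 := Real.exp_pos (-x)
  linarith

theorem sinh_le (x : ℝ) : Real.sinh x ≤ Real.cosh x := by
  have h1 : 2 * Real.cosh x = Real.exp x + Real.exp (-x) := by rw [Real.cosh_eq]; ring
  have h2 : 2 * Real.sinh x = Real.exp x - Real.exp (-x) := by rw [Real.sinh_eq]; ring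
  have h4 := Real.exp_pos (-x)
  linarith

theorem cont {a : ℝ} (ha : -2 < a) : Continuous (ww a 2) := by
  unfold ww
  refine Continuous.div ?_ ?_ ?_
  · exact ((continuous_const.mul Real.continuous_sinh).mul continuous_const)
  · exact ((continuous_const.mul Real.continuous_cosh).add continuous_const).mul
      ((continuous_const.mul Real.continuous_cosh).add continuous_const)
  · intro x
    exact (mul_pos (pos ha x) (pos (by norm_num) x)).ne'

theorem nonneg {a : ℝ} (ha : -2 < a) (hab : a ≤ 2) {x : ℝ} (hx : 0 ≤ x) : 0 ≤ ww a 2 x := by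
  have h1 := Real.sinh_nonneg_iff.2 hx
  have h2 := pos ha x
  have h3 := pos (show (-2 : ℝ) < 2 by norm_num) x
  unfold ww
  have : 0 ≤ 2 - a := by linarith
  positivity

theorem le {a δ : ℝ} (ha : -2 < a) (hab : a ≤ 2) (h0 : 0 < δ) (h1 : δ ≤ 1) (h2 : δ ≤ 1 + a / 2)
    {x : ℝ} : ww a 2 x ≤ (2 - a) / δ * Real.exp (-x) := by
  have k1 := lower h1 h2 x
  have k2 := exp_le x
  have k3 := sinh_le x
  have k4 := pos ha x
  have k5 := pos (show (-2 : ℝ) < 2 by norm_num) x
  have k6 : 0 ≤ 2 - a := by linarith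
  have k7 : Real.exp x * Real.exp (-x) = 1 := by rw [← Real.exp_add]; simp
  have k8 := Real.exp_pos (-x)
  have k9 := Real.one_le_cosh x
  unfold ww
  rw [div_le_iff₀ (mul_pos k4 k5)]
  have m1 : 1 ≤ Real.exp (-x) * (2 * Real.cosh x + 2) := by
    have := mul_le_mul_of_nonneg_left k2 k8.le
    nlinarith
  have m2 : 2 * Real.cosh x ≤ (2 * Real.cosh x + a) / δ := by
    rw [le_div_iff₀ h0]
    linarith
  calc 2 * Real.sinh x * (2 - a) ≤ 2 * Real.cosh x * (2 - a) := by
        apply mul_le_mul_of_nonneg_right _ k6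
        linarith
    _ ≤ (2 * Real.cosh x + a) / δ * (2 - a) := mul_le_mul_of_nonneg_right m2 k6
    _ = (2 * Real.cosh x + a) / δ * (2 - a) * 1 := by ring
    _ ≤ (2 * Real.cosh x + a) / δ * (2 - a) * (Real.exp (-x) * (2 * Real.cosh x + 2)) := by
        apply mul_le_mul_of_nonneg_left m1
        positivity
    _ = _ := by ring

theorem deriv {a : ℝ} (ha : -2 < a) (x : ℝ) : HasDerivAt (WW a 2) (-ww a 2 x) x := by
  have h2 := pos ha x
  have h3 := pos (show (-2 : ℝ) < 2 by norm_num) x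
  have d1 : HasDerivAt (fun x => Real.log (2 * Real.cosh x + 2))
      (2 * Real.sinh x / (2 * Real.cosh x + 2)) x :=
    (((Real.hasDerivAt_cosh x).const_mul 2).add_const 2).log h3.ne'
  have d2 : HasDerivAt (fun x => Real.log (2 * Real.cosh x + a))
      (2 * Real.sinh x / (2 * Real.cosh x + a)) x :=
    (((Real.hasDerivAt_cosh x).const_mul 2).add_const a).log h2.ne'
  have d := d1.sub d2
  refine d.congr_deriv ?_
  unfold ww
  have h2' := h2.ne'
  have h3' := h3.ne'
  rw [div_sub_div _ _ h3' h2', ← neg_div, mul_comm (2 * Real.cosh x + 2) (2 * Real.cosh x + a)]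
  congr 1
  ring

theorem lim {a δ : ℝ} (ha : -2 < a) (hab : a ≤ 2) (h0 : 0 < δ) (h1 : δ ≤ 1)
    (h2 : δ ≤ 1 + a / 2) : Filter.Tendsto (WW a 2) Filter.atTop (nhds 0) := by
  have q1 : Filter.Tendsto (fun x : ℝ => (2 - a) / δ * Real.exp (-x)) Filter.atTop (nhds 0) := by
    have := (Real.tendsto_exp_neg_atTop_nhds_zero).const_mul ((2 - a) / δ)
    simpa using this
  refine squeeze_zero' ?_ ?_ q1
  · filter_upwards with x
    unfold WW
    rw [sub_nonneg]
    exact Real.log_le_log (pos ha x) (by linarith)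
  · filter_upwards with x
    have k1 := lower h1 h2 x
    have k2 := exp_le x
    have k4 := pos ha x
    have k5 := pos (show (-2 : ℝ) < 2 by norm_num) x
    have k6 : 0 ≤ 2 - a := by linarith
    have k7 : Real.exp x * Real.exp (-x) = 1 := by rw [← Real.exp_add]; simp
    have k8 := Real.exp_pos (-x)
    unfold WW
    rw [← Real.log_div k5.ne' k4.ne']
    refine (Real.log_le_sub_one_of_pos (by positivity)).trans ?_
    rw [div_sub_one k4.ne', div_le_iff₀ k4]
    have m1 : 1 ≤ Real.exp (-x) * ((2 * Real.cosh x + a) / δ) := by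
      have m2 : 2 * Real.cosh x ≤ (2 * Real.cosh x + a) / δ := by
        rw [le_div_iff₀ h0]
        linarith
      have := mul_le_mul_of_nonneg_left (k2.trans m2) k8.le
      nlinarith
    calc 2 * Real.cosh x + 2 - (2 * Real.cosh x + a) = (2 - a) * 1 := by ring
      _ ≤ (2 - a) * (Real.exp (-x) * ((2 * Real.cosh x + a) / δ)) :=
        mul_le_mul_of_nonneg_left m1 k6
      _ = _ := by ring

theorem compare {a δ : ℝ} (ha : -2 < a) (hab : a ≤ 2) (h0 : 0 < δ) (h1 : δ ≤ 1)
    (h2 : δ ≤ 1 + a / 2) {x : ℝ} (hx : 0 ≤ x) : ww a 2 x ≤ (2 - a) / δ * ww (-1) 2 x := by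
  have k1 := lower h1 h2 x
  have hs := Real.sinh_nonneg_iff.2 hx
  have hc := Real.one_le_cosh x
  have k4 := pos ha x
  have k5 := pos (show (-2 : ℝ) < 2 by norm_num) x
  have k6 : 0 ≤ 2 - a := by linarith
  have k9 := pos (show (-2 : ℝ) < -1 by norm_num) x
  unfold ww
  rw [← mul_div_assoc, div_le_div_iff₀ (mul_pos k4 k5) (mul_pos k9 k5)]
  have m2 : 2 * Real.cosh x + -1 ≤ (2 * Real.cosh x + a) / δ := by
    rw [le_div_iff₀ h0]
    nlinarith
  have q2 : 0 ≤ 2 * Real.sinh x * (2 - a) * (2 * Real.cosh x + 2) := by positivity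
  have q3 : 0 ≤ (2 * Real.cosh x + a) / δ := by positivity
  calc 2 * Real.sinh x * (2 - a) * ((2 * Real.cosh x + -1) * (2 * Real.cosh x + 2))
      = 2 * Real.sinh x * (2 - a) * (2 * Real.cosh x + 2) * (2 * Real.cosh x + -1) := by ring
    _ ≤ 2 * Real.sinh x * (2 - a) * (2 * Real.cosh x + 2) * ((2 * Real.cosh x + a) / δ) :=
      mul_le_mul_of_nonneg_left m2 q2
    _ ≤ 2 * Real.sinh x * (2 - a) * (2 * Real.cosh x + 2) * ((2 * Real.cosh x + a) / δ) * 3 := by
      have := mul_nonneg q2 q3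
      linarith
    _ = _ := by ring

theorem integral {φ : ℝ} (h0 : 0 ≤ φ) (h1 : φ < Real.pi) (ha : -2 < 2 * Real.cos φ) :
    Integrable (WW (2 * Real.cos φ) 2) ∧ ∫ x, WW (2 * Real.cos φ) 2 x = φ ^ 2 := by
  obtain ⟨i1, v1⟩ := integral_log φ h0 h1
  obtain ⟨i2, v2⟩ := integral_log 0 le_rfl Real.pi_pos
  have e : WW (2 * Real.cos φ) 2 = fun x =>
      Real.log ((2 * Real.cosh x + 1) / (2 * Real.cosh x + 2 * Real.cos φ)) -
        Real.log ((2 * Real.cosh x + 1) / (2 * Real.cosh x + 2 * Real.cos 0)) := by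
    funext x
    have k4 := pos ha x
    have k5 := pos (show (-2 : ℝ) < 2 by norm_num) x
    have k6 := pos (show (-2 : ℝ) < 1 by norm_num) x
    unfold WW
    rw [Real.cos_zero, mul_one, Real.log_div k6.ne' k4.ne', Real.log_div k6.ne' k5.ne']
    ring
  rw [e]
  refine ⟨i1.sub i2, ?_⟩
  rw [integral_sub i1 i2, v1, v2]
  ring

end LPhi

theorem t_LPHI : W_LPHI := by
  intro k φ h0 h1
  have hcos : -1 < Real.cos φ := by
    have := Real.cos_lt_cos_of_nonneg_of_le_pi h0 le_rfl h1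
    rwa [Real.cos_pi] at this
  have hcos1 := Real.cos_le_one φ
  set a : ℝ := 2 * Real.cos φ with hadef
  have ha : -2 < a := by linarith
  have hab : a ≤ 2 := by linarith
  set δ : ℝ := min 1 (1 + a / 2) with hδ
  have d0 : 0 < δ := lt_min one_pos (by linarith)
  have d1 : δ ≤ 1 := min_le_left _ _
  have d2 : δ ≤ 1 + a / 2 := min_le_right _ _
  obtain ⟨hi, hv⟩ := LPhi.integral h0 h1 ha
  obtain ⟨C, hC⟩ := Pool.Agent.Helper31.AW.sum_k (WW a 2) (ww a 2) ((2 - a) / δ) ((2 - a) / δ)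
    (LPhi.cont ha) (fun x hx => LPhi.nonneg ha hab hx)
    (fun x _ => LPhi.le ha hab d0 d1 d2) (fun x => LPhi.deriv ha x) (X_even _ _)
    (LPhi.lim ha hab d0 d1 d2) hi (div_nonneg (by linarith) d0.le)
    (fun x hx => LPhi.compare ha hab d0 d1 d2 hx) k
  rw [hv] at hC
  refine ⟨C, fun n u hn hu => ?_⟩
  have h := hC n u hn hu
  have e2 : ∀ i, Real.log ((2 * Real.cosh (u i) + 2) / (2 * Real.cosh (u i) + a)) =
      WW a 2 (u i) := by
    intro i
    unfold WW
    rw [Real.log_div (LPhi.pos (by norm_num) _).ne' (LPhi.pos ha _).ne']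
  simp only [e2]
  exact h

end Pool.Agent.Helper21.AW
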