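import Pool.Agent.Helper21.AW.Stm

/-!
# Package PB: the law of the index for the stationary measure
-/

set_option autoImplicit false

namespace Pool.Agent.Helper21.AW

open Pool.Agent.H863R2.Cyl Pool.Agent.H160R2.ML Pool.Agent.Helper21.EV
open Pool.Agent.H988R2.Perc (Word PD)

namespace TPBW

open Classical in
/-- the weight `1` gives the indicator of good legs -/
lemma eW_one (hU : W_uniq) {k p r : ℕ} (w' w : Word) (hk : 1 ≤ k) (hpr : p + r = 2 * k)
    (hw' : Ok w') (hw : Ok w) (hev : Even w.length) (hl : w'.length + p = w.length + r)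
    (hp : p ≤ w.length) : eW 1 p r w' w = if Good p r w' w then 1 else 0 := by
  unfold eW
  by_cases h : ∃ j, JJ p r w' w j
  · rw [dif_pos h, one_zpow, if_pos]
    obtain ⟨j, hj⟩ := h
    exact hj.1
  · rw [dif_neg h, if_neg]
    intro hG
    exact h ((hU k p r w' w hk hpr hw' hw hev hl hp).2 hG)

/-- the value at the weight `1` -/
lemma Dl_one (N l : ℕ) : Pool.Agent.H160R2.ML.Dl N l 1 = (RR N l 0 : ℂ) ∧ 0 < RR N l 0 := by
  obtain ⟨h1, h2⟩ := a_PH N l 0 le_rfl Real.pi_pos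
  refine ⟨?_, h1⟩
  simpa using h2

end TPBW

theorem t_PB' : W_HV → W_LS → W_uniq → W_PB := by
  intro hHV hLS hU n k hk hkn μ hμ0 hμ hst c hc
  classical
  obtain ⟨q, hq⟩ : ∃ q : ℂ, q ^ 2 + q + 1 = 0 := ⟨_, Pool.Agent.H988R2.Perc.q_spec⟩
  have hq2 : (q ^ 2) ^ 2 + q ^ 2 + 1 = 0 := by
    calc (q ^ 2) ^ 2 + q ^ 2 + 1 = (q ^ 2 + q + 1) * (q ^ 2 - q + 1) := by ring
      _ = 0 := by rw [hq, zero_mul]
  obtain ⟨Ψ, hΨ⟩ := exists_Fam q hq
  obtain ⟨Ψ', hΨ'⟩ := exists_Fam (q ^ 2) hq2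
  set one := List.replicate (2 * n + 1 + 1) (1 : ℂ) with hone
  set T := tot (Ψ one) with hT
  set T' := tot (Ψ' one) with hT'
  have hT0 : T ≠ 0 := hΨ.tot_ne (2 * n + 1 + 1)
  have hT0' : T' ≠ 0 := hΨ'.tot_ne (2 * n + 1 + 1)
  have hmem : Ψ one ∈ VN (2 * n + 1 + 1) := by
    have := hΨ.mem one
    rwa [hone, List.length_replicate] at this
  have hmem' : Ψ' one ∈ VN (2 * n + 1 + 1) := by
    have := hΨ'.mem one
    rwa [hone, List.length_replicate] at this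
  have e1 := ValueAux.eq_mu hΨ (2 * n + 1) μ hμ hst
  have e2 := ValueAux.eq_mu hΨ' (2 * n + 1) μ hμ hst
  have hDat : DatW q k eW Ψ Ψ' := ⟨hq, hk, hLS k hk, hΨ, hΨ'⟩
  obtain ⟨κ, hκ, hv⟩ := hHV q k eW Ψ Ψ' hDat (n + 1) (by omega) (by omega)
  have hrep : List.replicate k (1 : ℂ) ++ List.replicate (2 * (n + 1) - k) 1 = one := by
    rw [← List.replicate_add, hone]
    congr 1
    omega
  have hN : 2 * (n + 1) - k = 2 * n + 2 - k := by omega
  -- the value with legs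
  have v : ∀ c : ℂ, c ≠ 0 → T' * T * (∑ σ, ∑ τ, (μ σ : ℂ) * μ τ * eW c k k τ.1 σ.1) =
      κ * (c ^ (n + 1) * Pool.Agent.H160R2.ML.Dl (2 * n + 2 - k) (2 * k) c⁻¹) := by
    intro c hc
    have v0 := hv c hc
    unfold Pool.Agent.H160R2.ML.GG at v0
    rw [hrep, List.length_replicate, Pool.Agent.H160R2.ML.TPB.prE_eq (eW c) k k hmem' hmem, hN] at v0
    rw [← v0, Finset.sum_comm, Finset.mul_sum]
    apply Finset.sum_congr rfl
    intro τ _
    rw [Finset.mul_sum]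
    apply Finset.sum_congr rfl
    intro σ _
    rw [e1 σ, e2 τ]
    ring
  -- the weight `1`
  have h1 := v 1 one_ne_zero
  have h2 := Pool.Agent.H160R2.ML.TPB.main a_LS a_HV (n := n + 1) (k := k) (m := 2 * n + 1) (by omega) hk (by omega)
    (by omega) μ hμ0 hμ hst
  rw [hN, show 2 * (n + 1) = 2 * n + 2 by ring] at h2
  have h3 : (∑ σ : Wd (2 * n + 1 + 1), ∑ τ : Wd (2 * n + 1 + 1),
      (μ σ : ℂ) * μ τ * eW 1 k k τ.1 σ.1) =
      ((∑ σ : Wd (2 * n + 1 + 1), ∑ τ : Wd (2 * n + 1 + 1),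
        (if Good k k τ.1 σ.1 then 1 else 0) * μ σ * μ τ : ℝ) : ℂ) := by
    push_cast
    apply Finset.sum_congr rfl
    intro σ _
    apply Finset.sum_congr rfl
    intro τ _
    rw [TPBW.eW_one hU (k := k) τ.1 σ.1 hk (by ring) τ.2.2 σ.2.2
      (by rw [σ.2.1]; exact ⟨n + 1, by ring⟩) (by rw [σ.2.1, τ.2.1]) (by rw [σ.2.1]; omega)]
    by_cases hG : Good k k τ.1 σ.1
    · rw [if_pos hG, if_pos hG]
      push_cast
      ring
    · rw [if_neg hG, if_neg hG]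
      push_cast
      ring
  obtain ⟨d1, d2⟩ := TPBW.Dl_one (2 * n + 2 - k) (2 * k)
  rw [h3, one_pow, one_mul, inv_one, d1] at h1
  have h4 : T' * T = κ * (RR (2 * n + 2) 0 (Real.pi / 3) : ℂ) := by
    have d3 : (RR (2 * n + 2 - k) (2 * k) 0 : ℂ) ≠ 0 := by exact_mod_cast d2.ne'
    apply mul_right_cancel₀ d3
    have h5 := congrArg (fun x : ℝ => (x : ℂ)) h2
    simp only [Complex.ofReal_mul] at h5
    linear_combination (RR (2 * n + 2) 0 (Real.pi / 3) : ℂ) * h1 - T' * T * h5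
  have h6 := v c hc
  rw [h4] at h6
  apply mul_left_cancel₀ hκ
  linear_combination h6

end Pool.Agent.Helper21.AW

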