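import Pool.Agent.Helper21.AW.Stm2
import Pool.Graph.R_seed8.H160R2.ML.T_TB

/-! Task TB of AW: the exact formula for arbitrary legs (after `ML/T_TB`). -/

set_option autoImplicit false

namespace Pool.Agent.Helper21.AW

open Pool.Agent.H863R2.Cyl Pool.Agent.H160R2.ML Pool.Agent.Helper21.EV
open Pool.Agent.H988R2.Perc (Word PD)

theorem t_TB2 (hTA : W_TA2) (_ : W_deg) : W_TB2 := by
  intro q k e Ψ Ψ' D p r N hpr hev
  obtain ⟨κ, hκ, hmain⟩ := hTA q k e Ψ Ψ' D p r N hpr hev
  refine ⟨κ, hκ, ?_⟩
  intro c hc A B z hA hB hz
  subst hA hB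
  -- the moving legs
  let a : ℂ → Fin A.length → ℂ := fun t i => A.get i + t * ((i : ℕ) + 1 : ℂ)
  let b : ℂ → Fin B.length → ℂ := fun t i => B.get i + t * ((A.length + i : ℕ) + 1 : ℂ)
  have ha : ∀ i, Continuous fun t => a t i := fun i =>
    continuous_const.add (continuous_id.mul continuous_const)
  have hb : ∀ i, Continuous fun t => b t i := fun i =>
    continuous_const.add (continuous_id.mul continuous_const)
  have ha0 : List.ofFn (a 0) = A := by
    have : a 0 = A.get := by
      funext i
      simp [a]
    rw [this, List.ofFn_get]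
  have hb0 : List.ofFn (b 0) = B := by
    have : b 0 = B.get := by
      funext i
      simp [b]
    rw [this, List.ofFn_get]
  -- the difference of the two sides
  let f : ℂ → ℂ := fun t =>
    GG (e c) Ψ' Ψ (List.ofFn (a t)) (List.ofFn (b t)) (List.ofFn z) * vd z -
      c ^ ((A.length + N) / 2) * (c⁻¹) ^ N * (κ * pfq q (List.ofFn (a t)) * pfq (q ^ 2) (List.ofFn (b t)) *
        (wd q z * (∏ i, z i) * T q (q ^ (2 * k) * c) (List.ofFn (a t) ++ List.ofFn (b t)) z))
  have hf : Continuous f := by
    have c1 := TB.GG_cont D.h D.h' (e c) _ _ N a b ha hb z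
    have c2 := TB.pfq_cont q _ a ha
    have c3 := TB.pfq_cont (q ^ 2) _ b hb
    have c4 : Continuous fun t => T q (q ^ (2 * k) * c)
        (List.ofFn (a t) ++ List.ofFn (b t)) z := by
      unfold T
      refine Continuous.matrix_det ?_
      refine continuous_matrix fun i j => ?_
      have c5 : ∀ s u : ℂ, Continuous fun t => lg (List.ofFn (a t) ++ List.ofFn (b t)) s u := by
        intro s u
        have : (fun t => lg (List.ofFn (a t) ++ List.ofFn (b t)) s u) =
            fun t => lg (List.ofFn (a t)) s u * lg (List.ofFn (b t)) s u := by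
          funext t
          simp only [lg, List.map_append, List.prod_append]
        rw [this]
        exact (TB.lg_cont _ a ha s u).mul (TB.lg_cont _ b hb s u)
      exact ((c5 _ _).div_const _).add ((continuous_const.mul (c5 _ _)).div_const _)
    exact (c1.mul continuous_const).sub (continuous_const.mul (((continuous_const.mul c2).mul
      c3).mul (continuous_const.mul c4)))
  -- all entries
  let cc : Fin (A.length + B.length + N) → ℂ := Fin.append (Fin.append A.get B.get) z
  let dd : Fin (A.length + B.length + N) → ℂ := fun m =>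
    if (m : ℕ) < A.length + B.length then ((m : ℕ) + 1 : ℂ) else 0
  have hlist : ∀ t, List.ofFn (a t) ++ List.ofFn (b t) ++ List.ofFn z =
      List.ofFn fun m => cc m + t * dd m := by
    intro t
    have h1 : (fun m => cc m + t * dd m) = Fin.append (Fin.append (a t) (b t)) z := by
      funext m
      refine Fin.addCases (fun m => ?_) (fun m => ?_) m
      · refine Fin.addCases (fun m => ?_) (fun m => ?_) m
        · simp only [cc, dd, Fin.append_left, a]
          rw [if_pos (by simp; omega)]
          simp
        · simp only [cc, dd, Fin.append_left, Fin.append_right, b]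
          rw [if_pos (by simp)]
          simp
      · simp only [cc, dd, Fin.append_right]
        rw [if_neg (by simp)]
        simp
    rw [h1, List.ofFn_fin_append, List.ofFn_fin_append]
  have hzinj : ∀ i j : Fin N, i ≠ j → (z i) ^ 3 ≠ (z j) ^ 3 := by
    have h2 := hz.2
    rw [List.map_ofFn, List.nodup_ofFn] at h2
    intro i j hij h
    exact hij (h2 h)
  have hz0 : ∀ i : Fin N, z i ≠ 0 := fun i => hz.1 _ (by
    rw [List.mem_ofFn]
    exact ⟨i, rfl⟩)
  have hfin : {t : ℂ | ¬ Gn (List.ofFn fun m => cc m + t * dd m)}.Finite := by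
    refine TB.bad_finite _ cc dd ?_ ?_
    · intro m
      refine Fin.addCases (fun m => ?_) (fun m => ?_) m
      · intro h
        exfalso
        simp only [dd] at h
        rw [if_pos (by simp)] at h
        exact Nat.cast_add_one_ne_zero _ h
      · intro _
        simp only [cc, Fin.append_right]
        exact hz0 m
    · intro m m' hne h
      have key : ∀ m : Fin (A.length + B.length + N), (m : ℕ) < A.length + B.length →
          dd m = ((((m : ℕ) + 1 : ℕ)) : ℂ) := by
        intro m hm
        simp only [dd]
        rw [if_pos hm]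
        push_cast
        rfl
      have key2 : ∀ m : Fin (A.length + B.length + N), ¬ (m : ℕ) < A.length + B.length →
          dd m = 0 := by
        intro m hm
        simp only [dd]
        rw [if_neg hm]
      by_cases hm : (m : ℕ) < A.length + B.length
      · exfalso
        by_cases hm' : (m' : ℕ) < A.length + B.length
        · rw [key m hm, key m' hm'] at h
          have h3 : ((m : ℕ) + 1) ^ 3 = ((m' : ℕ) + 1) ^ 3 := by exact_mod_cast h
          have h4 := Nat.pow_left_injective (by norm_num : 3 ≠ 0) h3
          apply hne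
          apply Fin.ext
          omega
        · rw [key m hm, key2 m' hm'] at h
          have h3 : ((m : ℕ) + 1) ^ 3 = 0 := by
            have : ((((m : ℕ) + 1 : ℕ)) : ℂ) ^ 3 = ((0 : ℕ) : ℂ) := by
              rw [h]; norm_num
            exact_mod_cast this
          have := Nat.pow_pos (n := 3) (show 0 < (m : ℕ) + 1 by omega)
          omega
      · by_cases hm' : (m' : ℕ) < A.length + B.length
        · exfalso
          rw [key2 m hm, key m' hm'] at h
          have h3 : ((m' : ℕ) + 1) ^ 3 = 0 := by
            have : ((((m' : ℕ) + 1 : ℕ)) : ℂ) ^ 3 = ((0 : ℕ) : ℂ) := by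
              rw [← h]; norm_num
            exact_mod_cast this
          have := Nat.pow_pos (n := 3) (show 0 < (m' : ℕ) + 1 by omega)
          omega
        · refine ⟨key2 m hm, key2 m' hm', ?_⟩
          obtain ⟨i, rfl⟩ : ∃ i : Fin N, Fin.natAdd (A.length + B.length) i = m :=
            ⟨⟨m - (A.length + B.length), by omega⟩, by apply Fin.ext; simp; omega⟩
          obtain ⟨i', rfl⟩ : ∃ i : Fin N, Fin.natAdd (A.length + B.length) i = m' :=
            ⟨⟨m' - (A.length + B.length), by omega⟩, by apply Fin.ext; simp; omega⟩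
          simp only [cc, Fin.append_right]
          exact hzinj i i' (fun h => hne (by rw [h]))
  have h0 := TB.eq_zero_of_ne hf _ hfin (fun t ht => by
    have hG : Gn (List.ofFn fun m => cc m + t * dd m) := by
      by_contra hcon
      exact ht hcon
    rw [← hlist] at hG
    have h1 := hmain c hc (List.ofFn (a t)) (List.ofFn (b t)) z (by simp) (by simp) hG
    show GG (e c) Ψ' Ψ (List.ofFn (a t)) (List.ofFn (b t)) (List.ofFn z) * vd z -
      c ^ ((A.length + N) / 2) * (c⁻¹) ^ N * (κ * pfq q (List.ofFn (a t)) * pfq (q ^ 2) (List.ofFn (b t)) *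
        (wd q z * (∏ i, z i) * T q (q ^ (2 * k) * c)
          (List.ofFn (a t) ++ List.ofFn (b t)) z)) = 0
    rw [h1, sub_self]) 0
  have h1 : GG (e c) Ψ' Ψ (List.ofFn (a 0)) (List.ofFn (b 0)) (List.ofFn z) * vd z -
      c ^ ((A.length + N) / 2) * (c⁻¹) ^ N * (κ * pfq q (List.ofFn (a 0)) * pfq (q ^ 2) (List.ofFn (b 0)) *
        (wd q z * (∏ i, z i) * T q (q ^ (2 * k) * c)
          (List.ofFn (a 0) ++ List.ofFn (b 0)) z)) = 0 := h0
  rw [ha0, hb0] at h1
  exact sub_eq_zero.1 h1

end Pool.Agent.Helper21.AW


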